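import Pool.Agent.G18.Defs
import Pool.Agent.GSN.Gen

/-!
# G18: the cubic part of the surface of a net has no zero over `K`

`cub A v = det(v, A v, A² v)` is the cubic part of `Net.fibre`. If `V.fib c` is parametrised by a
cube `C` over a cubic extension, then `cub (V.mat c) (φ z) = β N(z)` and `β ≠ 0`, as soon as
`cub A_0 (1, 0, 0) ≠ 0`. So `cub (V.mat c)` has no nontrivial zero over `K`, nor over `ℂ[c]`.
-/

set_option autoImplicit false

noncomputable section

namespace Pool.Agent.C18.An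

open MvPolynomial Matrix

/-- The cubic form `det(v, A v, A² v)`. -/
def cub {R : Type} [CommRing R] (A : Matrix (Fin 3) (Fin 3) R) (v : Fin 3 → R) : R :=
  v ⬝ᵥ (A *ᵥ v) ⨯₃ (A *ᵥ (A *ᵥ v))

theorem cub_map {R R' : Type} [CommRing R] [CommRing R'] (f : R →+* R')
    (A : Matrix (Fin 3) (Fin 3) R) (v : Fin 3 → R) :
    f (cub A v) = cub (A.map f) fun i => f (v i) := by
  simp [cub, crossProduct, dotProduct, mulVec, Fin.sum_univ_three, -mulVec_mulVec]

theorem mat_map {R R' : Type} [CommRing R] [CommRing R'] (f : R →+* R') (V : Net R)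
    (c : Fin 2 → R) : (V.mat c).map f = (V.map f).mat fun i => f (c i) := by
  ext i j
  simp [Net.mat, Net.map]

theorem map_map {R R' R'' : Type} (f : R → R') (g : R' → R'') (V : Net R) :
    (V.map f).map g = V.map fun z => g (f z) := by
  simp only [Net.map, Matrix.map_map]
  rfl

theorem fibre_map {R R' : Type} [CommRing R] [CommRing R'] (f : R →+* R') (V : Net R)
    (c : Fin 2 → R) (v : Fin 3 → R) :
    f (V.fibre c v) = (V.map f).fibre (fun i => f (c i)) fun i => f (v i) := by
  have h1 := mat_map f V c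
  simp only [Net.fibre, ← h1]
  simp [Net.map, crossProduct, dotProduct, mulVec, Fin.sum_univ_three, -mulVec_mulVec]

/-- The values of the polynomial of the surface. -/
theorem eval_fib (V : Net ℂ) (c : Fin 2 → K) (v : Fin 3 → K) :
    eval v (V.fib c) = (V.map (algebraMap ℂ K)).fibre c v := by
  rw [Net.fib, fibre_map, map_map]
  simp

/-- The polynomial of the surface on a line through the origin. -/
theorem fibre_smul {R : Type} [CommRing R] (V : Net R) (c : Fin 2 → R) (v : Fin 3 → R)
    (t : R) :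
    V.fibre c (t • v) = t ^ 3 * cub (V.mat c) v +
      t ^ 2 * ((V.a 0 + c 0 • V.a 1 + c 1 • V.a 2) ⬝ᵥ v ⨯₃ (V.mat c *ᵥ v)) +
      t * ((V.a' 0 + c 0 • V.a' 1 + c 1 • V.a' 2) ⬝ᵥ v) - 1 := by
  simp only [Net.fibre, cub]
  generalize V.mat c = A
  generalize V.a 0 + c 0 • V.a 1 + c 1 • V.a 2 = a
  generalize V.a' 0 + c 0 • V.a' 1 + c 1 • V.a' 2 = a'
  simp only [mulVec_smul, LinearMap.map_smul, LinearMap.smul_apply, dotProduct_smul,
    smul_dotProduct, smul_eq_mul]
  ring

section

variable {K M : Type} [Field K] [Field M] [Algebra K M]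

theorem sh_smul (h3 : Module.finrank K M = 3) (t : K) (z : M) : sh K (t • z) = t ^ 2 • sh K z := by
  have : FiniteDimensional K M := FiniteDimensional.of_finrank_pos (by rw [h3]; norm_num)
  unfold sh
  rw [Algebra.smul_def, map_mul (Algebra.norm K), Algebra.norm_algebraMap, h3, Algebra.smul_def]
  by_cases ht : t = 0
  · subst ht
    simp
  have ht' : algebraMap K M t ≠ 0 := by
    rwa [Ne, map_eq_zero]
  rw [mul_inv, map_mul, map_pow, map_pow]
  field_simp

theorem aff_smul (h3 : Module.finrank K M = 3) (C : Cube K M) (t : K) (z : M) :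
    C.aff (t • z) = t ^ 3 * (C.be * Algebra.norm K z) +
      t ^ 2 * Algebra.trace K M (C.n * sh K z) + t * Algebra.trace K M (C.m * z) + C.al := by
  have : FiniteDimensional K M := FiniteDimensional.of_finrank_pos (by rw [h3]; norm_num)
  have h1 : Algebra.norm K (t • z) = t ^ 3 * Algebra.norm K z := by
    rw [Algebra.smul_def, map_mul (Algebra.norm K), Algebra.norm_algebraMap, h3]
  unfold Cube.aff
  rw [sh_smul h3, h1, mul_smul_comm, mul_smul_comm, map_smul, map_smul, smul_eq_mul, smul_eq_mul]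
  ring

end

/-- The cubic parts agree. -/
theorem cub_param (V : Net ℂ) (c : Fin 2 → K) {M : Type} [Field M] [Algebra K M]
    (h3 : Module.finrank K M = 3) {C : Cube K M} (P : C.Param (V.fib c)) (z : M) :
    cub ((V.map (algebraMap ℂ K)).mat c) (P.φ z) = C.be * Algebra.norm K z := by
  have h : ∀ t : K, (V.map (algebraMap ℂ K)).fibre c (t • P.φ z) = C.aff (t • z) := by
    intro t
    rw [← eval_fib, ← map_smul, P.eq]
  simp only [fibre_smul, aff_smul h3] at h
  have e0 := h 0
  have e1 := h 1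
  have e2 := h (-1)
  have e3 := h 2
  have h6 : (6 : K) ≠ 0 := by norm_num
  refine mul_left_cancel₀ h6 ?_
  linear_combination e3 + 3 * e0 - 3 * e1 - e2

theorem ind_c {c : Fin 2 → K} (hc : IntermediateField.adjoin ℂ (Set.range c) = ⊤) :
    AlgebraicIndependent ℂ c := by
  have h1 : AlgebraicIndependent ℂ (fun i : Fin 2 =>
      algebraMap (MvPolynomial (Fin 2) ℂ) K (X i)) := by
    have h2 := (MvPolynomial.algebraicIndependent_X (Fin 2) ℂ).map'
      (f := IsScalarTower.toAlgHom ℂ (MvPolynomial (Fin 2) ℂ) K)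
      (IsFractionRing.injective (MvPolynomial (Fin 2) ℂ) K)
    exact h2
  exact GSN.ind_of_top h1 hc

/-- The cubic part over `ℂ[s, t]` and its values at the parameters `c`. -/
theorem cub_poly (V : Net ℂ) (c : Fin 2 → K) (u : Fin 3 → MvPolynomial (Fin 2) ℂ) :
    aeval c (cub ((V.map C).mat X) u) =
      cub ((V.map (algebraMap ℂ K)).mat c) fun i => aeval c (u i) := by
  have h1 := cub_map (aeval c : MvPolynomial (Fin 2) ℂ →ₐ[ℂ] K).toRingHom ((V.map C).mat X) u
  rw [mat_map, map_map] at h1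
  simp only [AlgHom.toRingHom_eq_coe, RingHom.coe_coe, aeval_C, aeval_X] at h1
  exact h1

/-- The number `β` of the cube is not zero. -/
theorem be_ne {V : Net ℂ} {c : Fin 2 → K} (hc : IntermediateField.adjoin ℂ (Set.range c) = ⊤)
    {M : Type} [Field M] [Algebra K M] (h3 : Module.finrank K M = 3) {Cu : Cube K M}
    (P : Cu.Param (V.fib c)) (h0 : cub (V.A 0) ![1, 0, 0] ≠ 0) : Cu.be ≠ 0 := by
  intro hb
  have h2 : aeval c (cub ((V.map C).mat X) ![1, 0, 0]) = 0 := by
    rw [cub_poly, ← P.φ.apply_symm_apply (fun i => aeval c (![1, 0, 0] i)), cub_param V c h3 P, hb,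
      zero_mul]
  have h4 : cub ((V.map C).mat X) ![1, 0, 0] = 0 := by
    have h5 : Function.Injective (aeval c : MvPolynomial (Fin 2) ℂ →ₐ[ℂ] K) := ind_c hc
    exact h5 (by rw [h2, map_zero])
  have h6 := cub_map (eval (0 : Fin 2 → ℂ)) ((V.map C).mat X) ![1, 0, 0]
  rw [h4, map_zero, mat_map, map_map] at h6
  apply h0
  have h7 : (fun i => eval (0 : Fin 2 → ℂ) (![1, 0, 0] i)) = ![1, 0, 0] := by
    funext i
    fin_cases i <;> simp
  have h8 : (V.map fun z => eval (0 : Fin 2 → ℂ) (C z)).mat (fun i => eval (0 : Fin 2 → ℂ) (X i)) =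
      V.A 0 := by
    ext i j
    simp [Net.mat, Net.map]
  rw [h7, h8] at h6
  exact h6.symm

/-- **The cubic part has no zero over `K`.** -/
theorem aniso {V : Net ℂ} {c : Fin 2 → K} (hc : IntermediateField.adjoin ℂ (Set.range c) = ⊤)
    {M : Type} [Field M] [Algebra K M] (h3 : Module.finrank K M = 3) {Cu : Cube K M}
    (P : Cu.Param (V.fib c)) (h0 : cub (V.A 0) ![1, 0, 0] ≠ 0) (u : Fin 3 → K) (hu : u ≠ 0) :
    cub ((V.map (algebraMap ℂ K)).mat c) u ≠ 0 := by
  have : FiniteDimensional K M := FiniteDimensional.of_finrank_pos (by rw [h3]; norm_num)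
  rw [← P.φ.apply_symm_apply u, cub_param V c h3 P]
  refine mul_ne_zero (be_ne hc h3 P h0) ?_
  rw [Algebra.norm_ne_zero_iff]
  rwa [Ne, LinearEquiv.map_eq_zero_iff]

/-- **The cubic part has no zero over the ring of polynomials.** -/
theorem aniso_poly {V : Net ℂ} {c : Fin 2 → K}
    (hc : IntermediateField.adjoin ℂ (Set.range c) = ⊤)
    {M : Type} [Field M] [Algebra K M] (h3 : Module.finrank K M = 3) {Cu : Cube K M}
    (P : Cu.Param (V.fib c)) (h0 : cub (V.A 0) ![1, 0, 0] ≠ 0)
    (u : Fin 3 → MvPolynomial (Fin 2) ℂ) (hu : u ≠ 0) : cub ((V.map C).mat X) u ≠ 0 := by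
  intro h
  have h5 : Function.Injective (aeval c : MvPolynomial (Fin 2) ℂ →ₐ[ℂ] K) := ind_c hc
  refine aniso hc h3 P h0 (fun i => aeval c (u i)) (fun h6 => hu ?_) ?_
  · funext i
    exact h5 (by rw [congrFun h6 i, Pi.zero_apply, Pi.zero_apply, map_zero])
  · rw [← cub_poly, h, map_zero]

end Pool.Agent.C18.An
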