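import Mathlib

/-!
# G18: the three embeddings of a cubic extension

`M / K` is an extension of degree three of characteristic zero and `E` an algebraically closed field
over `K`. `Tri K M E`: the three embeddings `σ i` of `M` into `E` and a generator `θ` of `M`.
`em x`: the three conjugates of `x`. For a field `T` between `K` and `Ω ⊆ E`, `RT T` is the
`T`-algebra of the triples `∑ c j em (θ ^ j)`, `c j` in `T`: the image of `M ⊗ T`.
-/

set_option autoImplicit false

noncomputable section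

namespace Pool.Agent.G18

open Module Matrix

/-- The three embeddings and a generator. -/
structure Tri (K M E : Type) [Field K] [Field M] [Field E] [Algebra K M] [Algebra K E] where
  /-- the embeddings -/
  σ : Fin 3 → (M →ₐ[K] E)
  bij : Function.Bijective σ
  /-- the generator -/
  θ : M
  top : ∀ x : M, ∃ c : Fin 3 → K, x = algebraMap K M (c 0) + algebraMap K M (c 1) * θ +
    algebraMap K M (c 2) * θ ^ 2

section

variable {K M E : Type} [Field K] [Field M] [Field E] [Algebra K M] [Algebra K E]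

/-- the three embeddings exist -/
theorem exists_tri [CharZero K] [IsAlgClosed E] (h3 : finrank K M = 3) : Nonempty (Tri K M E) := by
  have hfin : FiniteDimensional K M := FiniteDimensional.of_finrank_pos (by omega)
  have hcard : Fintype.card (M →ₐ[K] E) = 3 := (AlgHom.card K M E).trans h3
  obtain ⟨e⟩ : Nonempty (Fin 3 ≃ (M →ₐ[K] E)) := ⟨(Fintype.equivFinOfCardEq hcard).symm⟩
  set pb : PowerBasis K M := Field.powerBasisOfFiniteOfSeparable K M with hpb
  have hd : pb.dim = 3 := by rw [← pb.finrank, h3]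
  refine ⟨⟨e, e.bijective, pb.gen, fun x => ?_⟩⟩
  obtain ⟨f, hf, hx⟩ := pb.exists_eq_aeval x
  rw [hd] at hf
  refine ⟨fun k => f.coeff k, ?_⟩
  rw [hx, Polynomial.aeval_eq_sum_range' hf]
  simp [Finset.sum_range_succ, Algebra.smul_def]

namespace Tri

variable (τ : Tri K M E)

/-- the three conjugates of an element -/
def em (x : M) : Fin 3 → E := fun i => τ.σ i x

/-- the conjugates of the generator -/
def th : Fin 3 → E := τ.em τ.θ

theorem em_add (x y : M) : τ.em (x + y) = τ.em x + τ.em y := funext fun _ => map_add _ _ _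

theorem em_mul (x y : M) : τ.em (x * y) = τ.em x * τ.em y := funext fun _ => map_mul _ _ _

theorem em_smul (c : K) (x : M) : τ.em (c • x) = algebraMap K E c • τ.em x := by
  funext i
  simp [em, Algebra.smul_def]

theorem em_zero : τ.em 0 = 0 := funext fun _ => map_zero _

theorem em_one : τ.em 1 = 1 := funext fun _ => map_one _

theorem em_inj {x : M} {i : Fin 3} (h : τ.em x i = 0) : x = 0 :=
  (map_eq_zero (τ.σ i)).1 h

theorem em_eq {x : M} {c : Fin 3 → K} (h : x = algebraMap K M (c 0) + algebraMap K M (c 1) * τ.θ +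
    algebraMap K M (c 2) * τ.θ ^ 2) (i : Fin 3) : τ.em x i = algebraMap K E (c 0) +
      algebraMap K E (c 1) * τ.th i + algebraMap K E (c 2) * τ.th i ^ 2 := by
  rw [h]
  simp [em, th]

/-- the conjugates of the generator are distinct -/
theorem th_inj : Function.Injective τ.th := by
  intro i j hij
  apply τ.bij.1
  ext x
  obtain ⟨c, hc⟩ := τ.top x
  have h1 := τ.em_eq hc i
  have h2 := τ.em_eq hc j
  rw [hij] at h1
  exact h1.trans h2.symm

theorem trace_eq [CharZero K] [IsAlgClosed E] [FiniteDimensional K M] (x : M) :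
    algebraMap K E (Algebra.trace K M x) = τ.em x 0 + τ.em x 1 + τ.em x 2 := by
  rw [trace_eq_sum_embeddings E, ← τ.bij.sum_comp fun s : M →ₐ[K] E => s x,
    Fin.sum_univ_three]
  rfl

theorem norm_eq [CharZero K] [IsAlgClosed E] [FiniteDimensional K M] (x : M) :
    algebraMap K E (Algebra.norm K x) = τ.em x 0 * τ.em x 1 * τ.em x 2 := by
  rw [Algebra.norm_eq_prod_embeddings K E, ← τ.bij.prod_comp fun s : M →ₐ[K] E => s x,
    Fin.prod_univ_three]
  rfl

/-! ### The rational triples -/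

/-- the basis `1, θ, θ ^ 2` -/
def bs (j : Fin 3) : M := τ.θ ^ (j : ℕ)

theorem em_bs (j i : Fin 3) : τ.em (τ.bs j) i = τ.th i ^ (j : ℕ) := by
  simp [em, bs, th]

/-- the cubic equation of the generator -/
theorem exists_cub : ∃ e : Fin 3 → K, ∀ i, τ.th i ^ 3 = algebraMap K E (e 0) +
    algebraMap K E (e 1) * τ.th i + algebraMap K E (e 2) * τ.th i ^ 2 := by
  obtain ⟨e, he⟩ := τ.top (τ.θ ^ 3)
  refine ⟨e, fun i => ?_⟩
  rw [← τ.em_eq he i]
  simp [em, th]

/-- the triple with the coefficients `c` -/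
def ev {R : Type} [CommRing R] [Algebra R E] (c : Fin 3 → R) : Fin 3 → E := fun i =>
  ∑ j, algebraMap R E (c j) * τ.em (τ.bs j) i

theorem ev_apply {R : Type} [CommRing R] [Algebra R E] (c : Fin 3 → R) (i : Fin 3) : τ.ev c i =
    algebraMap R E (c 0) + algebraMap R E (c 1) * τ.th i + algebraMap R E (c 2) * τ.th i ^ 2 := by
  simp [ev, em_bs, Fin.sum_univ_three]

section Ev

variable {R : Type} [CommRing R] [Algebra R E]

theorem ev_add (c d : Fin 3 → R) : τ.ev (c + d) = τ.ev c + τ.ev d := by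
  funext i
  simp only [Pi.add_apply, ev_apply, map_add]
  ring

theorem ev_sub (c d : Fin 3 → R) : τ.ev (c - d) = τ.ev c - τ.ev d := by
  funext i
  simp only [Pi.sub_apply, ev_apply, map_sub]
  ring

theorem ev_smul (s : R) (c : Fin 3 → R) : τ.ev (s • c) = algebraMap R E s • τ.ev c := by
  funext i
  simp only [Pi.smul_apply, smul_eq_mul, ev_apply, map_mul]
  ring

theorem ev_zero : τ.ev (0 : Fin 3 → R) = 0 := by
  funext i
  simp [ev_apply]

/-- the matrix of the powers of the `θ_i` is invertible -/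
theorem det_ne : (Matrix.vandermonde τ.th).det ≠ 0 :=
  Matrix.det_vandermonde_ne_zero_iff.2 τ.th_inj

theorem ev_eq_mulVec (c : Fin 3 → R) :
    τ.ev c = Matrix.vandermonde τ.th *ᵥ fun k => algebraMap R E (c k) := by
  funext i
  simp only [ev_apply, Matrix.mulVec, dotProduct, Fin.sum_univ_three, Matrix.vandermonde_apply]
  simp
  ring

end Ev

/-- the coefficients are unique -/
theorem ev_inj {R : Type} [Field R] [Algebra R E] {c d : Fin 3 → R} (h : τ.ev c = τ.ev d) :
    c = d := by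
  rw [ev_eq_mulVec, ev_eq_mulVec] at h
  have h2 := Matrix.mulVec_injective_of_isUnit
    ((Matrix.isUnit_iff_isUnit_det _).2 (isUnit_iff_ne_zero.2 τ.det_ne)) h
  funext k
  exact (algebraMap R E).injective (congrFun h2 k)

/-- every triple has coefficients in `E` -/
theorem ev_surj (r : Fin 3 → E) : ∃ c : Fin 3 → E, τ.ev c = r := by
  refine ⟨(Matrix.vandermonde τ.th)⁻¹ *ᵥ r, ?_⟩
  rw [ev_eq_mulVec]
  change Matrix.vandermonde τ.th *ᵥ ((Matrix.vandermonde τ.th)⁻¹ *ᵥ r) = r
  rw [Matrix.mulVec_mulVec, Matrix.mul_nonsing_inv _ (isUnit_iff_ne_zero.2 τ.det_ne),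
    Matrix.one_mulVec]

/-- the dual statement -/
theorem dual {a : Fin 3 → E} (h : ∀ j, ∑ i, a i * τ.em (τ.bs j) i = 0) : a = 0 := by
  have h1 : a ᵥ* Matrix.vandermonde τ.th = 0 := by
    funext j
    simp only [Matrix.vecMul, dotProduct, Matrix.vandermonde_apply, Pi.zero_apply]
    rw [← h j]
    exact Finset.sum_congr rfl fun i _ => by rw [em_bs]
  exact Matrix.eq_zero_of_vecMul_eq_zero τ.det_ne h1

/-- the generator generates -/
theorem adj_top : IntermediateField.adjoin K {τ.θ} = ⊤ := by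
  rw [eq_top_iff]
  intro x _
  obtain ⟨c, hc⟩ := τ.top x
  have h1 : τ.θ ∈ IntermediateField.adjoin K {τ.θ} := IntermediateField.subset_adjoin _ _ rfl
  rw [hc]
  exact add_mem (add_mem (algebraMap_mem _ _) (mul_mem (algebraMap_mem _ _) h1))
    (mul_mem (algebraMap_mem _ _) (pow_mem h1 2))

theorem deg_minpoly (h3 : finrank K M = 3) : (minpoly K τ.θ).natDegree = 3 := by
  have hfin : FiniteDimensional K M := FiniteDimensional.of_finrank_pos (by omega)
  rw [← IntermediateField.adjoin.finrank (Algebra.IsIntegral.isIntegral τ.θ), τ.adj_top,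
    IntermediateField.finrank_top', h3]

/-- If `K` is algebraically closed in `Ω`, then the conjugates of the generator have degree three
over `Ω`. -/
theorem irr {Ω : Type} [Field Ω] [Algebra K Ω] [Algebra Ω E] [IsScalarTower K Ω E]
    (hRC : ∀ ρ : Ω, IsAlgebraic K ρ → ∃ k : K, algebraMap K Ω k = ρ) (h3 : finrank K M = 3)
    (i : Fin 3) : (minpoly Ω (τ.th i)).natDegree = 3 := by
  have hfin : FiniteDimensional K M := FiniteDimensional.of_finrank_pos (by omega)
  have hint : IsIntegral K τ.θ := Algebra.IsIntegral.isIntegral τ.θ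
  set f : Polynomial K := minpoly K τ.θ with hf
  have hd := τ.deg_minpoly h3
  have hmon : f.Monic := minpoly.monic hint
  have hirr : Irreducible f := minpoly.irreducible hint
  have hg : (f.map (algebraMap K Ω)).Monic := hmon.map _
  have hgd : (f.map (algebraMap K Ω)).natDegree = 3 := by
    rw [Polynomial.natDegree_map]
    exact hd
  have hgi : Irreducible (f.map (algebraMap K Ω)) := by
    rw [hg.irreducible_iff_roots_eq_zero_of_degree_le_three (by omega) (by omega),
      Multiset.eq_zero_iff_forall_notMem]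
    intro ρ hρ
    rw [Polynomial.mem_roots hg.ne_zero, Polynomial.IsRoot.def, Polynomial.eval_map] at hρ
    obtain ⟨k, rfl⟩ := hRC ρ ⟨f, hmon.ne_zero, hρ⟩
    rw [Polynomial.eval₂_at_apply, map_eq_zero] at hρ
    have h1 : f.natDegree = 1 := Polynomial.natDegree_eq_of_degree_eq_some
      (Polynomial.degree_eq_one_of_irreducible_of_root hirr hρ)
    rw [hd] at h1
    exact absurd h1 (by norm_num)
  have hroot : Polynomial.aeval (τ.th i) (f.map (algebraMap K Ω)) = 0 := by
    rw [Polynomial.aeval_map_algebraMap]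
    change Polynomial.aeval (τ.σ i τ.θ) f = 0
    rw [Polynomial.aeval_algHom_apply, hf, minpoly.aeval, map_zero]
  rw [← minpoly.eq_of_irreducible_of_monic hgi hroot hg]
  exact hgd

section RT

variable {Ω : Type} [Field Ω] [Algebra K Ω] [Algebra Ω E] [IsScalarTower K Ω E]

/-- The triples `∑ c j em (θ ^ j)`, `c j` in `T`. -/
def RT (T : IntermediateField K Ω) : Set (Fin 3 → E) :=
  {a | ∃ c : Fin 3 → Ω, (∀ j, c j ∈ T) ∧ τ.ev c = a}

variable {T T' : IntermediateField K Ω} {a b : Fin 3 → E}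

theorem mem_iff : a ∈ τ.RT T ↔ ∃ c : Fin 3 → Ω, (∀ j, c j ∈ T) ∧ τ.ev c = a := Iff.rfl

theorem RT_mono (h : T ≤ T') (ha : a ∈ τ.RT T) : a ∈ τ.RT T' := by
  obtain ⟨c, hc, rfl⟩ := ha
  exact ⟨c, fun j => h (hc j), rfl⟩

theorem RT_add (ha : a ∈ τ.RT T) (hb : b ∈ τ.RT T) : a + b ∈ τ.RT T := by
  obtain ⟨c, hc, rfl⟩ := ha
  obtain ⟨d, hd, rfl⟩ := hb
  exact ⟨c + d, fun j => add_mem (hc j) (hd j), τ.ev_add c d⟩

theorem RT_sub (ha : a ∈ τ.RT T) (hb : b ∈ τ.RT T) : a - b ∈ τ.RT T := by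
  obtain ⟨c, hc, rfl⟩ := ha
  obtain ⟨d, hd, rfl⟩ := hb
  exact ⟨c - d, fun j => sub_mem (hc j) (hd j), τ.ev_sub c d⟩

theorem RT_smul {s : Ω} (hs : s ∈ T) (ha : a ∈ τ.RT T) : algebraMap Ω E s • a ∈ τ.RT T := by
  obtain ⟨c, hc, rfl⟩ := ha
  exact ⟨s • c, fun j => mul_mem hs (hc j), τ.ev_smul s c⟩

theorem RT_zero : (0 : Fin 3 → E) ∈ τ.RT T :=
  ⟨0, fun _ => zero_mem T, τ.ev_zero⟩

theorem em_mem (x : M) : τ.em x ∈ τ.RT T := by
  obtain ⟨c, hc⟩ := τ.top x
  refine ⟨fun k => algebraMap K Ω (c k), fun j => T.algebraMap_mem _, ?_⟩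
  funext i
  rw [τ.em_eq hc i, ev_apply]
  simp only [← IsScalarTower.algebraMap_apply]

theorem RT_one : (1 : Fin 3 → E) ∈ τ.RT T := by
  rw [← τ.em_one]
  exact τ.em_mem 1

theorem RT_const {s : Ω} (hs : s ∈ T) : (fun _ => algebraMap Ω E s) ∈ τ.RT T := by
  have h1 := τ.RT_smul hs (τ.RT_one (T := T))
  convert h1 using 1
  funext i
  simp

theorem RT_mul (ha : a ∈ τ.RT T) (hb : b ∈ τ.RT T) : a * b ∈ τ.RT T := by
  obtain ⟨c, hc, rfl⟩ := ha
  obtain ⟨d, hd, rfl⟩ := hb
  obtain ⟨e, he⟩ := τ.exists_cub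
  set f : Fin 3 → Ω := fun k => algebraMap K Ω (e k) with hf
  have hfT : ∀ k, f k ∈ T := fun k => T.algebraMap_mem _
  have he' : ∀ i, τ.th i ^ 3 = algebraMap Ω E (f 0) + algebraMap Ω E (f 1) * τ.th i +
      algebraMap Ω E (f 2) * τ.th i ^ 2 := by
    intro i
    rw [he i]
    simp only [hf, ← IsScalarTower.algebraMap_apply]
  refine ⟨![c 0 * d 0 + (c 1 * d 2 + c 2 * d 1) * f 0 + c 2 * d 2 * (f 2 * f 0),
    c 0 * d 1 + c 1 * d 0 + (c 1 * d 2 + c 2 * d 1) * f 1 + c 2 * d 2 * (f 0 + f 2 * f 1),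
    c 0 * d 2 + c 1 * d 1 + c 2 * d 0 + (c 1 * d 2 + c 2 * d 1) * f 2 +
      c 2 * d 2 * (f 1 + f 2 * f 2)], ?_, ?_⟩
  · intro j
    have hc0 := hc 0
    have hc1 := hc 1
    have hc2 := hc 2
    have hd0 := hd 0
    have hd1 := hd 1
    have hd2 := hd 2
    have h0 := hfT 0
    have h1 := hfT 1
    have h2 := hfT 2
    have h12 : c 1 * d 2 + c 2 * d 1 ∈ T := add_mem (mul_mem hc1 hd2) (mul_mem hc2 hd1)
    have h22 : c 2 * d 2 ∈ T := mul_mem hc2 hd2
    fin_cases j
    · exact add_mem (add_mem (mul_mem hc0 hd0) (mul_mem h12 h0)) (mul_mem h22 (mul_mem h2 h0))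
    · exact add_mem (add_mem (add_mem (mul_mem hc0 hd1) (mul_mem hc1 hd0)) (mul_mem h12 h1))
        (mul_mem h22 (add_mem h0 (mul_mem h2 h1)))
    · exact add_mem (add_mem (add_mem (add_mem (mul_mem hc0 hd2) (mul_mem hc1 hd1))
        (mul_mem hc2 hd0)) (mul_mem h12 h2)) (mul_mem h22 (add_mem h1 (mul_mem h2 h2)))
  · funext i
    have h1 := he' i
    simp only [ev_apply, Pi.mul_apply, Matrix.cons_val_zero, Matrix.cons_val_one,
      Matrix.cons_val, map_add, map_mul]
    linear_combination (-(algebraMap Ω E (c 1) * algebraMap Ω E (d 2) +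
      algebraMap Ω E (c 2) * algebraMap Ω E (d 1)) - algebraMap Ω E (c 2) *
      algebraMap Ω E (d 2) * (τ.th i + algebraMap Ω E (f 2))) * h1

theorem RT_pow (ha : a ∈ τ.RT T) (n : ℕ) : a ^ n ∈ τ.RT T := by
  induction n with
  | zero =>
    rw [pow_zero]
    exact τ.RT_one
  | succ n ih =>
    rw [pow_succ]
    exact τ.RT_mul ih ha

/-- the trace -/
theorem RT_sum [CharZero K] [IsAlgClosed E] [FiniteDimensional K M] (ha : a ∈ τ.RT T) :
    ∃ s ∈ T, a 0 + a 1 + a 2 = algebraMap Ω E s := by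
  obtain ⟨c, hc, rfl⟩ := ha
  refine ⟨∑ j, c j * algebraMap K Ω (Algebra.trace K M (τ.bs j)),
    sum_mem fun j _ => mul_mem (hc j) (T.algebraMap_mem _), ?_⟩
  rw [map_sum]
  simp only [map_mul, ← IsScalarTower.algebraMap_apply, τ.trace_eq]
  simp only [ev, Fin.sum_univ_three]
  ring

/-- the norm -/
theorem RT_prod [CharZero K] [IsAlgClosed E] [FiniteDimensional K M] (ha : a ∈ τ.RT T) :
    ∃ s ∈ T, a 0 * a 1 * a 2 = algebraMap Ω E s := by
  have : CharZero Ω := charZero_of_injective_algebraMap (algebraMap K Ω).injective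
  have : CharZero E := charZero_of_injective_algebraMap (algebraMap K E).injective
  obtain ⟨s1, h1, e1⟩ := τ.RT_sum ha
  obtain ⟨s2, h2, e2⟩ := τ.RT_sum (τ.RT_pow ha 2)
  obtain ⟨s3, h3, e3⟩ := τ.RT_sum (τ.RT_pow ha 3)
  refine ⟨(s1 ^ 3 - 3 * (s1 * s2) + 2 * s3) / 6, ?_, ?_⟩
  · have h6 : (6 : Ω) ∈ T := ofNat_mem T 6
    have h3' : (3 : Ω) ∈ T := ofNat_mem T 3
    have h2' : (2 : Ω) ∈ T := ofNat_mem T 2
    exact div_mem (add_mem (sub_mem (pow_mem h1 3) (mul_mem h3' (mul_mem h1 h2)))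
      (mul_mem h2' h3)) h6
  · simp only [Pi.pow_apply] at e2 e3
    simp only [map_div₀, map_add, map_sub, map_mul, map_pow, map_ofNat, ← e1, ← e2, ← e3]
    have h6 : (6 : E) ≠ 0 := by norm_num
    field_simp
    ring

/-- the adjoint -/
theorem RT_sh [CharZero K] [IsAlgClosed E] [FiniteDimensional K M] (ha : a ∈ τ.RT T) :
    (![a 1 * a 2, a 2 * a 0, a 0 * a 1] : Fin 3 → E) ∈ τ.RT T := by
  have : CharZero Ω := charZero_of_injective_algebraMap (algebraMap K Ω).injective
  have : CharZero E := charZero_of_injective_algebraMap (algebraMap K E).injective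
  obtain ⟨s1, h1, e1⟩ := τ.RT_sum ha
  obtain ⟨s2, h2, e2⟩ := τ.RT_sum (τ.RT_pow ha 2)
  have h2' : (2 : Ω) ∈ T := ofNat_mem T 2
  have h4 : (s1 ^ 2 - s2) / 2 ∈ T := div_mem (sub_mem (pow_mem h1 2) h2) h2'
  have h5 := τ.RT_add (τ.RT_sub (τ.RT_pow ha 2) (τ.RT_smul h1 ha)) (τ.RT_const h4)
  convert h5 using 1
  have h2n : (2 : E) ≠ 0 := two_ne_zero
  funext i
  simp only [Pi.pow_apply] at e2
  fin_cases i <;>
    simp only [Pi.add_apply, Pi.sub_apply, Pi.pow_apply, Pi.smul_apply, smul_eq_mul, map_div₀,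
      map_sub, map_pow, map_ofNat, ← e1, ← e2, Fin.zero_eta, Fin.mk_one, Fin.reduceFinMk,
      Matrix.cons_val_zero, Matrix.cons_val_one, Matrix.cons_val] <;>
    field_simp <;> ring

/-- the inverse -/
theorem RT_inv [CharZero K] [IsAlgClosed E] [FiniteDimensional K M] (ha : a ∈ τ.RT T)
    (h : ∀ i, a i ≠ 0) : a⁻¹ ∈ τ.RT T := by
  obtain ⟨s, hs, e⟩ := τ.RT_prod ha
  have h1 := τ.RT_smul (inv_mem hs) (τ.RT_sh ha)
  convert h1 using 1
  have h0 := h 0
  have h1' := h 1
  have h2 := h 2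
  funext i
  rw [map_inv₀, ← e]
  fin_cases i <;>
    simp only [Pi.inv_apply, Pi.smul_apply, smul_eq_mul, Fin.zero_eta, Fin.mk_one,
      Fin.reduceFinMk, Matrix.cons_val_zero, Matrix.cons_val_one, Matrix.cons_val] <;>
    field_simp

theorem RT_div [CharZero K] [IsAlgClosed E] [FiniteDimensional K M] (ha : a ∈ τ.RT T)
    (hb : b ∈ τ.RT T) (h : ∀ i, b i ≠ 0) : a / b ∈ τ.RT T := by
  rw [div_eq_mul_inv]
  exact τ.RT_mul ha (τ.RT_inv hb h)

/-- `M ⊗ Ω` is a field. -/
theorem RT_field (hRC : ∀ ρ : Ω, IsAlgebraic K ρ → ∃ k : K, algebraMap K Ω k = ρ)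
    (h3 : finrank K M = 3) (ha : a ∈ τ.RT T) (h0 : a ≠ 0) (i : Fin 3) : a i ≠ 0 := by
  obtain ⟨c, -, rfl⟩ := ha
  intro hi
  set p : Polynomial Ω := Polynomial.C (c 2) * Polynomial.X ^ 2 + Polynomial.C (c 1) *
    Polynomial.X + Polynomial.C (c 0) with hp
  have hpd : p.natDegree ≤ 2 := Polynomial.natDegree_quadratic_le
  have hp0 : p = 0 := by
    by_contra hne
    have h1 : Polynomial.aeval (τ.th i) p = 0 := by
      rw [ev_apply] at hi
      rw [hp]
      simp only [map_add, map_mul, map_pow, Polynomial.aeval_C, Polynomial.aeval_X]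
      rw [← hi]
      ring
    have h2 := Polynomial.natDegree_le_natDegree (minpoly.degree_le_of_ne_zero Ω (τ.th i) hne h1)
    rw [τ.irr hRC h3 i] at h2
    omega
  apply h0
  have hc : c = 0 := by
    funext j
    fin_cases j
    · have h1 := congrArg (fun q => Polynomial.coeff q 0) hp0
      simpa [hp] using h1
    · have h1 := congrArg (fun q => Polynomial.coeff q 1) hp0
      simpa [hp, Polynomial.coeff_X, Polynomial.coeff_C] using h1
    · have h1 := congrArg (fun q => Polynomial.coeff q 2) hp0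
      simpa [hp, Polynomial.coeff_X, Polynomial.coeff_C] using h1
  rw [hc, ev_zero]

end RT

end Tri

end

end Pool.Agent.G18
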