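import Mathlib

/-!
# The product identity of the link (`C_18`, `MP_4d0966`)

Components of a cube `(α; m; n; β)` over a commutative ring: `c(y, z) = α N(y) + tr(m y# z) +
tr(n y z#) + β N(z)`, `T = tr(m n)`, `D` the hyperdeterminant, `g = α² β - α T + 2 N(m)`,
`h = g² - α² D = 4 N(u)`, `u = m# - α n`. With `a = 2 u y + B z`, `b = z`,
`B = -(α β + 2 m n - T)` one has the identity `Cb.prod_id`:
`(g + α δ) ∏ (aᵢ + δ bᵢ) - (g - α δ) ∏ (aᵢ - δ bᵢ) = 4 h δ c(y, z)`, `δ² = D`.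
-/

set_option linter.unusedSimpArgs false

namespace Pool.Agent.G18

/-- Components of a cube over a commutative ring. -/
structure Cb (R : Type*) where
  /-- the coefficient of `y₀ y₁ y₂` -/
  al : R
  /-- the coefficient of `z₀ z₁ z₂` -/
  be : R
  /-- the coefficients of `yⱼ yₖ zᵢ` -/
  m : Fin 3 → R
  /-- the coefficients of `yᵢ zⱼ zₖ` -/
  n : Fin 3 → R

namespace Cb

variable {R : Type*} [CommRing R] (C : Cb R)

/-- The cubic form of the cube. -/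
def c (y z : Fin 3 → R) : R :=
  C.al * (y 0 * y 1 * y 2)
    + (C.m 0 * (y 1 * y 2 * z 0) + C.m 1 * (y 0 * y 2 * z 1) + C.m 2 * (y 0 * y 1 * z 2))
    + (C.n 0 * (y 0 * z 1 * z 2) + C.n 1 * (y 1 * z 0 * z 2) + C.n 2 * (y 2 * z 0 * z 1))
    + C.be * (z 0 * z 1 * z 2)

/-- `T = tr(m n)`. -/
def T : R := C.m 0 * C.n 0 + C.m 1 * C.n 1 + C.m 2 * C.n 2

/-- The hyperdeterminant. -/
def D : R :=
  (C.al * C.be - C.T) ^ 2
    - 4 * (C.m 0 * C.n 0 * (C.m 1 * C.n 1) + C.m 0 * C.n 0 * (C.m 2 * C.n 2)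
        + C.m 1 * C.n 1 * (C.m 2 * C.n 2))
    + 4 * C.al * (C.n 0 * C.n 1 * C.n 2) + 4 * C.be * (C.m 0 * C.m 1 * C.m 2)

/-- `g = α² β - α T + 2 N(m)`. -/
def g : R := C.al ^ 2 * C.be - C.al * C.T + 2 * (C.m 0 * C.m 1 * C.m 2)

/-- `h = g² - α² D`. -/
def h : R := C.g ^ 2 - C.al ^ 2 * C.D

/-- `u = m# - α n`. -/
def u : Fin 3 → R :=
  ![C.m 1 * C.m 2 - C.al * C.n 0, C.m 0 * C.m 2 - C.al * C.n 1, C.m 0 * C.m 1 - C.al * C.n 2]

/-- `B = -(α β + 2 m n - T)`. -/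
def B (i : Fin 3) : R := -(C.al * C.be + 2 * (C.m i * C.n i) - C.T)

/-- `a = 2 u y + B z`. -/
def a (y z : Fin 3 → R) (i : Fin 3) : R := 2 * C.u i * y i + C.B i * z i

theorem h_eq : C.h = 4 * (C.u 0 * C.u 1 * C.u 2) := by
  simp only [h, g, D, T, u, Matrix.cons_val_zero, Matrix.cons_val_one, Matrix.cons_val]
  ring

/-- `h = (g + α δ) (g - α δ)`. -/
theorem h_fac {δ : R} (hδ : δ ^ 2 = C.D) : (C.g + C.al * δ) * (C.g - C.al * δ) = C.h := by
  rw [h, ← hδ]; ring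

private theorem id2_Prod (i : Fin 3) : C.g + C.al * C.B i = 2 * (C.m i * C.u i) := by
  fin_cases i <;>
    simp [g, B, T, u] <;> ring

private theorem id1_0_Prod :
    C.g * (C.B 1 + C.B 2) + C.al * (C.B 1 * C.B 2 + C.D) = 4 * (C.u 1 * C.u 2 * C.n 0) := by
  simp only [g, D, B, T, u, Matrix.cons_val_zero, Matrix.cons_val_one, Matrix.cons_val]
  ring

private theorem id1_1_Prod :
    C.g * (C.B 0 + C.B 2) + C.al * (C.B 0 * C.B 2 + C.D) = 4 * (C.u 0 * C.u 2 * C.n 1) := by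
  simp only [g, D, B, T, u, Matrix.cons_val_zero, Matrix.cons_val_one, Matrix.cons_val]
  ring

private theorem id1_2_Prod :
    C.g * (C.B 0 + C.B 1) + C.al * (C.B 0 * C.B 1 + C.D) = 4 * (C.u 0 * C.u 1 * C.n 2) := by
  simp only [g, D, B, T, u, Matrix.cons_val_zero, Matrix.cons_val_one, Matrix.cons_val]
  ring

private theorem id0_Prod :
    C.g * (C.B 0 * C.B 1 + C.B 0 * C.B 2 + C.B 1 * C.B 2 + C.D)
      + C.al * (C.B 0 * C.B 1 * C.B 2 + C.D * (C.B 0 + C.B 1 + C.B 2))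
      = 8 * (C.u 0 * C.u 1 * C.u 2 * C.be) := by
  simp only [g, D, B, T, u, Matrix.cons_val_zero, Matrix.cons_val_one, Matrix.cons_val]
  ring

/-- The coefficient of `δ`: `g P₁ + α P₀ = 2 h c(y, z)`. -/
theorem half (y z : Fin 3 → R) :
    C.g * (z 0 * (C.a y z 1 * C.a y z 2) + z 1 * (C.a y z 0 * C.a y z 2)
        + z 2 * (C.a y z 0 * C.a y z 1) + C.D * (z 0 * z 1 * z 2))
      + C.al * (C.a y z 0 * C.a y z 1 * C.a y z 2
        + C.D * (C.a y z 0 * (z 1 * z 2) + C.a y z 1 * (z 0 * z 2) + C.a y z 2 * (z 0 * z 1)))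
      = 2 * C.h * C.c y z := by
  rw [h_eq]
  simp only [a, c]
  linear_combination
    (4 * (C.u 0 * C.u 1) * (y 0 * y 1 * z 2)) * C.id2_Prod 2
    + (4 * (C.u 0 * C.u 2) * (y 0 * y 2 * z 1)) * C.id2_Prod 1
    + (4 * (C.u 1 * C.u 2) * (y 1 * y 2 * z 0)) * C.id2_Prod 0
    + (2 * C.u 0 * (y 0 * z 1 * z 2)) * C.id1_0_Prod
    + (2 * C.u 1 * (y 1 * z 0 * z 2)) * C.id1_1_Prod
    + (2 * C.u 2 * (y 2 * z 0 * z 1)) * C.id1_2_Prod
    + (z 0 * z 1 * z 2) * C.id0_Prod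

/-- **The product identity.** -/
theorem prod_id {δ : R} (hδ : δ ^ 2 = C.D) (y z : Fin 3 → R) :
    (C.g + C.al * δ) * ((C.a y z 0 + δ * z 0) * (C.a y z 1 + δ * z 1) * (C.a y z 2 + δ * z 2))
      - (C.g - C.al * δ)
        * ((C.a y z 0 - δ * z 0) * (C.a y z 1 - δ * z 1) * (C.a y z 2 - δ * z 2))
      = 4 * C.h * δ * C.c y z := by
  have H := C.half y z
  rw [← hδ] at H
  linear_combination (2 * δ) * H

end Cb

end Pool.Agent.G18
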