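import Pool.Agent.G18.Defs
import Pool.Agent.G18.Prod
import Pool.Agent.G18.Emb

/-!
# G18: coordinates over an algebraically closed field

`τ : Tri K M E`: the three embeddings of the cubic extension `M` of `K` into the algebraically closed
field `E`. The components of a cube are `τ.cb C : Cb E`; `aff`, `D`, `g`, `h` and `N` of a cube in
terms of its components. For a parametrisation `P : C.Param f` the coordinates `τ.ze P.φ v` of a
point `v` of `E ^ 3` satisfy `aeval v f = (τ.cb C).c 1 (τ.ze P.φ v)`.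
-/

set_option autoImplicit false

noncomputable section

namespace Pool.Agent.G18

open MvPolynomial
open Pool.Agent.C18 (Cube sh)

variable {K M E : Type} [Field K] [Field M] [Algebra K M] [Field E] [Algebra K E]

namespace Tri

section

variable (τ : Tri K M E)

/-- The components of a cube. -/
def cb (C : Cube K M) : Cb E :=
  ⟨algebraMap K E C.al, algebraMap K E C.be, τ.em C.m, τ.em C.n⟩

theorem cb_al (C : Cube K M) : (τ.cb C).al = algebraMap K E C.al := rfl

theorem cb_be (C : Cube K M) : (τ.cb C).be = algebraMap K E C.be := rfl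

theorem cb_m (C : Cube K M) : (τ.cb C).m = τ.em C.m := rfl

theorem cb_n (C : Cube K M) : (τ.cb C).n = τ.em C.n := rfl

theorem em_mul_apply (x y : M) (i : Fin 3) : τ.em (x * y) i = τ.em x i * τ.em y i := by
  rw [em_mul, Pi.mul_apply]

theorem em_algebraMap (x : K) (i : Fin 3) : τ.em (algebraMap K M x) i = algebraMap K E x :=
  (τ.σ i).commutes x

end

section

variable [CharZero K] [IsAlgClosed E] [FiniteDimensional K M] (τ : Tri K M E)

theorem em_sh0 (z : M) : τ.em (sh K z) 0 = τ.em z 1 * τ.em z 2 := by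
  unfold sh
  by_cases hz : z = 0
  · subst hz; simp [em]
  · have h0 : τ.em z 0 ≠ 0 := fun h => hz (τ.em_inj h)
    have hi : τ.em z⁻¹ 0 = (τ.em z 0)⁻¹ := map_inv₀ (τ.σ 0) z
    rw [em_mul_apply, em_algebraMap, τ.norm_eq, hi]
    field_simp

theorem em_sh1 (z : M) : τ.em (sh K z) 1 = τ.em z 0 * τ.em z 2 := by
  unfold sh
  by_cases hz : z = 0
  · subst hz; simp [em]
  · have h0 : τ.em z 1 ≠ 0 := fun h => hz (τ.em_inj h)
    have hi : τ.em z⁻¹ 1 = (τ.em z 1)⁻¹ := map_inv₀ (τ.σ 1) z
    rw [em_mul_apply, em_algebraMap, τ.norm_eq, hi]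
    field_simp

theorem em_sh2 (z : M) : τ.em (sh K z) 2 = τ.em z 0 * τ.em z 1 := by
  unfold sh
  by_cases hz : z = 0
  · subst hz; simp [em]
  · have h0 : τ.em z 2 ≠ 0 := fun h => hz (τ.em_inj h)
    have hi : τ.em z⁻¹ 2 = (τ.em z 2)⁻¹ := map_inv₀ (τ.σ 2) z
    rw [em_mul_apply, em_algebraMap, τ.norm_eq, hi]
    field_simp

variable (C : Cube K M)

theorem aff_eq (z : M) : algebraMap K E (C.aff z) = (τ.cb C).c 1 (τ.em z) := by
  simp only [Cube.aff, map_add, map_mul, τ.trace_eq, τ.norm_eq, em_mul_apply, em_sh0, em_sh1,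
    em_sh2, Cb.c, cb, Pi.one_apply]
  ring

theorem T_eq : algebraMap K E (Algebra.trace K M (C.m * C.n)) = (τ.cb C).T := by
  simp only [τ.trace_eq, em_mul_apply, Cb.T, cb]

theorem D_eq : algebraMap K E C.D = (τ.cb C).D := by
  simp only [Cube.D, map_add, map_sub, map_mul, map_pow, τ.trace_eq, τ.norm_eq, em_mul_apply,
    em_sh0, em_sh1, em_sh2, Cb.D, Cb.T, cb, map_ofNat]
  ring

theorem g_eq : algebraMap K E C.g = (τ.cb C).g := by
  simp only [Cube.g, map_add, map_sub, map_mul, map_pow, τ.trace_eq, τ.norm_eq, em_mul_apply,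
    Cb.g, Cb.T, cb, map_ofNat]

theorem h_eq : algebraMap K E C.h = (τ.cb C).h := by
  simp only [Cube.h, map_sub, map_mul, map_pow, τ.g_eq, τ.D_eq, Cb.h]
  rfl

/-- The norm form in components. -/
theorem N_eq {d : E} (hd : d ^ 2 = algebraMap K E C.D) (x a b : M) :
    algebraMap K E (C.N (x, a, b)) = τ.em x 0 * τ.em x 1 * τ.em x 2 -
      (τ.cb C).h * (τ.em x 0 * ((τ.em a 0 + d * τ.em b 0) * (τ.em a 0 - d * τ.em b 0)) +
        τ.em x 1 * ((τ.em a 1 + d * τ.em b 1) * (τ.em a 1 - d * τ.em b 1)) +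
        τ.em x 2 * ((τ.em a 2 + d * τ.em b 2) * (τ.em a 2 - d * τ.em b 2))) +
      (τ.cb C).h * (((τ.cb C).g + (τ.cb C).al * d) *
        ((τ.em a 0 + d * τ.em b 0) * (τ.em a 1 + d * τ.em b 1) * (τ.em a 2 + d * τ.em b 2)) +
      ((τ.cb C).g - (τ.cb C).al * d) *
        ((τ.em a 0 - d * τ.em b 0) * (τ.em a 1 - d * τ.em b 1) * (τ.em a 2 - d * τ.em b 2))) := by
  have hD : ∀ i, τ.em (algebraMap K M C.D) i = d ^ 2 := fun i => by
    rw [em_algebraMap, hd]
  have hp : ∀ (y : M) (i : Fin 3), τ.em (y ^ 2) i = τ.em y i ^ 2 := fun y i =>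
    map_pow (τ.σ i) y 2
  have hs : ∀ (y z : M) (i : Fin 3), τ.em (y - z) i = τ.em y i - τ.em z i := fun y z i =>
    map_sub (τ.σ i) y z
  simp only [Cube.N, map_add, map_sub, map_mul, τ.trace_eq, τ.norm_eq, em_mul_apply,
    em_sh0, em_sh1, em_sh2, hp, hs, map_ofNat, τ.h_eq, τ.g_eq, hD, ← hd]
  simp only [cb]
  ring

end

/-! ### The coordinates of the cube -/

section

variable (τ : Tri K M E) (φ : M ≃ₗ[K] (Fin 3 → K))

theorem symm_eq_sum (φ : M ≃ₗ[K] (Fin 3 → K)) (k : Fin 3 → K) :
    φ.symm k = ∑ l, k l • φ.symm (Pi.single l 1) := by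
  conv_lhs => rw [← Finset.univ_sum_single k]
  rw [map_sum]
  refine Finset.sum_congr rfl fun l _ => ?_
  rw [← map_smul]
  congr 1
  ext j
  by_cases h : j = l
  · subst h; simp
  · simp [h]

theorem em_symm (k : Fin 3 → K) (i : Fin 3) :
    τ.em (φ.symm k) i = ∑ l, algebraMap K E (k l) * τ.em (φ.symm (Pi.single l 1)) i := by
  unfold em
  rw [symm_eq_sum, map_sum]
  refine Finset.sum_congr rfl fun l _ => ?_
  rw [map_smul, Algebra.smul_def]

/-- The matrix of the coordinates. -/
def mat : Matrix (Fin 3) (Fin 3) E := Matrix.of fun i l => τ.em (φ.symm (Pi.single l 1)) i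

theorem det_mat : (τ.mat φ).det ≠ 0 := by
  have hli : LinearIndependent E (τ.mat φ).row := by
    rw [Fintype.linearIndependent_iff]
    intro c hc
    have h1 := (linearIndependent_algHom_toLinearMap K M E).comp τ.σ τ.bij.1
    rw [Fintype.linearIndependent_iff] at h1
    apply h1 c
    ext x
    have hx : x = φ.symm (φ x) := (φ.symm_apply_apply x).symm
    have hs : ∀ i, τ.σ i x =
        ∑ l, algebraMap K E (φ x l) * τ.em (φ.symm (Pi.single l 1)) i := fun i => by
      conv_lhs => rw [hx]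
      exact τ.em_symm φ (φ x) i
    simp only [LinearMap.coe_sum, Finset.sum_apply, LinearMap.smul_apply, Function.comp_apply,
      AlgHom.toLinearMap_apply, LinearMap.zero_apply, hs, smul_eq_mul, Finset.mul_sum]
    rw [Finset.sum_comm]
    refine Finset.sum_eq_zero fun l _ => ?_
    have h2 := congrFun hc l
    simp only [Finset.sum_apply, Pi.smul_apply, smul_eq_mul, Pi.zero_apply, Matrix.row, mat,
      Matrix.of_apply] at h2
    calc ∑ i, c i * (algebraMap K E (φ x l) * τ.em (φ.symm (Pi.single l 1)) i)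
        = algebraMap K E (φ x l) * ∑ i, c i * τ.em (φ.symm (Pi.single l 1)) i := by
          rw [Finset.mul_sum]
          exact Finset.sum_congr rfl fun i _ => by ring
      _ = 0 := by rw [h2, mul_zero]
  exact (Matrix.linearIndependent_rows_iff_isUnit.1 hli).map Matrix.detMonoidHom |>.ne_zero

/-- The coordinates in `E ^ 3`. -/
def ze (v : Fin 3 → E) : Fin 3 → E := (τ.mat φ).mulVec v

theorem ze_apply (v : Fin 3 → E) (i : Fin 3) :
    τ.ze φ v i = ∑ l, v l * τ.em (φ.symm (Pi.single l 1)) i := by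
  rw [ze, Matrix.mulVec, dotProduct]
  exact Finset.sum_congr rfl fun l _ => mul_comm _ _

/-- The coordinates of a `K`-rational point. -/
theorem ze_rat (z : M) : τ.ze φ (fun l => algebraMap K E (φ z l)) = τ.em z := by
  funext i
  rw [ze_apply, ← τ.em_symm φ (φ z), φ.symm_apply_apply]

theorem ze_injective : Function.Injective (τ.ze φ) := by
  intro v w h
  exact Matrix.mulVec_injective_of_isUnit
    ((Matrix.isUnit_iff_isUnit_det _).2 (isUnit_iff_ne_zero.2 (τ.det_mat φ))) h

theorem ze_surjective (z : Fin 3 → E) : ∃ v, τ.ze φ v = z := by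
  refine ⟨(τ.mat φ)⁻¹.mulVec z, ?_⟩
  rw [ze, Matrix.mulVec_mulVec, Matrix.mul_nonsing_inv _ (isUnit_iff_ne_zero.2 (τ.det_mat φ)),
    Matrix.one_mulVec]

end

end Tri

/-- A polynomial which is known at the `K`-rational points. -/
theorem aeval_of_rational [Infinite K] (f : MvPolynomial (Fin 3) K) (P : MvPolynomial (Fin 3) E)
    (h : ∀ k : Fin 3 → K, algebraMap K E (eval k f) = eval (fun i => algebraMap K E (k i)) P)
    (v : Fin 3 → E) : aeval v f = eval v P := by
  have hP : map (algebraMap K E) f = P := by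
    apply funext_set (fun _ => Set.range (algebraMap K E))
    · intro _
      exact Set.infinite_range_of_injective (algebraMap K E).injective
    · intro x hx
      have hx' : ∀ i, ∃ k, algebraMap K E k = x i := fun i => hx i (Set.mem_univ i)
      choose k hk using hx'
      have hx2 : x = fun i => algebraMap K E (k i) := funext fun i => (hk i).symm
      rw [hx2, ← h k, eval_map]
      exact (eval₂_comp_left (algebraMap K E) (RingHom.id K) k f).symm
  rw [← hP, eval_map, aeval_def]

/-- **The polynomial in the coordinates of `E ^ 3`.** -/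
theorem Tri.aeval_eq [CharZero K] [IsAlgClosed E] [FiniteDimensional K M] (τ : Tri K M E)
    {C : Cube K M} {f : MvPolynomial (Fin 3) K} (P : C.Param f) (v : Fin 3 → E) :
    aeval v f = (τ.cb C).c 1 (τ.ze P.φ v) := by
  have h := aeval_of_rational f ((⟨MvPolynomial.C (τ.cb C).al, MvPolynomial.C (τ.cb C).be,
    fun i => MvPolynomial.C ((τ.cb C).m i), fun i => MvPolynomial.C ((τ.cb C).n i)⟩ :
      Cb (MvPolynomial (Fin 3) E)).c 1
        fun i => ∑ l, X l * MvPolynomial.C (τ.em (P.φ.symm (Pi.single l 1)) i)) (fun k => ?_) v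
  · rw [h]
    simp only [Cb.c, map_add, map_mul, eval_C, Pi.one_apply, map_one, map_sum, eval_X, ze_apply]
  · have h1 : eval k f = C.aff (P.φ.symm k) := by rw [← P.eq, P.φ.apply_symm_apply]
    have hs : ∀ i, τ.em (P.φ.symm k) i = _ := fun i => τ.em_symm P.φ k i
    rw [h1, τ.aff_eq]
    simp only [Cb.c, map_add, map_mul, eval_C, Pi.one_apply, map_one, map_sum, eval_X, hs]

end Pool.Agent.G18
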