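import Pool.Agent.G18.RS
import Pool.Agent.G18.Prod

/-!
# G18: the link in coordinates over an algebraically closed field
-/

set_option autoImplicit false

noncomputable section

namespace Pool.Agent.G18

variable {K Ω E : Type} [Field K] [Field Ω] [Field E] [Algebra K Ω] [Algebra Ω E]

/-- the rational number `G(a, b)` -/
def Cb.Gs {R : Type} [CommRing R] (C : Cb R) (a b : Fin 3 → R) : R :=
  C.g * (a 0 * a 1 * a 2 + C.D * (a 0 * (b 1 * b 2) + a 1 * (b 2 * b 0) + a 2 * (b 0 * b 1))) +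
    C.al * C.D * (a 1 * a 2 * b 0 + a 2 * a 0 * b 1 + a 0 * a 1 * b 2 + C.D * (b 0 * b 1 * b 2))

theorem Cb.two_Gs {R : Type} [CommRing R] (C : Cb R) {δ : R} (hδ : δ ^ 2 = C.D)
    (a b : Fin 3 → R) :
    (C.g + C.al * δ) * ((a 0 + δ * b 0) * (a 1 + δ * b 1) * (a 2 + δ * b 2)) +
      (C.g - C.al * δ) * ((a 0 - δ * b 0) * (a 1 - δ * b 1) * (a 2 - δ * b 2)) =
      2 * C.Gs a b := by
  rw [Cb.Gs, ← hδ]
  ring

theorem Cb.Gs_smul {R : Type} [CommRing R] (C : Cb R) (l : R) (a b : Fin 3 → R) :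
    C.Gs (l • a) (l • b) = l ^ 3 * C.Gs a b := by
  simp only [Cb.Gs, Pi.smul_apply, smul_eq_mul]
  ring

/-- the number `p = a ^ 2 - D b ^ 2` -/
def Cb.p {R : Type} [CommRing R] (C : Cb R) (a b : Fin 3 → R) : Fin 3 → R :=
  fun i => a i ^ 2 - C.D * b i ^ 2

/-- rank one -/
structure Rk {R : Type} [CommRing R] (C : Cb R) (δ : R) (w : Fin 3 → Fin 3 → R) : Prop where
  e0 : ∀ i, w 0 (i + 1) * w 0 (i + 2) = C.h * ((w 1 i + δ * w 2 i) * (w 1 i - δ * w 2 i))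
  e1 : ∀ i, w 0 i * (w 1 i - δ * w 2 i) =
    (C.g + C.al * δ) * ((w 1 (i + 1) + δ * w 2 (i + 1)) * (w 1 (i + 2) + δ * w 2 (i + 2)))
  e2 : ∀ i, w 0 i * (w 1 i + δ * w 2 i) =
    (C.g - C.al * δ) * ((w 1 (i + 1) - δ * w 2 (i + 1)) * (w 1 (i + 2) - δ * w 2 (i + 2)))

/-- the data of a side are rational over `K` -/
structure Side (S : RS K Ω E) (C : Cb E) (δ : E) : Prop where
  del : δ ^ 2 = C.D
  al : ∃ s ∈ (⊥ : IntermediateField K Ω), C.al = algebraMap Ω E s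
  be : ∃ s ∈ (⊥ : IntermediateField K Ω), C.be = algebraMap Ω E s
  m : C.m ∈ S.R ⊥
  n : C.n ∈ S.R ⊥
  D0 : C.D ≠ 0
  h0 : C.h ≠ 0

/-- an element of `E` which is rational over `T` -/
def InT (T : IntermediateField K Ω) (x : E) : Prop := ∃ s ∈ T, x = algebraMap Ω E s

namespace InT

variable {T : IntermediateField K Ω} {x y : E}

theorem add (hx : InT T x) (hy : InT T y) : InT T (x + y) := by
  obtain ⟨s, hs, rfl⟩ := hx
  obtain ⟨t, ht, rfl⟩ := hy
  exact ⟨s + t, T.add_mem hs ht, (map_add _ _ _).symm⟩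

theorem mul (hx : InT T x) (hy : InT T y) : InT T (x * y) := by
  obtain ⟨s, hs, rfl⟩ := hx
  obtain ⟨t, ht, rfl⟩ := hy
  exact ⟨s * t, T.mul_mem hs ht, (map_mul _ _ _).symm⟩

theorem neg (hx : InT T x) : InT T (-x) := by
  obtain ⟨s, hs, rfl⟩ := hx
  exact ⟨-s, T.neg_mem hs, (map_neg _ _).symm⟩

theorem sub (hx : InT T x) (hy : InT T y) : InT T (x - y) := by
  rw [sub_eq_add_neg]
  exact hx.add hy.neg

theorem inv (hx : InT T x) : InT T x⁻¹ := by
  obtain ⟨s, hs, rfl⟩ := hx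
  exact ⟨s⁻¹, T.inv_mem hs, (map_inv₀ _ _).symm⟩

theorem nat (n : ℕ) : InT T (n : E) := ⟨n, T.natCast_mem n, (map_natCast _ _).symm⟩

theorem pow (hx : InT T x) (n : ℕ) : InT T (x ^ n) := by
  obtain ⟨s, hs, rfl⟩ := hx
  exact ⟨s ^ n, pow_mem hs n, (map_pow _ _ _).symm⟩

theorem mono {T' : IntermediateField K Ω} (h : T ≤ T') (hx : InT T x) : InT T' x := by
  obtain ⟨s, hs, rfl⟩ := hx
  exact ⟨s, h hs, rfl⟩

end InT

namespace RS

variable (S : RS K Ω E) {T : IntermediateField K Ω}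

theorem smulT {a : Fin 3 → E} (ha : a ∈ S.R T) {x : E} (hx : InT T x) : x • a ∈ S.R T := by
  obtain ⟨s, hs, rfl⟩ := hx
  exact S.smul ha hs

theorem constT {x : E} (hx : InT T x) : (fun _ => x : Fin 3 → E) ∈ S.R T := by
  obtain ⟨s, hs, rfl⟩ := hx
  exact S.const hs

end RS

namespace Side

variable {S : RS K Ω E} {C : Cb E} {δ : E} (hs : Side S C δ) (T : IntermediateField K Ω)

include hs

theorem alT : InT T C.al := InT.mono bot_le hs.al

theorem beT : InT T C.be := InT.mono bot_le hs.be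

theorem mT : C.m ∈ S.R T := S.mono bot_le hs.m

theorem nT : C.n ∈ S.R T := S.mono bot_le hs.n

theorem TT : InT T C.T := by
  obtain ⟨s, h1, h2⟩ := S.sum (S.mul (hs.mT T) (hs.nT T))
  exact ⟨s, h1, h2⟩

theorem DT : InT T C.D := by
  have h1 : InT T (![(C.m * C.n) 1 * (C.m * C.n) 2, (C.m * C.n) 2 * (C.m * C.n) 0,
      (C.m * C.n) 0 * (C.m * C.n) 1] 0 + ![(C.m * C.n) 1 * (C.m * C.n) 2,
      (C.m * C.n) 2 * (C.m * C.n) 0, (C.m * C.n) 0 * (C.m * C.n) 1] 1 +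
      ![(C.m * C.n) 1 * (C.m * C.n) 2, (C.m * C.n) 2 * (C.m * C.n) 0,
      (C.m * C.n) 0 * (C.m * C.n) 1] 2) := S.sum (S.sh (S.mul (hs.mT T) (hs.nT T)))
  have h2 : InT T (C.n 0 * C.n 1 * C.n 2) := S.prod (hs.nT T)
  have h3 : InT T (C.m 0 * C.m 1 * C.m 2) := S.prod (hs.mT T)
  have h4 : InT T (4 : E) := by exact_mod_cast InT.nat (E := E) (T := T) 4
  have h5 := (((((((hs.alT T).mul (hs.beT T)).sub (hs.TT T)).pow 2).sub (h4.mul h1)).add
    ((h4.mul (hs.alT T)).mul h2)).add ((h4.mul (hs.beT T)).mul h3))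
  convert h5 using 1
  simp only [Cb.D, Pi.mul_apply, Matrix.cons_val_zero, Matrix.cons_val_one, Matrix.cons_val]
  ring

theorem gT : InT T C.g := by
  have h3 : InT T (C.m 0 * C.m 1 * C.m 2) := S.prod (hs.mT T)
  have h4 : InT T (2 : E) := by exact_mod_cast InT.nat (E := E) (T := T) 2
  exact ((((hs.alT T).pow 2).mul (hs.beT T)).sub ((hs.alT T).mul (hs.TT T))).add (h4.mul h3)

theorem hT : InT T C.h := ((hs.gT T).pow 2).sub (((hs.alT T).pow 2).mul (hs.DT T))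

theorem uT : C.u ∈ S.R T := by
  have h := S.sub (S.sh (hs.mT T)) (S.smulT (hs.nT T) (hs.alT T))
  convert h using 1
  funext i
  fin_cases i
  · simp [Cb.u]
  · simp [Cb.u]
    ring
  · simp [Cb.u]

theorem BT : C.B ∈ S.R T := by
  have h4 : InT T (2 : E) := by exact_mod_cast InT.nat (E := E) (T := T) 2
  have h := S.neg (S.sub (S.add (S.constT ((hs.alT T).mul (hs.beT T)))
    (S.smulT (S.mul (hs.mT T) (hs.nT T)) h4)) (S.constT (hs.TT T)))
  convert h using 1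
  funext i
  simp only [Cb.B, Pi.neg_apply, Pi.sub_apply, Pi.add_apply, Pi.mul_apply, Pi.smul_apply,
    smul_eq_mul]

theorem aT {y z : Fin 3 → E} (hy : y ∈ S.R T) (hz : z ∈ S.R T) : C.a y z ∈ S.R T := by
  have h4 : InT T (2 : E) := by exact_mod_cast InT.nat (E := E) (T := T) 2
  have h := S.add (S.mul (S.smulT (hs.uT T) h4) hy) (S.mul (hs.BT T) hz)
  convert h using 1
  funext i
  simp only [Cb.a, Pi.add_apply, Pi.mul_apply, Pi.smul_apply, smul_eq_mul]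

theorem u_ne (i : Fin 3) : C.u i ≠ 0 := by
  have h := hs.h0
  rw [C.h_eq] at h
  intro h0
  apply h
  fin_cases i <;> simp_all

theorem GsT {a b : Fin 3 → E} (ha : a ∈ S.R T) (hb : b ∈ S.R T) : InT T (C.Gs a b) := by
  have h1 : InT T (a 0 * a 1 * a 2) := S.prod ha
  have h2 : InT T (b 0 * b 1 * b 2) := S.prod hb
  have h3 : InT T _ := S.sum (S.mul ha (S.sh hb))
  have h4 : InT T _ := S.sum (S.mul (S.sh ha) hb)
  have h5 := ((hs.gT T).mul (h1.add ((hs.DT T).mul h3))).add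
    (((hs.alT T).mul (hs.DT T)).mul (h4.add ((hs.DT T).mul h2)))
  convert h5 using 1
  simp only [Cb.Gs, Pi.mul_apply, Matrix.cons_val_zero, Matrix.cons_val_one, Matrix.cons_val]

theorem pT {a b : Fin 3 → E} (ha : a ∈ S.R T) (hb : b ∈ S.R T) : C.p a b ∈ S.R T := by
  have h := S.sub (S.mul ha ha) (S.smulT (S.mul hb hb) (hs.DT T))
  convert h using 1
  funext i
  simp only [Cb.p, Pi.sub_apply, Pi.mul_apply, Pi.smul_apply, smul_eq_mul]
  ring

end Side

end Pool.Agent.G18
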