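import Pool.Agent.G18.Core

/-!
# G18: the link in coordinates over an algebraically closed field, the proof
-/

set_option autoImplicit false

noncomputable section

namespace Pool.Agent.G18

variable {K Ω E : Type} [Field K] [Field Ω] [Field E] [Algebra K Ω] [Algebra Ω E]

section

variable {C : Cb E} {δ : E} {w : Fin 3 → Fin 3 → E}

omit [Algebra Ω E] [Field K] [Algebra K Ω] in
theorem Rk.p_mul [CharZero E] (hδ : δ ^ 2 = C.D) (h : Rk C δ w) (i : Fin 3) :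
    w 0 i * C.p (w 1) (w 2) i = C.Gs (w 1) (w 2) := by
  have h2 := C.two_Gs hδ (w 1) (w 2)
  have e1 := h.e1
  have e2 := h.e2
  have e : ∀ i, w 0 i * C.p (w 1) (w 2) i = (C.g + C.al * δ) * ((w 1 0 + δ * w 2 0) *
      (w 1 1 + δ * w 2 1) * (w 1 2 + δ * w 2 2)) := by
    intro i
    have h3 := e1 i
    rw [Cb.p, ← hδ]
    fin_cases i
    · simp only [Fin.zero_eta, Fin.isValue, zero_add] at h3 ⊢
      linear_combination (w 1 0 + δ * w 2 0) * h3
    · simp only [Fin.mk_one, Fin.isValue, Fin.reduceAdd] at h3 ⊢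
      linear_combination (w 1 1 + δ * w 2 1) * h3
    · simp only [Fin.reduceFinMk, Fin.isValue, Fin.reduceAdd] at h3 ⊢
      linear_combination (w 1 2 + δ * w 2 2) * h3
  have e' : w 0 0 * C.p (w 1) (w 2) 0 = (C.g - C.al * δ) * ((w 1 0 - δ * w 2 0) *
      (w 1 1 - δ * w 2 1) * (w 1 2 - δ * w 2 2)) := by
    have h3 := e2 0
    rw [Cb.p, ← hδ]
    simp only [Fin.isValue, zero_add] at h3 ⊢
    linear_combination (w 1 0 - δ * w 2 0) * h3
  have h4 := e 0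
  have h5 := e i
  have h6 : (2 : E) ≠ 0 := two_ne_zero
  apply mul_left_cancel₀ h6
  linear_combination 2 * h5 - 2 * h4 + h4 + e' + h2 

omit [Algebra Ω E] [Field K] [Algebra K Ω] in
theorem Rk.c_zero [CharZero E] (hδ : δ ^ 2 = C.D) (hD : C.D ≠ 0) (hh : C.h ≠ 0) (h : Rk C δ w)
    {y : Fin 3 → E} (hy : C.a y (w 2) = w 1) : C.c y (w 2) = 0 := by
  have h1 := C.prod_id hδ y (w 2)
  rw [hy] at h1
  have e1 := h.e1 0
  have e2 := h.e2 0
  have hδ0 : δ ≠ 0 := by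
    rintro rfl
    apply hD
    rw [← hδ]
    ring
  simp only [Fin.isValue, zero_add] at e1 e2
  have h2 : 4 * C.h * δ * C.c y (w 2) = 0 := by
    rw [← h1]
    linear_combination -(w 1 0 + δ * w 2 0) * e1 + (w 1 0 - δ * w 2 0) * e2
  have h3 : (4 * C.h * δ : E) ≠ 0 := mul_ne_zero (mul_ne_zero (by norm_num) hh) hδ0
  exact (mul_eq_zero.1 h2).resolve_left h3

omit [Algebra Ω E] [Field K] [Algebra K Ω] in
/-- the converse -/
theorem Rk.of [CharZero E] (hδ : δ ^ 2 = C.D) {y z : Fin 3 → E} (hc : C.c y z = 0)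
    (hp : ∀ i, C.p (C.a y z) z i ≠ 0) :
    Rk C δ ![C.Gs (C.a y z) z • (C.p (C.a y z) z)⁻¹, C.a y z, z] := by
  have h1 := C.prod_id hδ y z
  have h2 := C.two_Gs hδ (C.a y z) z
  have h3 := C.h_fac hδ
  rw [hc, mul_zero] at h1
  set a := C.a y z with ha
  have hP : (C.g + C.al * δ) * ((a 0 + δ * z 0) * (a 1 + δ * z 1) * (a 2 + δ * z 2)) =
      C.Gs a z := by
    have h6 : (2 : E) ≠ 0 := two_ne_zero
    apply mul_left_cancel₀ h6
    linear_combination h1 + h2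
  have hM : (C.g - C.al * δ) * ((a 0 - δ * z 0) * (a 1 - δ * z 1) * (a 2 - δ * z 2)) =
      C.Gs a z := by
    linear_combination hP - h1
  have hp' : ∀ i, C.p a z i = (a i + δ * z i) * (a i - δ * z i) := by
    intro i
    rw [Cb.p, ← hδ]
    ring
  have hA : ∀ i, a i + δ * z i ≠ 0 := fun i h => hp i (by rw [hp', h, zero_mul])
  have hB : ∀ i, a i - δ * z i ≠ 0 := fun i h => hp i (by rw [hp', h, mul_zero])
  have hx : ∀ i, (C.Gs a z • (C.p a z)⁻¹) i = C.Gs a z / ((a i + δ * z i) * (a i - δ * z i)) := by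
    intro i
    rw [Pi.smul_apply, Pi.inv_apply, hp', smul_eq_mul, div_eq_mul_inv]
  refine ⟨fun i => ?_, fun i => ?_, fun i => ?_⟩
  · simp only [Matrix.cons_val_zero, Matrix.cons_val_one, Matrix.cons_val]
    rw [hx, hx, div_mul_div_comm, div_eq_iff (mul_ne_zero (mul_ne_zero (hA _) (hB _))
      (mul_ne_zero (hA _) (hB _))), ← h3]
    nth_rw 1 [← hP]
    rw [← hM]
    fin_cases i
    · simp only [Fin.zero_eta, Fin.isValue, zero_add]
      ring
    · simp only [Fin.mk_one, Fin.isValue, Fin.reduceAdd]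
      ring
    · simp only [Fin.reduceFinMk, Fin.isValue, Fin.reduceAdd]
      ring
  · simp only [Matrix.cons_val_zero, Matrix.cons_val_one, Matrix.cons_val]
    rw [hx, div_mul_eq_mul_div, div_eq_iff (mul_ne_zero (hA _) (hB _)), ← hP]
    fin_cases i
    · simp only [Fin.zero_eta, Fin.isValue, zero_add]
      ring
    · simp only [Fin.mk_one, Fin.isValue, Fin.reduceAdd]
      ring
    · simp only [Fin.reduceFinMk, Fin.isValue, Fin.reduceAdd]
      ring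
  · simp only [Matrix.cons_val_zero, Matrix.cons_val_one, Matrix.cons_val]
    rw [hx, div_mul_eq_mul_div, div_eq_iff (mul_ne_zero (hA _) (hB _)), ← hM]
    fin_cases i
    · simp only [Fin.zero_eta, Fin.isValue, zero_add]
      ring
    · simp only [Fin.mk_one, Fin.isValue, Fin.reduceAdd]
      ring
    · simp only [Fin.reduceFinMk, Fin.isValue, Fin.reduceAdd]
      ring

end

/-- The claim: a common factor of `y'`. -/
theorem back [CharZero E] {S₁ S₂ : RS K Ω E} {C₁ C₂ : Cb E} {δ₁ δ₂ : E} (H₁ : Side S₁ C₁ δ₁)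
    (H₂ : Side S₂ C₂ δ₂) (Φ : (Fin 3 → Fin 3 → E) ≃ₗ[E] (Fin 3 → Fin 3 → E))
    (hΦ' : ∀ T w, (∀ k, w k ∈ S₂.R T) → ∀ k, Φ.symm w k ∈ S₁.R T)
    {T : IntermediateField K Ω} {v' u y' : Fin 3 → E} {l : Ω} (hl : l ≠ 0)
    {w : Fin 3 → Fin 3 → E} (hw : Rk C₂ δ₂ (Φ w)) (hR : ∀ k, Φ w k ∈ S₂.R ⊤)
    (hy' : y' = algebraMap Ω E l • u) (hu : u ∈ S₂.R T) (hv' : v' ∈ S₂.R T)
    (ha : Φ w 1 = C₂.a y' (y' * v')) (hb : Φ w 2 = y' * v')
    {q v : Fin 3 → E} (hq1 : w 1 = C₁.a q (q * v)) (hq2 : w 2 = q * v) (hq : ∀ i, q i ≠ 0) :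
    v ∈ S₁.R T := by
  have hl' : algebraMap Ω E l ≠ 0 := (map_ne_zero _).2 hl
  set L := algebraMap Ω E l with hL
  set b₀ := u * v' with hb₀
  set a₀ := C₂.a u b₀ with ha₀
  have hb₀T : b₀ ∈ S₂.R T := S₂.mul hu hv'
  have ha₀T : a₀ ∈ S₂.R T := H₂.aT T hu hb₀T
  have hb1 : Φ w 2 = L • b₀ := by
    rw [hb, hy', smul_mul_assoc]
  have ha1 : Φ w 1 = L • a₀ := by
    rw [ha, hy', smul_mul_assoc]
    funext i
    simp only [ha₀, Cb.a, Pi.smul_apply, smul_eq_mul]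
    ring
  have hpT : C₂.p a₀ b₀ ∈ S₂.R T := H₂.pT T ha₀T hb₀T
  have hp1 : C₂.p (Φ w 1) (Φ w 2) = L ^ 2 • C₂.p a₀ b₀ := by
    rw [ha1, hb1]
    funext i
    simp only [Cb.p, Pi.smul_apply, smul_eq_mul]
    ring
  obtain ⟨x₀, hx₀T, hx1⟩ : ∃ x₀ ∈ S₂.R T, Φ w 0 = L • x₀ := by
    by_cases hp : C₂.p a₀ b₀ = 0
    · refine ⟨0, S₂.zero T, ?_⟩
      rw [smul_zero]
      by_contra hne
      have h1 := S₂.fld _ (hR 0) hne
      have h2 := hw.e0 0
      have h3 : C₂.p (Φ w 1) (Φ w 2) 0 = 0 := by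
        rw [hp1, hp]
        simp
      have h4 : (Φ w 1 0 + δ₂ * Φ w 2 0) * (Φ w 1 0 - δ₂ * Φ w 2 0) = 0 := by
        rw [← h3, Cb.p, ← H₂.del]
        ring
      rw [h4, mul_zero] at h2
      exact (mul_ne_zero (h1 _) (h1 _)) h2
    · have hpi := S₂.fld _ (S₂.mono le_top hpT) hp
      refine ⟨C₂.Gs a₀ b₀ • (C₂.p a₀ b₀)⁻¹, S₂.smulT (S₂.inv hpT hpi) (H₂.GsT T ha₀T hb₀T), ?_⟩
      funext i
      have h1 := hw.p_mul H₂.del i
      rw [hp1, ha1, hb1, Cb.Gs_smul] at h1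
      simp only [Pi.smul_apply, Pi.inv_apply, smul_eq_mul] at h1 ⊢
      have h2 := hpi i
      rw [← mul_assoc L, eq_comm, mul_inv_eq_iff_eq_mul₀ h2]
      apply mul_left_cancel₀ (pow_ne_zero 2 hl')
      linear_combination -h1
  set w₀ : Fin 3 → Fin 3 → E := ![x₀, a₀, b₀] with hw₀
  have hw₀T : ∀ k, w₀ k ∈ S₂.R T := by
    intro k
    fin_cases k
    · exact hx₀T
    · exact ha₀T
    · exact hb₀T
  have hw1 : Φ w = L • w₀ := by
    funext k
    fin_cases k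
    · exact hx1
    · exact ha1
    · exact hb1
  have hw2 : w = L • Φ.symm w₀ := by
    rw [← map_smul, ← hw1, LinearEquiv.symm_apply_apply]
  have hT := hΦ' T w₀ hw₀T
  set w₁ := Φ.symm w₀ with hw₁
  have e1 : w 1 = L • w₁ 1 := by rw [hw2]; rfl
  have e2 : w 2 = L • w₁ 2 := by rw [hw2]; rfl
  have h2T : InT T (2 : E) := by exact_mod_cast InT.nat (E := E) (T := T) 2
  have h20 : (2 : E) ≠ 0 := two_ne_zero
  have huT : (2 : E) • C₁.u ∈ S₁.R T := S₁.smulT (H₁.uT T) h2T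
  have hune : ∀ i, ((2 : E) • C₁.u) i ≠ 0 := fun i => mul_ne_zero h20 (H₁.u_ne i)
  set q₁ : Fin 3 → E := (w₁ 1 - C₁.B * w₁ 2) * ((2 : E) • C₁.u)⁻¹ with hq₁
  have hq₁T : q₁ ∈ S₁.R T :=
    S₁.mul (S₁.sub (hT 1) (S₁.mul (H₁.BT T) (hT 2))) (S₁.inv huT hune)
  have hqq : ∀ i, q i = L * q₁ i := by
    intro i
    have h1 := congrFun hq1 i
    have h2 := congrFun hq2 i
    rw [e1] at h1
    rw [e2] at h2
    simp only [Cb.a, Pi.smul_apply, smul_eq_mul, Pi.mul_apply] at h1 h2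
    have h3 := H₁.u_ne i
    simp only [hq₁, Pi.mul_apply, Pi.sub_apply, Pi.inv_apply, Pi.smul_apply, smul_eq_mul]
    field_simp
    linear_combination C₁.B i * h2 - h1
  have hq₁ne : ∀ i, q₁ i ≠ 0 := by
    intro i h0
    apply hq i
    rw [hqq, h0, mul_zero]
  have hv : v = q₁⁻¹ * w₁ 2 := by
    funext i
    have h2 := congrFun hq2 i
    rw [e2] at h2
    simp only [Pi.smul_apply, smul_eq_mul, Pi.mul_apply, Pi.inv_apply] at h2 ⊢
    rw [hqq i] at h2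
    have h3 := hq₁ne i
    field_simp
    apply mul_left_cancel₀ hl'
    linear_combination -h2
  rw [hv]
  exact S₁.mul (S₁.inv hq₁T hq₁ne) (hT 2)

end Pool.Agent.G18
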