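import Pool.Agent.G18.Core2

/-!
# G18: the link in coordinates over an algebraically closed field, the theorem
-/

set_option autoImplicit false

noncomputable section

namespace Pool.Agent.G18

variable {K Ω E : Type} [Field K] [Field Ω] [Field E] [Algebra K Ω] [Algebra Ω E]

open IntermediateField in
/-- **The link**, in coordinates. -/
theorem core [CharZero E] {S₁ S₂ : RS K Ω E} {C₁ C₂ : Cb E} {δ₁ δ₂ : E} (H₁ : Side S₁ C₁ δ₁)
    (H₂ : Side S₂ C₂ δ₂) (hbe : C₂.be ≠ 0) (Φ : (Fin 3 → Fin 3 → E) ≃ₗ[E] (Fin 3 → Fin 3 → E))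
    (hΦ : ∀ T w, (∀ k, w k ∈ S₁.R T) → ∀ k, Φ w k ∈ S₂.R T)
    (hΦ' : ∀ T w, (∀ k, w k ∈ S₂.R T) → ∀ k, Φ.symm w k ∈ S₁.R T)
    (hW : ∀ w, Rk C₁ δ₁ w → Rk C₂ δ₂ (Φ w))
    {t s t' s' : Fin 2 → Fin 3 → E} (ht : ∀ j, t j ∈ S₁.R ⊥) (hs : ∀ j, s j ∈ S₁.R ⊥)
    (ht' : ∀ j, t' j ∈ S₂.R ⊥) (hs' : ∀ j, s' j ∈ S₂.R ⊥)
    (hform : ∀ w j, dt3 (t j) (w 1) + dt3 (s j) (w 2) = dt3 (t' j) (Φ w 1) + dt3 (s' j) (Φ w 2))
    (h0 : ¬(t' 0 = 0 ∧ s' 0 = 0)) (hind : ∀ σ : E, ¬(t' 1 = σ • t' 0 ∧ s' 1 = σ • s' 0))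
    {v : Fin 3 → E} (hv : v ∈ S₁.R ⊤) (hc : C₁.c 1 v = 0) (hp : C₁.p (C₁.a 1 v) v ≠ 0)
    (hgen : ∀ T, v ∈ S₁.R T → T = ⊤) :
    (∃ v' ∈ S₂.R ⊤, C₂.c 1 v' = 0 ∧ ∀ T, v' ∈ S₂.R T → T = ⊤) ∨
      ∃ x : Fin 2 → Ω, adjoin K (Set.range x) = ⊤ := by
  have h20 : (2 : E) ≠ 0 := two_ne_zero
  have h2T : ∀ T : IntermediateField K Ω, InT T (2 : E) := fun T => by
    exact_mod_cast InT.nat (E := E) (T := T) 2
  -- the point `q`
  have hAT : ∀ j, t j * (((2 : E) • C₁.u) + C₁.B * v) + s j * v ∈ S₁.R ⊤ := fun j =>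
    S₁.add (S₁.mul (S₁.mono bot_le (ht j)) (S₁.add (S₁.smulT (H₁.uT ⊤) (h2T ⊤))
      (S₁.mul (H₁.BT ⊤) hv))) (S₁.mul (S₁.mono bot_le (hs j)) hv)
  obtain ⟨q, hqT, hq0, hq1, hq2⟩ := S₁.exists_zero (hAT 0) (hAT 1)
  have hq := S₁.fld q hqT hq0
  have hqv : q * v ∈ S₁.R ⊤ := S₁.mul hqT hv
  set a := C₁.a q (q * v) with ha
  have haT : a ∈ S₁.R ⊤ := H₁.aT ⊤ hqT hqv
  have hfq : ∀ j, dt3 (t j) a + dt3 (s j) (q * v) = 0 := by
    intro j
    have e : dt3 (t j) a + dt3 (s j) (q * v) =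
        dt3 (t j * (((2 : E) • C₁.u) + C₁.B * v) + s j * v) q := by
      simp only [dt3, ha, Cb.a, Pi.add_apply, Pi.mul_apply, Pi.smul_apply, smul_eq_mul]
      ring
    rw [e]
    fin_cases j
    · exact hq1
    · exact hq2
  have hcq : C₁.c q (q * v) = 0 := by
    have e : C₁.c q (q * v) = q 0 * q 1 * q 2 * C₁.c 1 v := by
      simp only [Cb.c, Pi.mul_apply, Pi.one_apply]
      ring
    rw [e, hc, mul_zero]
  have hpT : C₁.p (C₁.a 1 v) v ∈ S₁.R ⊤ := H₁.pT ⊤ (H₁.aT ⊤ (S₁.one ⊤) hv) hv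
  have hp' := S₁.fld _ hpT hp
  have hpq : ∀ i, C₁.p a (q * v) i ≠ 0 := by
    intro i
    have e : C₁.p a (q * v) i = q i ^ 2 * C₁.p (C₁.a 1 v) v i := by
      simp only [Cb.p, ha, Cb.a, Pi.mul_apply, Pi.one_apply]
      ring
    rw [e]
    exact mul_ne_zero (pow_ne_zero 2 (hq i)) (hp' i)
  have hR₁ := Rk.of H₁.del hcq hpq
  set w : Fin 3 → Fin 3 → E := ![C₁.Gs a (q * v) • (C₁.p a (q * v))⁻¹, a, q * v] with hw
  have hwT : ∀ k, w k ∈ S₁.R ⊤ := by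
    intro k
    fin_cases k
    · exact S₁.smulT (S₁.inv (H₁.pT ⊤ haT hqv) hpq) (H₁.GsT ⊤ haT hqv)
    · exact haT
    · exact hqv
  have hR₂ := hW w hR₁
  have hT₂ := hΦ ⊤ w hwT
  -- the point `y'`
  have huT : (2 : E) • C₂.u ∈ S₂.R ⊤ := S₂.smulT (H₂.uT ⊤) (h2T ⊤)
  have hune : ∀ i, ((2 : E) • C₂.u) i ≠ 0 := fun i => mul_ne_zero h20 (H₂.u_ne i)
  set y' : Fin 3 → E := (Φ w 1 - C₂.B * Φ w 2) * ((2 : E) • C₂.u)⁻¹ with hy'
  have hy'T : y' ∈ S₂.R ⊤ :=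
    S₂.mul (S₂.sub (hT₂ 1) (S₂.mul (H₂.BT ⊤) (hT₂ 2))) (S₂.inv huT hune)
  have hay : C₂.a y' (Φ w 2) = Φ w 1 := by
    funext i
    simp only [Cb.a, hy', Pi.mul_apply, Pi.sub_apply, Pi.inv_apply, Pi.smul_apply, smul_eq_mul]
    have h3 := H₂.u_ne i
    field_simp
    ring
  have hc₂ := hR₂.c_zero H₂.del H₂.D0 H₂.h0 hay
  have hw0 : w ≠ 0 := by
    intro h
    apply hq 0
    have e1 : a 0 = 0 := congrFun (congrFun h 1) 0
    have e2 : (q * v) 0 = 0 := congrFun (congrFun h 2) 0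
    simp only [ha, Cb.a] at e1
    rw [e2, mul_zero, add_zero] at e1
    exact (mul_eq_zero.1 e1).resolve_left (mul_ne_zero h20 (H₁.u_ne 0))
  have hΦw0 : Φ w ≠ 0 := fun h => hw0 (by rwa [LinearEquiv.map_eq_zero_iff] at h)
  have hy'0 : y' ≠ 0 := by
    intro h
    apply hΦw0
    have e2 : Φ w 2 = 0 := by
      by_contra hne
      have h1 := S₂.fld _ (hT₂ 2) hne
      rw [h] at hc₂
      simp only [Cb.c, Pi.zero_apply, mul_zero, zero_mul, add_zero, zero_add] at hc₂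
      exact (mul_ne_zero hbe (mul_ne_zero (mul_ne_zero (h1 0) (h1 1)) (h1 2))) hc₂
    have e1 : Φ w 1 = 0 := by
      rw [← hay, e2, h]
      funext i
      simp [Cb.a]
    have e0 : Φ w 0 = 0 := by
      by_contra hne
      have h1 := S₂.fld _ (hT₂ 0) hne
      have h2 := hR₂.e0 0
      rw [e1, e2] at h2
      simp only [Pi.zero_apply, mul_zero, add_zero, sub_zero] at h2
      exact (mul_ne_zero (h1 _) (h1 _)) h2
    funext k
    fin_cases k
    · exact e0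
    · exact e1
    · exact e2
  have hyi := S₂.fld _ hy'T hy'0
  set v' : Fin 3 → E := y'⁻¹ * Φ w 2 with hv'
  have hv'T : v' ∈ S₂.R ⊤ := S₂.mul (S₂.inv hy'T hyi) (hT₂ 2)
  have hb' : Φ w 2 = y' * v' := by
    funext i
    simp only [hv', Pi.mul_apply, Pi.inv_apply]
    rw [mul_inv_cancel_left₀ (hyi i)]
  have ha' : Φ w 1 = C₂.a y' (y' * v') := by rw [← hb', hay]
  have hc' : C₂.c 1 v' = 0 := by
    have e : C₂.c y' (Φ w 2) = y' 0 * y' 1 * y' 2 * C₂.c 1 v' := by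
      rw [hb']
      simp only [Cb.c, Pi.mul_apply, Pi.one_apply]
      ring
    rw [hc₂] at e
    exact (mul_eq_zero.1 e.symm).resolve_left
      (mul_ne_zero (mul_ne_zero (hyi 0) (hyi 1)) (hyi 2))
  -- the equations for `y'`
  set τ : Fin 2 → Fin 3 → E := fun j => t' j * (((2 : E) • C₂.u) + C₂.B * v') + s' j * v' with hτ
  have hτT : ∀ (T : IntermediateField K Ω), v' ∈ S₂.R T → ∀ j, τ j ∈ S₂.R T := fun T hT j =>
    S₂.add (S₂.mul (S₂.mono bot_le (ht' j)) (S₂.add (S₂.smulT (H₂.uT T) (h2T T))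
      (S₂.mul (H₂.BT T) hT))) (S₂.mul (S₂.mono bot_le (hs' j)) hT)
  have hτ0 : ∀ j, dt3 (τ j) y' = 0 := by
    intro j
    have e := hform w j
    have e' : dt3 (t j) (w 1) + dt3 (s j) (w 2) = 0 := hfq j
    rw [e', ha', hb'] at e
    rw [e]
    simp only [dt3, hτ, Cb.a, Pi.add_apply, Pi.mul_apply, Pi.smul_apply, smul_eq_mul]
    ring
  obtain ⟨cy, -, hcy⟩ := (S₂.mem ⊤ y').1 hy'T
  have hcy0 : cy ≠ 0 := by
    intro h
    apply hy'0
    rw [hcy, h]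
    funext i
    simp
  choose T₀ hT₀ using fun j => S₂.covec (hτT ⊤ hv'T j)
  have hcov : ∀ j, dt3 (T₀ j) cy = 0 := by
    intro j
    have h1 := (hT₀ j).2.2.2 cy y' hcy
    rw [hτ0 j] at h1
    exact (map_eq_zero _).1 h1.symm
  have hcin : ∀ (T : IntermediateField K Ω), v' ∈ S₂.R T → ∀ j, In3 T (T₀ j) := by
    intro T hT j k
    obtain ⟨x, hx, hx'⟩ := S₂.dt (hτT T hT j) (S₂.b_mem T k)
    rw [(hT₀ j).2.1 k] at hx'
    rwa [(algebraMap Ω E).injective hx']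
  have fin : ∀ (T : IntermediateField K Ω) (cu : Fin 3 → Ω) (l : Ω), l ≠ 0 → cy = l • cu →
      In3 T cu → v' ∈ S₂.R T → T = ⊤ := by
    intro T cu l hl hcu hin hT
    apply hgen
    refine back H₁ H₂ Φ hΦ' hl hR₂ hT₂ (u := fun i => algebraMap Ω E (cu 0) * S₂.b 0 i +
      algebraMap Ω E (cu 1) * S₂.b 1 i + algebraMap Ω E (cu 2) * S₂.b 2 i) ?_
      ((S₂.mem T _).2 ⟨cu, hin, rfl⟩) hT ha' hb' (w := w) (q := q) rfl rfl hq
    rw [hcy, hcu]
    funext i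
    simp only [Pi.smul_apply, smul_eq_mul, map_mul]
    ring
  -- the decomposition of `τ`
  have hdec : ∀ j, τ j = (2 : E) • C₂.u * t' j + (t' j * C₂.B + s' j) * v' := by
    intro j
    simp only [hτ]
    ring
  have hu0 : ∀ (i : Fin 3), (2 : E) * C₂.u i ≠ 0 := fun i => mul_ne_zero h20 (H₂.u_ne i)
  by_cases hcr : cr3 (T₀ 0) (T₀ 1) = 0
  · right
    by_cases hT0 : T₀ 0 = 0
    · -- `τ 0 = 0`
      have hτ00 : τ 0 = 0 := (hT₀ 0).2.2.1 hT0
      rw [hdec] at hτ00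
      have hh0 : t' 0 * C₂.B + s' 0 ≠ 0 := by
        intro h
        apply h0
        rw [h, zero_mul, add_zero] at hτ00
        have e1 : t' 0 = 0 := by
          funext i
          have := congrFun hτ00 i
          simp only [Pi.mul_apply, Pi.smul_apply, smul_eq_mul, Pi.zero_apply] at this
          exact (mul_eq_zero.1 this).resolve_left (hu0 i)
        refine ⟨e1, ?_⟩
        rwa [e1, zero_mul, zero_add] at h
      have hHT : t' 0 * C₂.B + s' 0 ∈ S₂.R ⊥ := S₂.add (S₂.mul (ht' 0) (H₂.BT ⊥)) (hs' 0)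
      have hHi := S₂.fld _ (S₂.mono le_top hHT) hh0
      have hvT : v' ∈ S₂.R ⊥ := by
        have e : v' = -((2 : E) • C₂.u * t' 0) * (t' 0 * C₂.B + s' 0)⁻¹ := by
          funext i
          have h1 := congrFun hτ00 i
          have h2 := hHi i
          simp only [Pi.mul_apply, Pi.add_apply, Pi.neg_apply, Pi.inv_apply,
            Pi.zero_apply] at h1 h2 ⊢
          rw [eq_mul_inv_iff_mul_eq₀ h2]
          linear_combination h1
        rw [e]
        exact S₂.mul (S₂.neg (S₂.mul (S₂.smulT (H₂.uT ⊥) (h2T ⊥)) (ht' 0))) (S₂.inv hHT hHi)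
      by_cases hT1 : T₀ 1 = 0
      · obtain ⟨x, y, l, u, hl, hu, hin⟩ := space_lam (K := K) hcy0
        refine ⟨![x, y], fin _ u l hl hu (hin _ ?_ ?_) (S₂.mono bot_le hvT)⟩
        · exact subset_adjoin K _ ⟨0, rfl⟩
        · exact subset_adjoin K _ ⟨1, rfl⟩
      · obtain ⟨x, l, u, hl, hu, hin⟩ := plane_lam (⊥ : IntermediateField K Ω) hT1
          (hcin ⊥ hvT 1) (hcov 1) hcy0
        refine ⟨![x, x], fin _ u l hl hu (hin _ bot_le ?_) (S₂.mono bot_le hvT)⟩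
        exact subset_adjoin K _ ⟨0, rfl⟩
    · obtain ⟨σ, hσ⟩ := cross_zero hcr hT0
      have hτ1 : τ 1 = algebraMap Ω E σ • τ 0 := by
        have h1 := S₂.nd (τ 1 - algebraMap Ω E σ • τ 0) fun j => by
          have e1 := (hT₀ 1).2.1 j
          have e0 := (hT₀ 0).2.1 j
          rw [hσ] at e1
          simp only [dt3, Pi.smul_apply, smul_eq_mul, map_mul, Pi.sub_apply] at e1 e0 ⊢
          linear_combination e1 - algebraMap Ω E σ * e0
        exact sub_eq_zero.1 h1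
      set L := algebraMap Ω E σ with hL
      set S : IntermediateField K Ω := adjoin K {σ} with hS
      have hσS : σ ∈ S := mem_adjoin_simple_self K σ
      have hLS : InT S L := ⟨σ, hσS, rfl⟩
      rw [hdec, hdec] at hτ1
      have hHT : (t' 1 * C₂.B + s' 1) - L • (t' 0 * C₂.B + s' 0) ∈ S₂.R S :=
        S₂.sub (S₂.mono bot_le (S₂.add (S₂.mul (ht' 1) (H₂.BT ⊥)) (hs' 1)))
          (S₂.smulT (S₂.mono bot_le (S₂.add (S₂.mul (ht' 0) (H₂.BT ⊥)) (hs' 0))) hLS)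
      have hH0 : (t' 1 * C₂.B + s' 1) - L • (t' 0 * C₂.B + s' 0) ≠ 0 := by
        intro h
        apply hind L
        have e1 : t' 1 = L • t' 0 := by
          funext i
          have h1 := congrFun hτ1 i
          have h2 := congrFun h i
          simp only [Pi.mul_apply, Pi.add_apply, Pi.sub_apply, Pi.smul_apply, smul_eq_mul,
            Pi.zero_apply] at h1 h2 ⊢
          apply mul_left_cancel₀ (hu0 i)
          linear_combination h1 - v' i * h2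
        refine ⟨e1, ?_⟩
        funext i
        have h2 := congrFun h i
        rw [e1] at h2
        simp only [Pi.mul_apply, Pi.add_apply, Pi.sub_apply, Pi.smul_apply, smul_eq_mul,
          Pi.zero_apply] at h2 ⊢
        linear_combination h2
      have hHi := S₂.fld _ (S₂.mono le_top hHT) hH0
      have hvT : v' ∈ S₂.R S := by
        have e : v' = (L • ((2 : E) • C₂.u * t' 0) - (2 : E) • C₂.u * t' 1) *
            ((t' 1 * C₂.B + s' 1) - L • (t' 0 * C₂.B + s' 0))⁻¹ := by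
          funext i
          have h1 := congrFun hτ1 i
          have h2 := hHi i
          simp only [Pi.mul_apply, Pi.add_apply, Pi.sub_apply, Pi.smul_apply, smul_eq_mul,
            Pi.inv_apply] at h1 h2 ⊢
          rw [eq_mul_inv_iff_mul_eq₀ h2]
          linear_combination h1
        rw [e]
        exact S₂.mul (S₂.sub (S₂.smulT (S₂.mul (S₂.smulT (H₂.uT S) (h2T S))
          (S₂.mono bot_le (ht' 0))) hLS) (S₂.mul (S₂.smulT (H₂.uT S) (h2T S))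
          (S₂.mono bot_le (ht' 1)))) (S₂.inv hHT hHi)
      obtain ⟨x, l, u, hl, hu, hin⟩ := plane_lam S hT0 (hcin S hvT 0) (hcov 0) hcy0
      have hle : S ≤ adjoin K (Set.range ![σ, x]) :=
        adjoin_simple_le_iff.2 (subset_adjoin K _ ⟨0, rfl⟩)
      refine ⟨![σ, x], fin _ u l hl hu (hin _ hle ?_) (S₂.mono hle hvT)⟩
      exact subset_adjoin K _ ⟨1, rfl⟩
  · left
    obtain ⟨l, hl⟩ := cross_lam (hcov 0) (hcov 1) hcr
    have hl0 : l ≠ 0 := by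
      rintro rfl
      apply hcy0
      rw [hl, zero_smul]
    refine ⟨v', hv'T, hc', fun T hT => fin T _ l hl0 hl ?_ hT⟩
    have h1 := hcin T hT 0
    have h2 := hcin T hT 1
    intro i
    fin_cases i
    · exact T.sub_mem (T.mul_mem (h1 1) (h2 2)) (T.mul_mem (h1 2) (h2 1))
    · exact T.sub_mem (T.mul_mem (h1 2) (h2 0)) (T.mul_mem (h1 0) (h2 2))
    · exact T.sub_mem (T.mul_mem (h1 0) (h2 1)) (T.mul_mem (h1 1) (h2 0))

end Pool.Agent.G18
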