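import Mathlib

/-!
# Definitions for the theorem on the cubic fourfolds of discriminant 18

`K = ℂ(s, t)` is the field of rational functions on the plane.

Cubes. `M` is an extension of degree three of `K` and `z# = N(z) / z`. `Cube K M`: `α, β ∈ K` and
`m, n ∈ M`. `Cube.aff z = α + Tr(m z) + Tr(n z#) + β N(z)`, a cubic polynomial on the
three-dimensional space `M`: the surface `aff z = 0` is an affine part of a hyperplane section of the
`K`-form of `P^1 × P^1 × P^1` in `P^7` which belongs to `M`, a del Pezzo surface of degree six.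
`Cube.D` is its hyperdeterminant and `Cube.N` the norm form, a cubic form in nine variables.

Cubic fourfolds. `Cub`: three `3 × 3` matrices `A_k`, vectors `m_k`, `n_k`, and two numbers `α`, `β`.
`Cub.F` is the cubic form `α det(x A_k) + β det(A_k y) + ∑ (m_k x + n_k y) x A_k y`, `x = (X0, X1,
X2)`, `y = (X3, X4, X5)`. `Cub.fib`: the generic fibre of the map `X → P²` given by the net of
quadrics `x A_k y`, a cubic polynomial in three variables over `K`.

Nets. `Net`: three elements `(A_k, a_k, a'_k)` of the simple Lie algebra of type `G_2`, which is the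
sum of the spaces of `3 × 3` matrices with trace zero, vectors and covectors. `Net.fib c`: the
cubic polynomial of the element with parameters `c` in three variables over `K`.

`SameTwist f₁ f₂`: two cubic polynomials in three variables over `K` are, after a linear change of
coordinates, the polynomials `aff` of two cubes with similar norm forms.
-/

set_option autoImplicit false

noncomputable section

namespace Pool.Agent.C18

open MvPolynomial Matrix

/-- The field `ℂ(s, t)`. -/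
abbrev K : Type := FractionRing (MvPolynomial (Fin 2) ℂ)

/-! ### Cubes -/

/-- Two elements `α`, `β` of `K` and two elements `m`, `n` of `M`. -/
structure Cube (K M : Type) where
  /-- the number `α` -/
  al : K
  /-- the number `β` -/
  be : K
  /-- the element `m` -/
  m : M
  /-- the element `n` -/
  n : M

section

variable {K M : Type} [Field K] [Field M] [Algebra K M]

/-- The element `z# = N(z) / z`. -/
def sh (K : Type) {M : Type} [Field K] [Field M] [Algebra K M] (z : M) : M :=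
  algebraMap K M (Algebra.norm K z) * z⁻¹

variable (C : Cube K M)

/-- The cubic polynomial `α + Tr(m z) + Tr(n z#) + β N(z)`. -/
def Cube.aff (z : M) : K :=
  C.al + Algebra.trace K M (C.m * z) + Algebra.trace K M (C.n * sh K z) +
    C.be * Algebra.norm K z

/-- The hyperdeterminant
`D = (α β - Tr(m n)) ^ 2 - 4 Tr((m n)#) + 4 α N(n) + 4 β N(m)`. -/
def Cube.D : K :=
  (C.al * C.be - Algebra.trace K M (C.m * C.n)) ^ 2 -
    4 * Algebra.trace K M (sh K (C.m * C.n)) + 4 * C.al * Algebra.norm K C.n +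
    4 * C.be * Algebra.norm K C.m

/-- The number `g = α ^ 2 β - α Tr(m n) + 2 N(m)`. -/
def Cube.g : K :=
  C.al ^ 2 * C.be - C.al * Algebra.trace K M (C.m * C.n) + 2 * Algebra.norm K C.m

/-- The number `h = g ^ 2 - α ^ 2 D`. -/
def Cube.h : K := C.g ^ 2 - C.al ^ 2 * C.D

/-- The norm form, a cubic form in nine variables: for `x, a, b` in `M`
`N(x) - h Tr(x (a ^ 2 - D b ^ 2)) + h ((g + α √D) N(a + b √D) + (g - α √D) N(a - b √D))`, where
`N(a ± b √D) = N(a) + D Tr(a b#) ± √D (Tr(a# b) + D N(b))`. -/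
def Cube.N (w : M × M × M) : K :=
  Algebra.norm K w.1 -
    C.h * Algebra.trace K M (w.1 * (w.2.1 ^ 2 - algebraMap K M C.D * w.2.2 ^ 2)) +
    2 * C.h * (C.g * (Algebra.norm K w.2.1 + C.D * Algebra.trace K M (w.2.1 * sh K w.2.2)) +
      C.al * C.D * (Algebra.trace K M (sh K w.2.1 * w.2.2) + C.D * Algebra.norm K w.2.2))

/-- The polynomial `f` is the polynomial `aff` of a cube with `D ≠ 0`, `h ≠ 0`, after a linear
change of coordinates. -/
structure Cube.Param (C : Cube K M) (f : MvPolynomial (Fin 3) K) where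
  /-- the coordinates -/
  φ : M ≃ₗ[K] (Fin 3 → K)
  eq : ∀ z, eval (φ z) f = C.aff z
  D_ne : C.D ≠ 0
  h_ne : C.h ≠ 0

/-- The two polynomials belong to two cubes with similar norm forms. -/
def SameTwist (f₁ f₂ : MvPolynomial (Fin 3) K) : Prop :=
  ∃ (M₁ : Type) (_ : Field M₁) (_ : Algebra K M₁) (M₂ : Type) (_ : Field M₂) (_ : Algebra K M₂),
    Module.finrank K M₁ = 3 ∧ Module.finrank K M₂ = 3 ∧
    ∃ (C₁ : Cube K M₁) (C₂ : Cube K M₂), Nonempty (C₁.Param f₁) ∧ Nonempty (C₂.Param f₂) ∧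
    ∃ (Φ : (M₁ × M₁ × M₁) ≃ₗ[K] (M₂ × M₂ × M₂)) (κ : K), κ ≠ 0 ∧ ∀ w, C₂.N (Φ w) = κ * C₁.N w

end

/-! ### Cubic fourfolds -/

/-- Three matrices `A_k`, six vectors `m_k`, `n_k` and two numbers `α`, `β`. -/
structure Cub (R : Type) where
  /-- the matrices `A_k` -/
  A : Fin 3 → Matrix (Fin 3) (Fin 3) R
  /-- the vectors `m_k` -/
  m : Fin 3 → Fin 3 → R
  /-- the vectors `n_k` -/
  n : Fin 3 → Fin 3 → R
  /-- the number `α` -/
  al : R
  /-- the number `β` -/
  be : R

/-- The same coefficients in the ring `R'`. -/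
def Cub.map {R R' : Type} (f : R → R') (X : Cub R) : Cub R' :=
  ⟨fun k => (X.A k).map f, fun k i => f (X.m k i), fun k i => f (X.n k i), f X.al, f X.be⟩

section

variable {R : Type} [CommRing R] (X : Cub R)

/-- The cubic form `α det(x A_k) + β det(A_k y) + ∑ (m_k x + n_k y) x A_k y`. -/
def Cub.form (x y : Fin 3 → R) : R :=
  X.al * (of fun k => x ᵥ* X.A k).det + X.be * (of fun k => X.A k *ᵥ y).det +
    ∑ k, (X.m k ⬝ᵥ x + X.n k ⬝ᵥ y) * (x ⬝ᵥ X.A k *ᵥ y)

variable (s t : R)

/-- The matrices `P_1 = A_1 - s A_0` and `P_2 = A_2 - t A_0`. -/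
def Cub.P : Fin 2 → Matrix (Fin 3) (Fin 3) R := ![X.A 1 - s • X.A 0, X.A 2 - t • X.A 0]

/-- The vector `v# = (v P_1) × (v P_2)`. -/
def Cub.sh (v : Fin 3 → R) : Fin 3 → R := (v ᵥ* X.P s t 0) ⨯₃ (v ᵥ* X.P s t 1)

/-- The cubic polynomial of the fibre over `(1 : s : t)`:
`-β v P_2 adj(P_1) P_2 v# + (n_0 + s n_1 + t n_2) v# + (m_0 + s m_1 + t m_2) v + α`. -/
def Cub.fibre (v : Fin 3 → R) : R :=
  -(X.be * (v ᵥ* (X.P s t 1 * (X.P s t 0).adjugate * X.P s t 1) ⬝ᵥ X.sh s t v)) +
    (X.n 0 + s • X.n 1 + t • X.n 2) ⬝ᵥ X.sh s t v + (X.m 0 + s • X.m 1 + t • X.m 2) ⬝ᵥ v + X.al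

end

/-- The cubic form of the cubic fourfold. -/
def Cub.F (X : Cub ℂ) : MvPolynomial (Fin 6) ℂ :=
  (X.map C).form ![.X 0, .X 1, .X 2] ![.X 3, .X 4, .X 5]

/-- The numbers `α`, `β`, the cubic forms `det(x A_k)`, `det(A_k y)` and the determinant of
`A_1 - s A_0` are not zero. -/
structure Cub.NonDeg (X : Cub ℂ) : Prop where
  al : X.al ≠ 0
  be : X.be ≠ 0
  rows : ∃ x : Fin 3 → ℂ, (of fun k => x ᵥ* X.A k).det ≠ 0
  cols : ∃ y : Fin 3 → ℂ, (of fun k => X.A k *ᵥ y).det ≠ 0
  det : ∃ s : ℂ, (X.A 1 - s • X.A 0).det ≠ 0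

/-- The two variables `s`, `t`. -/
def var (i : Fin 2) : K := algebraMap (MvPolynomial (Fin 2) ℂ) K (X i)

/-- The generic fibre of the cubic fourfold over the plane. -/
def Cub.fib (X : Cub ℂ) : MvPolynomial (Fin 3) K :=
  (X.map fun z => C (algebraMap ℂ K z)).fibre (C (var 0)) (C (var 1)) MvPolynomial.X

/-! ### Nets in the Lie algebra of type `G_2` -/

/-- Three matrices `A_k` and six vectors `a_k`, `a'_k`. -/
structure Net (R : Type) where
  /-- the matrices `A_k` -/
  A : Fin 3 → Matrix (Fin 3) (Fin 3) R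
  /-- the vectors `a_k` -/
  a : Fin 3 → Fin 3 → R
  /-- the covectors `a'_k` -/
  a' : Fin 3 → Fin 3 → R

/-- The indices of the 45 coefficients. -/
abbrev Idx : Type := (Fin 3 × Fin 3 × Fin 3) ⊕ (Fin 2 × Fin 3 × Fin 3)

/-- The 45 coefficients. -/
def Net.coord {R : Type} (V : Net R) : Idx → R
  | Sum.inl (k, i, j) => V.A k i j
  | Sum.inr (e, k, i) => (![V.a, V.a'] e) k i

/-- The same coefficients in the ring `R'`. -/
def Net.map {R R' : Type} (f : R → R') (V : Net R) : Net R' :=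
  ⟨fun k => (V.A k).map f, fun k i => f (V.a k i), fun k i => f (V.a' k i)⟩

section

variable {R : Type} [CommRing R] (V : Net R) (c : Fin 2 → R)

/-- The matrix `A_0 + c_0 A_1 + c_1 A_2`. -/
def Net.mat : Matrix (Fin 3) (Fin 3) R := V.A 0 + c 0 • V.A 1 + c 1 • V.A 2

/-- The cubic polynomial `det(v, A v, A² v) + a (v × A v) + a' v - 1`, where
`A = A_0 + c_0 A_1 + c_1 A_2`, `a = a_0 + c_0 a_1 + c_1 a_2`, `a' = a'_0 + c_0 a'_1 + c_1 a'_2`. -/
def Net.fibre (v : Fin 3 → R) : R :=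
  v ⬝ᵥ (V.mat c *ᵥ v) ⨯₃ (V.mat c *ᵥ (V.mat c *ᵥ v)) +
    (V.a 0 + c 0 • V.a 1 + c 1 • V.a 2) ⬝ᵥ v ⨯₃ (V.mat c *ᵥ v) +
    (V.a' 0 + c 0 • V.a' 1 + c 1 • V.a' 2) ⬝ᵥ v - 1

end

/-- The cubic polynomial over `K` of the net with the parameters `c`. -/
def Net.fib (V : Net ℂ) (c : Fin 2 → K) : MvPolynomial (Fin 3) K :=
  (V.map fun z => C (algebraMap ℂ K z)).fibre (fun i => C (c i)) MvPolynomial.X

end Pool.Agent.C18
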