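import Pool.Agent.GSN.Gen

/-!
# G18: polynomials which vanish at a generic point of a hypersurface

`dvd_of_gen`: `y : Fin (n + 1) → Ω` generates the field `Ω` over `k`, and `Ω` contains `n`
algebraically independent elements. If `P` is irreducible, `P (y) = 0` and `G (y) = 0`, then `P`
divides `G`.
-/

set_option autoImplicit false

noncomputable section

namespace Pool.Agent.G18

open MvPolynomial

/-- `n + 1` generators of a field of transcendence degree at least `n`: they are independent, or
`n` of them are independent. -/
theorem exists_ind_sub {k Ω : Type} [Field k] [Field Ω] [Algebra k Ω] {n : ℕ}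
    {y : Fin (n + 1) → Ω} (hy : IntermediateField.adjoin k (Set.range y) = ⊤) {z : Fin n → Ω}
    (hz : AlgebraicIndependent k z) : AlgebraicIndependent k y ∨
      ∃ i : Fin (n + 1), AlgebraicIndependent k fun j : Fin n => y (i.succAbove j) := by
  classical
  have h0 : Algebra.IsAlgebraic (IntermediateField.adjoin k (Set.range y)) Ω := ⟨fun e => by
    have h1 : e ∈ IntermediateField.adjoin k (Set.range y) := by
      rw [hy]
      exact IntermediateField.mem_top
    have h2 : e = algebraMap (IntermediateField.adjoin k (Set.range y)) Ω ⟨e, h1⟩ := rfl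
    rw [h2]
    exact isAlgebraic_algebraMap _⟩
  have h1 : Algebra.IsAlgebraic (Algebra.adjoin k (Set.range y)) Ω :=
    IntermediateField.isAlgebraic_adjoin_iff_top.1 h0
  obtain ⟨t, ht, hb⟩ := exists_isTranscendenceBasis_subset (R := k) (Set.range y)
  choose J hJ using fun e : t => ht e.2
  have hJi : Function.Injective J := fun e e' h => by
    apply Subtype.ext
    rw [← hJ e, ← hJ e', h]
  have hfin : Finite t := Finite.of_injective J hJi
  have : Fintype t := Fintype.ofFinite t
  have hcard : n ≤ Fintype.card t := by
    have h2 : Cardinal.mk (Fin n) ≤ Cardinal.mk t := by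
      rw [hb.cardinalMk_eq_trdeg]
      exact hz.cardinalMk_le_trdeg
    rw [Cardinal.mk_fintype, Cardinal.mk_fintype, Fintype.card_fin] at h2
    exact_mod_cast h2
  by_cases hs : Function.Surjective J
  · left
    choose g hg using hs
    have hgi : Function.Injective g := fun i j h => by rw [← hg i, ← hg j, h]
    have h3 : y = (fun e : t => (e : Ω)) ∘ g := by
      funext i
      rw [Function.comp_apply, ← hJ (g i), hg]
    rw [h3]
    exact hb.1.comp g hgi
  · right
    unfold Function.Surjective at hs
    push Not at hs
    obtain ⟨i, hi⟩ := hs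
    refine ⟨i, ?_⟩
    have h4 : Finset.univ.image J = Finset.univ.erase i := by
      refine Finset.eq_of_subset_of_card_le (fun j hj => ?_) ?_
      · rw [Finset.mem_image] at hj
        obtain ⟨e, -, rfl⟩ := hj
        exact Finset.mem_erase.2 ⟨hi e, Finset.mem_univ _⟩
      · rw [Finset.card_erase_of_mem (Finset.mem_univ _), Finset.card_image_of_injective _ hJi,
          Finset.card_univ, Finset.card_univ, Fintype.card_fin]
        simpa using hcard
    have h5 : ∀ j : Fin n, ∃ e : t, J e = i.succAbove j := fun j => by
      have h6 : i.succAbove j ∈ Finset.univ.image J := by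
        rw [h4]
        exact Finset.mem_erase.2 ⟨Fin.succAbove_ne i j, Finset.mem_univ _⟩
      rw [Finset.mem_image] at h6
      obtain ⟨e, -, he⟩ := h6
      exact ⟨e, he⟩
    choose g hg using h5
    have hgi : Function.Injective g := fun j j' h => by
      apply Fin.succAbove_right_injective (p := i)
      rw [← hg j, ← hg j', h]
    have h3 : (fun j : Fin n => y (i.succAbove j)) = (fun e : t => (e : Ω)) ∘ g := by
      funext j
      rw [Function.comp_apply, ← hJ (g j), hg]
    rw [h3]
    exact hb.1.comp g hgi

/-- Polynomials in one variable over a factorial domain. -/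
theorem dvd_poly {B Ω : Type} [CommRing B] [IsDomain B] [UniqueFactorizationMonoid B] [Field Ω]
    {φ : B →+* Ω} (hφ : Function.Injective φ) {t : Ω} {p g : Polynomial B} (hp : Irreducible p)
    (h1 : Polynomial.eval₂ φ t p = 0) (h2 : Polynomial.eval₂ φ t g = 0) : p ∣ g := by
  classical
  have : NormalizedGCDMonoid B := Classical.choice inferInstance
  have hd : p.natDegree ≠ 0 := by
    intro h0
    obtain ⟨b, hb⟩ := Polynomial.natDegree_eq_zero.1 h0
    rw [← hb, Polynomial.eval₂_C] at h1
    have h4 : b = 0 := hφ (by rw [h1, map_zero])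
    rw [h4, map_zero] at hb
    exact hp.ne_zero hb.symm
  have hpr : p.IsPrimitive := hp.isPrimitive hd
  let ψ : FractionRing B →+* Ω := IsFractionRing.lift (A := B) (K := FractionRing B) (g := φ) hφ
  have hψ : ψ.comp (algebraMap B (FractionRing B)) = φ :=
    RingHom.ext fun b => IsFractionRing.lift_algebraMap hφ b
  have hirr : Irreducible (p.map (algebraMap B (FractionRing B))) :=
    (hpr.irreducible_iff_irreducible_map_fraction_map (K := FractionRing B)).1 hp
  have hval : ∀ q : Polynomial B, Polynomial.eval₂ ψ t (q.map (algebraMap B (FractionRing B))) =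
      Polynomial.eval₂ φ t q := fun q => by
    rw [Polynomial.eval₂_map, hψ]
  refine hpr.dvd_of_fraction_map_dvd_fraction_map (K := FractionRing B) ?_
  by_contra hcon
  obtain ⟨u, v, huv⟩ := (hirr.coprime_iff_not_dvd).2 hcon
  have h3 := congrArg (Polynomial.eval₂ ψ t) huv
  rw [Polynomial.eval₂_add, Polynomial.eval₂_mul, Polynomial.eval₂_mul, hval, hval, h1, h2,
    mul_zero, mul_zero, add_zero, Polynomial.eval₂_one] at h3
  exact zero_ne_one h3

/-- The same with `n` independent coordinates. -/
theorem dvd_one {k Ω : Type} [Field k] [Field Ω] [Algebra k Ω] {n : ℕ} {y : Option (Fin n) → Ω}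
    (hy : AlgebraicIndependent k fun i : Fin n => y (some i))
    {P G : MvPolynomial (Option (Fin n)) k}
    (hP : Irreducible P) (h1 : aeval y P = 0) (h2 : aeval y G = 0) : P ∣ G := by
  have hev : ∀ Q : MvPolynomial (Option (Fin n)) k,
      Polynomial.eval₂ ((aeval (fun i : Fin n => y (some i)) : MvPolynomial (Fin n) k →ₐ[k] Ω) :
        MvPolynomial (Fin n) k →+* Ω) (y none) (optionEquivLeft k (Fin n) Q) = aeval y Q := by
    intro Q
    have h3 : (Polynomial.eval₂RingHom ((aeval (fun i : Fin n => y (some i)) :
        MvPolynomial (Fin n) k →ₐ[k] Ω) : MvPolynomial (Fin n) k →+* Ω) (y none)).comp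
        ((optionEquivLeft k (Fin n) : MvPolynomial (Option (Fin n)) k ≃ₐ[k]
          Polynomial (MvPolynomial (Fin n) k)) : MvPolynomial (Option (Fin n)) k →+*
          Polynomial (MvPolynomial (Fin n) k)) =
        ((aeval y : MvPolynomial (Option (Fin n)) k →ₐ[k] Ω) :
          MvPolynomial (Option (Fin n)) k →+* Ω) := by
      refine MvPolynomial.ringHom_ext (fun r => ?_) fun i => ?_
      · rw [RingHom.comp_apply]
        change Polynomial.eval₂ _ _ (optionEquivLeft k (Fin n) (C r)) = aeval y (C r)
        rw [optionEquivLeft_C, Polynomial.eval₂_C, aeval_C]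
        exact aeval_C _ r
      · rw [RingHom.comp_apply]
        change Polynomial.eval₂ _ _ (optionEquivLeft k (Fin n) (X i)) = aeval y (X i)
        cases i with
        | none => rw [optionEquivLeft_X_none, Polynomial.eval₂_X, aeval_X]
        | some i =>
          rw [optionEquivLeft_X_some, Polynomial.eval₂_C, aeval_X]
          exact aeval_X _ i
    exact RingHom.congr_fun h3 Q
  have h3 : optionEquivLeft k (Fin n) P ∣ optionEquivLeft k (Fin n) G :=
    dvd_poly (t := y none) hy ((MulEquiv.irreducible_iff (optionEquivLeft k (Fin n))).2 hP)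
      ((hev P).trans h1) ((hev G).trans h2)
  obtain ⟨q, hq⟩ := h3
  refine ⟨(optionEquivLeft k (Fin n)).symm q, (optionEquivLeft k (Fin n)).injective ?_⟩
  rw [map_mul, hq, AlgEquiv.apply_symm_apply]

/-- **A polynomial which vanishes at a generic point of a hypersurface.** -/
theorem dvd_of_gen {k Ω : Type} [Field k] [Field Ω] [Algebra k Ω] {n : ℕ}
    {y : Fin (n + 1) → Ω} (hy : IntermediateField.adjoin k (Set.range y) = ⊤) {z : Fin n → Ω}
    (hz : AlgebraicIndependent k z) {P G : MvPolynomial (Fin (n + 1)) k} (hP : Irreducible P)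
    (h1 : aeval y P = 0) (h2 : aeval y G = 0) : P ∣ G := by
  rcases exists_ind_sub hy hz with h | ⟨i, h⟩
  · exact absurd (h (h1.trans (map_zero _).symm)) hP.ne_zero
  · let s : Fin (n + 1) ≃ Option (Fin n) := finSuccEquiv' i
    let r : MvPolynomial (Fin (n + 1)) k ≃ₐ[k] MvPolynomial (Option (Fin n)) k := renameEquiv k s
    let y' : Option (Fin n) → Ω := y ∘ s.symm
    have hev : ∀ Q : MvPolynomial (Fin (n + 1)) k, aeval y' (r Q) = aeval y Q := fun Q => by
      change aeval y' (rename s Q) = aeval y Q
      rw [aeval_rename]
      congr 2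
      funext j
      simp [y']
    have hy' : AlgebraicIndependent k fun j : Fin n => y' (some j) := by
      have h3 : (fun j : Fin n => y' (some j)) = fun j : Fin n => y (i.succAbove j) := by
        funext j
        simp [y', s]
      rw [h3]
      exact h
    have hP' : Irreducible (r P) := (MulEquiv.irreducible_iff r).2 hP
    obtain ⟨q, hq⟩ := dvd_one hy' hP' (by rw [hev, h1]) (G := r G) (by rw [hev, h2])
    refine ⟨r.symm q, r.injective ?_⟩
    rw [map_mul, hq, r.apply_symm_apply]

end Pool.Agent.G18
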