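import Mathlib

/-!
# G18: irreducible cubic polynomials in three variables over a domain

`irr_of_aniso`: a cubic polynomial in three variables over a domain whose constant term is a unit
and whose cubic part has no nontrivial zero is irreducible.
-/

set_option autoImplicit false

noncomputable section

namespace Pool.Agent.G18

open MvPolynomial

variable {B : Type} [CommRing B]

/-- polynomials of degree at most one -/
theorem lin_of_deg {P : MvPolynomial (Fin 3) B} (h : P.totalDegree ≤ 1) :
    P = C (coeff 0 P) + ∑ i, C (coeff (Finsupp.single i 1) P) * X i := by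
  ext d
  rw [coeff_add, coeff_sum]
  simp_rw [coeff_C_mul, coeff_X]
  rw [coeff_C]
  by_cases h0 : d = 0
  · subst h0
    rw [if_pos rfl, Finset.sum_eq_zero, add_zero]
    intro i _
    rw [if_neg, mul_zero]
    intro h1
    exact (Finsupp.single_ne_zero.2 one_ne_zero) h1
  rw [if_neg (Ne.symm h0), zero_add]
  by_cases h1 : ∃ i, d = Finsupp.single i 1
  · obtain ⟨i, rfl⟩ := h1
    rw [Finset.sum_eq_single i, if_pos rfl, mul_one]
    · intro j _ hj
      rw [if_neg, mul_zero]
      intro h2
      exact hj ((Finsupp.single_left_inj one_ne_zero).1 h2)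
    · intro h2
      exact absurd (Finset.mem_univ i) h2
  · push Not at h1
    rw [Finset.sum_eq_zero]
    · by_contra hd
      have h2 := le_totalDegree (mem_support_iff.2 hd)
      have h3 : (d.sum fun _ e => e) ≠ 0 := by
        intro h4
        apply h0
        ext i
        by_contra h5
        have h6 : d i ≤ d.sum fun _ e => e :=
          Finset.single_le_sum (f := fun i => d i) (fun _ _ => Nat.zero_le _)
            (Finsupp.mem_support_iff.2 h5)
        rw [h4] at h6
        exact h5 (Nat.le_zero.1 h6)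
      obtain ⟨i, hi⟩ := (Finsupp.sum_eq_one_iff d).1 (by omega)
      exact h1 i hi
    · intro i _
      rw [if_neg, mul_zero]
      intro h2
      exact h1 i h2.symm

/-- the restriction to the line through `0` and `u` -/
def ray (u : Fin 3 → B) : MvPolynomial (Fin 3) B →ₐ[B] Polynomial B :=
  aeval fun i => Polynomial.C (u i) * Polynomial.X

theorem ray_deg (u : Fin 3 → B) (P : MvPolynomial (Fin 3) B) :
    (ray u P).natDegree ≤ P.totalDegree := by
  have h := aeval_natDegree_le (m := P.totalDegree) (n := 1) P le_rfl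
    (fun i => Polynomial.C (u i) * Polynomial.X) fun i =>
      (Polynomial.natDegree_C_mul_le _ _).trans Polynomial.natDegree_X_le
  rwa [mul_one] at h

theorem ray_lin {P : MvPolynomial (Fin 3) B} (h : P.totalDegree ≤ 1) {u : Fin 3 → B}
    (hu : ∑ i, coeff (Finsupp.single i 1) P * u i = 0) : ray u P = Polynomial.C (coeff 0 P) := by
  rw [lin_of_deg h]
  unfold ray
  rw [map_add, map_sum]
  simp_rw [map_mul, aeval_X, aeval_C]
  have h1 : ∀ i : Fin 3, (algebraMap B (Polynomial B)) (coeff (Finsupp.single i 1) P) *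
      (Polynomial.C (u i) * Polynomial.X) =
      Polynomial.C (coeff (Finsupp.single i 1) P * u i) * Polynomial.X := fun i => by
    rw [Polynomial.algebraMap_eq, map_mul]
    ring
  simp_rw [h1]
  rw [← Finset.sum_mul, ← map_sum, hu, map_zero, zero_mul, add_zero, ← lin_of_deg h]
  rfl

/-- a nontrivial solution of one linear equation in three unknowns -/
theorem exists_perp [Nontrivial B] (f : Fin 3 → B) : ∃ u : Fin 3 → B, u ≠ 0 ∧ ∑ i, f i * u i = 0 := by
  by_cases h : f 0 = 0
  · refine ⟨![1, 0, 0], fun h1 => one_ne_zero (α := B) (congrFun h1 0), ?_⟩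
    rw [Fin.sum_univ_three]
    simp [h]
  · refine ⟨![f 1, -f 0, 0], fun h1 => h ?_, ?_⟩
    · have h2 := congrFun h1 1
      simpa using h2
    · rw [Fin.sum_univ_three]
      simp
      ring

theorem unit_of_small [IsDomain B] {H P Q : MvPolynomial (Fin 3) B} (hH : H = P * Q)
    (h3 : H.totalDegree ≤ 3) (h0 : IsUnit (coeff 0 H))
    (hc : ∀ u : Fin 3 → B, u ≠ 0 → (ray u H).coeff 3 ≠ 0) (hP : P.totalDegree ≤ 1) : IsUnit P := by
  have e0 : coeff 0 H = coeff 0 P * coeff 0 Q := by
    rw [hH]
    exact map_mul constantCoeff P Q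
  have hP0 : IsUnit (coeff 0 P) := by
    rw [e0] at h0
    exact isUnit_of_mul_isUnit_left h0
  have hQ0 : IsUnit (coeff 0 Q) := by
    rw [e0] at h0
    exact isUnit_of_mul_isUnit_right h0
  have hPn : P ≠ 0 := by
    rintro rfl
    rw [coeff_zero] at hP0
    exact not_isUnit_zero hP0
  have hQn : Q ≠ 0 := by
    rintro rfl
    rw [coeff_zero] at hQ0
    exact not_isUnit_zero hQ0
  obtain ⟨u, hu, hfu⟩ := exists_perp fun i => coeff (Finsupp.single i 1) P
  have h1 : ray u H = Polynomial.C (coeff 0 P) * ray u Q := by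
    rw [hH, map_mul, ray_lin hP hfu]
  have h2 : 3 ≤ (ray u Q).natDegree := by
    refine Polynomial.le_natDegree_of_ne_zero fun h4 => hc u hu ?_
    rw [h1, Polynomial.coeff_C_mul, h4, mul_zero]
  have h4 := ray_deg u Q
  have h5 := totalDegree_mul_of_isDomain hPn hQn
  rw [← hH] at h5
  have h6 : P.totalDegree = 0 := by omega
  rw [totalDegree_eq_zero_iff_eq_C] at h6
  rw [h6]
  exact hP0.map C

/-- **Irreducible cubic polynomials in three variables.** -/
theorem irr_of_aniso [IsDomain B] {H : MvPolynomial (Fin 3) B} (h3 : H.totalDegree ≤ 3)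
    (h0 : IsUnit (coeff 0 H)) (hc : ∀ u : Fin 3 → B, u ≠ 0 → (ray u H).coeff 3 ≠ 0) :
    Irreducible H := by
  refine ⟨fun hU => ?_, fun P Q hH => ?_⟩
  · have h1 : IsUnit (ray (![1, 0, 0] : Fin 3 → B) H) := hU.map _
    have h2 := Polynomial.natDegree_eq_zero_of_isUnit h1
    have h4 : (![1, 0, 0] : Fin 3 → B) ≠ 0 := fun h => one_ne_zero (α := B) (congrFun h 0)
    have h5 := Polynomial.le_natDegree_of_ne_zero (hc _ h4)
    omega
  · have hHn : H ≠ 0 := by
      rintro rfl
      rw [coeff_zero] at h0
      exact not_isUnit_zero h0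
    have hPn : P ≠ 0 := by
      rintro rfl
      exact hHn (by rw [hH, zero_mul])
    have hQn : Q ≠ 0 := by
      rintro rfl
      exact hHn (by rw [hH, mul_zero])
    have h5 := totalDegree_mul_of_isDomain hPn hQn
    rw [← hH] at h5
    by_cases hd : P.totalDegree ≤ 1
    · exact Or.inl (unit_of_small hH h3 h0 hc hd)
    · exact Or.inr (unit_of_small (P := Q) (Q := P) (by rw [hH, mul_comm]) h3 h0 hc (by omega))

end Pool.Agent.G18
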