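import Pool.Agent.G18.VGen
import Pool.Agent.G18.GenDvd
import Pool.Agent.G18.IrrCub

/-!
# G18: the fourfold of a net in `g_2` is rational

`VH`: the equation `V(μ, v)` with `μ = (1, X0, X1)`, `v = (X2, X3, X4)` as a polynomial in five
variables. `VH_irr`: it is irreducible if the norm form `w · M² v` (`w = v × M v`, `M = Σ μ_k A_k`)
has no nontrivial zero over `ℂ[X0, X1]`.

`VGood`: two explicit numbers are not zero. They are the values at one point of the fourfold of the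
polynomials in `gen_four`. `V_four`: if `c` and `v` generate `Ω`, `V((1, c), v) = 0` and `Ω` contains
four algebraically independent elements, then `Ω` is generated by four elements.
-/

set_option autoImplicit false

noncomputable section

namespace Pool.Agent.G18

open MvPolynomial VG

/-- The parameters `μ = (1, c 0, c 1)`. -/
def mu {R : Type} [CommRing R] (c : Fin 2 → R) : Fin 3 → R := ![1, c 0, c 1]

/-- The norm form `w · M² v`, `w = v × M v`, `M = Σ μ_k A_k`. -/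
def nf {R : Type} [CommRing R] (A : Fin 3 → Fin 3 → Fin 3 → R) (μ u : Fin 3 → R) : R :=
  dt (vw A μ u) (mv (lc A μ) (mv (lc A μ) u))

theorem map_mu {R S : Type} [CommRing R] [CommRing S] (f : R →+* S) (c : Fin 2 → R) (k : Fin 3) :
    f (mu c k) = mu (fun i => f (c i)) k := by
  fin_cases k <;> simp [mu]

theorem map_nf {R S : Type} [CommRing R] [CommRing S] (f : R →+* S)
    (A : Fin 3 → Fin 3 → Fin 3 → R) (μ u : Fin 3 → R) :
    f (nf A μ u) = nf (fun k i j => f (A k i j)) (fun k => f (μ k)) fun k => f (u k) := by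
  simp only [nf, map_dt, map_mv, map_vw, map_lc]

/-- the equation along a ray -/
theorem vf_ray {R : Type} [CommRing R] (A : Fin 3 → Fin 3 → Fin 3 → R) (a b : Fin 3 → Fin 3 → R)
    (μ u : Fin 3 → R) (t : R) : vf A a b μ (fun i => u i * t) =
      nf A μ u * t ^ 3 + (μ 0 * dt (a 0) (vw A μ u) + μ 1 * dt (a 1) (vw A μ u) +
        μ 2 * dt (a 2) (vw A μ u)) * t ^ 2 +
      (μ 0 * dt (b 0) u + μ 1 * dt (b 1) u + μ 2 * dt (b 2) u) * t - 1 := by
  have h1 : (fun i => u i * t) = fun i => t * u i := funext fun i => mul_comm _ _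
  have h2 : vw A μ (fun i => t * u i) = fun i => t * t * vw A μ u i := by
    unfold vw
    rw [mv_smul]
    exact funext fun i => cr_smul _ _ _ _ i
  have h3 : ∀ x : Fin 3 → R, dt x (fun i => t * t * vw A μ u i) = t * t * dt x (vw A μ u) :=
    fun x => by
      simp only [dt]
      ring
  have h4 : ∀ x : Fin 3 → R, dt x (fun i => t * u i) = t * dt x u := fun x => by
    simp only [dt]
    ring
  unfold vf nf
  rw [h1, h2, mv_smul, mv_smul, dt_smul, h3, h3, h3, h4, h4, h4]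
  ring

section Poly

variable (A : Fin 3 → Fin 3 → Fin 3 → ℂ) (a b : Fin 3 → Fin 3 → ℂ)

/-- The norm form is anisotropic over `ℂ[X0, X1]`. -/
def Aniso : Prop := ∀ u : Fin 3 → MvPolynomial (Fin 2) ℂ, u ≠ 0 →
  nf (fun k i j => C (A k i j)) (mu X) u ≠ 0

/-- The equation as a polynomial in five variables. -/
def VH : MvPolynomial (Fin 5) ℂ :=
  vf (fun k i j => C (A k i j)) (fun k i => C (a k i)) (fun k i => C (b k i)) (mu ![X 0, X 1])
    ![X 2, X 3, X 4]

/-- The equation as a polynomial in three variables over `ℂ[X0, X1]`. -/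
def VB : MvPolynomial (Fin 3) (MvPolynomial (Fin 2) ℂ) :=
  vf (fun k i j => C (C (A k i j))) (fun k i => C (C (a k i))) (fun k i => C (C (b k i)))
    (mu fun i => C (X i)) X

theorem aeval_VH {Ω : Type} [Field Ω] [Algebra ℂ Ω] (y : Fin 5 → Ω) :
    aeval y (VH A a b) = vf (oA A) (oa a) (oa b) (mu ![y 0, y 1]) ![y 2, y 3, y 4] := by
  have h := map_vf ((aeval y : MvPolynomial (Fin 5) ℂ →ₐ[ℂ] Ω) : MvPolynomial (Fin 5) ℂ →+* Ω)
    (fun k i j => C (A k i j)) (fun k i => C (a k i)) (fun k i => C (b k i))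
    (mu ![X 0, X 1]) ![X 2, X 3, X 4]
  refine h.trans ?_
  have h1 : ∀ r : ℂ, ((aeval y : MvPolynomial (Fin 5) ℂ →ₐ[ℂ] Ω) : MvPolynomial (Fin 5) ℂ →+* Ω)
      (C r) = algebraMap ℂ Ω r := fun r => aeval_C y r
  have h2 : ∀ i, ((aeval y : MvPolynomial (Fin 5) ℂ →ₐ[ℂ] Ω) : MvPolynomial (Fin 5) ℂ →+* Ω)
      (X i) = y i := fun i => aeval_X y i
  congr 1
  · funext k i j
    exact h1 _
  · funext k i
    exact h1 _
  · funext k i
    exact h1 _
  · funext k
    fin_cases k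
    · simp [mu]
    · exact h2 0
    · exact h2 1
  · funext k
    fin_cases k
    · exact h2 2
    · exact h2 3
    · exact h2 4

/-! ### Irreducibility -/

section Deg

variable {B : Type} [CommRing B]

private theorem deg_dt {x y : Fin 3 → MvPolynomial (Fin 3) B} {m n : ℕ}
    (hx : ∀ i, (x i).totalDegree ≤ m) (hy : ∀ i, (y i).totalDegree ≤ n) :
    (dt x y).totalDegree ≤ m + n := by
  have h : ∀ i j, (x i * y j).totalDegree ≤ m + n := fun i j =>
    (totalDegree_mul _ _).trans (add_le_add (hx i) (hy j))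
  unfold dt
  exact (totalDegree_add _ _).trans
    (max_le ((totalDegree_add _ _).trans (max_le (h 0 0) (h 1 1))) (h 2 2))

private theorem deg_cr {x y : Fin 3 → MvPolynomial (Fin 3) B} {m n : ℕ}
    (hx : ∀ i, (x i).totalDegree ≤ m) (hy : ∀ i, (y i).totalDegree ≤ n) (i : Fin 3) :
    (cr x y i).totalDegree ≤ m + n := by
  have h : ∀ i j, (x i * y j).totalDegree ≤ m + n := fun i j =>
    (totalDegree_mul _ _).trans (add_le_add (hx i) (hy j))
  fin_cases i
  · exact (totalDegree_sub _ _).trans (max_le (h 1 2) (h 2 1))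
  · exact (totalDegree_sub _ _).trans (max_le (h 2 0) (h 0 2))
  · exact (totalDegree_sub _ _).trans (max_le (h 0 1) (h 1 0))

private theorem deg_mv {M : Fin 3 → Fin 3 → MvPolynomial (Fin 3) B}
    {x : Fin 3 → MvPolynomial (Fin 3) B} {n : ℕ} (hM : ∀ i j, (M i j).totalDegree ≤ 0)
    (hx : ∀ i, (x i).totalDegree ≤ n) (i : Fin 3) : (mv M x i).totalDegree ≤ n := by
  have h := deg_dt (hM i) hx
  rwa [zero_add] at h

end Deg

theorem VB_deg : (VB A a b).totalDegree ≤ 3 := by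
  have hX : ∀ i, (X i : MvPolynomial (Fin 3) (MvPolynomial (Fin 2) ℂ)).totalDegree ≤ 1 := fun i =>
    (totalDegree_X i).le
  have hC : ∀ r : MvPolynomial (Fin 2) ℂ,
      (C r : MvPolynomial (Fin 3) (MvPolynomial (Fin 2) ℂ)).totalDegree ≤ 0 := fun r =>
    (totalDegree_C r).le
  have hm : ∀ k, ((mu fun i => C (X i) : Fin 3 → MvPolynomial (Fin 3) (MvPolynomial (Fin 2) ℂ)) k
      ).totalDegree ≤ 0 := fun k => by
    fin_cases k
    · exact totalDegree_one.le
    · exact hC _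
    · exact hC _
  set A' : Fin 3 → Fin 3 → Fin 3 → MvPolynomial (Fin 3) (MvPolynomial (Fin 2) ℂ) :=
    fun k i j => C (C (A k i j)) with hA'
  set μ' : Fin 3 → MvPolynomial (Fin 3) (MvPolynomial (Fin 2) ℂ) := mu fun i => C (X i) with hμ'
  have hM : ∀ i j, (lc A' μ' i j).totalDegree ≤ 0 := fun i j => by
    have h : ∀ k, (μ' k * A' k i j).totalDegree ≤ 0 := fun k =>
      (totalDegree_mul _ _).trans (by
        have h1 := hm k
        have h2 := hC (C (A k i j))
        have h3 : A' k i j = C (C (A k i j)) := rfl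
        rw [h3]
        omega)
    exact (totalDegree_add _ _).trans
      (max_le ((totalDegree_add _ _).trans (max_le (h 0) (h 1))) (h 2))
  have h1 := deg_mv hM hX
  have h2 := deg_mv hM h1
  have hw : ∀ i, (vw A' μ' X i).totalDegree ≤ 2 := deg_cr hX h1
  have h3 := deg_dt hw h2
  have h4 : ∀ x : Fin 3 → ℂ, (dt (fun i => C (C (x i))) (vw A' μ' X)).totalDegree ≤ 2 := fun x => by
    have h := deg_dt (fun i => hC (C (x i))) hw
    rwa [zero_add] at h
  have h5 : ∀ x : Fin 3 → ℂ, (dt (fun i => C (C (x i)))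
      (X : Fin 3 → MvPolynomial (Fin 3) (MvPolynomial (Fin 2) ℂ))).totalDegree ≤ 1 := fun x => by
    have h := deg_dt (fun i => hC (C (x i))) hX
    rwa [zero_add] at h
  have h6 : ∀ k, (μ' k * (dt (fun i => C (C (a k i))) (vw A' μ' X) +
      dt (fun i => C (C (b k i))) X)).totalDegree ≤ 3 := fun k => by
    refine (totalDegree_mul _ _).trans ?_
    have h7 := hm k
    have h8 := totalDegree_add (dt (fun i => C (C (a k i))) (vw A' μ' X))
      (dt (fun i => C (C (b k i))) (X : Fin 3 → MvPolynomial (Fin 3) (MvPolynomial (Fin 2) ℂ)))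
    have h9 := h4 (a k)
    have h10 := h5 (b k)
    have h11 : max (dt (fun i => C (C (a k i))) (vw A' μ' X)).totalDegree
      (dt (fun i => C (C (b k i))) (X : Fin 3 → MvPolynomial (Fin 3) (MvPolynomial (Fin 2) ℂ))
        ).totalDegree ≤ 3 := max_le (by omega) (by omega)
    omega
  unfold VB vf
  refine (totalDegree_sub _ _).trans (max_le ?_ (totalDegree_one.le.trans (by norm_num)))
  refine (totalDegree_add _ _).trans (max_le h3 ?_)
  exact (totalDegree_add _ _).trans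
    (max_le ((totalDegree_add _ _).trans (max_le (h6 0) (h6 1))) (h6 2))

theorem vf_zero {R : Type} [CommRing R] (A : Fin 3 → Fin 3 → Fin 3 → R) (a b : Fin 3 → Fin 3 → R)
    (μ : Fin 3 → R) : vf A a b μ (fun _ => 0) = -1 := by
  have h := vf_ray A a b μ (fun _ => 0) 0
  simpa using h

theorem VB_const : coeff 0 (VB A a b) = -1 := by
  have h := map_vf (constantCoeff : MvPolynomial (Fin 3) (MvPolynomial (Fin 2) ℂ) →+* _)
    (fun k i j => C (C (A k i j))) (fun k i => C (C (a k i))) (fun k i => C (C (b k i)))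
    (mu fun i => C (X i)) X
  have h1 : (fun k => constantCoeff (X k : MvPolynomial (Fin 3) (MvPolynomial (Fin 2) ℂ))) =
      fun _ => 0 := funext fun k => constantCoeff_X _ k
  rw [h1, vf_zero] at h
  exact h

theorem coeff_three {B : Type} [CommRing B] (n p q : B) : (Polynomial.C n * Polynomial.X ^ 3 +
    Polynomial.C p * Polynomial.X ^ 2 + Polynomial.C q * Polynomial.X - 1).coeff 3 = n := by
  rw [Polynomial.coeff_sub, Polynomial.coeff_add, Polynomial.coeff_add, Polynomial.coeff_C_mul,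
    Polynomial.coeff_C_mul, Polynomial.coeff_C_mul, Polynomial.coeff_X_pow, Polynomial.coeff_X_pow,
    Polynomial.coeff_X, Polynomial.coeff_one]
  simp

theorem ray_VB (u : Fin 3 → MvPolynomial (Fin 2) ℂ) :
    (ray u (VB A a b)).coeff 3 = nf (fun k i j => C (A k i j)) (mu X) u := by
  have h := map_vf ((ray u : MvPolynomial (Fin 3) (MvPolynomial (Fin 2) ℂ) →ₐ[_] _) :
      MvPolynomial (Fin 3) (MvPolynomial (Fin 2) ℂ) →+* Polynomial (MvPolynomial (Fin 2) ℂ))
    (fun k i j => C (C (A k i j))) (fun k i => C (C (a k i))) (fun k i => C (C (b k i)))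
    (mu fun i => C (X i)) X
  have h1 : ∀ r : MvPolynomial (Fin 2) ℂ,
      ((ray u : MvPolynomial (Fin 3) (MvPolynomial (Fin 2) ℂ) →ₐ[_] _) :
      MvPolynomial (Fin 3) (MvPolynomial (Fin 2) ℂ) →+* Polynomial (MvPolynomial (Fin 2) ℂ))
      (C r) = Polynomial.C r := fun r => aeval_C _ r
  have h2 : ∀ i, ((ray u : MvPolynomial (Fin 3) (MvPolynomial (Fin 2) ℂ) →ₐ[_] _) :
      MvPolynomial (Fin 3) (MvPolynomial (Fin 2) ℂ) →+* Polynomial (MvPolynomial (Fin 2) ℂ))
      (X i) = Polynomial.C (u i) * Polynomial.X := fun i => aeval_X _ i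
  have h3 : ((ray u : MvPolynomial (Fin 3) (MvPolynomial (Fin 2) ℂ) →ₐ[_] _) :
      MvPolynomial (Fin 3) (MvPolynomial (Fin 2) ℂ) →+* Polynomial (MvPolynomial (Fin 2) ℂ))
      (VB A a b) = vf (fun k i j => Polynomial.C (C (A k i j))) (fun k i => Polynomial.C (C (a k i)))
        (fun k i => Polynomial.C (C (b k i))) (fun k => Polynomial.C (mu X k))
        fun i => Polynomial.C (u i) * Polynomial.X := by
    refine h.trans ?_
    congr 1
    · funext k i j
      exact h1 _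
    · funext k i
      exact h1 _
    · funext k i
      exact h1 _
    · funext k
      rw [map_mu, map_mu]
      congr 1
      funext i
      exact h1 _
    · funext k
      exact h2 k
  have h4 : ray u (VB A a b) = _ := h3
  rw [h4, vf_ray]
  have h5 := map_nf (Polynomial.C : MvPolynomial (Fin 2) ℂ →+* _) (fun k i j => C (A k i j)) (mu X) u
  rw [← h5]
  have h6 : ∀ (x : Fin 3 → MvPolynomial (Fin 2) ℂ), dt (fun i => Polynomial.C (x i))
      (vw (fun k i j => Polynomial.C (C (A k i j))) (fun k => Polynomial.C (mu X k)) fun i =>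
        Polynomial.C (u i)) = Polynomial.C (dt x (vw (fun k i j => C (A k i j)) (mu X) u)) :=
    fun x => by
      rw [map_dt]
      congr 1
      funext i
      rw [map_vw]
  have h7 : ∀ (x : Fin 3 → MvPolynomial (Fin 2) ℂ), dt (fun i => Polynomial.C (x i))
      (fun i => Polynomial.C (u i)) = Polynomial.C (dt x u) := fun x => (map_dt _ _ _).symm
  rw [h6, h6, h6, h7, h7, h7, ← map_mul, ← map_mul, ← map_mul, ← map_mul, ← map_mul, ← map_mul,
    ← map_add, ← map_add, ← map_add, ← map_add]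
  exact coeff_three _ _ _

theorem VB_irr (hM : Aniso A) : Irreducible (VB A a b) := by
  refine irr_of_aniso (VB_deg A a b) ?_ fun u hu => ?_
  · rw [VB_const]
    exact isUnit_one.neg
  · rw [ray_VB]
    exact hM u hu

/-- the variables -/
def e5 : Fin 5 ≃ Fin 3 ⊕ Fin 2 := (finSumFinEquiv (m := 2) (n := 3)).symm.trans (Equiv.sumComm _ _)

theorem VH_irr (hM : Aniso A) : Irreducible (VH A a b) := by
  let r : MvPolynomial (Fin 5) ℂ ≃ₐ[ℂ] MvPolynomial (Fin 3) (MvPolynomial (Fin 2) ℂ) :=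
    (renameEquiv ℂ e5).trans (sumAlgEquiv ℂ (Fin 3) (Fin 2))
  have h := map_vf (r : MvPolynomial (Fin 5) ℂ →+* MvPolynomial (Fin 3) (MvPolynomial (Fin 2) ℂ))
    (fun k i j => C (A k i j)) (fun k i => C (a k i)) (fun k i => C (b k i))
    (mu ![X 0, X 1]) ![X 2, X 3, X 4]
  have h1 : ∀ z : ℂ, r (C z) = C (C z) := fun z => by
    change sumAlgEquiv ℂ (Fin 3) (Fin 2) (rename e5 (C z)) = _
    rw [rename_C, sumAlgEquiv_C_inl]
  have h2 : ∀ i, r (X i) = sumAlgEquiv ℂ (Fin 3) (Fin 2) (X (e5 i)) := fun i => by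
    change sumAlgEquiv ℂ (Fin 3) (Fin 2) (rename e5 (X i)) = _
    rw [rename_X]
  have h3 : r (VH A a b) = VB A a b := by
    refine h.trans ?_
    unfold VB
    congr 1
    · funext k i j
      exact h1 _
    · funext k i
      exact h1 _
    · funext k i
      exact h1 _
    · funext k
      rw [map_mu]
      congr 1
      funext i
      fin_cases i
      · exact (h2 0).trans (sumAlgEquiv_X_inr ℂ (Fin 3) (Fin 2) 0)
      · exact (h2 1).trans (sumAlgEquiv_X_inr ℂ (Fin 3) (Fin 2) 1)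
    · funext k
      fin_cases k
      · exact (h2 2).trans (sumAlgEquiv_X_inl ℂ (Fin 3) (Fin 2) 0)
      · exact (h2 3).trans (sumAlgEquiv_X_inl ℂ (Fin 3) (Fin 2) 1)
      · exact (h2 4).trans (sumAlgEquiv_X_inl ℂ (Fin 3) (Fin 2) 2)
  have h4 := VB_irr A a b hM
  rw [← h3] at h4
  exact (MulEquiv.irreducible_iff r).1 h4

/-! ### One point of the fourfold -/

/-- The two linear equations at the point `(e_0 : e_1)` of the quadric. -/
def q1 {R : Type} [CommRing R] (A : Fin 3 → Fin 3 → Fin 3 → R) (k : Fin 3) : R := A k 1 0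

/-- The two linear equations at the point `(e_0 : e_1)` of the quadric. -/
def q2 {R : Type} [CommRing R] (A : Fin 3 → Fin 3 → Fin 3 → R) (a b : Fin 3 → Fin 3 → R)
    (k : Fin 3) : R := A k 2 0 - A k 1 2 + a k 1 + b k 0

/-- The solution of the two linear equations at `(e_0 : e_1)`. -/
def mm {R : Type} [CommRing R] (A : Fin 3 → Fin 3 → Fin 3 → R) (a b : Fin 3 → Fin 3 → R) :
    Fin 3 → R := cr (q1 A) (q2 A a b)

/-- Two numbers are not zero: the first coordinate of `mm` and the entry `20` of the matrix of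
`mm`. -/
structure VGood : Prop where
  m : mm A a b 0 ≠ 0
  s : lc A (mm A a b) 2 0 ≠ 0

variable {A a b}

/-- The point of the fourfold over `(e_0 : e_1)`. -/
theorem VGood.exists_pt (h : VGood A a b) : ∃ y : Fin 5 → ℂ,
    vf A a b (mu ![y 0, y 1]) ![y 2, y 3, y 4] = 0 ∧ y 2 ≠ 0 ∧
    vw A (mu ![y 0, y 1]) ![y 2, y 3, y 4] 1 ≠ 0 ∧
    cr (r1 A ![y 2, y 3, y 4] (vw A (mu ![y 0, y 1]) ![y 2, y 3, y 4]))
      (r2 A a b ![y 2, y 3, y 4] (vw A (mu ![y 0, y 1]) ![y 2, y 3, y 4])) 0 ≠ 0 := by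
  obtain ⟨m, hm⟩ : ∃ m, m = mm A a b := ⟨_, rfl⟩
  have h0 := h.m
  have hs := h.s
  rw [← hm] at h0 hs
  obtain ⟨σ, hσ⟩ : ∃ σ, σ * lc A m 2 0 = -m 0 := ⟨-m 0 / lc A m 2 0, by field_simp⟩
  have hσ0 : σ ≠ 0 := by
    rintro rfl
    rw [zero_mul] at hσ
    exact h0 (neg_eq_zero.1 hσ.symm)
  obtain ⟨μ, hμ⟩ : ∃ μ : Fin 3 → ℂ, μ = mu ![m 1 / m 0, m 2 / m 0] := ⟨_, rfl⟩
  have hμm : ∀ k, m 0 * μ k = m k := fun k => by
    rw [hμ]
    fin_cases k
    · simp [mu]
    · simp [mu]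
      field_simp
    · simp [mu]
      field_simp
  have hlc : ∀ i j, m 0 * lc A μ i j = lc A m i j := fun i j => by
    simp only [lc]
    rw [← hμm 1, ← hμm 2, mul_add, mul_add]
    have := hμm 0
    linear_combination A 0 i j * this
  have hq1 : dt m (q1 A) = 0 := by
    rw [hm]
    exact dt_cr_self' _ _
  have hq2 : dt m (q2 A a b) = 0 := by
    rw [hm]
    exact dt_cr_self _ _
  have h10 : lc A μ 1 0 = 0 := by
    have h1 : lc A m 1 0 = 0 := hq1
    rw [← hlc] at h1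
    exact (mul_eq_zero.1 h1).resolve_left h0
  have h20 : σ * lc A μ 2 0 = -1 := by
    have h1 : m 0 * (σ * lc A μ 2 0) = m 0 * (-1) := by
      rw [mul_left_comm, hlc, hσ]
      ring
    exact mul_left_cancel₀ h0 h1
  have hv : (![σ, 0, 0] : Fin 3 → ℂ) = fun i => σ * (![1, 0, 0] : Fin 3 → ℂ) i := by
    funext i
    fin_cases i <;> simp
  have hw : vw A μ ![σ, 0, 0] = fun i => σ * (![0, 1, 0] : Fin 3 → ℂ) i := by
    funext i
    fin_cases i
    · simp [vw, cr, mv, dt]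
    · simp [vw, cr, mv, dt]
      linear_combination (-σ) * h20
    · simp [vw, cr, mv, dt, h10]
  have e1 : ∀ k, r1 A ![σ, 0, 0] (vw A μ ![σ, 0, 0]) k = σ ^ 2 * q1 A k := fun k => by
    rw [hw, hv, r1_smul]
    simp [r1, mv, dt, q1]
  have e2 : ∀ k, r2 A a b ![σ, 0, 0] (vw A μ ![σ, 0, 0]) k = σ ^ 3 * q2 A a b k := fun k => by
    rw [hw, hv, r2_smul]
    simp [r2, mv, dt, q2]
    left
    ring
  have e3 : cr (r1 A ![σ, 0, 0] (vw A μ ![σ, 0, 0])) (r2 A a b ![σ, 0, 0] (vw A μ ![σ, 0, 0])) 0 =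
      σ ^ 2 * σ ^ 3 * m 0 := by
    rw [funext e1, funext e2, cr_smul, hm]
    rfl
  have e4 : vf A a b μ ![σ, 0, 0] = 0 := by
    have h1 := r2_mu A a b μ ![σ, 0, 0]
    rw [funext e2] at h1
    have h2 : dt μ (fun k => σ ^ 3 * q2 A a b k) = 0 := by
      have h3 : m 0 * dt μ (fun k => σ ^ 3 * q2 A a b k) = σ ^ 3 * dt m (q2 A a b) := by
        simp only [dt]
        rw [← hμm 1, ← hμm 2]
        have := hμm 0
        linear_combination σ ^ 3 * q2 A a b 0 * this
      rw [hq2, mul_zero] at h3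
      exact (mul_eq_zero.1 h3).resolve_left h0
    rw [h2, hw] at h1
    have h4 : (![σ, 0, 0] : Fin 3 → ℂ) 0 * (σ * (![0, 1, 0] : Fin 3 → ℂ) 1) ≠ 0 := by
      simpa using hσ0
    exact (mul_eq_zero.1 h1.symm).resolve_left h4
  refine ⟨![m 1 / m 0, m 2 / m 0, σ, 0, 0], ?_, hσ0, ?_, ?_⟩
  · change vf A a b (mu ![m 1 / m 0, m 2 / m 0]) ![σ, 0, 0] = 0
    rw [← hμ]
    exact e4
  · change vw A (mu ![m 1 / m 0, m 2 / m 0]) ![σ, 0, 0] 1 ≠ 0
    rw [← hμ, hw]
    simpa using hσ0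
  · change cr (r1 A ![σ, 0, 0] (vw A (mu ![m 1 / m 0, m 2 / m 0]) ![σ, 0, 0]))
      (r2 A a b ![σ, 0, 0] (vw A (mu ![m 1 / m 0, m 2 / m 0]) ![σ, 0, 0])) 0 ≠ 0
    rw [← hμ, e3]
    exact mul_ne_zero (mul_ne_zero (pow_ne_zero _ hσ0) (pow_ne_zero _ hσ0)) h0

/-! ### The generic point -/

section Gen

variable {Ω : Type} [Field Ω] [Algebra ℂ Ω]

private theorem ev_vw (y : Fin 5 → Ω) (i : Fin 3) :
    aeval y (vw (fun k i j => C (A k i j)) (mu ![X 0, X 1]) ![X 2, X 3, X 4] i :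
      MvPolynomial (Fin 5) ℂ) = vw (oA A) (mu ![y 0, y 1]) ![y 2, y 3, y 4] i := by
  have h := map_vw ((aeval y : MvPolynomial (Fin 5) ℂ →ₐ[ℂ] Ω) : MvPolynomial (Fin 5) ℂ →+* Ω)
    (fun k i j => C (A k i j)) (mu ![X 0, X 1]) ![X 2, X 3, X 4] i
  refine h.trans ?_
  have h1 : ∀ r : ℂ, ((aeval y : MvPolynomial (Fin 5) ℂ →ₐ[ℂ] Ω) : MvPolynomial (Fin 5) ℂ →+* Ω)
      (C r) = algebraMap ℂ Ω r := fun r => aeval_C y r
  have h2 : ∀ i, ((aeval y : MvPolynomial (Fin 5) ℂ →ₐ[ℂ] Ω) : MvPolynomial (Fin 5) ℂ →+* Ω)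
      (X i) = y i := fun i => aeval_X y i
  congr 1
  · funext k i j
    exact h1 _
  · funext k
    fin_cases k
    · simp [mu]
    · exact h2 0
    · exact h2 1
  · funext k
    fin_cases k
    · exact h2 2
    · exact h2 3
    · exact h2 4

private theorem ev_r (y : Fin 5 → Ω) (w : Fin 3 → MvPolynomial (Fin 5) ℂ) :
    aeval y (cr (r1 (fun k i j => C (A k i j)) ![X 2, X 3, X 4] w)
      (r2 (fun k i j => C (A k i j)) (fun k i => C (a k i)) (fun k i => C (b k i))
        ![X 2, X 3, X 4] w) 0 : MvPolynomial (Fin 5) ℂ) =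
    cr (r1 (oA A) ![y 2, y 3, y 4] fun i => aeval y (w i)) (r2 (oA A) (oa a) (oa b)
      ![y 2, y 3, y 4] fun i => aeval y (w i)) 0 := by
  have h := map_cr ((aeval y : MvPolynomial (Fin 5) ℂ →ₐ[ℂ] Ω) : MvPolynomial (Fin 5) ℂ →+* Ω)
    (r1 (fun k i j => C (A k i j)) ![X 2, X 3, X 4] w)
    (r2 (fun k i j => C (A k i j)) (fun k i => C (a k i)) (fun k i => C (b k i))
        ![X 2, X 3, X 4] w) 0
  refine h.trans ?_
  have h1 : ∀ r : ℂ, ((aeval y : MvPolynomial (Fin 5) ℂ →ₐ[ℂ] Ω) : MvPolynomial (Fin 5) ℂ →+* Ω)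
      (C r) = algebraMap ℂ Ω r := fun r => aeval_C y r
  have h2 : ∀ i, ((aeval y : MvPolynomial (Fin 5) ℂ →ₐ[ℂ] Ω) : MvPolynomial (Fin 5) ℂ →+* Ω)
      (X i) = y i := fun i => aeval_X y i
  have h3 : (fun i => ((aeval y : MvPolynomial (Fin 5) ℂ →ₐ[ℂ] Ω) : MvPolynomial (Fin 5) ℂ →+* Ω)
      ((![X 2, X 3, X 4] : Fin 3 → MvPolynomial (Fin 5) ℂ) i)) = ![y 2, y 3, y 4] := by
    funext k
    fin_cases k
    · exact h2 2
    · exact h2 3
    · exact h2 4
  congr 1
  · funext k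
    rw [map_r1, h3]
    congr 1
    funext k i j
    exact h1 _
  · funext k
    rw [map_r2, h3]
    congr 1
    · funext k i j
      exact h1 _
    · funext k i
      exact h1 _
    · funext k i
      exact h1 _

/-- The polynomial `r1 × r2`, first coordinate. -/
private def GG (A : Fin 3 → Fin 3 → Fin 3 → ℂ) (a b : Fin 3 → Fin 3 → ℂ) :
    MvPolynomial (Fin 5) ℂ :=
  cr (r1 (fun k i j => C (A k i j)) ![X 2, X 3, X 4]
      (vw (fun k i j => C (A k i j)) (mu ![X 0, X 1]) ![X 2, X 3, X 4]))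
    (r2 (fun k i j => C (A k i j)) (fun k i => C (a k i)) (fun k i => C (b k i)) ![X 2, X 3, X 4]
      (vw (fun k i j => C (A k i j)) (mu ![X 0, X 1]) ![X 2, X 3, X 4])) 0

private theorem ev_GG (y : Fin 5 → Ω) : aeval y (GG A a b) =
    cr (r1 (oA A) ![y 2, y 3, y 4] (vw (oA A) (mu ![y 0, y 1]) ![y 2, y 3, y 4]))
      (r2 (oA A) (oa a) (oa b) ![y 2, y 3, y 4] (vw (oA A) (mu ![y 0, y 1]) ![y 2, y 3, y 4]))
        0 := by
  have h := ev_r (A := A) (a := a) (b := b) y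
    (vw (fun k i j => C (A k i j)) (mu ![X 0, X 1]) ![X 2, X 3, X 4])
  have h6 : (fun i => aeval y (vw (fun k i j => C (A k i j)) (mu ![X 0, X 1])
      ![X 2, X 3, X 4] i : MvPolynomial (Fin 5) ℂ)) =
      vw (oA A) (mu ![y 0, y 1]) ![y 2, y 3, y 4] := funext fun i => ev_vw y i
  rw [h6] at h
  exact h

/-- **The generic point of the fourfold.** -/
theorem V_gen (hM : Aniso A) (h : VGood A a b) {z : Fin 4 → Ω} (hz : AlgebraicIndependent ℂ z)
    {y : Fin 5 → Ω} (hy : IntermediateField.adjoin ℂ (Set.range y) = ⊤)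
    (hV : vf (oA A) (oa a) (oa b) (mu ![y 0, y 1]) ![y 2, y 3, y 4] = 0) :
    y 2 ≠ 0 ∧ vw (oA A) (mu ![y 0, y 1]) ![y 2, y 3, y 4] 1 ≠ 0 ∧
    cr (r1 (oA A) ![y 2, y 3, y 4] (vw (oA A) (mu ![y 0, y 1]) ![y 2, y 3, y 4]))
      (r2 (oA A) (oa a) (oa b) ![y 2, y 3, y 4] (vw (oA A) (mu ![y 0, y 1]) ![y 2, y 3, y 4]))
        0 ≠ 0 := by
  obtain ⟨t, ht, h1, h2, h3⟩ := h.exists_pt
  have key : ∀ G : MvPolynomial (Fin 5) ℂ, aeval y G = 0 → aeval t G = 0 := by
    intro G hG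
    obtain ⟨Q, hQ⟩ := dvd_of_gen hy hz (VH_irr A a b hM) (by rw [aeval_VH]; exact hV) hG
    have h4 : aeval t (VH A a b) = vf A a b (mu ![t 0, t 1]) ![t 2, t 3, t 4] := aeval_VH A a b t
    rw [hQ, map_mul, h4, ht, zero_mul]
  refine ⟨fun h4 => h1 ?_, fun h4 => h2 ?_, fun h4 => h3 ?_⟩
  · have h5 := key (X 2) (by rw [aeval_X]; exact h4)
    rwa [aeval_X] at h5
  · have h5 := key _ ((ev_vw y 1).trans h4)
    exact (ev_vw t 1).symm.trans h5
  · have h5 := key (GG A a b) ((ev_GG y).trans h4)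
    exact (ev_GG t).symm.trans h5

/-- **The fourfold of a net in `g_2` is rational.** -/
theorem V_four (hM : Aniso A) (h : VGood A a b) {z : Fin 4 → Ω} (hz : AlgebraicIndependent ℂ z)
    {c : Fin 2 → Ω} {v : Fin 3 → Ω} (hV : vf (oA A) (oa a) (oa b) (mu c) v = 0)
    (hgen : ∀ T : IntermediateField ℂ Ω, (∀ i, c i ∈ T) → (∀ k, v k ∈ T) → T = ⊤) :
    ∃ x : Fin 4 → Ω, IntermediateField.adjoin ℂ (Set.range x) = ⊤ := by
  set y : Fin 5 → Ω := ![c 0, c 1, v 0, v 1, v 2] with hy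
  have hc : (![y 0, y 1] : Fin 2 → Ω) = c := by
    funext i
    fin_cases i <;> rfl
  have hv : (![y 2, y 3, y 4] : Fin 3 → Ω) = v := by
    funext i
    fin_cases i <;> rfl
  have htop : IntermediateField.adjoin ℂ (Set.range y) = ⊤ := by
    have hm : ∀ j, y j ∈ IntermediateField.adjoin ℂ (Set.range y) := fun j =>
      IntermediateField.subset_adjoin _ _ ⟨j, rfl⟩
    refine hgen _ (fun i => ?_) fun k => ?_
    · fin_cases i
      · exact hm 0
      · exact hm 1
    · fin_cases k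
      · exact hm 2
      · exact hm 3
      · exact hm 4
  have h1 := V_gen hM h hz htop (by rw [hc, hv]; exact hV)
  rw [hc, hv] at h1
  obtain ⟨h1, h2, h3⟩ := h1
  refine ⟨![v 1 / v 0, v 2 / v 0, vw (oA A) (mu c) v 1 / v 0, vw (oA A) (mu c) v 2 / v 0], ?_⟩
  set T := IntermediateField.adjoin ℂ (Set.range ![v 1 / v 0, v 2 / v 0,
    vw (oA A) (mu c) v 1 / v 0, vw (oA A) (mu c) v 2 / v 0]) with hT
  have hm : ∀ j, (![v 1 / v 0, v 2 / v 0, vw (oA A) (mu c) v 1 / v 0,
      vw (oA A) (mu c) v 2 / v 0] : Fin 4 → Ω) j ∈ T := fun j =>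
    IntermediateField.subset_adjoin _ _ ⟨j, rfl⟩
  obtain ⟨h4, h5⟩ := gen_four A a b (μ := mu c) (v := v) rfl hV h1 h2 h3 T (hm 0) (hm 1) (hm 2)
    (hm 3)
  refine hgen T (fun i => ?_) h5
  fin_cases i
  · exact h4 1
  · exact h4 2

end Gen

end Poly

end Pool.Agent.G18
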