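import Pool.Agent.G18.VBridge
import Pool.Agent.G18.VDelta
import Pool.Agent.G18.Aniso

/-!
# G18: the total space of the family of surfaces of a net in `G_2` is rational
-/

set_option autoImplicit false

noncomputable section

namespace Pool.Agent.G18

open MvPolynomial VG Pool.Agent.C18

/-- The assembly of the net side. -/
theorem four_main (V : Net ℂ) (hM : Aniso fun k => V.A k) (hG : VGood (fun k => V.A k) V.a V.a')
    {c : Fin 2 → K} (hc : IntermediateField.adjoin ℂ (Set.range c) = ⊤) {Ω : Type} [Field Ω]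
    [Algebra ℂ Ω] [Algebra K Ω] [IsScalarTower ℂ K Ω] {v : Fin 3 → Ω}
    (hv : aeval v (V.fib c) = 0) (hgen : IntermediateField.adjoin K (Set.range v) = ⊤)
    {y : Fin 4 → Ω} (hy : AlgebraicIndependent ℂ y) :
    ∃ a : Fin 4 → Ω, IntermediateField.adjoin ℂ (Set.range a) = ⊤ := by
  rw [aeval_fib] at hv
  refine V_four hM hG hy (c := fun i => algebraMap K Ω (c i)) (v := v) hv fun T h1 h2 => ?_
  have hK : ∀ x : K, algebraMap K Ω x ∈ T := by
    have h3 : (⊤ : IntermediateField ℂ K) ≤ T.comap (IsScalarTower.toAlgHom ℂ K Ω) := by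
      rw [← hc, IntermediateField.adjoin_le_iff]
      rintro _ ⟨i, rfl⟩
      exact h1 i
    intro x
    exact h3 (IntermediateField.mem_top (x := x))
  let T' : IntermediateField K Ω := { T.toSubfield with algebraMap_mem' := hK }
  have h4 : T' = ⊤ := by
    rw [eq_top_iff, ← hgen, IntermediateField.adjoin_le_iff]
    rintro _ ⟨i, rfl⟩
    exact h2 i
  rw [eq_top_iff]
  intro x _
  have h3 : x ∈ T' := by
    rw [h4]
    exact IntermediateField.mem_top
  exact h3

/-- the norm form in two notations -/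
theorem cub_nf {R : Type} [CommRing R] {M : Matrix (Fin 3) (Fin 3) R}
    {A : Fin 3 → Fin 3 → Fin 3 → R} {μ : Fin 3 → R} (h : ∀ i j, M i j = lc A μ i j)
    (v : Fin 3 → R) : An.cub M v = nf A μ v := by
  have h1 : ∀ x : Fin 3 → R, M.mulVec x = mv (lc A μ) x := fun x => by
    funext i
    simp [Matrix.mulVec, dotProduct, Fin.sum_univ_three, mv, dt, h]
  unfold An.cub nf vw
  rw [h1, h1]
  generalize mv (lc A μ) (mv (lc A μ) v) = z
  generalize mv (lc A μ) v = y
  simp [dotProduct, Fin.sum_univ_three, cross_apply, dt, cr]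
  ring

/-! ### The polynomial `Δ` -/

/-- The number `det(e, A_0 e, A_0² e) m_0 (Σ m_k A_k)_20`. -/
def dl {R : Type} [CommRing R] (A : Fin 3 → Fin 3 → Fin 3 → R) (a b : Fin 3 → Fin 3 → R) : R :=
  nf A ![1, 0, 0] ![1, 0, 0] * (mm A a b 0 * lc A (mm A a b) 2 0)

theorem map_dl {R S : Type} [CommRing R] [CommRing S] (f : R →+* S)
    (A : Fin 3 → Fin 3 → Fin 3 → R) (a b : Fin 3 → Fin 3 → R) :
    f (dl A a b) = dl (fun k i j => f (A k i j)) (fun k i => f (a k i)) fun k i => f (b k i) := by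
  have h1 : (fun k => f ((![1, 0, 0] : Fin 3 → R) k)) = ![1, 0, 0] := by
    funext k
    fin_cases k <;> simp
  have h2 : ∀ k, f (mm A a b k) = mm (fun k i j => f (A k i j)) (fun k i => f (a k i))
      (fun k i => f (b k i)) k := fun k => by
    unfold mm
    rw [map_cr]
    congr 1
    funext k
    simp [q2]
  unfold dl
  rw [map_mul, map_mul, map_nf, h1, h2, map_lc]
  congr 2
  simp only [h2]

/-- The polynomial `Δ` in the 45 coefficients. -/
def Dl : MvPolynomial Idx ℂ :=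
  dl (fun k i j => X (Sum.inl (k, i, j))) (fun k i => X (Sum.inr (0, k, i)))
    fun k i => X (Sum.inr (1, k, i))

theorem eval_Dl (V : Net ℂ) : eval V.coord Dl = dl (fun k => V.A k) V.a V.a' := by
  unfold Dl
  rw [map_dl]
  congr 1
  · funext k i j
    rw [eval_X]
    rfl
  · funext k i
    rw [eval_X]
    rfl
  · funext k i
    rw [eval_X]
    rfl

/-- an example -/
def exA (k i j : Fin 3) : ℂ :=
  if k = 0 ∧ i = 0 ∧ j = 2 ∨ k = 0 ∧ i = 1 ∧ j = 0 ∨ k = 0 ∧ i = 2 ∧ j = 1 ∨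
    k = 1 ∧ i = 1 ∧ j = 0 ∨ k = 1 ∧ i = 2 ∧ j = 0 then 1 else 0

/-- an example -/
def exb (k i : Fin 3) : ℂ := if k = 2 ∧ i = 0 then 1 else 0

theorem dl_ex : dl exA (fun _ _ => 0) exb = -1 := by
  have h1 : mm exA (fun _ _ => 0) exb = ![1, -1, 1] := by
    funext k
    fin_cases k <;> simp [mm, q1, q2, cr, exA, exb]
  have h2 : lc exA ![1, 0, 0] = exA 0 := by
    funext i j
    simp [lc]
  have h3 : nf exA ![1, 0, 0] ![1, 0, 0] = 1 := by
    unfold nf vw
    rw [h2]
    simp [cr, mv, dt, exA]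
  unfold dl
  rw [h1, h3]
  simp [lc, exA]

theorem Dl_ne : Dl ≠ 0 := by
  intro h
  have h1 := eval_Dl ⟨fun k => Matrix.of (exA k), fun _ _ => 0, exb⟩
  rw [h, map_zero] at h1
  have h2 := h1.trans dl_ex
  norm_num at h2

end Pool.Agent.G18

namespace Pool.Agent.C18

open MvPolynomial Matrix Pool.Agent.G18 Pool.Agent.G18.VG

/-- For a net `V` with `Δ(V) ≠ 0` a field `Ω` of transcendence degree at least four which is
generated over `K` by a point of the surface of the net is generated by four elements over `ℂ`. -/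
theorem four_Dl (V : Net ℂ) (hV : eval V.coord Dl ≠ 0) (c : Fin 2 → K)
    (hc : IntermediateField.adjoin ℂ (Set.range c) = ⊤) (M : Type) [Field M] [Algebra K M]
    (h3 : Module.finrank K M = 3) (C₂ : Cube K M) (P : C₂.Param (V.fib c)) : C₂.be ≠ 0 ∧
    ∀ (Ω : Type) [Field Ω] [Algebra ℂ Ω] [Algebra K Ω] [IsScalarTower ℂ K Ω] (v : Fin 3 → Ω),
      aeval v (V.fib c) = 0 → IntermediateField.adjoin K (Set.range v) = ⊤ →
      (∃ y : Fin 4 → Ω, AlgebraicIndependent ℂ y) →
      ∃ a : Fin 4 → Ω, IntermediateField.adjoin ℂ (Set.range a) = ⊤ := by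
  rw [eval_Dl] at hV
  have e0 : nf (fun k => V.A k) ![1, 0, 0] ![1, 0, 0] ≠ 0 := left_ne_zero_of_mul hV
  have hG : VGood (fun k => V.A k) V.a V.a' :=
    ⟨left_ne_zero_of_mul (right_ne_zero_of_mul hV), right_ne_zero_of_mul (right_ne_zero_of_mul hV)⟩
  have h0 : An.cub (V.A 0) ![1, 0, 0] ≠ 0 := by
    rw [cub_nf (A := fun k => V.A k) (μ := ![1, 0, 0]) (fun i j => by simp [lc])]
    exact e0
  refine ⟨An.be_ne hc h3 P h0, fun Ω _ _ _ _ v hv hgen hy => ?_⟩
  obtain ⟨y, hy⟩ := hy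
  refine four_main V (fun u hu => ?_) hG hc hv hgen hy
  have h4 := An.aniso_poly hc h3 P h0 u hu
  rwa [cub_nf (A := fun k i j => C (V.A k i j)) (μ := mu X) (fun i j => by
    simp [lc, mu, Net.mat, Net.map])] at h4

/-- The same with a polynomial `Δ`. -/
theorem exists_four : ∃ Δ : MvPolynomial Idx ℂ, Δ ≠ 0 ∧ ∀ V : Net ℂ, eval V.coord Δ ≠ 0 →
    ∀ c : Fin 2 → K, IntermediateField.adjoin ℂ (Set.range c) = ⊤ →
    ∀ (M : Type) [Field M] [Algebra K M], Module.finrank K M = 3 →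
    ∀ C₂ : Cube K M, C₂.Param (V.fib c) → C₂.be ≠ 0 ∧
    ∀ (Ω : Type) [Field Ω] [Algebra ℂ Ω] [Algebra K Ω] [IsScalarTower ℂ K Ω] (v : Fin 3 → Ω),
      aeval v (V.fib c) = 0 → IntermediateField.adjoin K (Set.range v) = ⊤ →
      (∃ y : Fin 4 → Ω, AlgebraicIndependent ℂ y) →
      ∃ a : Fin 4 → Ω, IntermediateField.adjoin ℂ (Set.range a) = ⊤ :=
  ⟨Dl, Dl_ne, fun V hV c hc M _ _ h3 C₂ P => four_Dl V hV c hc M h3 C₂ P⟩

end Pool.Agent.C18
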