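import Pool.Agent.G18.XDom

/-!
# G18: the generic point of a cubic fourfold of `C_18` as a point of a del Pezzo surface

`GenX D z`: `z` is the generic point of `D.F = 0` in the field `Ω`, normalised by `z 0 = 1`, and `Ω` is a
field over `KK = ℂ(s, t)` by `s = q_1 / q_0`, `t = q_2 / q_0`. `exists_genX`: it exists.
`GenX.pt`: there is `v` in `Ω ^ 3` with `G(v) = 0`, and `v` generates `Ω` over `KK`.
-/

set_option autoImplicit false

noncomputable section

namespace Pool.Agent.G18.XS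

open MvPolynomial Matrix Pool.Agent.GSX

/-- `z` is the generic point of the cubic, and `KK` is embedded in `Ω` as the field of the net. -/
structure GenX (D : XDat ℂ) {Ω : Type} [Field Ω] [Algebra ℂ Ω] [Algebra KK Ω]
    [IsScalarTower ℂ KK Ω] (z : Fin 6 → Ω) : Prop where
  x0 : z 0 = 1
  ker : ∀ (G : S6) (m : ℕ), G.IsHomogeneous m → (aeval z G = 0 ↔ D.F ∣ G)
  q0 : D.qv z 0 ≠ 0
  hs : D.qv z 0 * algebraMap KK Ω sK = D.qv z 1
  ht : D.qv z 0 * algebraMap KK Ω tK = D.qv z 2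
  top : IntermediateField.adjoin ℂ (Set.range z) = ⊤

private theorem form_ne {D : XDat ℂ} (hn : D.NonDeg) {Ω : Type} [Field Ω] [Algebra ℂ Ω]
    {z : Fin 6 → Ω}
    (hker : ∀ (G : S6) (m : ℕ), G.IsHomogeneous m → (aeval z G = 0 ↔ D.F ∣ G))
    {P : MvPolynomial (Fin 3) ℂ} {n : ℕ} (hP : P.IsHomogeneous n) (hP0 : P ≠ 0) :
    aeval (D.qv z) P ≠ 0 := by
  intro h1
  have h0 : aeval z (aeval D.q P) = 0 := by
    rw [comp_aeval_apply]
    have h3 : (fun k => aeval z (D.q k)) = D.qv z := funext fun k => D.aeval_q z k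
    rw [h3, h1]
  rw [hker _ _ (hP.aeval _ D.q_hom)] at h0
  exact hP0 (XDat.dom hn hP h0)

/-- **Existence of the generic point.** -/
theorem exists_genX {D : XDat ℂ} (hn : D.NonDeg) (hirr : Irreducible D.F) :
    ∃ (Ω : Type) (_ : Field Ω) (_ : Algebra ℂ Ω) (_ : Algebra KK Ω) (_ : IsScalarTower ℂ KK Ω)
      (z : Fin 6 → Ω), GenX D z := by
  obtain ⟨Ω, _, _, x, x0, hker, htop⟩ := exists_pt D.F_hom hirr
  set m : Fin 3 → Ω := D.qv x with hmd
  have hm0 : m 0 ≠ 0 := by
    have h1 := form_ne hn hker (isHomogeneous_X ℂ (0 : Fin 3)) (X_ne_zero 0)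
    rwa [aeval_X] at h1
  let τ : MvPolynomial (Fin 2) ℂ →ₐ[ℂ] Ω := aeval ![m 1 / m 0, m 2 / m 0]
  have hτ : Function.Injective τ := by
    rw [injective_iff_map_eq_zero]
    intro P hP
    by_contra hP0
    obtain ⟨n, Q, hQh, hQ⟩ := Sq.hom3 P
    have h1 := hQ Ω (m 0) (m 1) (m 2) hm0
    change m 0 ^ (2 * n) * τ P = _ at h1
    rw [hP, mul_zero] at h1
    refine form_ne hn hker hQh (hom3_ne hP0 hQ) ?_
    rw [h1]
    congr 2
    funext k
    fin_cases k <;> rfl
  let σ : KK →+* Ω := IsFractionRing.lift (g := (τ : MvPolynomial (Fin 2) ℂ →+* Ω)) hτ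
  have hσ : ∀ P : MvPolynomial (Fin 2) ℂ, σ (algebraMap _ KK P) = τ P := fun P =>
    IsFractionRing.lift_algebraMap hτ P
  let _ : Algebra KK Ω := σ.toAlgebra
  have : IsScalarTower ℂ KK Ω := by
    refine IsScalarTower.of_algebraMap_eq fun a => ?_
    change algebraMap ℂ Ω a = σ (algebraMap (MvPolynomial (Fin 2) ℂ) KK (C a))
    rw [hσ]
    exact (τ.commutes a).symm
  refine ⟨Ω, inferInstance, inferInstance, inferInstance, inferInstance, x, x0, hker, hm0,
    ?_, ?_, htop⟩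
  · change m 0 * σ (algebraMap _ KK (X 0)) = m 1
    rw [hσ]
    change m 0 * aeval ![m 1 / m 0, m 2 / m 0] (X 0) = m 1
    rw [aeval_X]
    exact mul_div_cancel₀ _ hm0
  · change m 0 * σ (algebraMap _ KK (X 1)) = m 2
    rw [hσ]
    change m 0 * aeval ![m 1 / m 0, m 2 / m 0] (X 1) = m 2
    rw [aeval_X]
    exact mul_div_cancel₀ _ hm0

section

variable {D : XDat ℂ} {Ω : Type} [Field Ω] [Algebra ℂ Ω] [Algebra KK Ω] [IsScalarTower ℂ KK Ω]
  {z : Fin 6 → Ω}

/-- the parameters of the fibre -/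
def sO (Ω : Type) [Field Ω] [Algebra KK Ω] : Ω := algebraMap KK Ω sK

/-- the parameters of the fibre -/
def tO (Ω : Type) [Field Ω] [Algebra KK Ω] : Ω := algebraMap KK Ω tK

/-- the plane cubic of the rows is not zero at the generic point -/
theorem GenX.rows_ne (hz : GenX D z) (hn : D.NonDeg) :
    (rowsM (D.map (algebraMap ℂ Ω)).A (lo z)).det ≠ 0 := by
  intro h0
  set G : S6 := (rowsM (fun k => (D.A k).map C) (lo X) : Matrix (Fin 3) (Fin 3) S6).det with hG
  have h1 : aeval z G = 0 := by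
    have h2 := map_rowsM_det (aeval z : S6 →ₐ[ℂ] Ω).toRingHom (fun k => (D.A k).map C) (lo X)
    have h3 : (fun i => (aeval z : S6 →ₐ[ℂ] Ω).toRingHom ((lo X : Fin 3 → S6) i)) = lo z := by
      funext i
      fin_cases i <;> simp [lo]
    have h5 : (fun k => ((D.A k).map C).map (aeval z : S6 →ₐ[ℂ] Ω).toRingHom) =
        (D.map (algebraMap ℂ Ω)).A := by
      funext k
      ext i j
      simp [XDat.map]
    rw [h3, h5, h0] at h2
    exact h2
  rw [hz.ker G 3 (hom_rows D.A)] at h1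
  obtain ⟨H, hH⟩ := h1
  -- `H` is a constant, since both sides have degree 3
  have hF0 : D.F ≠ 0 := by
    intro h2
    obtain ⟨x, hx⟩ := hn.rows
    have h3 : eval (pt6 x 0) D.F = D.al * (rowsM D.A x).det := by
      rw [← aeval_eq_eval, D.aeval_F, lo_pt6, hi_pt6]
      have h4 : D.map (algebraMap ℂ ℂ) = D := rfl
      rw [h4]
      simp [XDat.val, FV, colsM, Matrix.det_fin_three]
    rw [h2, map_zero] at h3
    exact mul_ne_zero hn.al hx h3.symm
  have hGne : G ≠ 0 := by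
    intro h2
    obtain ⟨x, hx⟩ := hn.rows
    apply hx
    have h3 := map_rowsM_det (eval (pt6 x 0) : S6 →+* ℂ) (fun k => (D.A k).map C) (lo X)
    rw [← hG, h2, map_zero] at h3
    have h4 : (fun i => (eval (pt6 x 0) : S6 →+* ℂ) ((lo X : Fin 3 → S6) i)) = x := by
      funext i
      fin_cases i <;> simp [lo, pt6]
    have h5 : (fun k => ((D.A k).map C).map (eval (pt6 x 0) : S6 →+* ℂ)) = D.A := by
      funext k
      ext i j
      simp
    rw [h4, h5] at h3
    exact h3.symm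
  have hH0 : H ≠ 0 := by
    rintro rfl
    rw [mul_zero] at hH
    exact hGne hH
  have hdeg : H.totalDegree = 0 := by
    have h2 := congrArg totalDegree hH
    rw [totalDegree_mul_of_isDomain hF0 hH0, (hom_rows D.A).totalDegree hGne,
      D.F_hom.totalDegree hF0] at h2
    omega
  obtain ⟨y, hy⟩ := hn.cols
  have e1 : eval (pt6 0 y) G = 0 := by
    have h3 := map_rowsM_det (eval (pt6 0 y) : S6 →+* ℂ) (fun k => (D.A k).map C) (lo X)
    have h4 : (fun i => (eval (pt6 (0 : Fin 3 → ℂ) y) : S6 →+* ℂ) ((lo X : Fin 3 → S6) i)) = 0 := by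
      funext i
      fin_cases i <;> simp [lo, pt6]
    rw [h4] at h3
    rw [hG, h3]
    simp [rowsM, Matrix.det_fin_three]
  have e2 : eval (pt6 0 y) D.F = D.be * (colsM D.A y).det := by
    rw [← aeval_eq_eval, D.aeval_F, lo_pt6, hi_pt6]
    have h4 : D.map (algebraMap ℂ ℂ) = D := rfl
    rw [h4]
    simp [XDat.val, FV, rowsM, Matrix.det_fin_three]
  have e3 : eval (pt6 0 y) H = H.coeff 0 := by
    rw [(totalDegree_eq_zero_iff_eq_C).1 hdeg]
    simp
  have e4 := congrArg (eval (pt6 0 y)) hH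
  rw [map_mul, e1, e2, e3] at e4
  rcases mul_eq_zero.1 e4.symm with h2 | h2
  · exact mul_ne_zero hn.be hy h2
  · apply hH0
    rw [(totalDegree_eq_zero_iff_eq_C).1 hdeg, h2, C_0]

/-- the matrix `A_1 - s A_0` over `Ω` is invertible -/
theorem det_P_ne (hn : D.NonDeg) :
    ((D.map (algebraMap ℂ Ω)).A 1 - sO Ω • (D.map (algebraMap ℂ Ω)).A 0).det ≠ 0 := by
  obtain ⟨s₀, hs₀⟩ := hn.det
  set Q : MvPolynomial (Fin 2) ℂ := ((D.A 1).map C - (X 0 : MvPolynomial (Fin 2) ℂ) •
    (D.A 0).map C).det with hQ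
  have h1 : ∀ {R : Type} [CommRing R] [Algebra ℂ R] (f : MvPolynomial (Fin 2) ℂ →ₐ[ℂ] R),
      f Q = ((D.A 1).map (algebraMap ℂ R) - f (X 0) • (D.A 0).map (algebraMap ℂ R)).det := by
    intro R _ _ f
    rw [hQ, AlgHom.map_det]
    congr 1
    ext i j
    simp
  have h2 : Q ≠ 0 := by
    intro h3
    have h4 := h1 (aeval (fun _ => s₀) : MvPolynomial (Fin 2) ℂ →ₐ[ℂ] ℂ)
    rw [h3, map_zero, aeval_X] at h4
    exact hs₀ h4.symm
  have h3 := h1 (IsScalarTower.toAlgHom ℂ (MvPolynomial (Fin 2) ℂ) KK)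
  have h4 : (IsScalarTower.toAlgHom ℂ (MvPolynomial (Fin 2) ℂ) KK) Q ≠ 0 := by
    intro h5
    exact h2 (IsFractionRing.injective (MvPolynomial (Fin 2) ℂ) KK (h5.trans (map_zero _).symm))
  rw [h3] at h4
  intro h5
  apply h4
  apply (algebraMap KK Ω).injective
  rw [map_zero, RingHom.map_det, ← h5]
  congr 1
  ext i j
  change algebraMap KK Ω (algebraMap ℂ KK (D.A 1 i j) - sK * algebraMap ℂ KK (D.A 0 i j)) =
    algebraMap ℂ Ω (D.A 1 i j) - sO Ω * algebraMap ℂ Ω (D.A 0 i j)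
  rw [map_sub, map_mul, ← IsScalarTower.algebraMap_apply, ← IsScalarTower.algebraMap_apply]
  rfl

theorem cr_eq_zero {K : Type} [Field K] {a b : Fin 3 → K} (ha : a ≠ 0) (h : cr a b = 0) :
    ∃ c : K, b = c • a := by
  have h0 : a 1 * b 2 - a 2 * b 1 = 0 := congrFun h 0
  have h1 : a 2 * b 0 - a 0 * b 2 = 0 := congrFun h 1
  have h2 : a 0 * b 1 - a 1 * b 0 = 0 := congrFun h 2
  obtain ⟨i, hi⟩ := Function.ne_iff.1 ha
  rw [Pi.zero_apply] at hi
  fin_cases i
  · refine ⟨b 0 / a 0, funext fun j => ?_⟩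
    have hi' : a 0 ≠ 0 := hi
    fin_cases j
    · change b 0 = b 0 / a 0 * a 0
      field_simp
    · change b 1 = b 0 / a 0 * a 1
      field_simp
      linear_combination h2
    · change b 2 = b 0 / a 0 * a 2
      field_simp
      linear_combination -h1
  · refine ⟨b 1 / a 1, funext fun j => ?_⟩
    have hi' : a 1 ≠ 0 := hi
    fin_cases j
    · change b 0 = b 1 / a 1 * a 0
      field_simp
      linear_combination -h2
    · change b 1 = b 1 / a 1 * a 1
      field_simp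
    · change b 2 = b 1 / a 1 * a 2
      field_simp
      linear_combination h0
  · refine ⟨b 2 / a 2, funext fun j => ?_⟩
    have hi' : a 2 ≠ 0 := hi
    fin_cases j
    · change b 0 = b 2 / a 2 * a 0
      field_simp
      linear_combination h1
    · change b 1 = b 2 / a 2 * a 1
      field_simp
      linear_combination -h0
    · change b 2 = b 2 / a 2 * a 2
      field_simp

theorem sh_smul {R : Type} [CommRing R] (A : Fin 3 → Matrix (Fin 3) (Fin 3) R) (μ : Fin 3 → R)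
    (c : R) (v : Fin 3 → R) : sh A μ (c • v) = (c ^ 2) • sh A μ v := by
  unfold sh
  rw [rowsM_smul, adjugate_smul, smul_mulVec]
  rfl

/-- **The generic point as a point of the fibre.** -/
theorem GenX.pt (hz : GenX D z) (hn : D.NonDeg) :
    ∃ v : Fin 3 → Ω, (rowsM (D.map (algebraMap ℂ Ω)).A v).det ≠ 0 ∧
      Gf (D.map (algebraMap ℂ Ω)).A (D.map (algebraMap ℂ Ω)).m (D.map (algebraMap ℂ Ω)).n
        (D.map (algebraMap ℂ Ω)).al (D.map (algebraMap ℂ Ω)).be (sO Ω) (tO Ω) v = 0 ∧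
      ∀ T : IntermediateField KK Ω, (∀ i, v i ∈ T) → T = ⊤ := by
  set E := D.map (algebraMap ℂ Ω) with hE
  have hrow := hz.rows_ne hn
  rw [← hE] at hrow
  set w := sh E.A ![1, sO Ω, tO Ω] (lo z) with hw
  have hbil : ∀ k, D.qv z k = lo z ⬝ᵥ E.A k *ᵥ hi z := fun k => rfl
  have hw0 : w ≠ 0 := by
    intro h0
    have h1 := bil_sh E.A ![1, sO Ω, tO Ω] (lo z) 0
    rw [← hw, h0, mulVec_zero, dotProduct_zero] at h1
    apply hrow
    simpa using h1.symm
  have e1 : (lo z ᵥ* (E.A 1 - sO Ω • E.A 0)) ⬝ᵥ hi z = 0 := by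
    have h1 := hz.hs
    rw [hbil, hbil] at h1
    rw [← dotProduct_mulVec, sub_mulVec, smul_mulVec, dotProduct_sub, dotProduct_smul,
      smul_eq_mul, ← h1]
    unfold sO
    ring
  have e2 : (lo z ᵥ* (E.A 2 - tO Ω • E.A 0)) ⬝ᵥ hi z = 0 := by
    have h1 := hz.ht
    rw [hbil, hbil] at h1
    rw [← dotProduct_mulVec, sub_mulVec, smul_mulVec, dotProduct_sub, dotProduct_smul,
      smul_eq_mul, ← h1]
    unfold tO
    ring
  obtain ⟨σ, hσ⟩ := cr_eq_zero (a := w) (b := hi z) hw0 (by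
    rw [hw, sh_eq, cr_cr, e1, e2, zero_smul, zero_smul, sub_zero])
  -- `w = hi z / σ`; put `v = σ • lo z`
  have hσ0 : σ ≠ 0 := by
    rintro rfl
    rw [zero_smul] at hσ
    apply hz.q0
    rw [hbil, hσ, mulVec_zero, dotProduct_zero]
  have hv : sh E.A ![1, sO Ω, tO Ω] (σ • lo z) = σ • hi z := by
    rw [sh_smul, ← hw, hσ, smul_smul, sq]
  have hFz : FV E.A E.m E.n E.al E.be (lo z) (hi z) = 0 := by
    have h1 := (hz.ker D.F 3 D.F_hom).2 dvd_rfl
    rw [D.aeval_F] at h1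
    exact h1
  have hdetv : (rowsM E.A (σ • lo z)).det ≠ 0 := by
    rw [rowsM_det_smul]
    exact mul_ne_zero (pow_ne_zero _ hσ0) hrow
  refine ⟨σ • lo z, hdetv, ?_, fun T hT => ?_⟩
  · have h1 := FV_sh (A := E.A) (s := sO Ω) (t := tO Ω) E.m E.n E.al E.be (det_P_ne hn) (σ • lo z)
    rw [hv] at h1
    have h2 : FV E.A E.m E.n E.al E.be (σ • lo z) (σ • hi z) = 0 := by
      rw [FV_smul]
      have h3 : FV E.A E.m E.n E.al E.be (lo z) (hi z) * σ ^ 3 = 0 := by rw [hFz, zero_mul]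
      rw [← h3]
      unfold FV
      simp only [Fin.sum_univ_three]
      ring
    rw [h2] at h1
    exact (mul_eq_zero.1 h1.symm).resolve_left hdetv
  · have hsT : sO Ω ∈ T := T.algebraMap_mem _
    have htT : tO Ω ∈ T := T.algebraMap_mem _
    have hAT : ∀ k i j, E.A k i j ∈ T := by
      intro k i j
      change algebraMap ℂ Ω (D.A k i j) ∈ T
      rw [IsScalarTower.algebraMap_apply ℂ KK Ω]
      exact T.algebraMap_mem _
    have hσT : σ ∈ T := by
      have h1 := hT 0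
      have h2 : (σ • lo z) 0 = σ := by
        change σ * z 0 = σ
        rw [hz.x0, mul_one]
      rwa [h2] at h1
    have hlo : ∀ i, lo z i ∈ T := by
      intro i
      have h1 : lo z i = (σ • lo z) i / σ := by
        rw [Pi.smul_apply, smul_eq_mul]
        field_simp
      rw [h1]
      exact div_mem (hT i) hσT
    have hdotT : ∀ {a b : Fin 3 → Ω}, (∀ i, a i ∈ T) → (∀ i, b i ∈ T) → a ⬝ᵥ b ∈ T :=
      fun ha hb => sum_mem fun i _ => mul_mem (ha i) (hb i)
    have hPT : ∀ i, (lo z ᵥ* (E.A 1 - sO Ω • E.A 0)) i ∈ T := fun i =>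
      hdotT hlo fun j => sub_mem (hAT 1 j i) (mul_mem hsT (hAT 0 j i))
    have hQT : ∀ i, (lo z ᵥ* (E.A 2 - tO Ω • E.A 0)) i ∈ T := fun i =>
      hdotT hlo fun j => sub_mem (hAT 2 j i) (mul_mem htT (hAT 0 j i))
    have hwT : ∀ i, w i ∈ T := by
      intro i
      rw [hw, sh_eq]
      fin_cases i
      · exact sub_mem (mul_mem (hPT 1) (hQT 2)) (mul_mem (hPT 2) (hQT 1))
      · exact sub_mem (mul_mem (hPT 2) (hQT 0)) (mul_mem (hPT 0) (hQT 2))
      · exact sub_mem (mul_mem (hPT 0) (hQT 1)) (mul_mem (hPT 1) (hQT 0))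
    have hhi : ∀ i, hi z i ∈ T := by
      intro i
      rw [hσ]
      exact mul_mem hσT (hwT i)
    have h4 : (⊤ : IntermediateField ℂ Ω) ≤ T.restrictScalars ℂ := by
      rw [← hz.top, IntermediateField.adjoin_le_iff]
      rintro _ ⟨i, rfl⟩
      fin_cases i
      · exact hlo 0
      · exact hlo 1
      · exact hlo 2
      · exact hhi 0
      · exact hhi 1
      · exact hhi 2
    rw [eq_top_iff]
    intro y _
    exact h4 (IntermediateField.mem_top)

end

end Pool.Agent.G18.XS
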