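import Pool.Agent.G18.Defs
import Pool.Agent.G18.XPt
import Pool.Agent.GSN.Trd

/-!
# G18: the generic point of the cubic fourfold as a point of the generic fibre
-/

set_option autoImplicit false

noncomputable section

namespace Pool.Agent.C18

open MvPolynomial Matrix

/-- the same data -/
private def toX {R : Type} (X : Cub R) : G18.XS.XDat R := ⟨X.A, X.m, X.n, X.al, X.be⟩

private theorem form_eq {R : Type} [CommRing R] (X : Cub R) (x y : Fin 3 → R) :
    X.form x y = (toX X).val x y := by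
  have h1 : (G18.XS.colsM X.A y) = (of fun k => X.A k *ᵥ y)ᵀ := rfl
  unfold Cub.form G18.XS.XDat.val G18.XS.FV
  change _ = X.al * (G18.XS.rowsM X.A x).det + X.be * (G18.XS.colsM X.A y).det + _
  rw [h1, det_transpose]
  rfl

private theorem cr_eq {R : Type} [CommRing R] (a b : Fin 3 → R) : a ⨯₃ b = G18.XS.cr a b := by
  rw [cross_apply]
  rfl

private theorem fibre_eq {R : Type} [CommRing R] (X : Cub R) (s t : R) (v : Fin 3 → R) :
    X.fibre s t v = G18.XS.Gf X.A X.m X.n X.al X.be s t v := by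
  have h1 : X.sh s t v = G18.XS.sh X.A ![1, s, t] v := by
    rw [G18.XS.sh_eq]
    exact cr_eq _ _
  unfold Cub.fibre G18.XS.Gf G18.XS.Nm
  rw [← G18.XS.sh_eq, ← h1, ← dotProduct_mulVec]
  change -(X.be * (v ⬝ᵥ ((X.A 2 - t • X.A 0) * (X.A 1 - s • X.A 0).adjugate *
    (X.A 2 - t • X.A 0)) *ᵥ X.sh s t v)) + _ + _ + _ = _
  ring

private theorem F_eq (X : Cub ℂ) : X.F = (toX X).F := by
  unfold Cub.F G18.XS.XDat.F
  rw [form_eq]
  rfl

private theorem nonDeg (X : Cub ℂ) (h : X.NonDeg) : (toX X).NonDeg where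
  al := h.al
  be := h.be
  rows := h.rows
  cols := by
    obtain ⟨y, hy⟩ := h.cols
    refine ⟨y, ?_⟩
    have h1 : (G18.XS.colsM X.A y) = (of fun k => X.A k *ᵥ y)ᵀ := rfl
    change (G18.XS.colsM X.A y).det ≠ 0
    rwa [h1, det_transpose]
  det := h.det

section map

variable {R R' : Type} [CommRing R] [CommRing R'] (f : R →+* R')

private theorem map_dot' (x y : Fin 3 → R) :
    f (x ⬝ᵥ y) = (fun i => f (x i)) ⬝ᵥ fun i => f (y i) := by
  simp [dotProduct, map_sum, map_mul]

private theorem map_vecMul' (x : Fin 3 → R) (M : Matrix (Fin 3) (Fin 3) R) :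
    (fun i => f ((x ᵥ* M) i)) = (fun i => f (x i)) ᵥ* M.map f := by
  funext i
  simp [vecMul, dotProduct, map_sum, map_mul]

private theorem map_P (X : Cub R) (s t : R) (i : Fin 2) :
    (X.P s t i).map f = (X.map f).P (f s) (f t) i := by
  fin_cases i
  · ext a b
    simp [Cub.P, Cub.map]
  · ext a b
    simp [Cub.P, Cub.map]

private theorem map_sh (X : Cub R) (s t : R) (v : Fin 3 → R) :
    (fun i => f (X.sh s t v i)) = (X.map f).sh (f s) (f t) fun i => f (v i) := by
  unfold Cub.sh
  rw [← map_P, ← map_P, ← map_vecMul', ← map_vecMul', cross_apply, cross_apply]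
  funext i
  fin_cases i <;> simp

private theorem map_fibre (X : Cub R) (s t : R) (v : Fin 3 → R) :
    f (X.fibre s t v) = (X.map f).fibre (f s) (f t) fun i => f (v i) := by
  have hadj : ∀ M : Matrix (Fin 3) (Fin 3) R, M.adjugate.map f = (M.map f).adjugate :=
    fun M => RingHom.map_adjugate f M
  have h2 : (fun i => f ((X.n 0 + s • X.n 1 + t • X.n 2) i)) =
      (X.map f).n 0 + f s • (X.map f).n 1 + f t • (X.map f).n 2 := by
    funext i
    simp [Cub.map]
  have h3 : (fun i => f ((X.m 0 + s • X.m 1 + t • X.m 2) i)) =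
      (X.map f).m 0 + f s • (X.map f).m 1 + f t • (X.map f).m 2 := by
    funext i
    simp [Cub.map]
  unfold Cub.fibre
  rw [map_add, map_add, map_add, map_neg, map_mul, map_dot', map_dot', map_dot', map_vecMul',
    map_sh, h2, h3, Matrix.map_mul, Matrix.map_mul, hadj, map_P, map_P]
  rfl

end map

/-- The generic point `x` of the cubic fourfold and the corresponding point `v` of the generic
fibre over the plane. -/
theorem exists_point (X : Cub ℂ) (hn : X.NonDeg) (hirr : Irreducible X.F) :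
    ∃ (Ω : Type) (_ : Field Ω) (_ : Algebra ℂ Ω) (_ : Algebra K Ω) (_ : IsScalarTower ℂ K Ω)
      (x : Fin 6 → Ω) (v : Fin 3 → Ω), x 0 = 1 ∧
      (∀ (G : MvPolynomial (Fin 6) ℂ) (m : ℕ), G.IsHomogeneous m → (aeval x G = 0 ↔ X.F ∣ G)) ∧
      IntermediateField.adjoin ℂ (Set.range x) = ⊤ ∧ aeval v X.fib = 0 ∧
      IntermediateField.adjoin K (Set.range v) = ⊤ ∧
      ∃ y : Fin 4 → Ω, AlgebraicIndependent ℂ y := by
  have hn' := nonDeg X hn
  have hirr' : Irreducible (toX X).F := by rwa [← F_eq]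
  obtain ⟨Ω, _, _, _, _, x, hx⟩ := G18.XS.exists_genX hn' hirr'
  obtain ⟨v, -, hv, htop⟩ := hx.pt hn'
  refine ⟨Ω, inferInstance, inferInstance, inferInstance, inferInstance, x, v, hx.x0, ?_, hx.top,
    ?_, htop _ fun i => IntermediateField.subset_adjoin _ _ ⟨i, rfl⟩, ?_⟩
  · intro G m hG
    rw [F_eq]
    exact hx.ker G m hG
  · have h1 := map_fibre (aeval v : MvPolynomial (Fin 3) K →ₐ[K] Ω).toRingHom
      (X.map fun z => C (algebraMap ℂ K z)) (C (var 0)) (C (var 1)) MvPolynomial.X
    have h2 : (X.map fun z => C (algebraMap ℂ K z)).map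
        (aeval v : MvPolynomial (Fin 3) K →ₐ[K] Ω).toRingHom = X.map (algebraMap ℂ Ω) := by
      have h3 : ∀ z : ℂ, algebraMap K Ω (algebraMap ℂ K z) = algebraMap ℂ Ω z := fun z =>
        (IsScalarTower.algebraMap_apply ℂ K Ω z).symm
      unfold Cub.map
      simp [Matrix.map_map, Function.comp_def, h3]
    have h4 : ∀ i, (aeval v : MvPolynomial (Fin 3) K →ₐ[K] Ω).toRingHom (MvPolynomial.X i) =
        v i := fun i => aeval_X v i
    have h5 : ∀ z : K, (aeval v : MvPolynomial (Fin 3) K →ₐ[K] Ω).toRingHom (C z) =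
        algebraMap K Ω z := fun z => aeval_C v z
    rw [h2, h5, h5] at h1
    simp only [h4] at h1
    have h6 : aeval v X.fib = (X.map (algebraMap ℂ Ω)).fibre (algebraMap K Ω (var 0))
      (algebraMap K Ω (var 1)) fun i => v i := h1
    rw [h6, fibre_eq]
    exact hv
  · exact GSN.exists_ind (toX X).F_hom hirr' x hx.x0 hx.ker

end Pool.Agent.C18
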