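import Pool.Agent.G18.Link
import Pool.Agent.G18.XPoint
import Pool.Agent.G18.VFour
import Pool.Agent.PLN.RatFF

/-!
# G18: the theorem
-/

set_option autoImplicit false

noncomputable section

namespace Pool.Agent.C18

open MvPolynomial Matrix

/-- the cubic form is homogeneous of degree three -/
theorem Cub.F_hom (X : Cub ℂ) : X.F.IsHomogeneous 3 := by
  have hx : ∀ i : Fin 3, ((![.X 0, .X 1, .X 2] : Fin 3 → MvPolynomial (Fin 6) ℂ) i).IsHomogeneous 1 := by
    intro i
    fin_cases i <;> exact isHomogeneous_X _ _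
  have hy : ∀ i : Fin 3, ((![.X 3, .X 4, .X 5] : Fin 3 → MvPolynomial (Fin 6) ℂ) i).IsHomogeneous 1 := by
    intro i
    fin_cases i <;> exact isHomogeneous_X _ _
  have hC : ∀ {p : MvPolynomial (Fin 6) ℂ} (z : ℂ) {n : ℕ}, p.IsHomogeneous n →
      (C z * p).IsHomogeneous n := by
    intro p z n hp
    have h := (isHomogeneous_C (Fin 6) z).mul hp
    rwa [zero_add] at h
  have hr : ∀ k i : Fin 3, (((of fun k => (![.X 0, .X 1, .X 2] : Fin 3 → MvPolynomial (Fin 6) ℂ) ᵥ*
      (X.map C).A k) : Matrix (Fin 3) (Fin 3) (MvPolynomial (Fin 6) ℂ)) k i).IsHomogeneous 1 := by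
    intro k i
    rw [of_apply]
    refine IsHomogeneous.sum _ _ _ fun j _ => ?_
    rw [mul_comm]
    exact hC _ (hx j)
  have hc : ∀ k i : Fin 3, (((of fun k => (X.map C).A k *ᵥ
      (![.X 3, .X 4, .X 5] : Fin 3 → MvPolynomial (Fin 6) ℂ)) :
      Matrix (Fin 3) (Fin 3) (MvPolynomial (Fin 6) ℂ)) k i).IsHomogeneous 1 := by
    intro k i
    rw [of_apply]
    exact IsHomogeneous.sum _ _ _ fun j _ => hC _ (hy j)
  have hdet : ∀ A : Matrix (Fin 3) (Fin 3) (MvPolynomial (Fin 6) ℂ), (∀ i j, (A i j).IsHomogeneous 1) →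
      A.det.IsHomogeneous 3 := by
    intro A hA
    rw [det_apply]
    refine IsHomogeneous.sum _ _ _ fun σ _ => ?_
    have h := IsHomogeneous.prod Finset.univ (fun i => A (σ i) i) (fun _ => 1) fun i _ => hA _ _
    rw [Finset.sum_const, Finset.card_univ, Fintype.card_fin] at h
    rcases Int.units_eq_one_or (Equiv.Perm.sign σ) with h1 | h1
    · rw [h1, one_smul]
      exact h
    · rw [h1, Units.neg_smul, one_smul]
      exact h.neg
  unfold Cub.F Cub.form
  refine ((hC _ (hdet _ hr)).add (hC _ (hdet _ hc))).add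
    (IsHomogeneous.sum _ _ _ fun k _ => ?_)
  refine IsHomogeneous.mul (m := 1) (n := 2) ?_ ?_
  · refine IsHomogeneous.add ?_ ?_
    · exact IsHomogeneous.sum _ _ _ fun i _ => hC _ (hx i)
    · exact IsHomogeneous.sum _ _ _ fun i _ => hC _ (hy i)
  · exact IsHomogeneous.sum _ _ _ fun i _ => IsHomogeneous.mul (m := 1) (n := 1) (hx i)
      (IsHomogeneous.sum _ _ _ fun j _ => hC _ (hy j))

theorem trdeg_K : Algebra.trdeg ℂ K = 2 := by
  have h1 := _root_.trdeg_add_eq ℂ (MvPolynomial (Fin 2) ℂ) (A := K)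
  have h2 : Algebra.trdeg (MvPolynomial (Fin 2) ℂ) K = 0 := by
    have : Algebra.IsAlgebraic (MvPolynomial (Fin 2) ℂ) K :=
      IsLocalization.isAlgebraic _ (nonZeroDivisors (MvPolynomial (Fin 2) ℂ))
    exact trdeg_eq_zero
  rw [h2, add_zero, MvPolynomial.trdeg_of_isDomain] at h1
  rw [← h1]
  simp

section

open IntermediateField.algebraAdjoinAdjoin

theorem not_alg {Ω : Type} [Field Ω] [Algebra ℂ Ω] [Algebra K Ω] [IsScalarTower ℂ K Ω]
    {y : Fin 4 → Ω} (hy : AlgebraicIndependent ℂ y) (t : Ω) :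
    ¬ Algebra.IsAlgebraic (IntermediateField.adjoin K {t}) Ω := by
  intro h
  have h1 : Algebra.IsAlgebraic (Algebra.adjoin K {t}) Ω :=
    Algebra.IsAlgebraic.trans (Algebra.adjoin K {t}) (IntermediateField.adjoin K {t}) Ω
  have h2 : Algebra.trdeg K Ω ≤ 1 := by
    have := Algebra.IsAlgebraic.trdeg_le_cardinalMk K ({t} : Set Ω)
    simpa using this
  have h4 := _root_.trdeg_add_eq ℂ K (A := Ω)
  have h5 := hy.cardinalMk_le_trdeg
  rw [← h4, trdeg_K, Cardinal.mk_fintype, Fintype.card_fin] at h5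
  have h6 : (4 : Cardinal) ≤ 2 + 1 := by
    refine le_trans ?_ (h5.trans (add_le_add_right h2 2))
    norm_num
  norm_num at h6

end

/-- a subfield of an extension of `K` which contains `ℂ` and the two variables contains `K` -/
theorem K_mem {Ω : Type} [Field Ω] [Algebra ℂ Ω] [Algebra K Ω] [IsScalarTower ℂ K Ω]
    (T : IntermediateField ℂ Ω) (h : ∀ i, algebraMap K Ω (var i) ∈ T) (k : K) :
    algebraMap K Ω k ∈ T := by
  have hP : ∀ P : MvPolynomial (Fin 2) ℂ, algebraMap K Ω (algebraMap (MvPolynomial (Fin 2) ℂ) K P) ∈ T := by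
    intro P
    induction P using MvPolynomial.induction_on with
    | C a =>
      have h1 : algebraMap (MvPolynomial (Fin 2) ℂ) K (C a) = algebraMap ℂ K a := by
        rw [IsScalarTower.algebraMap_apply ℂ (MvPolynomial (Fin 2) ℂ) K]
        rfl
      rw [h1, ← IsScalarTower.algebraMap_apply ℂ K Ω]
      exact T.algebraMap_mem a
    | add p q hp hq =>
      rw [map_add, map_add]
      exact add_mem hp hq
    | mul_X p i hp =>
      rw [map_mul, map_mul]
      exact mul_mem hp (h i)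
  obtain ⟨p, q, _, rfl⟩ := IsFractionRing.div_surjective (A := MvPolynomial (Fin 2) ℂ) k
  rw [map_div₀]
  exact div_mem (hP p) (hP q)

/-- generation over `ℂ` by the two variables and generators over `K` -/
theorem adjoin_two {Ω : Type} [Field Ω] [Algebra ℂ Ω] [Algebra K Ω] [IsScalarTower ℂ K Ω]
    {a : Fin 2 → Ω} (ha : IntermediateField.adjoin K (Set.range a) = ⊤) :
    IntermediateField.adjoin ℂ (Set.range ![algebraMap K Ω (var 0), algebraMap K Ω (var 1), a 0, a 1])
      = ⊤ := by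
  set T := IntermediateField.adjoin ℂ
    (Set.range ![algebraMap K Ω (var 0), algebraMap K Ω (var 1), a 0, a 1]) with hT
  have hm : ∀ i : Fin 4, (![algebraMap K Ω (var 0), algebraMap K Ω (var 1), a 0, a 1] : Fin 4 → Ω) i ∈ T :=
    fun i => IntermediateField.subset_adjoin _ _ ⟨i, rfl⟩
  have hK : ∀ k : K, algebraMap K Ω k ∈ T := K_mem T fun i => by
    fin_cases i
    · exact hm 0
    · exact hm 1
  let T' : IntermediateField K Ω := T.toSubfield.toIntermediateField hK
  have h1 : IntermediateField.adjoin K (Set.range a) ≤ T' := by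
    rw [IntermediateField.adjoin_le_iff]
    rintro _ ⟨i, rfl⟩
    fin_cases i
    · exact hm 2
    · exact hm 3
  rw [ha] at h1
  rw [eq_top_iff]
  intro x _
  exact h1 (IntermediateField.mem_top (x := x))

/-- **The theorem** with the explicit polynomial `Dl`. -/
theorem final_Dl (X : Cub ℂ) (V : Net ℂ) (c : Fin 2 → K) (hn : X.NonDeg) (hirr : Irreducible X.F)
    (hD : eval V.coord G18.Dl ≠ 0) (hc : IntermediateField.adjoin ℂ (Set.range c) = ⊤)
    (hT : SameTwist X.fib (V.fib c)) : Pool.Agent.P28.Rational X.F := by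
  obtain ⟨Ω, _, _, _, _, x, v, x0, hker, hx, hv, hgen, y, hy⟩ := exists_point X hn hirr
  obtain ⟨M₁, _, _, M₂, _, _, h₁, h₂, C₁, C₂, ⟨P₁⟩, ⟨P₂⟩, Φ, κ, hκ, hΦ⟩ := hT
  obtain ⟨hbe, hV⟩ := four_Dl V hD c hc M₂ h₂ C₂ P₂
  have hfour : ∃ a : Fin 4 → Ω, IntermediateField.adjoin ℂ (Set.range a) = ⊤ := by
    rcases link h₁ h₂ P₁ P₂ hbe Φ hκ hΦ v hv hgen (not_alg hy) with ⟨a, ha⟩ | ⟨v', hv', hg'⟩
    · exact ⟨_, adjoin_two ha⟩
    · exact hV Ω v' hv' hg' ⟨y, hy⟩
  obtain ⟨a, ha⟩ := hfour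
  refine PLN.ratFF X.F_hom hirr x x0 hker a (fun j => ?_) fun i => ?_
  · rw [hx]
    exact IntermediateField.mem_top
  · rw [ha]
    exact IntermediateField.mem_top

/-- **The theorem.** -/
theorem final : ∃ Δ : MvPolynomial Idx ℂ, Δ ≠ 0 ∧ ∀ (X : Cub ℂ) (V : Net ℂ) (c : Fin 2 → K),
    X.NonDeg → Irreducible X.F → eval V.coord Δ ≠ 0 →
    IntermediateField.adjoin ℂ (Set.range c) = ⊤ → SameTwist X.fib (V.fib c) →
    Pool.Agent.P28.Rational X.F :=
  ⟨G18.Dl, G18.Dl_ne, final_Dl⟩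

end Pool.Agent.C18
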