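import Mathlib

/-!
# G18: the trilinear polynomial of a cube is irreducible

`mirr`: the polynomial `al + ∑ m_i V_i + ∑ n_i V_j V_k + be V_0 V_1 V_2` over a field is irreducible
if Cayley's hyperdeterminant of its coefficients is not zero.
-/

set_option autoImplicit false

open MvPolynomial

namespace Pool.Agent.G18

variable {F : Type} [Field F]

/-- the polynomial of a cube -/
noncomputable def mpol (al be : F) (m n : Fin 3 → F) : MvPolynomial (Fin 3) F :=
  C al + (C (m 0) * X 0 + C (m 1) * X 1 + C (m 2) * X 2) +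
    (C (n 0) * (X 1 * X 2) + C (n 1) * (X 0 * X 2) + C (n 2) * (X 0 * X 1)) +
    C be * (X 0 * X 1 * X 2)

/-- its values -/
def mval (al be : F) (m n v : Fin 3 → F) : F :=
  al + (m 0 * v 0 + m 1 * v 1 + m 2 * v 2) +
    (n 0 * (v 1 * v 2) + n 1 * (v 0 * v 2) + n 2 * (v 0 * v 1)) + be * (v 0 * v 1 * v 2)

/-- Cayley's hyperdeterminant -/
def hdet (al be : F) (m n : Fin 3 → F) : F :=
  (al * be - (m 0 * n 0 + m 1 * n 1 + m 2 * n 2)) ^ 2 -
    4 * (m 0 * n 0 * (m 1 * n 1) + m 0 * n 0 * (m 2 * n 2) + m 1 * n 1 * (m 2 * n 2)) +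
    4 * al * (n 0 * n 1 * n 2) + 4 * be * (m 0 * m 1 * m 2)

theorem eval_mpol (al be : F) (m n v : Fin 3 → F) :
    eval v (mpol al be m n) = mval al be m n v := by
  simp [mpol, mval]

theorem degreeOf_mpol (al be : F) (m n : Fin 3 → F) (i : Fin 3) :
    degreeOf i (mpol al be m n) ≤ 1 := by
  have hC : ∀ (a : F) (p : MvPolynomial (Fin 3) F), degreeOf i p ≤ 1 → degreeOf i (C a * p) ≤ 1 :=
    fun a p h => (degreeOf_C_mul_le p i a).trans h
  have hX : ∀ j : Fin 3, degreeOf i (X j : MvPolynomial (Fin 3) F) = if i = j then 1 else 0 :=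
    fun j => degreeOf_X i j
  have h1 : ∀ j : Fin 3, degreeOf i (X j : MvPolynomial (Fin 3) F) ≤ 1 := by
    intro j
    rw [hX]
    split_ifs <;> omega
  have h2 : ∀ j k : Fin 3, j ≠ k → degreeOf i (X j * X k : MvPolynomial (Fin 3) F) ≤ 1 := by
    intro j k hjk
    refine (degreeOf_mul_le _ _ _).trans ?_
    rw [hX, hX]
    split_ifs with h h'
    · exact absurd (h.symm.trans h') hjk
    all_goals omega
  have h3 : degreeOf i (X 0 * X 1 * X 2 : MvPolynomial (Fin 3) F) ≤ 1 := by
    refine (degreeOf_mul_le _ _ _).trans ?_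
    refine (Nat.add_le_add_right (degreeOf_mul_le _ _ _) _).trans ?_
    rw [hX, hX, hX]
    fin_cases i <;> simp
  unfold mpol
  have hadd : ∀ p q : MvPolynomial (Fin 3) F, degreeOf i p ≤ 1 → degreeOf i q ≤ 1 →
      degreeOf i (p + q) ≤ 1 := fun p q hp hq => (degreeOf_add_le i p q).trans (max_le hp hq)
  refine hadd _ _ (hadd _ _ (hadd _ _ ?_ ?_) ?_) (hC _ _ h3)
  · rw [degreeOf_C]
    omega
  · exact hadd _ _ (hadd _ _ (hC _ _ (h1 _)) (hC _ _ (h1 _))) (hC _ _ (h1 _))
  · exact hadd _ _ (hadd _ _ (hC _ _ (h2 _ _ (by decide))) (hC _ _ (h2 _ _ (by decide))))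
      (hC _ _ (h2 _ _ (by decide)))

theorem eval_update {g : MvPolynomial (Fin 3) F} {i : Fin 3} (h : degreeOf i g = 0)
    (v : Fin 3 → F) (t : F) : eval (Function.update v i t) g = eval v g := by
  refine eval₂Hom_congr' rfl (fun j hj _ => ?_) rfl
  rw [Function.update_of_ne]
  rintro rfl
  exact mem_vars_iff_degreeOf_ne_zero.1 hj h

/-- proportional rows -/
theorem hdet_zero {a b c d a' b' c' d' : F} (h02 : a * c' = c * a')
    (h03 : a * d' = d * a') (h12 : b * c' = c * b') (h13 : b * d' = d * b') :
    (a * d' + d * a' - b * c' - c * b') ^ 2 -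
      4 * (a * d - b * c) * (a' * d' - b' * c') = 0 := by
  linear_combination (a * d' - d * a') * h03 + (b * c' - c * b') * h12 + 4 * (a * d') * h12 +
    4 * (b * c') * h03 - 2 * (a * d' - d * a') * h12 - 4 * a * c' * h13 - 4 * b * d' * h02

theorem hdet_of_split {al be : F} {m n : Fin 3 → F} {f : Fin 3 → F → F} {g : F → F → F}
    (i : Fin 3) (h : ∀ v : Fin 3 → F, mval al be m n v =
      f i (v i) * g (v (i + 1)) (v (i + 2))) : hdet al be m n = 0 := by
  have h2 : ∀ s t x y x' y' : F, mval al be m n (fun k => if k = i then s else if k = i + 1 then x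
      else y) * mval al be m n (fun k => if k = i then t else if k = i + 1 then x' else y') =
      mval al be m n (fun k => if k = i then t else if k = i + 1 then x else y) *
      mval al be m n (fun k => if k = i then s else if k = i + 1 then x' else y') := by
    intro s t x y x' y'
    rw [h, h, h, h]
    fin_cases i <;> simp <;> ring
  have e : ∀ s x y : F, mval al be m n (fun k => if k = i then s else if k = i + 1 then x else y) =
      (al + m (i + 1) * x + m (i + 2) * y + n i * (x * y)) +
        s * (m i + n (i + 2) * x + n (i + 1) * y + be * (x * y)) := by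
    intro s x y
    fin_cases i <;> simp [mval] <;> ring
  simp only [e] at h2
  have k1 := h2 0 1 0 0 1 0
  have k2 := h2 0 1 0 0 0 1
  have k3 := h2 0 1 0 0 1 1
  have k4 := h2 0 1 1 0 0 1
  have k5 := h2 0 1 1 0 1 1
  have j1 : al * n (i + 2) = m (i + 1) * m i := by linear_combination k1
  have j2 : al * n (i + 1) = m (i + 2) * m i := by linear_combination k2
  have j3 : al * be = n i * m i := by linear_combination k3 - j1 - j2
  have j4 : m (i + 1) * n (i + 1) = m (i + 2) * n (i + 2) := by
    linear_combination k4 + j1 - j2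
  have j5 : m (i + 1) * be = n i * n (i + 2) := by
    linear_combination k5 - j4 - j3 - j2
  have h3 := hdet_zero j2 j3 j4 j5
  rw [← h3]
  fin_cases i <;> simp [hdet] <;> ring

/-- a constant is not the polynomial of a cube with nonzero hyperdeterminant, and such a polynomial
is not a product -/
theorem hdet_of_mul {al be : F} {m n : Fin 3 → F} {g h : MvPolynomial (Fin 3) F}
    (hgh : mpol al be m n = g * h) (i : Fin 3) (h1 : degreeOf (i + 1) g = 0)
    (h2 : degreeOf (i + 2) g = 0) (h0 : degreeOf i h = 0) : hdet al be m n = 0 := by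
  refine hdet_of_split (f := fun i s => eval (fun k => if k = i then s else 0) g)
    (g := fun x y => eval (fun k => if k = i then 0 else if k = i + 1 then x else y) h) i ?_
  intro v
  rw [← eval_mpol, hgh, map_mul]
  congr 1
  · rw [← eval_update h1 v 0, ← eval_update h2 _ 0]
    congr 2
    funext k
    fin_cases i <;> fin_cases k <;> simp [Function.update]
  · rw [← eval_update h0 v 0]
    congr 2
    funext k
    fin_cases i <;> fin_cases k <;> simp [Function.update]

theorem isUnit_of_degreeOf {g : MvPolynomial (Fin 3) F} (hg : g ≠ 0) (h : ∀ i, degreeOf i g = 0) :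
    IsUnit g := by
  have h1 : g.vars = ∅ := by
    rw [Finset.eq_empty_iff_forall_notMem]
    intro i hi
    exact mem_vars_iff_degreeOf_ne_zero.1 hi (h i)
  rw [vars_eq_empty_iff_eq_C] at h1
  rw [h1]
  refine (IsUnit.mk0 _ ?_).map C
  intro h2
  rw [h2, map_zero] at h1
  exact hg h1

/-- **The polynomial of a cube is irreducible.** -/
theorem mirr {al be : F} {m n : Fin 3 → F} (hD : hdet al be m n ≠ 0) :
    Irreducible (mpol al be m n) := by
  have hne : mpol al be m n ≠ 0 := by
    intro h
    exact hD (hdet_of_mul (g := 0) (h := 0) (by rw [h, mul_zero]) 0 (degreeOf_zero _)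
      (degreeOf_zero _) (degreeOf_zero _))
  refine ⟨fun hu => ?_, fun g h hgh => ?_⟩
  · obtain ⟨r, -, hr⟩ := isUnit_iff_eq_C_of_isReduced.1 hu
    exact hD (hdet_of_mul (g := C r) (h := 1) (by rw [hr, mul_one]) 0 (degreeOf_C _ _)
      (degreeOf_C _ _) (degreeOf_one _))
  · have hg : g ≠ 0 := fun h0 => hne (by rw [hgh, h0, zero_mul])
    have hh : h ≠ 0 := fun h0 => hne (by rw [hgh, h0, mul_zero])
    have hd : ∀ i, degreeOf i g + degreeOf i h ≤ 1 := by
      intro i
      rw [← degreeOf_mul_eq hg hh, ← hgh]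
      exact degreeOf_mpol al be m n i
    -- the key step
    have key : ∀ g h : MvPolynomial (Fin 3) F, mpol al be m n = g * h → g ≠ 0 →
        (∀ i, degreeOf i g + degreeOf i h ≤ 1) → ∀ i : Fin 3, degreeOf (i + 1) g = 0 →
        degreeOf (i + 2) g = 0 → IsUnit g := by
      intro g h hgh hg hd i h1 h2
      by_cases h0 : degreeOf i g = 0
      · refine isUnit_of_degreeOf hg fun k => ?_
        fin_cases i <;> fin_cases k <;> first | exact h0 | exact h1 | exact h2
      · exact absurd (hdet_of_mul hgh i h1 h2 (by have := hd i; omega)) hD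
    have hd0 := hd 0
    have hd1 := hd 1
    have hd2 := hd 2
    have hgh' : mpol al be m n = h * g := by rw [hgh, mul_comm]
    have hd' : ∀ i, degreeOf i h + degreeOf i g ≤ 1 := fun i => by rw [add_comm]; exact hd i
    by_cases a0 : degreeOf 0 g = 0 <;> by_cases a1 : degreeOf 1 g = 0 <;>
      by_cases a2 : degreeOf 2 g = 0
    · exact Or.inl (key g h hgh hg hd 0 a1 a2)
    · exact Or.inl (key g h hgh hg hd 2 a0 a1)
    · exact Or.inl (key g h hgh hg hd 1 a2 a0)
    · exact Or.inr (key h g hgh' hh hd' 0 (by change degreeOf 1 h = 0; omega)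
        (by change degreeOf 2 h = 0; omega))
    · exact Or.inl (key g h hgh hg hd 0 a1 a2)
    · exact Or.inr (key h g hgh' hh hd' 1 (by change degreeOf 2 h = 0; omega)
        (by change degreeOf 0 h = 0; omega))
    · exact Or.inr (key h g hgh' hh hd' 2 (by change degreeOf 0 h = 0; omega)
        (by change degreeOf 1 h = 0; omega))
    · exact Or.inr (key h g hgh' hh hd' 0 (by change degreeOf 1 h = 0; omega)
        (by change degreeOf 2 h = 0; omega))

end Pool.Agent.G18
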