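import Pool.Agent.G18.RelCl
import Pool.Agent.G18.MulAff

/-!
# G18: the base field is algebraically closed in the function field of the fibration

`relcl_cube`: let `G` be a cubic polynomial over `K` which over an algebraically closed field `F`
becomes, after a linear substitution, the polynomial of a cube whose hyperdeterminant is not zero.
Then `K` is algebraically closed in the function field of `G = 0`.
-/

set_option autoImplicit false

open MvPolynomial

namespace Pool.Agent.G18

variable {F : Type} [Field F]

/-- linear substitution -/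
noncomputable def linSub (E : Matrix (Fin 3) (Fin 3) F) :
    MvPolynomial (Fin 3) F →ₐ[F] MvPolynomial (Fin 3) F :=
  aeval fun k => ∑ j, C (E k j) * X j

theorem linSub_comp (E E' : Matrix (Fin 3) (Fin 3) F) :
    (linSub E').comp (linSub E) = linSub (E * E') := by
  refine algHom_ext fun k => ?_
  rw [AlgHom.comp_apply, linSub, linSub, linSub, aeval_X, aeval_X, map_sum]
  simp only [map_mul, aeval_X, Matrix.mul_apply, map_sum, algHom_C, algebraMap_eq]
  simp only [Finset.mul_sum, Finset.sum_mul]
  rw [Finset.sum_comm]
  refine Finset.sum_congr rfl fun j _ => Finset.sum_congr rfl fun l _ => ?_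
  ring

theorem linSub_one : linSub (1 : Matrix (Fin 3) (Fin 3) F) = AlgHom.id F _ := by
  refine algHom_ext fun k => ?_
  rw [linSub, aeval_X, AlgHom.id_apply]
  rw [Finset.sum_eq_single k]
  · rw [Matrix.one_apply_eq, map_one, one_mul]
  · intro j _ hj
    rw [Matrix.one_apply_ne hj.symm, map_zero, zero_mul]
  · intro h
    exact absurd (Finset.mem_univ _) h

/-- the linear substitution of an invertible matrix -/
noncomputable def linEquiv (E : Matrix (Fin 3) (Fin 3) F) (hE : E.det ≠ 0) :
    MvPolynomial (Fin 3) F ≃ₐ[F] MvPolynomial (Fin 3) F :=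
  AlgEquiv.ofAlgHom (linSub E) (linSub E⁻¹)
    (by rw [linSub_comp, Matrix.nonsing_inv_mul _ (IsUnit.mk0 _ hE), linSub_one])
    (by rw [linSub_comp, Matrix.mul_nonsing_inv _ (IsUnit.mk0 _ hE), linSub_one])

theorem prime_linSub {al be : F} {m n : Fin 3 → F} (hD : hdet al be m n ≠ 0)
    (E : Matrix (Fin 3) (Fin 3) F) (hE : E.det ≠ 0) : Prime (linSub E (mpol al be m n)) := by
  have h1 := (mirr hD).prime
  exact (MulEquiv.prime_iff (linEquiv E hE)).2 h1

end Pool.Agent.G18
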