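import Pool.Agent.G18.Emb

/-!
# G18: the two linear forms of the link
-/

set_option autoImplicit false

noncomputable section

namespace Pool.Agent.G18

open Module

/-- a linear form on a separable extension is a trace form -/
theorem exists_trace {K M : Type} [Field K] [CharZero K] [Field M] [Algebra K M]
    [FiniteDimensional K M] (f : M →ₗ[K] K) : ∃ t : M, ∀ a, f a = Algebra.trace K M (t * a) := by
  obtain ⟨t, ht⟩ := ((Algebra.traceForm K M).toDual (traceForm_nondegenerate K M)).surjective f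
  refine ⟨t, fun a => ?_⟩
  rw [← ht]
  rfl

/-- linear forms which vanish on a subspace -/
theorem exists_ann {K V : Type} [Field K] [AddCommGroup V] [Module K V] [FiniteDimensional K V]
    (U : Submodule K V) {k : ℕ} (h : finrank K U + k ≤ finrank K V) :
    ∃ θ : Fin k → (V →ₗ[K] K), LinearIndependent K θ ∧ ∀ j, ∀ u ∈ U, θ j u = 0 := by
  have h1 : k ≤ finrank K (V ⧸ U) := by
    have := U.finrank_quotient_add_finrank
    omega
  set b := finBasis K (V ⧸ U) with hb
  refine ⟨fun j => (b.coord (Fin.castLE h1 j)).comp U.mkQ, ?_, fun j u hu => ?_⟩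
  · rw [Fintype.linearIndependent_iff]
    intro g hg i
    obtain ⟨w, hw⟩ := U.mkQ_surjective (b (Fin.castLE h1 i))
    have h2 := LinearMap.congr_fun hg w
    rw [LinearMap.sum_apply] at h2
    simp only [LinearMap.smul_apply, LinearMap.comp_apply, hw, Basis.coord_apply, Basis.repr_self,
      LinearMap.zero_apply, smul_eq_mul] at h2
    rw [Finset.sum_eq_single i] at h2
    · simpa using h2
    · intro j _ hj
      rw [Finsupp.single_eq_of_ne, mul_zero]
      exact fun h => hj (Fin.castLE_injective h1 h)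
    · intro h
      exact absurd (Finset.mem_univ _) h
  · simp only [LinearMap.comp_apply]
    rw [(Submodule.Quotient.mk_eq_zero U).2 hu |> fun h => (show U.mkQ u = 0 from h), map_zero]

theorem exists_forms {K M₁ M₂ : Type} [Field K] [CharZero K] [Field M₁] [Algebra K M₁] [Field M₂]
    [Algebra K M₂] (h₁ : finrank K M₁ = 3) (h₂ : finrank K M₂ = 3)
    (Φ : (M₁ × M₁ × M₁) ≃ₗ[K] (M₂ × M₂ × M₂)) :
    ∃ (t s : Fin 2 → M₁) (t' s' : Fin 2 → M₂),
      (∀ w j, Algebra.trace K M₁ (t j * w.2.1) + Algebra.trace K M₁ (s j * w.2.2) =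
        Algebra.trace K M₂ (t' j * (Φ w).2.1) + Algebra.trace K M₂ (s' j * (Φ w).2.2)) ∧
      LinearIndependent K fun j => (t' j, s' j) := by
  have hf₁ : FiniteDimensional K M₁ := FiniteDimensional.of_finrank_pos (by omega)
  have hf₂ : FiniteDimensional K M₂ := FiniteDimensional.of_finrank_pos (by omega)
  set V₁ : Submodule K (M₁ × M₁ × M₁) := LinearMap.range (LinearMap.inl K M₁ (M₁ × M₁)) with hV₁
  set V₂ : Submodule K (M₁ × M₁ × M₁) := LinearMap.range
    (Φ.symm.toLinearMap ∘ₗ LinearMap.inl K M₂ (M₂ × M₂)) with hV₂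
  have d₁ : finrank K V₁ ≤ 3 := (LinearMap.finrank_range_le _).trans h₁.le
  have d₂ : finrank K V₂ ≤ 3 := (LinearMap.finrank_range_le _).trans h₂.le
  have d₃ : finrank K ↥(V₁ ⊔ V₂) ≤ 6 := by
    have := Submodule.finrank_add_le_finrank_add_finrank V₁ V₂
    omega
  have d₄ : finrank K (M₁ × M₁ × M₁) = 9 := by
    rw [finrank_prod, finrank_prod, h₁]
  obtain ⟨θ, hli, hθ⟩ := exists_ann (V₁ ⊔ V₂) (k := 2) (by omega)
  have hx₁ : ∀ j x, θ j (x, 0, 0) = 0 := fun j x => hθ j _ (Submodule.mem_sup_left ⟨x, rfl⟩)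
  have hx₂ : ∀ j x, θ j (Φ.symm (x, 0, 0)) = 0 := fun j x =>
    hθ j _ (Submodule.mem_sup_right ⟨x, rfl⟩)
  choose t ht using fun j => exists_trace ((θ j).comp
    ((LinearMap.inr K M₁ (M₁ × M₁)).comp (LinearMap.inl K M₁ M₁)))
  choose s hs using fun j => exists_trace ((θ j).comp
    ((LinearMap.inr K M₁ (M₁ × M₁)).comp (LinearMap.inr K M₁ M₁)))
  choose t' ht' using fun j => exists_trace (((θ j).comp Φ.symm.toLinearMap).comp
    ((LinearMap.inr K M₂ (M₂ × M₂)).comp (LinearMap.inl K M₂ M₂)))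
  choose s' hs' using fun j => exists_trace (((θ j).comp Φ.symm.toLinearMap).comp
    ((LinearMap.inr K M₂ (M₂ × M₂)).comp (LinearMap.inr K M₂ M₂)))
  have e₁ : ∀ j w, θ j w = Algebra.trace K M₁ (t j * w.2.1) + Algebra.trace K M₁ (s j * w.2.2) := by
    intro j w
    rw [← ht, ← hs]
    have e : w = (w.1, 0, 0) + ((0, w.2.1, 0) + (0, 0, w.2.2)) := by
      ext <;> simp
    nth_rw 1 [e]
    rw [map_add, hx₁, zero_add, map_add]
    rfl
  have e₂ : ∀ j w, θ j (Φ.symm w) =
      Algebra.trace K M₂ (t' j * w.2.1) + Algebra.trace K M₂ (s' j * w.2.2) := by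
    intro j w
    rw [← ht', ← hs']
    have e : w = (w.1, 0, 0) + ((0, w.2.1, 0) + (0, 0, w.2.2)) := by
      ext <;> simp
    nth_rw 1 [e]
    rw [map_add, map_add, hx₂, zero_add, map_add, map_add]
    rfl
  refine ⟨t, s, t', s', fun w j => ?_, ?_⟩
  · rw [← e₁, ← e₂, LinearEquiv.symm_apply_apply]
  · rw [Fintype.linearIndependent_iff]
    intro g hg
    refine Fintype.linearIndependent_iff.1 hli g ?_
    have h1 := congrArg Prod.fst hg
    have h2 := congrArg Prod.snd hg
    simp only [Fin.sum_univ_two, Prod.smul_mk, Prod.fst_add, Prod.snd_add, Prod.fst_zero,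
      Prod.snd_zero] at h1 h2
    refine LinearMap.ext fun w => ?_
    obtain ⟨w, rfl⟩ := Φ.symm.surjective w
    rw [Fin.sum_univ_two, LinearMap.add_apply, LinearMap.smul_apply, LinearMap.smul_apply, e₂, e₂,
      LinearMap.zero_apply, smul_add, smul_add, ← map_smul, ← map_smul, ← map_smul, ← map_smul]
    have h3 : Algebra.trace K M₂ ((g 0 • t' 0 + g 1 • t' 1) * w.2.1) = 0 := by
      rw [h1, zero_mul, map_zero]
    have h4 : Algebra.trace K M₂ ((g 0 • s' 0 + g 1 • s' 1) * w.2.2) = 0 := by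
      rw [h2, zero_mul, map_zero]
    rw [add_mul, map_add, smul_mul_assoc, smul_mul_assoc] at h3 h4
    linear_combination h3 + h4

end Pool.Agent.G18
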