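import Mathlib

/-!
# G18: relations of the coordinates of a generic point of a hypersurface

`dvd_of_aeval`: if `v` generates a field of transcendence degree at least `n` and `G` is irreducible
with `G(v) = 0`, then `G` divides all relations of `v`.
-/

set_option autoImplicit false

open MvPolynomial

namespace Pool.Agent.G18

variable {K Ω : Type} [Field K] [Field Ω] [Algebra K Ω]

/-- evaluation through `finSuccEquiv` -/
theorem aeval_finSucc {n : ℕ} (v : Fin (n + 1) → Ω) (P : MvPolynomial (Fin (n + 1)) K) :
    aeval v P = Polynomial.eval₂ (aeval (fun i : Fin n => v i.succ) :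
      MvPolynomial (Fin n) K →ₐ[K] Ω).toRingHom (v 0) (finSuccEquiv K n P) := by
  induction P using MvPolynomial.induction_on with
  | C a =>
    rw [algHom_C]
    have h1 : finSuccEquiv K n (C a) = Polynomial.C (C a) := by
      rw [← algebraMap_eq, AlgEquiv.commutes]
      rfl
    rw [h1, Polynomial.eval₂_C]
    exact (aeval_C _ a).symm
  | add p q hp hq => rw [map_add, map_add, Polynomial.eval₂_add, hp, hq]
  | mul_X p i hp =>
    rw [map_mul, map_mul, Polynomial.eval₂_mul, hp, aeval_X]
    congr 1
    refine Fin.cases ?_ (fun j => ?_) i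
    · rw [finSuccEquiv_X_zero, Polynomial.eval₂_X]
    · rw [finSuccEquiv_X_succ, Polynomial.eval₂_C]
      exact (aeval_X (fun i : Fin n => v i.succ) j).symm

/-- The relations of `n + 1` elements of which the last `n` are independent. -/
theorem dvd_of_indep {n : ℕ} {v : Fin (n + 1) → Ω}
    (hv : AlgebraicIndependent K fun i : Fin n => v i.succ) {G : MvPolynomial (Fin (n + 1)) K}
    (hG : Irreducible G) (h0 : aeval v G = 0) {P : MvPolynomial (Fin (n + 1)) K}
    (hP : aeval v P = 0) : G ∣ P := by
  classical
  set A := MvPolynomial (Fin n) K with hA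
  set L := FractionRing A with hL
  set φ : A →+* Ω := (aeval (fun i : Fin n => v i.succ) : MvPolynomial (Fin n) K →ₐ[K] Ω).toRingHom
    with hφ
  have hinj : Function.Injective φ := hv
  have hirr : Irreducible (finSuccEquiv K n G) := (MulEquiv.irreducible_iff _).2 hG
  rw [aeval_finSucc] at h0 hP
  change Polynomial.eval₂ φ (v 0) (finSuccEquiv K n G) = 0 at h0
  change Polynomial.eval₂ φ (v 0) (finSuccEquiv K n P) = 0 at hP
  have hdeg : (finSuccEquiv K n G).natDegree ≠ 0 := by
    intro h
    rw [Polynomial.eq_C_of_natDegree_eq_zero h, Polynomial.eval₂_C] at h0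
    have h1 := (map_eq_zero_iff _ hinj).1 h0
    rw [Polynomial.eq_C_of_natDegree_eq_zero h, h1, Polynomial.C_0] at hirr
    exact not_irreducible_zero hirr
  have hprim : (finSuccEquiv K n G).IsPrimitive := hirr.isPrimitive hdeg
  let _ : NormalizedGCDMonoid A := Classical.choice (inferInstance)
  set j : L →+* Ω := IsFractionRing.lift (A := A) (K := L) hinj with hj
  have hjc : j.comp (algebraMap A L) = φ := by
    ext x
    · simp [hj]
    · simp [hj]
  have hirr2 : Irreducible ((finSuccEquiv K n G).map (algebraMap A L)) :=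
    (hprim.irreducible_iff_irreducible_map_fraction_map (K := L)).1 hirr
  have h0' : Polynomial.eval₂ j (v 0) ((finSuccEquiv K n G).map (algebraMap A L)) = 0 := by
    rw [Polynomial.eval₂_map, hjc, h0]
  have hP' : Polynomial.eval₂ j (v 0) ((finSuccEquiv K n P).map (algebraMap A L)) = 0 := by
    rw [Polynomial.eval₂_map, hjc, hP]
  have hdvd : (finSuccEquiv K n G).map (algebraMap A L) ∣
      (finSuccEquiv K n P).map (algebraMap A L) := by
    by_contra hnd
    obtain ⟨a, b, hab⟩ := (hirr2.coprime_iff_not_dvd).2 hnd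
    have h1 := congrArg (Polynomial.eval₂ j (v 0)) hab
    rw [Polynomial.eval₂_add, Polynomial.eval₂_mul, Polynomial.eval₂_mul, h0', hP', mul_zero,
      mul_zero, add_zero, Polynomial.eval₂_one] at h1
    exact zero_ne_one h1
  have h2 := hprim.dvd_of_fraction_map_dvd_fraction_map hdvd
  have h3 := map_dvd (finSuccEquiv K n).symm h2
  rwa [AlgEquiv.symm_apply_apply, AlgEquiv.symm_apply_apply] at h3

/-- The relations of `n + 1` elements of which all but one are independent. -/
theorem dvd_of_indep' {n : ℕ} {v : Fin (n + 1) → Ω} (i : Fin (n + 1))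
    (hv : AlgebraicIndependent K fun j : {j : Fin (n + 1) // j ≠ i} => v j)
    {G : MvPolynomial (Fin (n + 1)) K} (hG : Irreducible G) (h0 : aeval v G = 0)
    {P : MvPolynomial (Fin (n + 1)) K} (hP : aeval v P = 0) : G ∣ P := by
  classical
  set τ : Fin (n + 1) ≃ Fin (n + 1) := Equiv.swap 0 i with hτ
  have h1 : ∀ Q : MvPolynomial (Fin (n + 1)) K, aeval (fun k => v (τ k)) (renameEquiv K τ Q) =
      aeval v Q := by
    intro Q
    rw [renameEquiv_apply, aeval_rename]
    congr 2
    funext k
    simp [hτ]
  have h2 : Irreducible (renameEquiv K τ G) := (MulEquiv.irreducible_iff _).2 hG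
  have h3 : AlgebraicIndependent K fun k : Fin n => v (τ k.succ) := by
    have hne : ∀ k : Fin n, τ k.succ ≠ i := by
      intro k hk
      have h4 : τ k.succ = τ 0 := by rw [hk, hτ, Equiv.swap_apply_left]
      exact Fin.succ_ne_zero k (τ.injective h4)
    exact hv.comp (fun k : Fin n => (⟨τ k.succ, hne k⟩ : {j : Fin (n + 1) // j ≠ i}))
      fun a b hab => Fin.succ_injective n (τ.injective (congrArg Subtype.val hab))
  have h4 := dvd_of_indep (v := fun k => v (τ k)) h3 h2 (by rw [h1, h0]) (P := renameEquiv K τ P)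
    (by rw [h1, hP])
  have h5 := map_dvd (renameEquiv K τ).symm h4
  rwa [AlgEquiv.symm_apply_apply, AlgEquiv.symm_apply_apply] at h5

/-- The relations of three generators of a field which is not algebraic over a field with one
generator. -/
theorem dvd_of_aeval {v : Fin 3 → Ω} (hv : IntermediateField.adjoin K (Set.range v) = ⊤)
    (hT : ∀ t : Ω, ¬Algebra.IsAlgebraic (IntermediateField.adjoin K {t}) Ω)
    {G : MvPolynomial (Fin 3) K} (hG : Irreducible G) (h0 : aeval v G = 0)
    {P : MvPolynomial (Fin 3) K} (hP : aeval v P = 0) : G ∣ P := by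
  classical
  have halg : Algebra.IsAlgebraic (Algebra.adjoin K (Set.range v)) Ω := by
    refine ⟨fun x => ?_⟩
    have h1 : x ∈ IntermediateField.adjoin K (Set.range v) := by
      rw [hv]
      exact IntermediateField.mem_top
    rw [IntermediateField.mem_adjoin_iff_div] at h1
    obtain ⟨a, ha, b, hb, rfl⟩ := h1
    have ha' : IsAlgebraic (Algebra.adjoin K (Set.range v)) a :=
      isAlgebraic_algebraMap (⟨a, ha⟩ : Algebra.adjoin K (Set.range v))
    have hb' : IsAlgebraic (Algebra.adjoin K (Set.range v)) b :=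
      isAlgebraic_algebraMap (⟨b, hb⟩ : Algebra.adjoin K (Set.range v))
    rw [div_eq_mul_inv]
    exact ha'.mul hb'.inv
  obtain ⟨t, ht, hb⟩ := exists_isTranscendenceBasis_subset (R := K) (Set.range v)
  -- `t` has two different elements
  have h2 : ∃ a ∈ t, ∃ b ∈ t, a ≠ b := by
    by_contra hcon
    push Not at hcon
    obtain ⟨c, hc⟩ : ∃ c : Ω, t ⊆ {c} := by
      by_cases hne : t.Nonempty
      · obtain ⟨c, hc⟩ := hne
        exact ⟨c, fun x hx => hcon x hx c hc⟩
      · rw [Set.not_nonempty_iff_eq_empty] at hne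
        exact ⟨0, by rw [hne]; exact Set.empty_subset _⟩
    refine hT c ?_
    have h3 := hb.isAlgebraic_field
    rw [Subtype.range_coe] at h3
    have hle : IntermediateField.adjoin K t ≤ IntermediateField.adjoin K {c} :=
      IntermediateField.adjoin.mono K _ _ hc
    let _ : Algebra (IntermediateField.adjoin K t) (IntermediateField.adjoin K {c}) :=
      (IntermediateField.inclusion hle).toAlgebra
    have : IsScalarTower (IntermediateField.adjoin K t) (IntermediateField.adjoin K {c}) Ω :=
      IsScalarTower.of_algebraMap_eq' rfl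
    exact ⟨fun x => (h3.isAlgebraic x).extendScalars (IntermediateField.inclusion_injective hle)⟩
  obtain ⟨a, ha, b, hb', hab⟩ := h2
  obtain ⟨j, rfl⟩ := ht ha
  obtain ⟨k, rfl⟩ := ht hb'
  have hjk : j ≠ k := fun h => hab (by rw [h])
  obtain ⟨i, hi⟩ : ∃ i : Fin 3, ∀ l : Fin 3, l ≠ i → l = j ∨ l = k := by
    clear * - hjk
    revert j k
    decide
  refine dvd_of_indep' i ?_ hG h0 hP
  have h3 : ∀ l : {l : Fin 3 // l ≠ i}, v l ∈ t := by
    rintro ⟨l, hl⟩
    rcases hi l hl with rfl | rfl
    · exact ha
    · exact hb'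
  have hinj : Function.Injective fun l : {l : Fin 3 // l ≠ i} => (⟨v l, h3 l⟩ : t) := by
    rintro ⟨l, hl⟩ ⟨l', hl'⟩ h
    have h4 : v l = v l' := congrArg Subtype.val h
    rcases hi l hl with rfl | rfl <;> rcases hi l' hl' with rfl | rfl
    · rfl
    · exact absurd h4 hab
    · exact absurd h4.symm hab
    · rfl
  exact hb.1.comp _ hinj

end Pool.Agent.G18
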