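import Mathlib

/-!
# G18: small linear algebra for the link
-/

set_option autoImplicit false

noncomputable section

namespace Pool.Agent.G18

open Matrix

variable {K Ω : Type} [Field K] [Field Ω] [Algebra K Ω]

/-- all coordinates lie in the intermediate field -/
def In3 (S : IntermediateField K Ω) (a : Fin 3 → Ω) : Prop := ∀ i, a i ∈ S

/-- the cross product, written out -/
def cr3 {R : Type} [CommRing R] (a b : Fin 3 → R) : Fin 3 → R :=
  ![a 1 * b 2 - a 2 * b 1, a 2 * b 0 - a 0 * b 2, a 0 * b 1 - a 1 * b 0]

/-- the scalar product, written out -/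
def dt3 {R : Type} [CommRing R] (a b : Fin 3 → R) : R := a 0 * b 0 + a 1 * b 1 + a 2 * b 2

omit [Algebra K Ω] [Field K] in
theorem prop_of {z n : Fin 3 → Ω} (hn : n ≠ 0) (h01 : z 0 * n 1 = z 1 * n 0)
    (h02 : z 0 * n 2 = z 2 * n 0) (h12 : z 1 * n 2 = z 2 * n 1) : ∃ l : Ω, z = l • n := by
  by_cases h0 : n 0 = 0
  · by_cases h1 : n 1 = 0
    · have h2 : n 2 ≠ 0 := fun h2 => hn (by funext i; fin_cases i <;> assumption)
      refine ⟨z 2 / n 2, ?_⟩
      funext i
      fin_cases i
      · simp only [Fin.zero_eta, Fin.isValue, Pi.smul_apply, smul_eq_mul]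
        field_simp
        linear_combination h02
      · simp only [Fin.mk_one, Fin.isValue, Pi.smul_apply, smul_eq_mul]
        field_simp
        linear_combination h12
      · simp only [Fin.reduceFinMk, Fin.isValue, Pi.smul_apply, smul_eq_mul]
        field_simp
    · refine ⟨z 1 / n 1, ?_⟩
      funext i
      fin_cases i
      · simp only [Fin.zero_eta, Fin.isValue, Pi.smul_apply, smul_eq_mul]
        field_simp
        linear_combination h01
      · simp only [Fin.mk_one, Fin.isValue, Pi.smul_apply, smul_eq_mul]
        field_simp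
      · simp only [Fin.reduceFinMk, Fin.isValue, Pi.smul_apply, smul_eq_mul]
        field_simp
        linear_combination -h12
  · refine ⟨z 0 / n 0, ?_⟩
    funext i
    fin_cases i
    · simp only [Fin.zero_eta, Fin.isValue, Pi.smul_apply, smul_eq_mul]
      field_simp
    · simp only [Fin.mk_one, Fin.isValue, Pi.smul_apply, smul_eq_mul]
      field_simp
      linear_combination -h01
    · simp only [Fin.reduceFinMk, Fin.isValue, Pi.smul_apply, smul_eq_mul]
      field_simp
      linear_combination -h02

omit [Algebra K Ω] [Field K] in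
/-- a vector orthogonal to two independent ones -/
theorem cross_lam {a b z : Fin 3 → Ω} (ha : dt3 a z = 0) (hb : dt3 b z = 0)
    (h : cr3 a b ≠ 0) : ∃ l : Ω, z = l • cr3 a b := by
  simp only [dt3] at ha hb
  refine prop_of h ?_ ?_ ?_
  · simp only [cr3, Fin.isValue, cons_val_one, cons_val_zero]
    linear_combination a 2 * hb - b 2 * ha
  · simp only [cr3, Fin.isValue, cons_val, cons_val_zero]
    linear_combination -(a 1 * hb) + b 1 * ha
  · simp only [cr3, Fin.isValue, cons_val, cons_val_one]
    linear_combination a 0 * hb - b 0 * ha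

omit [Algebra K Ω] [Field K] in
/-- proportional vectors -/
theorem cross_zero {a b : Fin 3 → Ω} (h : cr3 a b = 0) (ha : a ≠ 0) :
    ∃ s : Ω, b = s • a := by
  have h0 := congrFun h 0
  have h1 := congrFun h 1
  have h2 := congrFun h 2
  simp only [cr3, Fin.isValue, cons_val, cons_val_zero, cons_val_one, Pi.zero_apply] at h0 h1 h2
  refine prop_of ha ?_ ?_ ?_
  · linear_combination -h2
  · linear_combination h1
  · linear_combination -h0

/-- a point of a plane: one parameter -/
theorem plane_lam (S : IntermediateField K Ω) {a z : Fin 3 → Ω} (ha : a ≠ 0) (hS : In3 S a)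
    (h : dt3 a z = 0) (hz : z ≠ 0) :
    ∃ (t l : Ω) (u : Fin 3 → Ω), l ≠ 0 ∧ z = l • u ∧
      ∀ T : IntermediateField K Ω, S ≤ T → t ∈ T → In3 T u := by
  classical
  simp only [dt3] at h
  have key : ∀ (i j k : Fin 3), (∀ m : Fin 3, m = i ∨ m = j ∨ m = k) → i ≠ j → i ≠ k → j ≠ k →
      a i ≠ 0 → a i * z i + a j * z j + a k * z k = 0 →
      ∃ (t l : Ω) (u : Fin 3 → Ω), l ≠ 0 ∧ z = l • u ∧
      ∀ T : IntermediateField K Ω, S ≤ T → t ∈ T → In3 T u := by
    intro i j k hm hij hik hjk hai he
    have hzi : z i = -(a j * z j + a k * z k) / a i := by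
      field_simp
      linear_combination he
    by_cases hj : z j = 0
    · have hk : z k ≠ 0 := by
        intro hk
        apply hz
        funext m
        rcases hm m with rfl | rfl | rfl
        · rw [hzi, hj, hk]
          simp
        · exact hj
        · exact hk
      refine ⟨0, z k, fun m => if m = i then -a k / a i else if m = j then 0 else 1, hk, ?_, ?_⟩
      · funext m
        rcases hm m with rfl | rfl | rfl
        · simp only [Pi.smul_apply, if_true, smul_eq_mul]
          rw [hzi, hj]
          ring
        · simp only [Pi.smul_apply, if_true, smul_eq_mul, if_neg (Ne.symm hij)]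
          rw [hj, mul_zero]
        · simp only [Pi.smul_apply, smul_eq_mul, if_neg (Ne.symm hik), if_neg (Ne.symm hjk)]
          rw [mul_one]
      · intro T hST _ m
        rcases hm m with rfl | rfl | rfl
        · simp only [if_true]
          exact T.div_mem (T.neg_mem (hST (hS _))) (hST (hS _))
        · simp only [if_true, if_neg (Ne.symm hij)]
          exact T.zero_mem
        · simp only [if_neg (Ne.symm hik), if_neg (Ne.symm hjk)]
          exact T.one_mem
    · refine ⟨z k / z j, z j, fun m => if m = i then -(a j + a k * (z k / z j)) / a i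
        else if m = j then 1 else z k / z j, hj, ?_, ?_⟩
      · funext m
        rcases hm m with rfl | rfl | rfl
        · simp only [Pi.smul_apply, if_true, smul_eq_mul]
          rw [hzi]
          field_simp
        · simp only [Pi.smul_apply, if_true, smul_eq_mul, if_neg (Ne.symm hij)]
          rw [mul_one]
        · simp only [Pi.smul_apply, smul_eq_mul, if_neg (Ne.symm hik), if_neg (Ne.symm hjk)]
          field_simp
      · intro T hST ht m
        rcases hm m with rfl | rfl | rfl
        · simp only [if_true]
          exact T.div_mem (T.neg_mem (T.add_mem (hST (hS _)) (T.mul_mem (hST (hS _)) ht)))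
            (hST (hS _))
        · simp only [if_true, if_neg (Ne.symm hij)]
          exact T.one_mem
        · simp only [if_neg (Ne.symm hik), if_neg (Ne.symm hjk)]
          exact ht
  by_cases h0 : a 0 = 0
  · by_cases h1 : a 1 = 0
    · have h2 : a 2 ≠ 0 := fun h2 => ha (by funext i; fin_cases i <;> assumption)
      exact key 2 0 1 (by decide) (by decide) (by decide) (by decide) h2
        (by linear_combination h)
    · exact key 1 0 2 (by decide) (by decide) (by decide) (by decide) h1
        (by linear_combination h)
  · exact key 0 1 2 (by decide) (by decide) (by decide) (by decide) h0 h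

/-- a point of the plane of all vectors: two parameters -/
theorem space_lam {z : Fin 3 → Ω} (hz : z ≠ 0) :
    ∃ (t s l : Ω) (u : Fin 3 → Ω), l ≠ 0 ∧ z = l • u ∧
      ∀ T : IntermediateField K Ω, t ∈ T → s ∈ T → In3 T u := by
  classical
  have key : ∀ (i j k : Fin 3), (∀ m : Fin 3, m = i ∨ m = j ∨ m = k) → i ≠ j → i ≠ k → j ≠ k →
      z i ≠ 0 → ∃ (t s l : Ω) (u : Fin 3 → Ω), l ≠ 0 ∧ z = l • u ∧
      ∀ T : IntermediateField K Ω, t ∈ T → s ∈ T → In3 T u := by
    intro i j k hm hij hik hjk hi
    refine ⟨z j / z i, z k / z i, z i, fun m => if m = i then 1 else if m = j then z j / z i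
      else z k / z i, hi, ?_, ?_⟩
    · funext m
      rcases hm m with rfl | rfl | rfl
      · simp only [Pi.smul_apply, if_true, smul_eq_mul]
        rw [mul_one]
      · simp only [Pi.smul_apply, if_true, smul_eq_mul, if_neg (Ne.symm hij)]
        field_simp
      · simp only [Pi.smul_apply, smul_eq_mul, if_neg (Ne.symm hik), if_neg (Ne.symm hjk)]
        field_simp
    · intro T ht hs m
      rcases hm m with rfl | rfl | rfl
      · simp only [if_true]
        exact T.one_mem
      · simp only [if_true, if_neg (Ne.symm hij)]
        exact ht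
      · simp only [if_neg (Ne.symm hik), if_neg (Ne.symm hjk)]
        exact hs
  by_cases h0 : z 0 = 0
  · by_cases h1 : z 1 = 0
    · have h2 : z 2 ≠ 0 := fun h2 => hz (by funext i; fin_cases i <;> assumption)
      exact key 2 0 1 (by decide) (by decide) (by decide) (by decide) h2
    · exact key 1 0 2 (by decide) (by decide) (by decide) (by decide) h1
  · exact key 0 1 2 (by decide) (by decide) (by decide) (by decide) h0

end Pool.Agent.G18
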