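import Pool.Agent.G18.Prod

/-!
# G18: the elements of rank one of the norm form

`W f`: the elements of rank one of a cubic form `f` on an additive group. `NE h gp gm x al bl` is
the norm form in components, `NW h gp gm d w` the same for `w 0 = x`, `al = w 1 + d w 2`,
`bl = w 1 - d w 2`. `of_rank1`, `rank1_of`: the elements of rank one and the zeros of the cube.
-/

set_option autoImplicit false

noncomputable section

namespace Pool.Agent.G18

/-- the elements of rank one of the cubic form `f` -/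
def W {V R : Type} [AddCommGroup V] [CommRing R] (f : V → R) : Set V :=
  {w | ∀ u, f (w + u) - f (w - u) = 2 * f u}

theorem W_comp {V V' R : Type} [AddCommGroup V] [AddCommGroup V'] [CommRing R] {f : V → R}
    {f' : V' → R} {L : V → V'} (hadd : ∀ v w, L (v + w) = L v + L w)
    (hsub : ∀ v w, L (v - w) = L v - L w) (hsurj : Function.Surjective L) {k : R}
    (hk : ∀ a : R, k * a = 0 → a = 0) (hf : ∀ v, f' (L v) = k * f v) {w : V} :
    L w ∈ W f' ↔ w ∈ W f := by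
  constructor
  · intro h u
    have h1 := h (L u)
    rw [← hadd, ← hsub, hf, hf, hf] at h1
    have h2 := hk (f (w + u) - f (w - u) - 2 * f u) (by linear_combination h1)
    linear_combination h2
  · intro h u'
    obtain ⟨u, rfl⟩ := hsurj u'
    rw [← hadd, ← hsub, hf, hf, hf]
    linear_combination k * h u

section

variable {R : Type} [CommRing R]

/-- the norm form in components -/
def NE (h gp gm : R) (x al bl : Fin 3 → R) : R :=
  x 0 * x 1 * x 2 - h * (x 0 * (al 0 * bl 0) + x 1 * (al 1 * bl 1) + x 2 * (al 2 * bl 2)) +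
    h * (gp * (al 0 * al 1 * al 2) + gm * (bl 0 * bl 1 * bl 2))

/-- the norm form in the coordinates `x`, `a`, `b` with `al = a + d b`, `bl = a - d b` -/
def NW (h gp gm d : R) (w : Fin 3 → Fin 3 → R) : R :=
  NE h gp gm (w 0) (fun i => w 1 i + d * w 2 i) fun i => w 1 i - d * w 2 i

/-- the polar form -/
theorem NE_polar (h gp gm : R) (w u : Fin 3 → Fin 3 → R) :
    NE h gp gm ((w + u) 0) ((w + u) 1) ((w + u) 2) -
      NE h gp gm ((w - u) 0) ((w - u) 1) ((w - u) 2) - 2 * NE h gp gm (u 0) (u 1) (u 2) =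
    2 * ((w 0 1 * w 0 2 - h * (w 1 0 * w 2 0)) * u 0 0 +
        (w 0 2 * w 0 0 - h * (w 1 1 * w 2 1)) * u 0 1 +
        (w 0 0 * w 0 1 - h * (w 1 2 * w 2 2)) * u 0 2) +
    2 * (h * ((gp * (w 1 1 * w 1 2) - w 0 0 * w 2 0) * u 1 0 +
        (gp * (w 1 2 * w 1 0) - w 0 1 * w 2 1) * u 1 1 +
        (gp * (w 1 0 * w 1 1) - w 0 2 * w 2 2) * u 1 2)) +
    2 * (h * ((gm * (w 2 1 * w 2 2) - w 0 0 * w 1 0) * u 2 0 +
        (gm * (w 2 2 * w 2 0) - w 0 1 * w 1 1) * u 2 1 +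
        (gm * (w 2 0 * w 2 1) - w 0 2 * w 1 2) * u 2 2)) := by
  simp only [NE, Pi.add_apply, Pi.sub_apply]
  ring

end

section Field

variable {F : Type} [Field F] {h gp gm d : F}

/-- the equations of the elements of rank one, for `x`, `al`, `bl` -/
structure Eqs (h gp gm : F) (x al bl : Fin 3 → F) : Prop where
  x0 : x 1 * x 2 = h * (al 0 * bl 0)
  x1 : x 2 * x 0 = h * (al 1 * bl 1)
  x2 : x 0 * x 1 = h * (al 2 * bl 2)
  b0 : x 0 * bl 0 = gp * (al 1 * al 2)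
  b1 : x 1 * bl 1 = gp * (al 2 * al 0)
  b2 : x 2 * bl 2 = gp * (al 0 * al 1)
  a0 : x 0 * al 0 = gm * (bl 1 * bl 2)
  a1 : x 1 * al 1 = gm * (bl 2 * bl 0)
  a2 : x 2 * al 2 = gm * (bl 0 * bl 1)

theorem W_NE (h2 : (2 : F) ≠ 0) (hh : h ≠ 0) {w : Fin 3 → Fin 3 → F} :
    w ∈ W (fun w : Fin 3 → Fin 3 → F => NE h gp gm (w 0) (w 1) (w 2)) ↔
      Eqs h gp gm (w 0) (w 1) (w 2) := by
  constructor
  · intro hw
    have key : ∀ u : Fin 3 → Fin 3 → F,
        ((w 0 1 * w 0 2 - h * (w 1 0 * w 2 0)) * u 0 0 +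
          (w 0 2 * w 0 0 - h * (w 1 1 * w 2 1)) * u 0 1 +
          (w 0 0 * w 0 1 - h * (w 1 2 * w 2 2)) * u 0 2) +
        (h * ((gp * (w 1 1 * w 1 2) - w 0 0 * w 2 0) * u 1 0 +
          (gp * (w 1 2 * w 1 0) - w 0 1 * w 2 1) * u 1 1 +
          (gp * (w 1 0 * w 1 1) - w 0 2 * w 2 2) * u 1 2)) +
        (h * ((gm * (w 2 1 * w 2 2) - w 0 0 * w 1 0) * u 2 0 +
          (gm * (w 2 2 * w 2 0) - w 0 1 * w 1 1) * u 2 1 +
          (gm * (w 2 0 * w 2 1) - w 0 2 * w 1 2) * u 2 2)) = 0 := by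
      intro u
      have h1 := NE_polar h gp gm w u
      have h3 := hw u
      refine (mul_eq_zero.1 ?_).resolve_left h2
      linear_combination -h1 + h3
    have k1 : ∀ a : F, h * a = 0 → a = 0 := fun a ha => (mul_eq_zero.1 ha).resolve_left hh
    have e0 := key ![Pi.single 0 1, 0, 0]
    have e1 := key ![Pi.single 1 1, 0, 0]
    have e2 := key ![Pi.single 2 1, 0, 0]
    have e3 := key ![0, Pi.single 0 1, 0]
    have e4 := key ![0, Pi.single 1 1, 0]
    have e5 := key ![0, Pi.single 2 1, 0]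
    have e6 := key ![0, 0, Pi.single 0 1]
    have e7 := key ![0, 0, Pi.single 1 1]
    have e8 := key ![0, 0, Pi.single 2 1]
    simp only [Matrix.cons_val_zero, Matrix.cons_val_one, Matrix.cons_val, Pi.single_eq_same,
      Pi.zero_apply, mul_zero, add_zero, zero_add, mul_one, ne_eq, one_ne_zero,
      not_false_eq_true, zero_ne_one, Pi.single_eq_of_ne, Fin.isValue, Fin.reduceEq]
      at e0 e1 e2 e3 e4 e5 e6 e7 e8
    exact ⟨by linear_combination e0, by linear_combination e1, by linear_combination e2,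
      by linear_combination -(k1 _ e3), by linear_combination -(k1 _ e4),
      by linear_combination -(k1 _ e5), by linear_combination -(k1 _ e6),
      by linear_combination -(k1 _ e7), by linear_combination -(k1 _ e8)⟩
  · rintro ⟨e0, e1, e2, e3, e4, e5, e6, e7, e8⟩ u
    have h1 := NE_polar h gp gm w u
    linear_combination h1 + 2 * u 0 0 * e0 + 2 * u 0 1 * e1 + 2 * u 0 2 * e2 -
      2 * h * u 1 0 * e3 - 2 * h * u 1 1 * e4 - 2 * h * u 1 2 * e5 - 2 * h * u 2 0 * e6 -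
      2 * h * u 2 1 * e7 - 2 * h * u 2 2 * e8

/-- the equations of the elements of rank one, for `x`, `a`, `b` -/
theorem W_NW (h2 : (2 : F) ≠ 0) (hh : h ≠ 0) (hd : d ≠ 0) {w : Fin 3 → Fin 3 → F} :
    w ∈ W (NW h gp gm d) ↔
      Eqs h gp gm (w 0) (fun i => w 1 i + d * w 2 i) fun i => w 1 i - d * w 2 i := by
  refine Iff.trans ?_ (W_NE (gp := gp) (gm := gm)
    (w := ![w 0, fun i => w 1 i + d * w 2 i, fun i => w 1 i - d * w 2 i]) h2 hh)
  refine (W_comp (f := NW h gp gm d)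
    (f' := fun w : Fin 3 → Fin 3 → F => NE h gp gm (w 0) (w 1) (w 2))
    (L := fun w : Fin 3 → Fin 3 → F =>
      ![w 0, fun i => w 1 i + d * w 2 i, fun i => w 1 i - d * w 2 i]) (k := 1)
    ?_ ?_ ?_ (fun a ha => by rwa [one_mul] at ha) ?_).symm
  · intro v w
    funext i j
    fin_cases i
    · rfl
    · simp
      ring
    · simp
      ring
  · intro v w
    funext i j
    fin_cases i
    · rfl
    · simp
      ring
    · simp
      ring
  · intro w
    refine ⟨![w 0, fun i => (w 1 i + w 2 i) / 2, fun i => (w 1 i - w 2 i) / (2 * d)], ?_⟩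
    funext i j
    fin_cases i
    · rfl
    · simp
      field_simp
      ring
    · simp
      field_simp
      ring
  · intro w
    rw [one_mul]
    rfl

end Field

namespace Cb

variable {F : Type} [Field F] (C : Cb F) {d : F}

/-- the vectors of rank one give zeros of the cube -/
theorem of_rank1 (h2 : (2 : F) ≠ 0) (hd2 : d ^ 2 = C.D) (hd : d ≠ 0) (hh : C.h ≠ 0)
    {w : Fin 3 → Fin 3 → F} (hw : w ∈ W (NW C.h (C.g + C.al * d) (C.g - C.al * d) d)) :
    (w 0 1 * w 0 2 = C.h * (w 1 0 ^ 2 - C.D * w 2 0 ^ 2) ∧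
      w 0 2 * w 0 0 = C.h * (w 1 1 ^ 2 - C.D * w 2 1 ^ 2) ∧
      w 0 0 * w 0 1 = C.h * (w 1 2 ^ 2 - C.D * w 2 2 ^ 2)) ∧
    (∀ y : Fin 3 → F, (∀ i, C.a y (w 2) i = w 1 i) → C.c y (w 2) = 0) ∧
    ∀ i, C.h * (w 1 i ^ 2 - C.D * w 2 i ^ 2) * w 0 i = w 0 0 * w 0 1 * w 0 2 := by
  obtain ⟨e0, e1, e2, b0, b1, b2, a0, a1, a2⟩ := (W_NW h2 hh hd).1 hw
  have f0 : w 0 1 * w 0 2 = C.h * (w 1 0 ^ 2 - C.D * w 2 0 ^ 2) := by
    rw [← hd2]
    linear_combination e0
  have f1 : w 0 2 * w 0 0 = C.h * (w 1 1 ^ 2 - C.D * w 2 1 ^ 2) := by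
    rw [← hd2]
    linear_combination e1
  have f2 : w 0 0 * w 0 1 = C.h * (w 1 2 ^ 2 - C.D * w 2 2 ^ 2) := by
    rw [← hd2]
    linear_combination e2
  refine ⟨⟨f0, f1, f2⟩, fun y hy => ?_, fun i => ?_⟩
  · have h1 := C.prod_id hd2 y (w 2)
    rw [hy, hy, hy] at h1
    have h3 : 4 * C.h * d * C.c y (w 2) = 0 := by
      linear_combination -h1 - (w 1 0 + d * w 2 0) * b0 + (w 1 0 - d * w 2 0) * a0
    have h4 : (4 : F) * C.h * d ≠ 0 := by
      refine mul_ne_zero (mul_ne_zero ?_ hh) hd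
      have : (4 : F) = 2 * 2 := by norm_num
      rw [this]
      exact mul_ne_zero h2 h2
    exact (mul_eq_zero.1 h3).resolve_left h4
  · fin_cases i
    · simp only [Fin.zero_eta]
      linear_combination (-w 0 0) * f0
    · simp only [Fin.mk_one]
      linear_combination (-w 0 1) * f1
    · simp only [Fin.reduceFinMk]
      linear_combination (-w 0 2) * f2

/-- zeros of the cube give vectors of rank one -/
theorem rank1_of (h2 : (2 : F) ≠ 0) (hd2 : d ^ 2 = C.D) (hd : d ≠ 0) (hh : C.h ≠ 0)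
    {y z : Fin 3 → F} (hc : C.c y z = 0) (hne : ∀ i, C.a y z i ^ 2 - C.D * z i ^ 2 ≠ 0) {G : F}
    (hG : G = C.h * ((C.g + C.al * d) * ((C.a y z 0 + d * z 0) * (C.a y z 1 + d * z 1) *
      (C.a y z 2 + d * z 2)) + (C.g - C.al * d) * ((C.a y z 0 - d * z 0) * (C.a y z 1 - d * z 1) *
      (C.a y z 2 - d * z 2)))) :
    (![fun i => G / (2 * C.h * (C.a y z i ^ 2 - C.D * z i ^ 2)), C.a y z, z] :
      Fin 3 → Fin 3 → F) ∈ W (NW C.h (C.g + C.al * d) (C.g - C.al * d) d) := by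
  rw [W_NW h2 hh hd]
  have h1 := C.prod_id hd2 y z
  have hf := C.h_fac hd2
  rw [hc, mul_zero] at h1
  set gp := C.g + C.al * d with hgp
  set gm := C.g - C.al * d with hgm
  have hfac : ∀ i, C.a y z i ^ 2 - C.D * z i ^ 2 =
      (C.a y z i + d * z i) * (C.a y z i - d * z i) := by
    intro i
    rw [← hd2]
    ring
  set al : Fin 3 → F := fun i => C.a y z i + d * z i with hal
  set bl : Fin 3 → F := fun i => C.a y z i - d * z i with hbl
  have hfac' : ∀ i, C.a y z i ^ 2 - C.D * z i ^ 2 = al i * bl i := hfac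
  have hal0 : ∀ i, al i ≠ 0 := fun i h0 => hne i (by rw [hfac', h0, zero_mul])
  have hbl0 : ∀ i, bl i ≠ 0 := fun i h0 => hne i (by rw [hfac', h0, mul_zero])
  have hpm : gp * (al 0 * al 1 * al 2) = gm * (bl 0 * bl 1 * bl 2) := by
    linear_combination h1
  have hG1 : G = 2 * C.h * (gp * (al 0 * al 1 * al 2)) := by
    rw [hG]
    linear_combination (-C.h) * hpm
  have hG2 : G = 2 * C.h * (gm * (bl 0 * bl 1 * bl 2)) := by
    rw [hG1, hpm]
  have hx : ∀ i, G / (2 * C.h * (C.a y z i ^ 2 - C.D * z i ^ 2)) * bl i * al i =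
      gp * (al 0 * al 1 * al 2) := by
    intro i
    rw [hfac', hG1]
    have := hal0 i
    have := hbl0 i
    field_simp
  have hX : ∀ i, G / (2 * C.h * (C.a y z i ^ 2 - C.D * z i ^ 2)) =
      gp * (al 0 * al 1 * al 2) / (al i * bl i) := by
    intro i
    have := hal0 i
    have := hbl0 i
    rw [eq_div_iff (mul_ne_zero (hal0 i) (hbl0 i))]
    linear_combination hx i
  have hX' : ∀ i, G / (2 * C.h * (C.a y z i ^ 2 - C.D * z i ^ 2)) =
      gm * (bl 0 * bl 1 * bl 2) / (al i * bl i) := by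
    intro i
    rw [hX, hpm]
  have n0 := hal0 0
  have n1 := hal0 1
  have n2 := hal0 2
  have m0 := hbl0 0
  have m1 := hbl0 1
  have m2 := hbl0 2
  have hprod : ∀ i j k, al i ≠ 0 → al j ≠ 0 → al k ≠ 0 → bl i ≠ 0 → bl j ≠ 0 → bl k ≠ 0 →
      gp * (al 0 * al 1 * al 2) = gp * (al i * al j * al k) →
      gm * (bl 0 * bl 1 * bl 2) = gm * (bl i * bl j * bl k) →
      gp * (al 0 * al 1 * al 2) / (al j * bl j) * (gm * (bl 0 * bl 1 * bl 2) / (al k * bl k)) =
        C.h * (al i * bl i) := by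
    intro i j k ni nj nk mi mj mk h3 h4
    rw [h3, h4, ← hf]
    field_simp
  refine ⟨?_, ?_, ?_, ?_, ?_, ?_, ?_, ?_, ?_⟩
  · change G / (2 * C.h * (C.a y z 1 ^ 2 - C.D * z 1 ^ 2)) *
      (G / (2 * C.h * (C.a y z 2 ^ 2 - C.D * z 2 ^ 2))) = C.h * (al 0 * bl 0)
    rw [hX 1, hX' 2]
    exact hprod 0 1 2 n0 n1 n2 m0 m1 m2 (by ring) (by ring)
  · change G / (2 * C.h * (C.a y z 2 ^ 2 - C.D * z 2 ^ 2)) *
      (G / (2 * C.h * (C.a y z 0 ^ 2 - C.D * z 0 ^ 2))) = C.h * (al 1 * bl 1)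
    rw [hX 2, hX' 0]
    exact hprod 1 2 0 n1 n2 n0 m1 m2 m0 (by ring) (by ring)
  · change G / (2 * C.h * (C.a y z 0 ^ 2 - C.D * z 0 ^ 2)) *
      (G / (2 * C.h * (C.a y z 1 ^ 2 - C.D * z 1 ^ 2))) = C.h * (al 2 * bl 2)
    rw [hX 0, hX' 1]
    exact hprod 2 0 1 n2 n0 n1 m2 m0 m1 (by ring) (by ring)
  · change G / (2 * C.h * (C.a y z 0 ^ 2 - C.D * z 0 ^ 2)) * bl 0 = gp * (al 1 * al 2)
    rw [hX]
    field_simp
  · change G / (2 * C.h * (C.a y z 1 ^ 2 - C.D * z 1 ^ 2)) * bl 1 = gp * (al 2 * al 0)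
    rw [hX]
    field_simp
  · change G / (2 * C.h * (C.a y z 2 ^ 2 - C.D * z 2 ^ 2)) * bl 2 = gp * (al 0 * al 1)
    rw [hX]
    field_simp
  · change G / (2 * C.h * (C.a y z 0 ^ 2 - C.D * z 0 ^ 2)) * al 0 = gm * (bl 1 * bl 2)
    rw [hX']
    field_simp
  · change G / (2 * C.h * (C.a y z 1 ^ 2 - C.D * z 1 ^ 2)) * al 1 = gm * (bl 2 * bl 0)
    rw [hX']
    field_simp
  · change G / (2 * C.h * (C.a y z 2 ^ 2 - C.D * z 2 ^ 2)) * al 2 = gm * (bl 0 * bl 1)
    rw [hX']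
    field_simp

end Cb

end Pool.Agent.G18
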