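import Pool.Agent.G18.Coord
import Pool.Agent.G18.Rank
import Pool.Agent.G18.Core

/-!
# G18: similarities of norm forms over an algebraically closed field

`em3 (x, a, b) = (em x, em a, em b)`. `PE L`: the `E`-linear map of a `K`-linear map
`L : M₁³ → M₂³`. `exists_phiE`: a similarity `Φ` of the norm forms of two cubes extends to an
`E`-linear equivalence; it maps the `T`-rational vectors to `T`-rational ones and the vectors of
rank one to vectors of rank one. `Tri.rs`, `Tri.side`: the interface of the link.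
-/

set_option autoImplicit false

noncomputable section

namespace Pool.Agent.G18

open Module Matrix
open Pool.Agent.C18 (Cube)

variable {K E : Type} [Field K] [Field E] [Algebra K E]

namespace Tri

section

variable {M : Type} [Field M] [Algebra K M] (τ : Tri K M E)

/-- the coefficients of a triple -/
def coef : (Fin 3 → E) →ₗ[E] (Fin 3 → E) := (Matrix.vandermonde τ.th)⁻¹.mulVecLin

theorem ev_coef (r : Fin 3 → E) : τ.ev (τ.coef r) = r := by
  rw [ev_eq_mulVec]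
  change Matrix.vandermonde τ.th *ᵥ ((Matrix.vandermonde τ.th)⁻¹ *ᵥ r) = r
  rw [Matrix.mulVec_mulVec, Matrix.mul_nonsing_inv _ (isUnit_iff_ne_zero.2 τ.det_ne),
    Matrix.one_mulVec]

theorem coef_ev {R : Type} [CommRing R] [Algebra R E] (c : Fin 3 → R) :
    τ.coef (τ.ev c) = fun k => algebraMap R E (c k) := by
  rw [ev_eq_mulVec]
  change (Matrix.vandermonde τ.th)⁻¹ *ᵥ (Matrix.vandermonde τ.th *ᵥ _) = _
  rw [Matrix.mulVec_mulVec, Matrix.nonsing_inv_mul _ (isUnit_iff_ne_zero.2 τ.det_ne),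
    Matrix.one_mulVec]

theorem sum_coef (r : Fin 3 → E) : ∑ j, τ.coef r j • τ.em (τ.bs j) = r := by
  funext i
  have h := congrFun (τ.ev_coef r) i
  simp only [ev] at h
  rw [← h]
  simp [Finset.sum_apply]

theorem exists_coef (x : M) : ∃ c : Fin 3 → K, x = ∑ j, c j • τ.bs j := by
  obtain ⟨c, hc⟩ := τ.top x
  refine ⟨c, ?_⟩
  rw [hc, Fin.sum_univ_three]
  simp [bs, Algebra.smul_def]

theorem em_sum (c : Fin 3 → K) : τ.em (∑ j, c j • τ.bs j) = τ.ev c := by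
  funext i
  simp [em, ev, Algebra.smul_def]

/-- three triples -/
def em3 (w : M × M × M) : Fin 3 → Fin 3 → E := ![τ.em w.1, τ.em w.2.1, τ.em w.2.2]

theorem em3_add (v w : M × M × M) : τ.em3 (v + w) = τ.em3 v + τ.em3 w := by
  funext k
  fin_cases k
  · exact τ.em_add _ _
  · exact τ.em_add _ _
  · exact τ.em_add _ _

theorem em3_smul (c : K) (w : M × M × M) : τ.em3 (c • w) = algebraMap K E c • τ.em3 w := by
  funext k
  fin_cases k
  · exact τ.em_smul _ _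
  · exact τ.em_smul _ _
  · exact τ.em_smul _ _

/-- `em3` as a linear map over `K` -/
def em3L : (M × M × M) →ₗ[K] (Fin 3 → Fin 3 → E) where
  toFun := τ.em3
  map_add' := τ.em3_add
  map_smul' c w := by
    rw [RingHom.id_apply, em3_smul]
    funext k i
    simp [Algebra.smul_def]

/-- the three injections -/
def io (k : Fin 3) (x : M) : M × M × M := ![(x, 0, 0), (0, x, 0), (0, 0, x)] k

omit [Algebra K M] [Algebra K E] [Field E] [Field K] in
theorem io_sum (w : M × M × M) : w = io 0 w.1 + io 1 w.2.1 + io 2 w.2.2 := by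
  simp [io]

theorem io_smul_sum (k : Fin 3) (c : Fin 3 → K) :
    io k (∑ j, c j • τ.bs j) = ∑ j, c j • io k (τ.bs j) := by
  fin_cases k <;> simp [io, Fin.sum_univ_three]

theorem em3_io (k : Fin 3) (x : M) : τ.em3 (io k x) = Pi.single k (τ.em x) := by
  funext l
  fin_cases k <;> fin_cases l <;> simp [em3, io, em_zero]

/-- the coefficients of a vector of `M ^ 3` -/
theorem exists_coef3 (w : M × M × M) : ∃ c : Fin 3 → Fin 3 → K,
    w = ∑ k, ∑ j, c k j • io k (τ.bs j) ∧ ∀ k, τ.em3 w k = τ.ev (c k) := by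
  obtain ⟨c0, h0⟩ := τ.exists_coef w.1
  obtain ⟨c1, h1⟩ := τ.exists_coef w.2.1
  obtain ⟨c2, h2⟩ := τ.exists_coef w.2.2
  refine ⟨![c0, c1, c2], ?_, ?_⟩
  · rw [Fin.sum_univ_three]
    rw [← io_smul_sum, ← io_smul_sum, ← io_smul_sum]
    simp only [Matrix.cons_val_zero, Matrix.cons_val_one, Matrix.cons_val, ← h0, ← h1, ← h2]
    exact io_sum w
  · intro k
    fin_cases k
    · simp only [em3, Fin.zero_eta, Matrix.cons_val_zero]
      rw [h0, em_sum]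
    · simp only [em3, Fin.mk_one, Matrix.cons_val_one, Matrix.cons_val_zero]
      rw [h1, em_sum]
    · simp only [em3, Fin.reduceFinMk, Matrix.cons_val]
      rw [h2, em_sum]

theorem sum_io3 (c : Fin 3 → Fin 3 → E) (l i : Fin 3) :
    (∑ k, ∑ j, c k j • τ.em3 (io k (τ.bs j))) l i = ∑ j, c l j * τ.em (τ.bs j) i := by
  simp only [Finset.sum_apply, em3_io, Pi.smul_apply, smul_eq_mul]
  rw [Finset.sum_eq_single_of_mem l (Finset.mem_univ l)]
  · simp only [Pi.single_eq_same]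
  · intro k _ hk
    refine Finset.sum_eq_zero fun j _ => ?_
    rw [Pi.single_eq_of_ne hk.symm, Pi.zero_apply, mul_zero]

/-- the coefficients of a vector over `E` -/
theorem sum_coef3 (w : Fin 3 → Fin 3 → E) :
    ∑ k, ∑ j, τ.coef (w k) j • τ.em3 (io k (τ.bs j)) = w := by
  funext l i
  rw [τ.sum_io3 fun k => τ.coef (w k)]
  have h := congrFun (τ.sum_coef (w l)) i
  simpa only [Finset.sum_apply, Pi.smul_apply, smul_eq_mul] using h

end

section

variable {M₁ M₂ : Type} [Field M₁] [Algebra K M₁] [Field M₂] [Algebra K M₂] (τ₁ : Tri K M₁ E)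
  (τ₂ : Tri K M₂ E)

/-- the `E`-linear map of a `K`-linear map -/
def PE (L : (M₁ × M₁ × M₁) →ₗ[K] (M₂ × M₂ × M₂)) :
    (Fin 3 → Fin 3 → E) →ₗ[E] (Fin 3 → Fin 3 → E) where
  toFun w := ∑ k, ∑ j, τ₁.coef (w k) j • τ₂.em3 (L (io k (τ₁.bs j)))
  map_add' v w := by
    simp only [Pi.add_apply, map_add, add_smul, Finset.sum_add_distrib]
  map_smul' c w := by
    simp only [Pi.smul_apply, map_smul, smul_eq_mul, mul_smul, Finset.smul_sum,
      RingHom.id_apply]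

theorem PE_apply (L : (M₁ × M₁ × M₁) →ₗ[K] (M₂ × M₂ × M₂)) (w : Fin 3 → Fin 3 → E) :
    PE τ₁ τ₂ L w = ∑ k, ∑ j, τ₁.coef (w k) j • τ₂.em3 (L (io k (τ₁.bs j))) := rfl

theorem PE_em3 (L : (M₁ × M₁ × M₁) →ₗ[K] (M₂ × M₂ × M₂)) (w : M₁ × M₁ × M₁) :
    PE τ₁ τ₂ L (τ₁.em3 w) = τ₂.em3 (L w) := by
  obtain ⟨c, hc, he⟩ := τ₁.exists_coef3 w
  rw [PE_apply]
  conv_rhs => rw [hc]
  have h1 : τ₂.em3 (L (∑ k, ∑ j, c k j • io k (τ₁.bs j))) =
      ∑ k, ∑ j, c k j • τ₂.em3L (L (io k (τ₁.bs j))) := by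
    change τ₂.em3L (L _) = _
    simp only [map_sum, map_smul]
  rw [h1]
  refine Finset.sum_congr rfl fun k _ => Finset.sum_congr rfl fun j _ => ?_
  rw [he, coef_ev]
  funext l i
  simp [em3L, Algebra.smul_def]

/-- two `E`-linear maps which agree on the rational vectors -/
theorem ext_em3 {f g : (Fin 3 → Fin 3 → E) →ₗ[E] (Fin 3 → Fin 3 → E)}
    (h : ∀ w : M₁ × M₁ × M₁, f (τ₁.em3 w) = g (τ₁.em3 w)) : f = g := by
  refine LinearMap.ext fun w => ?_
  rw [← τ₁.sum_coef3 w]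
  simp only [map_sum, map_smul, h]

/-- the `E`-linear equivalence of a `K`-linear equivalence -/
def PEe (Φ : (M₁ × M₁ × M₁) ≃ₗ[K] (M₂ × M₂ × M₂)) :
    (Fin 3 → Fin 3 → E) ≃ₗ[E] (Fin 3 → Fin 3 → E) :=
  LinearEquiv.ofLinearMap (PE τ₁ τ₂ Φ.toLinearMap) (PE τ₂ τ₁ Φ.symm.toLinearMap)
    (τ₂.ext_em3 fun w => by
      simp only [LinearMap.comp_apply, PE_em3, LinearEquiv.coe_coe, LinearEquiv.apply_symm_apply,
        LinearMap.id_apply])
    (τ₁.ext_em3 fun w => by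
      simp only [LinearMap.comp_apply, PE_em3, LinearEquiv.coe_coe, LinearEquiv.symm_apply_apply,
        LinearMap.id_apply])

variable {Ω : Type} [Field Ω] [Algebra K Ω] [Algebra Ω E] [IsScalarTower K Ω E]

theorem PE_RT (L : (M₁ × M₁ × M₁) →ₗ[K] (M₂ × M₂ × M₂)) {T : IntermediateField K Ω}
    {w : Fin 3 → Fin 3 → E} (hw : ∀ k, w k ∈ τ₁.RT T) (l : Fin 3) :
    PE τ₁ τ₂ L w l ∈ τ₂.RT T := by
  choose c hc he using hw
  rw [PE_apply]
  have h1 : ∀ k j, τ₁.coef (w k) j = algebraMap Ω E (c k j) := by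
    intro k j
    rw [← he k, coef_ev]
  simp only [Finset.sum_apply, Pi.smul_apply, h1]
  have h2 : ∀ (v : M₂ × M₂ × M₂), τ₂.em3 v l ∈ τ₂.RT T := by
    intro v
    fin_cases l
    · exact τ₂.em_mem _
    · exact τ₂.em_mem _
    · exact τ₂.em_mem _
  have h3 : ∀ k j, algebraMap Ω E (c k j) • τ₂.em3 (L (io k (τ₁.bs j))) l ∈ τ₂.RT T :=
    fun k j => τ₂.RT_smul (hc k j) (h2 _)
  simp only [Fin.sum_univ_three]
  exact τ₂.RT_add (τ₂.RT_add (τ₂.RT_add (τ₂.RT_add (h3 0 0) (h3 0 1)) (h3 0 2))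
    (τ₂.RT_add (τ₂.RT_add (h3 1 0) (h3 1 1)) (h3 1 2)))
    (τ₂.RT_add (τ₂.RT_add (h3 2 0) (h3 2 1)) (h3 2 2))

end

end Tri

/-! ### The norm identity over `E` -/

theorem map_NW {R S : Type} [CommRing R] [CommRing S] (f : R →+* S) (h gp gm d : R)
    (w : Fin 3 → Fin 3 → R) :
    f (NW h gp gm d w) = NW (f h) (f gp) (f gm) (f d) fun k i => f (w k i) := by
  simp only [NW, NE, map_add, map_sub, map_mul]

/-- The norm form of a cube over `E`. -/
def nw (C : Cb E) (d : E) (w : Fin 3 → Fin 3 → E) : E :=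
  NW C.h (C.g + C.al * d) (C.g - C.al * d) d w

section

variable {M : Type} [Field M] [Algebra K M] [CharZero K] [IsAlgClosed E] [FiniteDimensional K M]

theorem nw_em3 (τ : Tri K M E) (C : Cube K M) {d : E} (hd : d ^ 2 = algebraMap K E C.D)
    (w : M × M × M) : nw (τ.cb C) d (τ.em3 w) = algebraMap K E (C.N w) := by
  rw [show w = (w.1, w.2.1, w.2.2) from rfl, τ.N_eq C hd]
  simp only [nw, NW, NE, Tri.em3, Matrix.cons_val_zero, Matrix.cons_val_one, Matrix.cons_val]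

end

section

variable {M₁ M₂ : Type} [Field M₁] [Algebra K M₁] [Field M₂] [Algebra K M₂] [CharZero K]
  [IsAlgClosed E] [FiniteDimensional K M₁] [FiniteDimensional K M₂] (τ₁ : Tri K M₁ E)
  (τ₂ : Tri K M₂ E) {C₁ : Cube K M₁} {C₂ : Cube K M₂}

open MvPolynomial in
/-- The norm identity over `E`. -/
theorem nw_PE (L : (M₁ × M₁ × M₁) →ₗ[K] (M₂ × M₂ × M₂)) {κ : K}
    (hL : ∀ w, C₂.N (L w) = κ * C₁.N w) {d₁ d₂ : E} (h₁ : d₁ ^ 2 = algebraMap K E C₁.D)
    (h₂ : d₂ ^ 2 = algebraMap K E C₂.D) (w : Fin 3 → Fin 3 → E) :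
    nw (τ₂.cb C₂) d₂ (Tri.PE τ₁ τ₂ L w) = algebraMap K E κ * nw (τ₁.cb C₁) d₁ w := by
  set w₁ : Fin 3 → Fin 3 → MvPolynomial (Fin 3 × Fin 3) E := fun k i =>
    ∑ j, X (k, j) * C (τ₁.em (τ₁.bs j) i) with hw₁
  set w₂ : Fin 3 → Fin 3 → MvPolynomial (Fin 3 × Fin 3) E := fun l i =>
    ∑ k, ∑ j, X (k, j) * C (τ₂.em3 (L (Tri.io k (τ₁.bs j))) l i) with hw₂
  set p₁ : MvPolynomial (Fin 3 × Fin 3) E := C (algebraMap K E κ) *
    NW (C (τ₁.cb C₁).h) (C ((τ₁.cb C₁).g + (τ₁.cb C₁).al * d₁))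
      (C ((τ₁.cb C₁).g - (τ₁.cb C₁).al * d₁)) (C d₁) w₁ with hp₁
  set p₂ : MvPolynomial (Fin 3 × Fin 3) E :=
    NW (C (τ₂.cb C₂).h) (C ((τ₂.cb C₂).g + (τ₂.cb C₂).al * d₂))
      (C ((τ₂.cb C₂).g - (τ₂.cb C₂).al * d₂)) (C d₂) w₂ with hp₂
  have e₁ : ∀ c : Fin 3 × Fin 3 → E, eval c p₁ = algebraMap K E κ *
      nw (τ₁.cb C₁) d₁ (∑ k, ∑ j, c (k, j) • τ₁.em3 (Tri.io k (τ₁.bs j))) := by
    intro c
    rw [hp₁, map_mul, eval_C, map_NW]
    simp only [eval_C, nw]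
    congr 2
    funext l i
    rw [τ₁.sum_io3 fun k j => c (k, j)]
    simp only [hw₁, map_sum, map_mul, eval_X, eval_C]
  have e₂ : ∀ c : Fin 3 × Fin 3 → E, eval c p₂ =
      nw (τ₂.cb C₂) d₂ (∑ k, ∑ j, c (k, j) • τ₂.em3 (L (Tri.io k (τ₁.bs j)))) := by
    intro c
    rw [hp₂, map_NW]
    simp only [eval_C, nw]
    congr 1
    funext l i
    simp only [hw₂, map_sum, map_mul, eval_X, eval_C, Finset.sum_apply, Pi.smul_apply,
      smul_eq_mul]
  have key : p₂ = p₁ := by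
    apply funext_set (fun _ => Set.range (algebraMap K E))
    · intro _
      exact Set.infinite_range_of_injective (algebraMap K E).injective
    · intro c hc
      have hc' : ∀ i, ∃ k, algebraMap K E k = c i := fun i => hc i (Set.mem_univ i)
      choose k hk using hc'
      have hc2 : c = fun i => algebraMap K E (k i) := funext fun i => (hk i).symm
      rw [e₁, e₂, hc2]
      have f₁ : ∑ l, ∑ j, algebraMap K E (k (l, j)) • τ₁.em3 (Tri.io l (τ₁.bs j)) =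
          τ₁.em3 (∑ l, ∑ j, k (l, j) • Tri.io l (τ₁.bs j)) := by
        change _ = τ₁.em3L _
        simp only [map_sum, map_smul]
        simp [Tri.em3L]
      have f₂ : ∑ l, ∑ j, algebraMap K E (k (l, j)) • τ₂.em3 (L (Tri.io l (τ₁.bs j))) =
          τ₂.em3 (L (∑ l, ∑ j, k (l, j) • Tri.io l (τ₁.bs j))) := by
        change _ = τ₂.em3L (L _)
        simp only [map_sum, map_smul]
        simp [Tri.em3L]
      rw [f₁, f₂, nw_em3 τ₁ C₁ h₁, nw_em3 τ₂ C₂ h₂, hL, map_mul]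
  have h3 := e₁ fun kj => τ₁.coef (w kj.1) kj.2
  have h4 := e₂ fun kj => τ₁.coef (w kj.1) kj.2
  rw [← key, h4] at h3
  simp only [τ₁.sum_coef3 w] at h3
  rw [Tri.PE_apply]
  exact h3

end

/-! ### The elements of rank one -/

theorem rk_iff {C : Cb E} {d : E} (h2 : (2 : E) ≠ 0) (hh : C.h ≠ 0) (hd : d ≠ 0)
    {w : Fin 3 → Fin 3 → E} : Rk C d w ↔ w ∈ W (nw C d) := by
  have h0 : w ∈ W (nw C d) ↔ w ∈ W (NW C.h (C.g + C.al * d) (C.g - C.al * d) d) := Iff.rfl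
  rw [h0, W_NW h2 hh hd]
  constructor
  · rintro ⟨e0, e1, e2⟩
    exact ⟨e0 0, e0 1, e0 2, e1 0, e1 1, e1 2, e2 0, e2 1, e2 2⟩
  · rintro ⟨e0, e1, e2, b0, b1, b2, a0, a1, a2⟩
    refine ⟨fun i => ?_, fun i => ?_, fun i => ?_⟩
    · fin_cases i
      · exact e0
      · exact e1
      · exact e2
    · fin_cases i
      · exact b0
      · exact b1
      · exact b2
    · fin_cases i
      · exact a0
      · exact a1
      · exact a2

section

variable {M₁ M₂ : Type} [Field M₁] [Algebra K M₁] [Field M₂] [Algebra K M₂] [CharZero K]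
  [IsAlgClosed E] [FiniteDimensional K M₁] [FiniteDimensional K M₂] (τ₁ : Tri K M₁ E)
  (τ₂ : Tri K M₂ E) {C₁ : Cube K M₁} {C₂ : Cube K M₂} {Ω : Type} [Field Ω] [Algebra K Ω]
  [Algebra Ω E] [IsScalarTower K Ω E]

/-- **A similarity of norm forms over `E`.** -/
theorem exists_phiE (Φ : (M₁ × M₁ × M₁) ≃ₗ[K] (M₂ × M₂ × M₂)) {κ : K} (hκ : κ ≠ 0)
    (hΦ : ∀ w, C₂.N (Φ w) = κ * C₁.N w) {d₁ d₂ : E} (hd₁ : d₁ ^ 2 = algebraMap K E C₁.D)
    (hd₂ : d₂ ^ 2 = algebraMap K E C₂.D) (hD₁ : C₁.D ≠ 0) (hD₂ : C₂.D ≠ 0) (hh₁ : C₁.h ≠ 0)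
    (hh₂ : C₂.h ≠ 0) : ∃ ΦE : (Fin 3 → Fin 3 → E) ≃ₗ[E] (Fin 3 → Fin 3 → E),
      (∀ w, ΦE (τ₁.em3 w) = τ₂.em3 (Φ w)) ∧
      (∀ (T : IntermediateField K Ω) (w : Fin 3 → Fin 3 → E), (∀ k, w k ∈ τ₁.RT T) →
        ∀ k, ΦE w k ∈ τ₂.RT T) ∧
      (∀ (T : IntermediateField K Ω) (w : Fin 3 → Fin 3 → E), (∀ k, w k ∈ τ₂.RT T) →
        ∀ k, ΦE.symm w k ∈ τ₁.RT T) ∧
      ∀ w, Rk (τ₂.cb C₂) d₂ (ΦE w) ↔ Rk (τ₁.cb C₁) d₁ w := by
  have : CharZero E := charZero_of_injective_algebraMap (algebraMap K E).injective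
  have h2 : (2 : E) ≠ 0 := two_ne_zero
  have d1 : d₁ ≠ 0 := by
    rintro rfl
    apply hD₁
    apply (algebraMap K E).injective
    rw [← hd₁, map_zero, zero_pow two_ne_zero]
  have d2 : d₂ ≠ 0 := by
    rintro rfl
    apply hD₂
    apply (algebraMap K E).injective
    rw [← hd₂, map_zero, zero_pow two_ne_zero]
  have h1 : (τ₁.cb C₁).h ≠ 0 := by
    rw [← τ₁.h_eq]
    exact (map_ne_zero _).2 hh₁
  have h3 : (τ₂.cb C₂).h ≠ 0 := by
    rw [← τ₂.h_eq]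
    exact (map_ne_zero _).2 hh₂
  refine ⟨Tri.PEe τ₁ τ₂ Φ, fun w => Tri.PE_em3 τ₁ τ₂ Φ.toLinearMap w,
    fun T w hw k => Tri.PE_RT τ₁ τ₂ Φ.toLinearMap hw k,
    fun T w hw k => Tri.PE_RT τ₂ τ₁ Φ.symm.toLinearMap hw k, fun w => ?_⟩
  rw [rk_iff h2 h3 d2, rk_iff h2 h1 d1]
  exact W_comp (map_add _) (map_sub _) (Tri.PEe τ₁ τ₂ Φ).surjective
    (fun a ha => (mul_eq_zero.1 ha).resolve_left ((map_ne_zero (algebraMap K E)).2 hκ))
    fun v => nw_PE τ₁ τ₂ Φ.toLinearMap hΦ hd₁ hd₂ v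

end

/-! ### The interface of the link -/

section

variable {M : Type} [Field M] [Algebra K M] [CharZero K] [IsAlgClosed E] [FiniteDimensional K M]
  {Ω : Type} [Field Ω] [Algebra K Ω] [Algebra Ω E] [IsScalarTower K Ω E]

/-- The rational structure of a cubic extension. -/
def Tri.rs (τ : Tri K M E) (hRC : ∀ ρ : Ω, IsAlgebraic K ρ → ∃ k : K, algebraMap K Ω k = ρ)
    (h3 : finrank K M = 3) : RS K Ω E where
  b j := τ.em (τ.bs j)
  R T := τ.RT T
  mem T a := by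
    constructor
    · rintro ⟨c, hc, rfl⟩
      refine ⟨c, hc, ?_⟩
      funext i
      simp only [Tri.ev, Fin.sum_univ_three]
    · rintro ⟨c, hc, rfl⟩
      refine ⟨c, hc, ?_⟩
      funext i
      simp only [Tri.ev, Fin.sum_univ_three]
  mul := τ.RT_mul
  one T := τ.RT_one
  inv := τ.RT_inv
  sum := τ.RT_sum
  prod := τ.RT_prod
  sh := τ.RT_sh
  nd a h := τ.dual fun j => by
    rw [Fin.sum_univ_three]
    exact h j
  fld a ha h0 i := τ.RT_field hRC h3 ha h0 i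

variable (τ : Tri K M E) (hRC : ∀ ρ : Ω, IsAlgebraic K ρ → ∃ k : K, algebraMap K Ω k = ρ)
  (h3 : finrank K M = 3)

theorem Tri.rs_R (T : IntermediateField K Ω) : (τ.rs hRC h3).R T = τ.RT T := rfl

theorem Tri.rs_b (j : Fin 3) : (τ.rs hRC h3).b j = τ.em (τ.bs j) := rfl

/-- The data of a cube are rational. -/
theorem Tri.side {C : Cube K M} {d : E} (hd : d ^ 2 = algebraMap K E C.D) (hD : C.D ≠ 0)
    (hh : C.h ≠ 0) : Side (τ.rs hRC h3) (τ.cb C) d where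
  del := by rw [hd, τ.D_eq]
  al := ⟨algebraMap K Ω C.al, (⊥ : IntermediateField K Ω).algebraMap_mem _,
    IsScalarTower.algebraMap_apply K Ω E _⟩
  be := ⟨algebraMap K Ω C.be, (⊥ : IntermediateField K Ω).algebraMap_mem _,
    IsScalarTower.algebraMap_apply K Ω E _⟩
  m := τ.em_mem _
  n := τ.em_mem _
  D0 := by
    rw [← τ.D_eq]
    exact (map_ne_zero _).2 hD
  h0 := by
    rw [← τ.h_eq]
    exact (map_ne_zero _).2 hh

end

end Pool.Agent.G18
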