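import Pool.Agent.G18.Core3
import Pool.Agent.G18.PhiE
import Pool.Agent.G18.Forms

/-!
# G18: points over `Ω` and points over `E`
-/

set_option autoImplicit false
set_option linter.unusedSectionVars false

noncomputable section

namespace Pool.Agent.G18

open Module Pool.Agent.C18 MvPolynomial

variable {K M E Ω : Type} [Field K] [CharZero K] [Field M] [Algebra K M] [Field E] [IsAlgClosed E]
  [Algebra K E] [Field Ω] [Algebra K Ω] [Algebra Ω E] [IsScalarTower K Ω E]

namespace Tri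

variable (τ : Tri K M E) (φ : M ≃ₗ[K] (Fin 3 → K))

/-- the point over `E` -/
def pt (v : Fin 3 → Ω) : Fin 3 → E := τ.ze φ fun l => algebraMap Ω E (v l)

omit [CharZero K] [IsAlgClosed E] in
theorem ze_add (v w : Fin 3 → E) : τ.ze φ (v + w) = τ.ze φ v + τ.ze φ w :=
  Matrix.mulVec_add _ _ _

omit [CharZero K] [IsAlgClosed E] in
theorem ze_smul (s : E) (v : Fin 3 → E) : τ.ze φ (s • v) = s • τ.ze φ v :=
  Matrix.mulVec_smul _ _ _

omit [CharZero K] [IsAlgClosed E] in
theorem pt_inj {v w : Fin 3 → Ω} (h : τ.pt φ v = τ.pt φ w) : v = w := by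
  have h1 := τ.ze_injective φ h
  funext l
  exact (algebraMap Ω E).injective (congrFun h1 l)

omit [CharZero K] [IsAlgClosed E] in
theorem RT_iff {T : IntermediateField K Ω} {a : Fin 3 → E} :
    a ∈ τ.RT T ↔ ∃ v : Fin 3 → Ω, (∀ l, v l ∈ T) ∧ τ.pt φ v = a := by
  constructor
  · rintro ⟨c, hc, rfl⟩
    refine ⟨fun l => ∑ j, c j * algebraMap K Ω (φ (τ.bs j) l), fun l => ?_, ?_⟩
    · exact sum_mem fun j _ => mul_mem (hc j) (T.algebraMap_mem _)
    · have h1 : (fun l => algebraMap Ω E (∑ j, c j * algebraMap K Ω (φ (τ.bs j) l))) =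
          algebraMap Ω E (c 0) • (fun l => algebraMap K E (φ (τ.bs 0) l)) +
          (algebraMap Ω E (c 1) • (fun l => algebraMap K E (φ (τ.bs 1) l)) +
          algebraMap Ω E (c 2) • fun l => algebraMap K E (φ (τ.bs 2) l)) := by
        funext l
        simp only [Fin.sum_univ_three, map_add, map_mul, Pi.add_apply, Pi.smul_apply, smul_eq_mul,
          ← IsScalarTower.algebraMap_apply]
        ring
      rw [pt, h1, ze_add, ze_add, ze_smul, ze_smul, ze_smul, ze_rat, ze_rat, ze_rat]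
      funext i
      simp only [ev, Fin.sum_univ_three, Pi.add_apply, Pi.smul_apply, smul_eq_mul]
      ring
  · rintro ⟨v, hv, rfl⟩
    have h1 : τ.pt φ v = algebraMap Ω E (v 0) • τ.em (φ.symm (Pi.single 0 1)) +
        (algebraMap Ω E (v 1) • τ.em (φ.symm (Pi.single 1 1)) +
        algebraMap Ω E (v 2) • τ.em (φ.symm (Pi.single 2 1))) := by
      funext i
      rw [pt, ze_apply, Fin.sum_univ_three]
      simp only [Pi.add_apply, Pi.smul_apply, smul_eq_mul]
      ring
    rw [h1]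
    exact τ.RT_add (τ.RT_smul (hv 0) (τ.em_mem _)) (τ.RT_add (τ.RT_smul (hv 1) (τ.em_mem _))
      (τ.RT_smul (hv 2) (τ.em_mem _)))

theorem c_pt [FiniteDimensional K M] {C : Cube K M} {f : MvPolynomial (Fin 3) K} (P : C.Param f)
    (v : Fin 3 → Ω) : (τ.cb C).c 1 (τ.pt P.φ v) = 0 ↔ aeval v f = 0 := by
  rw [pt, ← τ.aeval_eq P]
  have h1 : aeval (fun l => algebraMap Ω E (v l)) f = algebraMap Ω E (aeval v f) := by
    rw [← MvPolynomial.aeval_algebraMap_apply]
    rfl
  rw [h1, map_eq_zero]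

/-- the coordinates of a point -/
theorem exists_dual [FiniteDimensional K M] :
    ∃ β : Fin 3 → M, ∀ (v : Fin 3 → Ω) (l : Fin 3), algebraMap Ω E (v l) =
      τ.em (β l) 0 * τ.pt φ v 0 + τ.em (β l) 1 * τ.pt φ v 1 + τ.em (β l) 2 * τ.pt φ v 2 := by
  choose β hβ using fun l => exists_trace ((LinearMap.proj l).comp φ.toLinearMap)
  refine ⟨β, fun v l => ?_⟩
  have h1 : ∀ k, algebraMap K E ((Pi.single k 1 : Fin 3 → K) l) =
      τ.em (β l) 0 * τ.em (φ.symm (Pi.single k 1)) 0 +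
      τ.em (β l) 1 * τ.em (φ.symm (Pi.single k 1)) 1 +
      τ.em (β l) 2 * τ.em (φ.symm (Pi.single k 1)) 2 := by
    intro k
    have h2 := hβ l (φ.symm (Pi.single k 1))
    simp only [LinearMap.comp_apply, LinearEquiv.coe_coe, LinearEquiv.apply_symm_apply,
      LinearMap.proj_apply] at h2
    rw [h2, τ.trace_eq, em_mul]
    rfl
  have e0 := h1 0
  have e1 := h1 1
  have e2 := h1 2
  have hl : algebraMap Ω E (v l) =
      algebraMap Ω E (v 0) * algebraMap K E ((Pi.single 0 1 : Fin 3 → K) l) +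
      algebraMap Ω E (v 1) * algebraMap K E ((Pi.single 1 1 : Fin 3 → K) l) +
      algebraMap Ω E (v 2) * algebraMap K E ((Pi.single 2 1 : Fin 3 → K) l) := by
    fin_cases l <;> simp
  rw [hl, e0, e1, e2]
  simp only [pt, ze_apply, Fin.sum_univ_three]
  ring

theorem em_alg [FiniteDimensional K M] (x : M) (i : Fin 3) : IsAlgebraic K (τ.em x i) := by
  have h1 : IsIntegral K x := Algebra.IsIntegral.isIntegral x
  exact (h1.map (τ.σ i)).isAlgebraic

/-- the generic point is not a zero of `p` -/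
theorem p_ne [FiniteDimensional K M] {C : Cube K M} (hh : C.h ≠ 0) {δ : E}
    (hδ : δ ^ 2 = algebraMap K E C.D) {v : Fin 3 → Ω}
    (hgen : IntermediateField.adjoin K (Set.range v) = ⊤)
    (htr : ∀ t : Ω, ¬Algebra.IsAlgebraic (IntermediateField.adjoin K {t}) Ω) :
    (τ.cb C).p ((τ.cb C).a 1 (τ.pt φ v)) (τ.pt φ v) ≠ 0 := by
  intro hp
  set z := τ.pt φ v with hz
  set A : IntermediateField K E := algebraicClosure K E with hA
  have hAm : ∀ {x : E}, x ∈ A ↔ IsAlgebraic K x := mem_algebraicClosure_iff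
  have hmA : ∀ i, (τ.cb C).m i ∈ A := fun i => hAm.2 (τ.em_alg _ i)
  have hnA : ∀ i, (τ.cb C).n i ∈ A := fun i => hAm.2 (τ.em_alg _ i)
  have halA : (τ.cb C).al ∈ A := A.algebraMap_mem _
  have hbeA : (τ.cb C).be ∈ A := A.algebraMap_mem _
  have h2A : (2 : E) ∈ A := by exact_mod_cast A.natCast_mem 2
  have hTA : (τ.cb C).T ∈ A := add_mem (add_mem (mul_mem (hmA 0) (hnA 0))
    (mul_mem (hmA 1) (hnA 1))) (mul_mem (hmA 2) (hnA 2))
  have hBA : ∀ i, (τ.cb C).B i ∈ A := fun i => neg_mem (sub_mem (add_mem (mul_mem halA hbeA)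
    (mul_mem h2A (mul_mem (hmA i) (hnA i)))) hTA)
  have huA : ∀ i, (τ.cb C).u i ∈ A := by
    intro i
    fin_cases i
    · exact sub_mem (mul_mem (hmA 1) (hmA 2)) (mul_mem halA (hnA 0))
    · exact sub_mem (mul_mem (hmA 0) (hmA 2)) (mul_mem halA (hnA 1))
    · exact sub_mem (mul_mem (hmA 0) (hmA 1)) (mul_mem halA (hnA 2))
  have hδA : δ ∈ A := by
    refine hAm.2 ?_
    refine IsAlgebraic.of_pow (n := 2) (by norm_num) ?_
    rw [hδ]
    exact isAlgebraic_algebraMap _
  have hh' : (τ.cb C).h ≠ 0 := by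
    rw [← Tri.h_eq]
    exact (map_ne_zero _).2 hh
  have hu0 : ∀ i, (τ.cb C).u i ≠ 0 := by
    intro i h0
    rw [Cb.h_eq] at hh'
    apply hh'
    fin_cases i <;> simp_all
  have h20 : (2 : E) ≠ 0 := by
    have : (2 : E) = algebraMap K E 2 := (map_ofNat _ 2).symm
    rw [this]
    exact (map_ne_zero _).2 two_ne_zero
  have hzA : ∀ i, z i ∈ A := by
    intro i
    have h1 := congrFun hp i
    have hDE : (τ.cb C).D = δ ^ 2 := by rw [hδ, Tri.D_eq]
    simp only [Cb.p, Cb.a, Pi.one_apply, mul_one, Pi.zero_apply, hDE] at h1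
    have h2 : (2 * (τ.cb C).u i + ((τ.cb C).B i - δ) * z i) *
        (2 * (τ.cb C).u i + ((τ.cb C).B i + δ) * z i) = 0 := by
      linear_combination h1
    have key : ∀ b ∈ A, 2 * (τ.cb C).u i + b * z i = 0 → z i ∈ A := by
      intro b hb h3
      have hb0 : b ≠ 0 := by
        rintro rfl
        rw [zero_mul, add_zero] at h3
        exact mul_ne_zero h20 (hu0 i) h3
      have h4 : z i = -(2 * (τ.cb C).u i) / b := by
        rw [eq_div_iff hb0]
        linear_combination h3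
      rw [h4]
      exact div_mem (neg_mem (mul_mem h2A (huA i))) hb
    rcases mul_eq_zero.1 h2 with h3 | h3
    · exact key _ (sub_mem (hBA i) hδA) h3
    · exact key _ (add_mem (hBA i) hδA) h3
  obtain ⟨β, hβ⟩ := τ.exists_dual (Ω := Ω) φ
  have hvA : ∀ l, IsAlgebraic K (v l) := by
    intro l
    have h1 : algebraMap Ω E (v l) ∈ A := by
      rw [hβ]
      exact add_mem (add_mem (mul_mem (hAm.2 (τ.em_alg _ _)) (hzA 0))
        (mul_mem (hAm.2 (τ.em_alg _ _)) (hzA 1))) (mul_mem (hAm.2 (τ.em_alg _ _)) (hzA 2))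
    exact (isAlgebraic_algebraMap_iff (algebraMap Ω E).injective).1 (hAm.1 h1)
  have h5 : Algebra.IsAlgebraic K (IntermediateField.adjoin K (Set.range v)) :=
    IntermediateField.isAlgebraic_adjoin fun x hx => by
      obtain ⟨l, rfl⟩ := hx
      exact (hvA l).isIntegral
  rw [hgen] at h5
  have h6 : Algebra.IsAlgebraic K Ω :=
    (IntermediateField.topEquiv (F := K) (E := Ω)).isAlgebraic_iff.1 h5
  exact htr 0 (Algebra.IsAlgebraic.tower_top (K := K) _)

end Tri

end Pool.Agent.G18
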