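import Pool.Agent.G18.Fld

/-!
# G18: the fibre over the algebraic closure

A polynomial `f` over `K` whose values are `al + tr (m z) + tr (n z#) + be N(z)`, `z` in a cubic
extension `M` of `K`, becomes the polynomial of the cube `al`, `σ_i m`, `σ_i n`, `be` over an
algebraically closed extension of `K`.
-/

set_option autoImplicit false

open MvPolynomial

namespace Pool.Agent.G18

variable {K M F : Type} [Field K] [CharZero K] [Field M] [Algebra K M] [Field F] [Algebra K F]

theorem exists_emb [FiniteDimensional K M] [IsAlgClosed F] (hM : Module.finrank K M = 3) :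
    Nonempty (Fin 3 ≃ (M →ₐ[K] F)) := by
  have h1 : Fintype.card (M →ₐ[K] F) = 3 := by
    rw [AlgHom.card, hM]
  exact ⟨(Fintype.equivFinOfCardEq h1).symm⟩

section

variable [FiniteDimensional K M] [IsAlgClosed F] (e : Fin 3 ≃ (M →ₐ[K] F))

theorem emb_trace (x : M) : algebraMap K F (Algebra.trace K M x) = e 0 x + e 1 x + e 2 x := by
  rw [trace_eq_sum_embeddings F, ← Equiv.sum_comp e fun σ : M →ₐ[K] F => σ x, Fin.sum_univ_three]

theorem emb_norm (x : M) : algebraMap K F (Algebra.norm K x) = e 0 x * e 1 x * e 2 x := by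
  rw [Algebra.norm_eq_prod_embeddings K F, ← Equiv.prod_comp e fun σ : M →ₐ[K] F => σ x,
    Fin.prod_univ_three]

/-- the matrix of the embeddings -/
noncomputable def embM (φ : M ≃ₗ[K] (Fin 3 → K)) : Matrix (Fin 3) (Fin 3) F := fun i j =>
  e i (φ.symm (Pi.single j 1))

theorem embM_apply (φ : M ≃ₗ[K] (Fin 3 → K)) (v : Fin 3 → K) (i : Fin 3) :
    e i (φ.symm v) = ∑ j, embM e φ i j * algebraMap K F (v j) := by
  have h1 : v = ∑ j, v j • (Pi.single j 1 : Fin 3 → K) := by
    funext k
    simp [Finset.sum_apply, Pi.single_apply]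
  conv_lhs => rw [h1]
  rw [map_sum, map_sum]
  refine Finset.sum_congr rfl fun j _ => ?_
  rw [map_smul, map_smul, embM, Algebra.smul_def, mul_comm]

theorem embM_det (φ : M ≃ₗ[K] (Fin 3 → K)) : (embM e φ).det ≠ 0 := by
  have h1 := Algebra.discr_not_zero_of_basis K ((Pi.basisFun K (Fin 3)).map φ.symm)
  have h2 := Algebra.discr_eq_det_embeddingsMatrixReindex_pow_two K F
    ((Pi.basisFun K (Fin 3)).map φ.symm) e
  have h3 : Algebra.embeddingsMatrixReindex K F ((Pi.basisFun K (Fin 3)).map φ.symm) e =
      (embM e φ).transpose := by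
    ext i j
    simp [Algebra.embeddingsMatrixReindex, Algebra.embeddingsMatrix, embM]
  rw [h3, Matrix.det_transpose] at h2
  intro h4
  rw [h4, zero_pow two_ne_zero, map_eq_zero] at h2
  exact h1 h2

/-- the fibre in coordinates of the algebraic closure -/
theorem map_fib {al be : K} {m n : M} (φ : M ≃ₗ[K] (Fin 3 → K)) {f : MvPolynomial (Fin 3) K}
    (hf : ∀ z : M, eval (φ z) f = al + Algebra.trace K M (m * z) +
      Algebra.trace K M (n * (algebraMap K M (Algebra.norm K z) * z⁻¹)) + be * Algebra.norm K z) :
    map (algebraMap K F) f = linSub (embM e φ)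
      (mpol (algebraMap K F al) (algebraMap K F be) (fun i => e i m) fun i => e i n) := by
  have hinf : Infinite K := inferInstance
  refine funext_set (s := fun _ : Fin 3 => Set.range (algebraMap K F)) (fun _ =>
    Set.infinite_range_of_injective (algebraMap K F).injective) ?_
  intro x hx
  have hx' : ∀ j, ∃ a, algebraMap K F a = x j := fun j => hx j (Set.mem_univ _)
  choose v hv using hx'
  obtain rfl : (fun j => algebraMap K F (v j)) = x := _root_.funext hv
  have h1 : eval (fun j => algebraMap K F (v j)) (map (algebraMap K F) f) =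
      algebraMap K F (eval v f) := by
    rw [eval_map, ← eval₂_id, eval₂_comp_left]
    rfl
  have h2 := hf (φ.symm v)
  rw [LinearEquiv.apply_symm_apply] at h2
  have h3 : eval (fun j => algebraMap K F (v j)) (linSub (embM e φ)
      (mpol (algebraMap K F al) (algebraMap K F be) (fun i => e i m) fun i => e i n)) =
      mval (algebraMap K F al) (algebraMap K F be) (fun i => e i m) (fun i => e i n)
        fun i => e i (φ.symm v) := by
    rw [← eval_mpol, linSub, ← aeval_eq_eval, ← aeval_eq_eval, ← AlgHom.comp_apply]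
    congr 1
    refine algHom_ext fun k => ?_
    rw [AlgHom.comp_apply, aeval_X, aeval_X, map_sum, embM_apply]
    refine Finset.sum_congr rfl fun j _ => ?_
    rw [map_mul, aeval_X, aeval_C]
    rfl
  rw [h1, h2, h3]
  set z := φ.symm v with hz
  rw [map_add, map_add, map_add, emb_trace e, emb_trace e, map_mul (algebraMap K F) be, emb_norm e]
  simp only [map_mul, map_inv₀, AlgHom.commutes, emb_norm e]
  unfold mval
  by_cases h0 : z = 0
  · rw [h0]
    simp
  · have k : ∀ i, e i z ≠ 0 := fun i => (map_ne_zero _).2 h0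
    have k0 := k 0
    have k1 := k 1
    have k2 := k 2
    field_simp

end

end Pool.Agent.G18
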