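import Pool.Agent.G18.Defs
import Pool.Agent.G18.Par
import Pool.Agent.G18.Gauss

/-!
# G18: the base field is algebraically closed in the function field of the surface

`Cube.Param.relcl`: let `f` be the polynomial of a cube over the cubic extension `M` of `K` with
`D ≠ 0` and let `v` be a generic zero of `f`. Every element of `K(v)` which is algebraic over `K`
lies in `K`. `Cube.Param.no_root`: an irreducible polynomial over `K` of degree at least two has no
root in `K(v)`. `Cube.Param.dvd_of_aeval`: all relations of `v` are multiples of `f`.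
-/

set_option autoImplicit false

open MvPolynomial

namespace Pool.Agent.C18

variable {K M Ω : Type} [Field K] [CharZero K] [Field M] [Algebra K M] [Field Ω] [Algebra K Ω]

section

variable {F : Type} [Field F] [Algebra K F] [FiniteDimensional K M] [IsAlgClosed F]
  (e : Fin 3 ≃ (M →ₐ[K] F))

theorem emb_sh (z : M) : e 0 (sh K z) = e 1 z * e 2 z ∧ e 1 (sh K z) = e 0 z * e 2 z ∧
    e 2 (sh K z) = e 0 z * e 1 z := by
  unfold sh
  simp only [map_mul, map_inv₀, AlgHom.commutes, G18.emb_norm e]
  by_cases h0 : z = 0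
  · rw [h0]
    simp
  · have k : ∀ i, e i z ≠ 0 := fun i => (map_ne_zero _).2 h0
    have k0 := k 0
    have k1 := k 1
    have k2 := k 2
    refine ⟨?_, ?_, ?_⟩ <;> field_simp

theorem emb_D (C : Cube K M) : G18.hdet (algebraMap K F C.al) (algebraMap K F C.be)
    (fun i => e i C.m) (fun i => e i C.n) = algebraMap K F C.D := by
  obtain ⟨h0, h1, h2⟩ := emb_sh e (C.m * C.n)
  unfold Cube.D
  simp only [map_sub, map_add, map_pow, G18.emb_trace e, h0, h1, h2, G18.emb_norm e,
    map_mul (algebraMap K F), map_ofNat, map_mul (e 0), map_mul (e 1), map_mul (e 2)]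
  unfold G18.hdet
  ring

theorem Cube.Param.prime {C : Cube K M} {f : MvPolynomial (Fin 3) K} (P : C.Param f)
    (hM : Module.finrank K M = 3) : Prime (map (algebraMap K F) f) := by
  obtain ⟨e⟩ := G18.exists_emb (K := K) (M := M) (F := F) hM
  rw [G18.map_fib e P.φ (fun z => by rw [P.eq, Cube.aff]; rfl)]
  refine G18.prime_linSub ?_ _ (G18.embM_det e P.φ)
  rw [emb_D]
  exact (map_ne_zero _).2 P.D_ne

end

variable {C : Cube K M} {f : MvPolynomial (Fin 3) K}

theorem Cube.Param.irreducible (P : C.Param f) (hM : Module.finrank K M = 3) : Irreducible f := by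
  have : FiniteDimensional K M := Module.finite_of_finrank_pos (by rw [hM]; norm_num)
  have h1 := (P.prime (F := AlgebraicClosure K) hM).irreducible
  refine ⟨fun hu => h1.not_isUnit (hu.map _), fun a b hab => ?_⟩
  rw [hab, map_mul] at h1
  have key : ∀ g : MvPolynomial (Fin 3) K,
      IsUnit (map (algebraMap K (AlgebraicClosure K)) g) → IsUnit g := by
    intro g hg
    rw [isUnit_iff_dvd_one] at hg ⊢
    refine G18.dvd_of_map (F := AlgebraicClosure K) ?_
    rw [map_one]
    exact hg
  rcases h1.isUnit_or_isUnit rfl with h | h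
  · exact Or.inl (key a h)
  · exact Or.inr (key b h)

theorem Cube.Param.dvd_of_aeval (P : C.Param f) (hM : Module.finrank K M = 3) {v : Fin 3 → Ω}
    (hv : aeval v f = 0) (hgen : IntermediateField.adjoin K (Set.range v) = ⊤)
    (htr : ∀ t : Ω, ¬Algebra.IsAlgebraic (IntermediateField.adjoin K {t}) Ω)
    (Q : MvPolynomial (Fin 3) K) : aeval v Q = 0 ↔ f ∣ Q := by
  refine ⟨G18.dvd_of_aeval hgen htr (P.irreducible hM) hv, ?_⟩
  rintro ⟨R, rfl⟩
  rw [map_mul, hv, zero_mul]

/-- **The base field is algebraically closed in the function field of the surface.** -/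
theorem Cube.Param.relcl (P : C.Param f) (hM : Module.finrank K M = 3) {v : Fin 3 → Ω}
    (hv : aeval v f = 0) (hgen : IntermediateField.adjoin K (Set.range v) = ⊤)
    (htr : ∀ t : Ω, ¬Algebra.IsAlgebraic (IntermediateField.adjoin K {t}) Ω)
    {ρ : Ω} (hρ : IsIntegral K ρ) : ∃ k : K, algebraMap K Ω k = ρ := by
  have : FiniteDimensional K M := Module.finite_of_finrank_pos (by rw [hM]; norm_num)
  exact G18.relcl (F := AlgebraicClosure K) hgen (P.dvd_of_aeval hM hv hgen htr) (P.prime hM) ρ hρ

/-- An irreducible polynomial of degree at least two has no root in the function field. -/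
theorem Cube.Param.no_root (P : C.Param f) (hM : Module.finrank K M = 3) {v : Fin 3 → Ω}
    (hv : aeval v f = 0) (hgen : IntermediateField.adjoin K (Set.range v) = ⊤)
    (htr : ∀ t : Ω, ¬Algebra.IsAlgebraic (IntermediateField.adjoin K {t}) Ω)
    {p : Polynomial K} (hp : Irreducible p) (hd : 2 ≤ p.natDegree) (ρ : Ω) :
    Polynomial.aeval ρ p ≠ 0 := by
  intro h0
  have h1 : IsIntegral K ρ := by
    rw [← isAlgebraic_iff_isIntegral]
    exact ⟨p, hp.ne_zero, h0⟩
  obtain ⟨k, rfl⟩ := P.relcl hM hv hgen htr h1
  rw [Polynomial.aeval_algebraMap_apply, map_eq_zero] at h0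
  have h2 := Polynomial.degree_eq_one_of_irreducible_of_root hp h0
  have h3 : p.natDegree = 1 := Polynomial.natDegree_eq_of_degree_eq_some (by exact_mod_cast h2)
  omega

end Pool.Agent.C18
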