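import Pool.Agent.G18.Defs
import Pool.Agent.G18.Pts
import Pool.Agent.G18.Rel

/-!
# G18: the link of two del Pezzo surfaces of degree six with similar norm forms
-/

set_option autoImplicit false

noncomputable section

namespace Pool.Agent.G18

open Module Pool.Agent.C18

section

variable {E : Type} [Field E]

/-- the linear form `w ↦ a · w k` -/
def dtL (a : Fin 3 → E) (k : Fin 3) : (Fin 3 → Fin 3 → E) →ₗ[E] E where
  toFun w := dt3 a (w k)
  map_add' v w := by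
    simp only [dt3, Pi.add_apply]
    ring
  map_smul' s w := by
    simp only [dt3, Pi.smul_apply, smul_eq_mul, RingHom.id_apply]
    ring

theorem dtL_apply (a : Fin 3 → E) (k : Fin 3) (w : Fin 3 → Fin 3 → E) :
    dtL a k w = dt3 a (w k) := rfl

end

section

variable {K E M : Type} [Field K] [CharZero K] [Field E] [IsAlgClosed E] [Algebra K E] [Field M]
  [Algebra K M] [FiniteDimensional K M]

theorem Tri.dt_em (τ : Tri K M E) (x y : M) :
    dt3 (τ.em x) (τ.em y) = algebraMap K E (Algebra.trace K M (x * y)) := by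
  rw [τ.trace_eq, τ.em_mul]
  rfl

omit [CharZero K] [IsAlgClosed E] [FiniteDimensional K M] in
/-- proportional triples -/
theorem Tri.prop (τ : Tri K M E) {x y : M} {σ : E} (hy : y ≠ 0) (h : τ.em x = σ • τ.em y) :
    ∃ k : K, σ = algebraMap K E k := by
  obtain ⟨c, hc⟩ := τ.exists_coef (x * y⁻¹)
  have h1 : τ.em (x * y⁻¹) = fun _ => σ := by
    funext i
    have h2 := congrFun h i
    have h3 : τ.em y i ≠ 0 := fun h0 => hy (τ.em_inj h0)
    have h4 : τ.em (y⁻¹) i = (τ.em y i)⁻¹ := map_inv₀ (τ.σ i) y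
    rw [Tri.em_mul, Pi.mul_apply, h2, h4, Pi.smul_apply, smul_eq_mul, mul_assoc,
      mul_inv_cancel₀ h3, mul_one]
  rw [hc, τ.em_sum] at h1
  have h5 : τ.ev (fun j => algebraMap K E (c j)) = τ.ev (![σ, 0, 0] : Fin 3 → E) := by
    have e1 : τ.ev (fun j => algebraMap K E (c j)) = τ.ev c := by
      funext i
      simp [Tri.ev_apply]
    rw [e1, h1]
    funext i
    simp [Tri.ev_apply]
  have h6 := congrFun (τ.ev_inj h5) 0
  exact ⟨c 0, h6.symm⟩

end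

variable {K E M₁ M₂ : Type} [Field K] [CharZero K] [Field E] [IsAlgClosed E] [Algebra K E]
  [Field M₁] [Algebra K M₁] [FiniteDimensional K M₁] [Field M₂] [Algebra K M₂]
  [FiniteDimensional K M₂]

/-- the forms over `E` -/
theorem forms_E (τ₁ : Tri K M₁ E) (τ₂ : Tri K M₂ E)
    (Φ : (M₁ × M₁ × M₁) ≃ₗ[K] (M₂ × M₂ × M₂))
    (ΦE : (Fin 3 → Fin 3 → E) ≃ₗ[E] (Fin 3 → Fin 3 → E))
    (hE : ∀ w, ΦE (τ₁.em3 w) = τ₂.em3 (Φ w)) {t s : M₁} {t' s' : M₂}
    (h : ∀ w, Algebra.trace K M₁ (t * w.2.1) + Algebra.trace K M₁ (s * w.2.2) =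
        Algebra.trace K M₂ (t' * (Φ w).2.1) + Algebra.trace K M₂ (s' * (Φ w).2.2))
    (w : Fin 3 → Fin 3 → E) :
    dt3 (τ₁.em t) (w 1) + dt3 (τ₁.em s) (w 2) =
      dt3 (τ₂.em t') (ΦE w 1) + dt3 (τ₂.em s') (ΦE w 2) := by
  have key : dtL (τ₁.em t) 1 + dtL (τ₁.em s) 2 =
      (dtL (τ₂.em t') 1 + dtL (τ₂.em s') 2) ∘ₗ ΦE.toLinearMap := by
    refine LinearMap.ext fun w => ?_
    rw [← τ₁.sum_coef3 w]
    simp only [map_sum, map_smul]
    refine Finset.sum_congr rfl fun k _ => Finset.sum_congr rfl fun j _ => ?_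
    congr 1
    set u := Tri.io k (τ₁.bs j) with hu
    rw [LinearMap.add_apply, LinearMap.comp_apply, LinearEquiv.coe_coe, hE, LinearMap.add_apply,
      dtL_apply, dtL_apply, dtL_apply, dtL_apply]
    have e1 : dt3 (τ₁.em t) (τ₁.em3 u 1) = algebraMap K E (Algebra.trace K M₁ (t * u.2.1)) :=
      τ₁.dt_em t u.2.1
    have e2 : dt3 (τ₁.em s) (τ₁.em3 u 2) = algebraMap K E (Algebra.trace K M₁ (s * u.2.2)) :=
      τ₁.dt_em s u.2.2
    have e3 : dt3 (τ₂.em t') (τ₂.em3 (Φ u) 1) =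
        algebraMap K E (Algebra.trace K M₂ (t' * (Φ u).2.1)) := τ₂.dt_em t' (Φ u).2.1
    have e4 : dt3 (τ₂.em s') (τ₂.em3 (Φ u) 2) =
        algebraMap K E (Algebra.trace K M₂ (s' * (Φ u).2.2)) := τ₂.dt_em s' (Φ u).2.2
    rw [e1, e2, e3, e4, ← (algebraMap K E).map_add, ← (algebraMap K E).map_add, h u]
  exact LinearMap.congr_fun key w

end Pool.Agent.G18

namespace Pool.Agent.C18

open MvPolynomial Matrix Pool.Agent.G18

/-- The link. `v` is the generic point of the surface `f₁ = 0`; then the field `Ω = K(v)` is generated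
by two elements over `K` or by a point of the surface `f₂ = 0`. -/
theorem link {K Ω : Type} [Field K] [CharZero K] [Field Ω] [Algebra K Ω]
    {M₁ M₂ : Type} [Field M₁] [Algebra K M₁] [Field M₂] [Algebra K M₂]
    (h₁ : Module.finrank K M₁ = 3) (h₂ : Module.finrank K M₂ = 3)
    {C₁ : Cube K M₁} {C₂ : Cube K M₂} {f₁ f₂ : MvPolynomial (Fin 3) K}
    (P₁ : C₁.Param f₁) (P₂ : C₂.Param f₂) (hbe : C₂.be ≠ 0)
    (Φ : (M₁ × M₁ × M₁) ≃ₗ[K] (M₂ × M₂ × M₂)) {κ : K} (hκ : κ ≠ 0)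
    (hΦ : ∀ w, C₂.N (Φ w) = κ * C₁.N w)
    (v : Fin 3 → Ω) (hv : aeval v f₁ = 0) (hgen : IntermediateField.adjoin K (Set.range v) = ⊤)
    (htr : ∀ t : Ω, ¬ Algebra.IsAlgebraic (IntermediateField.adjoin K {t}) Ω) :
    (∃ a : Fin 2 → Ω, IntermediateField.adjoin K (Set.range a) = ⊤) ∨
      ∃ v' : Fin 3 → Ω, aeval v' f₂ = 0 ∧ IntermediateField.adjoin K (Set.range v') = ⊤ := by
  have hf₁ : FiniteDimensional K M₁ := FiniteDimensional.of_finrank_pos (by omega)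
  have hf₂ : FiniteDimensional K M₂ := FiniteDimensional.of_finrank_pos (by omega)
  have hRC : ∀ ρ : Ω, IsAlgebraic K ρ → ∃ k : K, algebraMap K Ω k = ρ := fun ρ hρ =>
    P₁.relcl h₁ hv hgen htr hρ.isIntegral
  obtain ⟨τ₁⟩ := exists_tri (K := K) (M := M₁) (E := AlgebraicClosure Ω) h₁
  obtain ⟨τ₂⟩ := exists_tri (K := K) (M := M₂) (E := AlgebraicClosure Ω) h₂
  have hch : CharZero (AlgebraicClosure Ω) :=
    charZero_of_injective_algebraMap (algebraMap K (AlgebraicClosure Ω)).injective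
  obtain ⟨δ₁, hδ₁⟩ := IsAlgClosed.exists_pow_nat_eq (algebraMap K (AlgebraicClosure Ω) C₁.D)
    (n := 2) (by norm_num)
  obtain ⟨δ₂, hδ₂⟩ := IsAlgClosed.exists_pow_nat_eq (algebraMap K (AlgebraicClosure Ω) C₂.D)
    (n := 2) (by norm_num)
  obtain ⟨ΦE, hE, hE1, hE2, hW⟩ := exists_phiE (Ω := Ω) τ₁ τ₂ Φ hκ hΦ hδ₁ hδ₂ P₁.D_ne P₂.D_ne
    P₁.h_ne P₂.h_ne
  obtain ⟨t, s, t', s', hform, hli⟩ := exists_forms h₁ h₂ Φ
  have hpair : ∀ {x : M₂}, τ₂.em x = 0 → x = 0 := fun {x} h => τ₂.em_inj (congrFun h 0)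
  have hcore := core (S₁ := τ₁.rs hRC h₁) (S₂ := τ₂.rs hRC h₂)
    (τ₁.side hRC h₁ hδ₁ P₁.D_ne P₁.h_ne) (τ₂.side hRC h₂ hδ₂ P₂.D_ne P₂.h_ne)
    ((map_ne_zero _).2 hbe) ΦE hE1 hE2 (fun w hw => (hW w).2 hw)
    (t := fun j => τ₁.em (t j)) (s := fun j => τ₁.em (s j)) (t' := fun j => τ₂.em (t' j))
    (s' := fun j => τ₂.em (s' j)) (fun j => τ₁.em_mem _) (fun j => τ₁.em_mem _)
    (fun j => τ₂.em_mem _) (fun j => τ₂.em_mem _)
    (fun w j => forms_E τ₁ τ₂ Φ ΦE hE (fun w => hform w j) w) ?_ ?_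
    (v := τ₁.pt P₁.φ v) ((τ₁.RT_iff P₁.φ).2 ⟨v, fun _ => IntermediateField.mem_top, rfl⟩)
    ((τ₁.c_pt P₁ v).2 hv) (τ₁.p_ne P₁.φ P₁.h_ne hδ₁ hgen htr) ?_
  · rcases hcore with ⟨v₂, hv₂, hc₂, hg₂⟩ | h
    · right
      obtain ⟨v', -, rfl⟩ := (τ₂.RT_iff P₂.φ).1 hv₂
      refine ⟨v', (τ₂.c_pt P₂ v').1 hc₂, hg₂ _ ?_⟩
      exact (τ₂.RT_iff P₂.φ).2 ⟨v', fun l => IntermediateField.subset_adjoin K _ ⟨l, rfl⟩, rfl⟩
    · exact Or.inl h
  · rintro ⟨e1, e2⟩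
    exact hli.ne_zero 0 (Prod.ext (hpair e1) (hpair e2))
  · rintro σ ⟨e1, e2⟩
    obtain ⟨k, rfl⟩ : ∃ k : K, σ = algebraMap K (AlgebraicClosure Ω) k := by
      by_cases ht : t' 0 = 0
      · have hs : s' 0 ≠ 0 := fun h => hli.ne_zero 0 (Prod.ext ht h)
        exact τ₂.prop hs e2
      · exact τ₂.prop ht e1
    rw [← τ₂.em_smul] at e1 e2
    have e3 : t' 1 - k • t' 0 = 0 := by
      apply τ₂.em_inj (i := 0)
      have := congrFun e1 0
      change τ₂.σ 0 (t' 1 - k • t' 0) = 0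
      rw [map_sub]
      exact sub_eq_zero.2 this
    have e4 : s' 1 - k • s' 0 = 0 := by
      apply τ₂.em_inj (i := 0)
      have := congrFun e2 0
      change τ₂.σ 0 (s' 1 - k • s' 0) = 0
      rw [map_sub]
      exact sub_eq_zero.2 this
    have h3 := Fintype.linearIndependent_iff.1 hli ![-k, 1] (by
      rw [Fin.sum_univ_two]
      refine Prod.ext ?_ ?_
      · simp only [cons_val_zero, cons_val_one, Prod.smul_mk, Prod.fst_add, one_smul,
          Prod.fst_zero]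
        rw [← e3, neg_smul]
        abel
      · simp only [cons_val_zero, cons_val_one, Prod.smul_mk, Prod.snd_add, one_smul,
          Prod.snd_zero]
        rw [← e4, neg_smul]
        abel) 1
    exact one_ne_zero h3
  · intro T hT
    obtain ⟨v₁, hv₁, he⟩ := (τ₁.RT_iff P₁.φ).1 hT
    have := τ₁.pt_inj P₁.φ he
    subst this
    rw [eq_top_iff, ← hgen, IntermediateField.adjoin_le_iff]
    rintro _ ⟨l, rfl⟩
    exact hv₁ l

end Pool.Agent.C18
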