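import Pool.Agent.G18.NVIrr2
import Pool.Agent.G18.Aniso

/-!
# G18: the cube of the explicit net

`M = K[T]/(T ^ 3 - s T - r)`, `r = 1 - t`, with the root `θ`. The cube is `α = -1`, `β = 1`,
`m = 1/(3 θ ^ 2 - s)`, `n = 0`.
-/

set_option autoImplicit false

noncomputable section

namespace Pool.Agent.C18.NV

open MvPolynomial Matrix

instance : Fact (Irreducible exP) := ⟨exP_irr⟩

/-- The cubic extension. -/
abbrev M : Type := AdjoinRoot exP

/-- the root -/
def th : M := AdjoinRoot.root exP

/-- the number `r = 1 - t` -/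
def rr : K := 1 - var 1

theorem eval₂_exP {S : Type} [CommRing S] (f : K →+* S) (x : S) :
    exP.eval₂ f x = x ^ 3 - f (var 0) * x + (f (var 1) - 1) := by
  simp only [exP, Polynomial.eval₂_add, Polynomial.eval₂_sub, Polynomial.eval₂_mul,
    Polynomial.eval₂_pow, Polynomial.eval₂_X, Polynomial.eval₂_C, map_sub, map_one,
    Polynomial.eval₂_one]

theorem th_eq : th ^ 3 = algebraMap K M (var 0) * th + algebraMap K M rr := by
  have h := AdjoinRoot.eval₂_root exP
  rw [eval₂_exP] at h
  have h1 : ∀ x : K, algebraMap K M x = AdjoinRoot.of exP x := fun x => rfl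
  rw [h1, h1, rr, th, map_sub, map_one]
  linear_combination h

/-- The basis `θ ^ 2, 1, θ`. -/
def pb : PowerBasis K M := AdjoinRoot.powerBasis' exP_monic

theorem pb_dim : pb.dim = 3 := by
  rw [pb, AdjoinRoot.powerBasis'_dim, exP_natDegree]

/-- The basis `θ ^ 2, 1, θ`. -/
def bs : Module.Basis (Fin 3) K M :=
  pb.basis.reindex ((finCongr pb_dim).trans (finRotate 3))

theorem bs_apply (i : Fin 3) : bs i = (![th ^ 2, 1, th] : Fin 3 → M) i := by
  have h : ∀ j : Fin pb.dim, pb.basis j = th ^ (j : ℕ) := fun j => by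
    rw [pb.basis_eq_pow]
    rfl
  rw [bs, Module.Basis.reindex_apply, h]
  fin_cases i
  · change th ^ 2 = _
    rfl
  · change th ^ 0 = _
    rw [pow_zero]
    rfl
  · change th ^ 1 = _
    rw [pow_one]
    rfl

theorem finrank_M : Module.finrank K M = 3 := by
  rw [Module.finrank_eq_card_basis bs, Fintype.card_fin]

/-! ### The regular representation -/

/-- The matrix of the multiplication by the element with coordinates `v`. -/
def mt (v : Fin 3 → K) : Matrix (Fin 3) (Fin 3) K :=
  !![v 0 * var 0 + v 1, v 0, v 2;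
    v 2 * rr, v 1, v 0 * rr;
    v 0 * rr + v 2 * var 0, v 2, v 0 * var 0 + v 1]

theorem repr_eq (v : Fin 3 → K) :
    bs.equivFun (v 0 • th ^ 2 + v 1 • (1 : M) + v 2 • th) = v := by
  have h : v 0 • th ^ 2 + v 1 • (1 : M) + v 2 • th = bs.equivFun.symm v := by
    rw [Module.Basis.equivFun_symm_apply, Fin.sum_univ_three, bs_apply, bs_apply, bs_apply]
    rfl
  rw [h, LinearEquiv.apply_symm_apply]

theorem eq_repr (z : M) :
    z = bs.equivFun z 0 • th ^ 2 + bs.equivFun z 1 • (1 : M) + bs.equivFun z 2 • th := by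
  conv_lhs => rw [← bs.equivFun.symm_apply_apply z]
  rw [Module.Basis.equivFun_symm_apply, Fin.sum_univ_three, bs_apply, bs_apply, bs_apply]
  rfl

theorem mul_eq (v : Fin 3 → K) (j : Fin 3) :
    (v 0 • th ^ 2 + v 1 • (1 : M) + v 2 • th) * bs j =
      mt v 0 j • th ^ 2 + mt v 1 j • (1 : M) + mt v 2 j • th := by
  have h := th_eq
  rw [bs_apply]
  simp only [Algebra.smul_def]
  fin_cases j
  · simp only [mt, Fin.zero_eta, of_apply, cons_val_zero, cons_val_one, cons_val, map_add, map_mul]
    linear_combination (algebraMap K M (v 0) * th + algebraMap K M (v 2)) * h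
  · simp [mt]
  · simp only [mt, Fin.reduceFinMk, of_apply, cons_val_zero, cons_val_one, cons_val, map_add,
      map_mul]
    linear_combination algebraMap K M (v 0) * h

theorem lmm (z : M) : Algebra.leftMulMatrix bs z = mt (bs.equivFun z) := by
  ext i j
  rw [Algebra.leftMulMatrix_eq_repr_mul]
  conv_lhs => rw [eq_repr z, mul_eq]
  change bs.equivFun _ i = _
  rw [repr_eq (fun i => mt (bs.equivFun z) i j)]

theorem norm_eq (z : M) : Algebra.norm K z = (mt (bs.equivFun z)).det := by
  rw [Algebra.norm_eq_matrix_det bs, lmm]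

theorem trace_eq (z : M) : Algebra.trace K M z = (mt (bs.equivFun z)).trace := by
  rw [Algebra.trace_eq_matrix_trace bs, lmm]

theorem trace_mul (z w : M) :
    Algebra.trace K M (z * w) = (mt (bs.equivFun z) * mt (bs.equivFun w)).trace := by
  rw [Algebra.trace_eq_matrix_trace bs, map_mul, lmm, lmm]

/-! ### The cube -/

/-- the number `ν = 27 r ^ 2 - 4 s ^ 3` -/
def nu : K := 27 * rr ^ 2 - 4 * var 0 ^ 3

theorem K_ne (p : MvPolynomial (Fin 2) ℂ) (h : eval 0 p ≠ 0) :
    algebraMap (MvPolynomial (Fin 2) ℂ) K p ≠ 0 := by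
  intro h1
  apply h
  rw [(IsFractionRing.injective (MvPolynomial (Fin 2) ℂ) K) (h1.trans (map_zero _).symm), map_zero]

theorem nu_ne : nu ≠ 0 := by
  have h : nu = algebraMap (MvPolynomial (Fin 2) ℂ) K (27 * (1 - X 1) ^ 2 - 4 * X 0 ^ 3) := by
    simp only [nu, rr, var, map_sub, map_mul, map_pow, map_one, map_ofNat]
  rw [h]
  apply K_ne
  simp only [map_sub, map_mul, map_pow, map_one, map_ofNat, eval_X, Pi.zero_apply]
  norm_num

theorem nu4_ne : nu + 4 ≠ 0 := by
  have h : nu + 4 =
      algebraMap (MvPolynomial (Fin 2) ℂ) K (27 * (1 - X 1) ^ 2 - 4 * X 0 ^ 3 + 4) := by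
    simp only [nu, rr, var, map_add, map_sub, map_mul, map_pow, map_one, map_ofNat]
  rw [h]
  apply K_ne
  simp only [map_add, map_sub, map_mul, map_pow, map_one, map_ofNat, eval_X, Pi.zero_apply]
  norm_num

/-- The element `m = 1/(3 θ ^ 2 - s) = (4 s ^ 2 + 9 r θ - 6 s θ ^ 2)/ν`. -/
def em : M := bs.equivFun.symm ![-6 * var 0 / nu, 4 * var 0 ^ 2 / nu, 9 * rr / nu]

/-- The cube. -/
def cube : Cube K M := ⟨-1, 1, em, 0⟩

theorem em_norm : Algebra.norm K em = 1 / nu := by
  have hn := nu_ne
  rw [norm_eq, em, LinearEquiv.apply_symm_apply, det_fin_three]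
  simp only [mt, of_apply, cons_val_zero, cons_val_one, cons_val]
  field_simp
  unfold nu
  ring

theorem em_trace (z : M) : Algebra.trace K M (em * z) = bs.equivFun z 0 := by
  have hn := nu_ne
  rw [trace_mul, em, LinearEquiv.apply_symm_apply]
  obtain ⟨v, hv⟩ : ∃ v, v = bs.equivFun z := ⟨_, rfl⟩
  rw [← hv]
  simp only [mt, Matrix.trace, diag, Fin.sum_univ_three, Matrix.mul_apply, of_apply, cons_val_zero,
    cons_val_one, cons_val]
  field_simp
  unfold nu
  ring

theorem norm_zero : Algebra.norm K (0 : M) = 0 := by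
  have : FiniteDimensional K M := FiniteDimensional.of_finrank_pos (by rw [finrank_M]; norm_num)
  exact Algebra.norm_zero

theorem sh_zero : sh K (0 : M) = 0 := mul_eq_zero_of_right _ (inv_zero (G₀ := M))

theorem aff_eq (z : M) : cube.aff z = -1 + bs.equivFun z 0 + (mt (bs.equivFun z)).det := by
  unfold Cube.aff cube
  rw [em_trace, zero_mul, map_zero, norm_eq, add_zero, one_mul]

theorem D_eq : cube.D = 1 + 4 / nu := by
  unfold Cube.D cube
  simp only [mul_zero, sh_zero, map_zero, em_norm, norm_zero]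
  ring

theorem D_ne : cube.D ≠ 0 := by
  have hn := nu_ne
  rw [D_eq]
  intro h
  apply nu4_ne
  field_simp at h
  rw [h, mul_zero]

theorem h_ne : cube.h ≠ 0 := by
  have hn := nu_ne
  have h : cube.h = 4 / nu ^ 2 := by
    rw [Cube.h, D_eq]
    unfold Cube.g cube
    simp only [mul_zero, map_zero, em_norm]
    field_simp
    ring
  rw [h]
  exact div_ne_zero (by norm_num) (pow_ne_zero 2 hn)

/-- The polynomial of the net is the polynomial of the cube. -/
theorem eq_V (z : M) : eval (bs.equivFun z) (exV.fib var) = cube.aff z := by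
  rw [An.eval_fib, aff_eq]
  obtain ⟨v, hv⟩ : ∃ v, v = bs.equivFun z := ⟨_, rfl⟩
  rw [← hv, det_fin_three]
  simp [Net.fibre, Net.mat, Net.map, exV, mt, rr, mulVec, dotProduct, Fin.sum_univ_three,
    cross_apply, -mulVec_mulVec]
  ring

/-- The polynomial of the net is the polynomial of the cube. -/
def param_V : cube.Param (exV.fib var) := ⟨bs.equivFun, eq_V, D_ne, h_ne⟩

end Pool.Agent.C18.NV
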