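import Pool.Agent.G18.Defs

/-!
# G18: an explicit cubic fourfold and an explicit net

`exX`: `F = x0 (x0 x1 - x2 ^ 2) - y1 (y0 y1 - y2 ^ 2) + x0 ^ 2 y1`. `exV`: the matrix is
`[[0, 0, 1], [1 - t, 0, 0], [s, 1, 0]]`. The polynomials of the two surfaces agree up to the shear
`(v0, v1, v2) ↦ (v0, v1 - s v0, v2)`.
-/

set_option autoImplicit false

noncomputable section

namespace Pool.Agent.C18

open MvPolynomial Matrix

/-- The explicit cubic fourfold. -/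
def exX : Cub ℂ where
  A := ![!![0, 1, 0; 0, 0, 0; 0, 0, 0], !![1, 0, 0; 0, 1, 0; 0, 0, 1], !![0, 1, 0; 0, 0, 1; 1, 0, 0]]
  m := ![![1, 0, 0], ![0, 0, 0], ![0, 0, 0]]
  n := ![![0, 0, 0], ![0, 0, 0], ![0, 0, 0]]
  al := -1
  be := -1

/-- The explicit net. -/
def exV : Net ℂ where
  A := ![!![0, 0, 1; 1, 0, 0; 0, 1, 0], !![0, 0, 0; 0, 0, 0; 1, 0, 0],
    !![0, 0, 0; -1, 0, 0; 0, 0, 0]]
  a := ![![0, 0, 0], ![0, 0, 0], ![0, 0, 0]]
  a' := ![![1, 0, 0], ![0, 0, 0], ![0, 0, 0]]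

/-- The cubic polynomial `T ^ 3 - s T + (t - 1)` over `K`. -/
def exP : Polynomial K :=
  Polynomial.X ^ 3 - Polynomial.C (var 0) * Polynomial.X + Polynomial.C (var 1 - 1)

end Pool.Agent.C18
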