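import Pool.Agent.G18.Defs

/-!
# G18: a characteristic polynomial which is irreducible over `K`

For complex numbers `a i j` with `a 1 0 ≠ 0` the matrix
`M i j = a j i + s [j = 0] a 1 i - t [i = 1, j = 0]` over `K = ℂ(s, t)` has the characteristic
polynomial `χ(λ) + (t - s λ) ℓ(λ)`, where `χ` is the characteristic polynomial of `a` and
`ℓ(λ) = a 1 0 (λ - a 2 2) + a 1 2 a 2 0`. It is irreducible if `χ(λ) ≠ 0` for the zero of `ℓ`.
-/

set_option autoImplicit false

noncomputable section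

namespace Pool.Agent.G18.NV

open Pool.Agent.C18 MvPolynomial

/-- the matrix over a commutative ring -/
def mat {R : Type} [CommRing R] (a : Fin 3 → Fin 3 → R) (s t : R) : Matrix (Fin 3) (Fin 3) R :=
  Matrix.of fun i j => a j i + (if j = 0 then s * a 1 i else 0) - (if i = 1 ∧ j = 0 then t else 0)

/-- the characteristic polynomial of `a` at `x` -/
def chi {R : Type} [CommRing R] (a : Fin 3 → Fin 3 → R) (x : R) : R :=
  (Matrix.of fun i j => (if i = j then x else 0) - a i j).det

/-- the linear polynomial at `x` -/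
def ell {R : Type} [CommRing R] (a : Fin 3 → Fin 3 → R) (x : R) : R :=
  a 1 0 * (x - a 2 2) + a 1 2 * a 2 0

theorem eval_charpoly {R : Type} [CommRing R] (a : Fin 3 → Fin 3 → R) (s t x : R) :
    (mat a s t).charpoly.eval x = chi a x + (t - s * x) * ell a x := by
  have h1 : (mat a s t).charpoly.eval x = (Matrix.scalar (Fin 3) x - mat a s t).det :=
    Matrix.eval_charpoly _ _
  rw [h1]
  unfold chi ell
  rw [Matrix.det_fin_three, Matrix.det_fin_three]
  simp [mat, Matrix.of_apply]
  ring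

theorem chi_sub {R : Type} [CommRing R] (a : Fin 3 → Fin 3 → R) (x y : R) :
    ∃ q, chi a x - chi a y = (x - y) * q := by
  refine ⟨x ^ 2 + x * y + y ^ 2 - (a 0 0 + a 1 1 + a 2 2) * (x + y) +
    (a 0 0 * a 1 1 - a 0 1 * a 1 0 + a 0 0 * a 2 2 - a 0 2 * a 2 0 + a 1 1 * a 2 2 - a 1 2 * a 2 1), ?_⟩
  unfold chi
  rw [Matrix.det_fin_three, Matrix.det_fin_three]
  simp [Matrix.of_apply]
  ring

theorem ell_sub {R : Type} [CommRing R] (a : Fin 3 → Fin 3 → R) (x y : R) :
    ell a x - ell a y = a 1 0 * (x - y) := by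
  unfold ell
  ring

theorem chi_map {R R' : Type} [CommRing R] [CommRing R'] (f : R →+* R') (a : Fin 3 → Fin 3 → R)
    (x : R) : chi (fun i j => f (a i j)) (f x) = f (chi a x) := by
  unfold chi
  rw [Matrix.det_fin_three, Matrix.det_fin_three]
  simp [Matrix.of_apply]

theorem ell_map {R R' : Type} [CommRing R] [CommRing R'] (f : R →+* R') (a : Fin 3 → Fin 3 → R)
    (x : R) : ell (fun i j => f (a i j)) (f x) = f (ell a x) := by
  unfold ell
  simp

theorem mat_map {R R' : Type} [CommRing R] [CommRing R'] (f : R →+* R') (a : Fin 3 → Fin 3 → R)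
    (s t : R) : (mat a s t).map f = mat (fun i j => f (a i j)) (f s) (f t) := by
  ext i j
  simp only [mat, Matrix.map_apply, Matrix.of_apply]
  split_ifs <;> simp

/-- there is no polynomial root -/
theorem no_root (a : Fin 3 → Fin 3 → ℂ) (r : ℂ) (h1 : a 1 0 ≠ 0) (hr : ell a r = 0)
    (hchi : chi a r ≠ 0) (p : MvPolynomial (Fin 2) ℂ) :
    (mat (fun i j => C (a i j)) (X 0 : MvPolynomial (Fin 2) ℂ) (X 1)).charpoly.eval p ≠ 0 := by
  rw [eval_charpoly]
  intro h
  obtain ⟨q, hq⟩ := chi_sub (fun i j => (C (a i j) : MvPolynomial (Fin 2) ℂ)) p (C r)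
  have hl := ell_sub (fun i j => (C (a i j) : MvPolynomial (Fin 2) ℂ)) p (C r)
  rw [ell_map, hr, map_zero, sub_zero] at hl
  rw [chi_map, sub_eq_iff_eq_add] at hq
  have h2 : IsUnit (p - C r) := by
    have h3 : IsUnit (C (chi a r) : MvPolynomial (Fin 2) ℂ) := (IsUnit.mk0 _ hchi).map C
    refine isUnit_of_dvd_unit ⟨-(q + (X 1 - X 0 * p) * C (a 1 0)), ?_⟩ h3
    rw [hq, hl] at h
    linear_combination h
  obtain ⟨c, hc, hc'⟩ := isUnit_iff_eq_C_of_isReduced.1 h2
  have hp : p = C (r + c) := by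
    rw [map_add, ← hc']
    ring
  rw [hl, hp, chi_map] at h
  have e0 := congrArg (eval ![(0 : ℂ), 0]) h
  have e1 := congrArg (eval ![(0 : ℂ), 1]) h
  simp at e0 e1
  rw [e0] at e1
  have h4 : a 1 0 * c = 0 := by simpa using e1
  exact (mul_ne_zero h1 hc.ne_zero) h4

theorem irred (a : Fin 3 → Fin 3 → ℂ) (r : ℂ) (h1 : a 1 0 ≠ 0) (hr : ell a r = 0)
    (hchi : chi a r ≠ 0) :
    Irreducible (mat (fun i j => algebraMap ℂ K (a i j)) (var 0) (var 1)).charpoly := by
  have hm : (mat (fun i j => algebraMap ℂ K (a i j)) (var 0) (var 1)) =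
      (mat (fun i j => C (a i j)) (X 0 : MvPolynomial (Fin 2) ℂ) (X 1)).map
        (algebraMap (MvPolynomial (Fin 2) ℂ) K) := by
    rw [mat_map]
    rfl
  have hd : (mat (fun i j => algebraMap ℂ K (a i j)) (var 0) (var 1)).charpoly.natDegree = 3 := by
    rw [Matrix.charpoly_natDegree_eq_dim, Fintype.card_fin]
  rw [(Matrix.charpoly_monic _).irreducible_iff_roots_eq_zero_of_degree_le_three
    (by rw [hd]; norm_num) hd.le, Multiset.eq_zero_iff_forall_notMem]
  intro x hx
  have hx' := Polynomial.isRoot_of_mem_roots hx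
  rw [hm, Matrix.charpoly_map] at hx'
  have hx2 : Polynomial.aeval x
      (mat (fun i j => C (a i j)) (X 0 : MvPolynomial (Fin 2) ℂ) (X 1)).charpoly = 0 := by
    rw [Polynomial.aeval_def, ← Polynomial.eval_map]
    exact hx'
  obtain ⟨p, rfl⟩ := isInteger_of_is_root_of_monic (Matrix.charpoly_monic _) hx2
  rw [Polynomial.aeval_algebraMap_apply] at hx2
  exact no_root a r h1 hr hchi p (by
    have h2 := (FaithfulSMul.algebraMap_injective (MvPolynomial (Fin 2) ℂ) K) (hx2.trans
      (map_zero _).symm)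
    simpa [Polynomial.coe_aeval_eq_eval] using h2)

end Pool.Agent.G18.NV
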