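import Pool.Agent.G18.NVDefs

/-!
# G18: the polynomial `X ^ 3 - s X + (t - 1)` is irreducible over `K = ℂ(s, t)`
-/

set_option autoImplicit false

noncomputable section

namespace Pool.Agent.C18

open MvPolynomial

private theorem no_root3 (p : MvPolynomial (Fin 2) ℂ) : p ^ 3 - X 0 * p + (X 1 - 1) ≠ 0 := by
  intro h
  have h1 := congrArg (aeval ![(0 : Polynomial ℂ), Polynomial.X]) h
  simp only [map_add, map_sub, map_mul, map_pow, map_one, map_zero, aeval_X] at h1
  have h2 : (aeval ![(0 : Polynomial ℂ), Polynomial.X] p) ^ 3 =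
      Polynomial.C (-1 : ℂ) * Polynomial.X + Polynomial.C 1 := by
    have h3 : (![(0 : Polynomial ℂ), Polynomial.X] 0) = 0 := rfl
    have h4 : (![(0 : Polynomial ℂ), Polynomial.X] 1) = Polynomial.X := rfl
    rw [h3, h4] at h1
    rw [map_neg, map_one]
    linear_combination h1
  have h5 := congrArg Polynomial.natDegree h2
  rw [Polynomial.natDegree_pow, Polynomial.natDegree_linear (by norm_num)] at h5
  omega

theorem exP_monic : exP.Monic := by
  unfold exP
  monicity!

theorem exP_natDegree : exP.natDegree = 3 := by
  unfold exP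
  compute_degree!

/-- The polynomial over `ℂ[s, t]` -/
private def exR : Polynomial (MvPolynomial (Fin 2) ℂ) :=
  Polynomial.X ^ 3 - Polynomial.C (X 0) * Polynomial.X + Polynomial.C (X 1 - 1)

private theorem exR_monic : exR.Monic := by
  unfold exR
  monicity!

theorem exP_irr : Irreducible exP := by
  rw [exP_monic.irreducible_iff_roots_eq_zero_of_degree_le_three
    (by rw [exP_natDegree]; norm_num) exP_natDegree.le, Multiset.eq_zero_iff_forall_notMem]
  intro x hx
  have hx' : Polynomial.eval x exP = 0 := Polynomial.isRoot_of_mem_roots hx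
  have hx3 : x ^ 3 - var 0 * x + (var 1 - 1) = 0 := by
    simpa [exP] using hx'
  have hx2 : Polynomial.aeval x exR = 0 := by
    simp only [exR, map_add, map_sub, map_mul, map_pow, Polynomial.aeval_X, Polynomial.aeval_C,
      map_one]
    exact hx3
  obtain ⟨p, rfl⟩ := isInteger_of_is_root_of_monic exR_monic hx2
  refine no_root3 p ?_
  apply FaithfulSMul.algebraMap_injective (MvPolynomial (Fin 2) ℂ) K
  rw [map_add, map_sub, map_mul, map_pow, map_sub, map_one, map_zero]
  exact hx3

end Pool.Agent.C18
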