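import Pool.Agent.G18.NVDefs

/-!
# G18: the explicit cubic fourfold

`exX_nonDeg`, `exX_irr`: the cubic form of `exX` is nondegenerate and irreducible. `exX_fibre`,
`exX_fib`: the fibres of `exX` and of the net `exV` have the same equation after the linear change
of coordinates `(v0, v1 - s v0, v2)`.
-/

set_option autoImplicit false

noncomputable section

namespace Pool.Agent.C18

open MvPolynomial Matrix

theorem exX_nonDeg : exX.NonDeg where
  al := by simp [exX]
  be := by simp [exX]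
  rows := ⟨![1, 1, 0], by
    have h : (of fun k => ![1, 1, 0] ᵥ* exX.A k) = !![0, 1, 0; 1, 1, 0; 0, 1, 1] := by
      ext i j
      fin_cases i <;> fin_cases j <;> simp [exX, vecMul, dotProduct, Fin.sum_univ_three]
    rw [h, det_fin_three]
    simp⟩
  cols := ⟨![1, 1, 0], by
    have h : (of fun k => exX.A k *ᵥ ![1, 1, 0]) = !![1, 0, 0; 1, 1, 0; 1, 0, 1] := by
      ext i j
      fin_cases i <;> fin_cases j <;> simp [exX, mulVec, dotProduct, Fin.sum_univ_three]
    rw [h, det_fin_three]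
    simp⟩
  det := ⟨0, by
    rw [det_fin_three]
    simp [exX]⟩

theorem exX_F : exX.F = -(X 4 ^ 2) * X 3 +
    (X 0 ^ 2 * X 1 - X 0 * X 2 ^ 2 + X 4 * X 5 ^ 2 + X 0 ^ 2 * X 4) := by
  unfold Cub.F Cub.form
  rw [det_fin_three, det_fin_three]
  simp [exX, Cub.map, vecMul, mulVec, dotProduct, Fin.sum_univ_three]
  ring

theorem exX_irr : Irreducible exX.F := by
  rw [exX_F]
  have h4 : ¬ (X 4 : MvPolynomial (Fin 6) ℂ) ∣
      X 0 ^ 2 * X 1 - X 0 * X 2 ^ 2 + X 4 * X 5 ^ 2 + X 0 ^ 2 * X 4 := by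
    rintro ⟨q, hq⟩
    have h := congrArg (eval (![1, 1, 0, 0, 0, 0] : Fin 6 → ℂ)) hq
    simp at h
  apply irreducible_mul_X_add
  · exact neg_ne_zero.2 (pow_ne_zero 2 (X_ne_zero 4))
  · have h : -(X 4 ^ 2 : MvPolynomial (Fin 6) ℂ) ∈ supported ℂ ({3}ᶜ : Set (Fin 6)) :=
      neg_mem (pow_mem (X_mem_supported.2 (by decide)) 2)
    exact fun h3 => mem_supported.1 h h3 rfl
  · have hX : ∀ i : Fin 6, i ≠ 3 → (X i : MvPolynomial (Fin 6) ℂ) ∈
        supported ℂ ({3}ᶜ : Set (Fin 6)) := fun i hi => X_mem_supported.2 hi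
    have h0 := hX 0 (by decide)
    have h1 := hX 1 (by decide)
    have h2 := hX 2 (by decide)
    have h4' := hX 4 (by decide)
    have h5 := hX 5 (by decide)
    have h : (X 0 ^ 2 * X 1 - X 0 * X 2 ^ 2 + X 4 * X 5 ^ 2 + X 0 ^ 2 * X 4 :
        MvPolynomial (Fin 6) ℂ) ∈ supported ℂ ({3}ᶜ : Set (Fin 6)) :=
      add_mem (add_mem (sub_mem (mul_mem (pow_mem h0 2) h1) (mul_mem h0 (pow_mem h2 2)))
        (mul_mem h4' (pow_mem h5 2))) (mul_mem (pow_mem h0 2) h4')
    exact fun h3 => mem_supported.1 h h3 rfl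
  · exact (IsRelPrime.pow_left ((X_prime (i := 4)).irreducible.isRelPrime_iff_not_dvd.2 h4)).neg_left

/-- the equations of the two fibres over any commutative ring -/
theorem exX_fibre {R : Type} [CommRing R] (f : ℂ →+* R) (s t : R) (v : Fin 3 → R) :
    (exX.map f).fibre s t v = (exV.map f).fibre ![s, t] ![v 0, v 1 - s * v 0, v 2] := by
  obtain ⟨a, b, c, rfl⟩ : ∃ a b c, v = ![a, b, c] := ⟨v 0, v 1, v 2, by
    ext i
    fin_cases i <;> rfl⟩
  have hP : (exX.map f).P s t = ![!![1, -s, 0; 0, 1, 0; 0, 0, 1],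
      !![0, 1 - t, 0; 0, 0, 1; 1, 0, 0]] := by
    unfold Cub.P
    funext k
    fin_cases k <;>
    · ext i j
      fin_cases i <;> fin_cases j <;> simp [exX, Cub.map]
  have hA : (!![1, -s, 0; 0, 1, 0; 0, 0, 1] : Matrix (Fin 3) (Fin 3) R).adjugate =
      !![1, s, 0; 0, 1, 0; 0, 0, 1] := by
    rw [adjugate_fin_three]
    simp
  have hM : (exV.map f).mat ![s, t] = !![0, 0, 1; 1 - t, 0, 0; s, 1, 0] := by
    unfold Net.mat
    ext i j
    fin_cases i <;> fin_cases j <;> simp [exV, Net.map]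
    ring
  unfold Cub.fibre Cub.sh Net.fibre
  rw [hP, hM]
  simp [hA, exX, exV, Cub.map, Net.map, vecMul, dotProduct, Fin.sum_univ_three, cross_apply,
    Matrix.mul_apply]
  ring

/-- a homomorphism commutes with the polynomial of a net -/
private theorem net_map {R R' : Type} [CommRing R] [CommRing R'] (f : R →+* R') (V : Net R)
    (c : Fin 2 → R) (v : Fin 3 → R) :
    f (V.fibre c v) = (V.map f).fibre (fun i => f (c i)) fun i => f (v i) := by
  have h1 : (V.mat c).map f = (V.map f).mat fun i => f (c i) := by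
    ext i j
    simp [Net.mat, Net.map]
  simp only [Net.fibre, ← h1]
  simp [Net.map, crossProduct, dotProduct, mulVec, Fin.sum_univ_three, -mulVec_mulVec]

/-- the polynomials of the two surfaces -/
theorem exX_fib (v : Fin 3 → K) :
    eval v exX.fib = eval ![v 0, v 1 - var 0 * v 0, v 2] (exV.fib var) := by
  have h1 := exX_fibre (R := MvPolynomial (Fin 3) K) ((C : K →+* MvPolynomial (Fin 3) K).comp
    (algebraMap ℂ K)) (C (var 0)) (C (var 1)) MvPolynomial.X
  have h2 : exX.fib = (exV.map fun z => C (algebraMap ℂ K z)).fibre ![C (var 0), C (var 1)]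
      ![X 0, X 1 - C (var 0) * X 0, X 2] := h1
  have h3 : ∀ w : Fin 3 → K, ((exV.map fun z => (C (algebraMap ℂ K z) : MvPolynomial (Fin 3) K)).map
      (eval w)) = exV.map (algebraMap ℂ K) := fun w => by
    simp only [Net.map, Matrix.map_map, eval_C]
    congr 1
    funext k
    ext i j
    simp
  rw [h2, net_map, Net.fib, net_map, h3, h3]
  congr 1
  · funext i
    fin_cases i <;> simp
  · funext i
    fin_cases i <;> simp

end Pool.Agent.C18
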