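import Pool.Agent.G18.NVCube
import Pool.Agent.G18.NVX
import Pool.Agent.G18.VFour

/-!
# G18: the hypotheses hold for the explicit cubic fourfold `exX` and the explicit net `exV`
-/

set_option autoImplicit false

noncomputable section

namespace Pool.Agent.C18

open MvPolynomial Matrix Pool.Agent.G18 Pool.Agent.G18.VG

theorem exV_Dl : eval exV.coord Dl ≠ 0 := by
  rw [eval_Dl]
  have h1 : mm (fun k => exV.A k) exV.a exV.a' = ![1, -1, 1] := by
    funext k
    fin_cases k <;> simp [mm, q1, q2, cr, exV]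
  have h2 : lc (fun k => exV.A k) ![1, 0, 0] = exV.A 0 := by
    funext i j
    simp [lc]
  have h3 : nf (fun k => exV.A k) ![1, 0, 0] ![1, 0, 0] = 1 := by
    unfold nf vw
    rw [h2]
    simp [cr, mv, dt, exV]
  have h4 : lc (fun k => exV.A k) ![1, -1, 1] 2 0 = -1 := by
    simp [lc, exV]
  unfold dl
  rw [h1, h3, h4]
  norm_num

/-- the variables generate `K` -/
theorem adjoin_var : IntermediateField.adjoin ℂ (Set.range var) = ⊤ := by
  rw [eq_top_iff]
  intro k _
  have hP : ∀ P : MvPolynomial (Fin 2) ℂ,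
      algebraMap (MvPolynomial (Fin 2) ℂ) K P ∈ IntermediateField.adjoin ℂ (Set.range var) := by
    intro P
    induction P using MvPolynomial.induction_on with
    | C a =>
      have h1 : algebraMap (MvPolynomial (Fin 2) ℂ) K (C a) = algebraMap ℂ K a := by
        rw [IsScalarTower.algebraMap_apply ℂ (MvPolynomial (Fin 2) ℂ) K]
        rfl
      rw [h1]
      exact IntermediateField.algebraMap_mem _ a
    | add p q hp hq =>
      rw [map_add]
      exact add_mem hp hq
    | mul_X p i hp =>
      rw [map_mul]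
      exact mul_mem hp (IntermediateField.subset_adjoin _ _ ⟨i, rfl⟩)
  obtain ⟨p, q, _, rfl⟩ := IsFractionRing.div_surjective (A := MvPolynomial (Fin 2) ℂ) k
  exact div_mem (hP p) (hP q)

/-- The shear `(v0, v1, v2) ↦ (v0, v1 - s v0, v2)`. -/
def shear : (Fin 3 → K) ≃ₗ[K] (Fin 3 → K) where
  toFun v := ![v 0, v 1 - var 0 * v 0, v 2]
  invFun v := ![v 0, v 1 + var 0 * v 0, v 2]
  map_add' v w := by
    funext i
    fin_cases i
    · rfl
    · change v 1 + w 1 - var 0 * (v 0 + w 0) = (v 1 - var 0 * v 0) + (w 1 - var 0 * w 0)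
      ring
    · rfl
  map_smul' a v := by
    funext i
    fin_cases i
    · rfl
    · change a * v 1 - var 0 * (a * v 0) = a * (v 1 - var 0 * v 0)
      ring
    · rfl
  left_inv v := by
    funext i
    fin_cases i
    · rfl
    · change v 1 - var 0 * v 0 + var 0 * v 0 = v 1
      ring
    · rfl
  right_inv v := by
    funext i
    fin_cases i
    · rfl
    · change v 1 + var 0 * v 0 - var 0 * v 0 = v 1
      ring
    · rfl

theorem exX_param : Nonempty (NV.cube.Param exX.fib) :=
  ⟨⟨NV.bs.equivFun.trans shear.symm, fun z => by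
    have h := exX_fib (shear.symm (NV.bs.equivFun z))
    have h1 : ![shear.symm (NV.bs.equivFun z) 0,
        shear.symm (NV.bs.equivFun z) 1 - var 0 * shear.symm (NV.bs.equivFun z) 0,
        shear.symm (NV.bs.equivFun z) 2] = NV.bs.equivFun z :=
      shear.apply_symm_apply (NV.bs.equivFun z)
    rw [h1, NV.eq_V] at h
    exact h, NV.D_ne, NV.h_ne⟩⟩

/-- **The hypotheses of the theorem hold for `exX` and `exV`.** -/
theorem nonvac : ∃ (X : Cub ℂ) (V : Net ℂ) (c : Fin 2 → K), X.NonDeg ∧ Irreducible X.F ∧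
    eval V.coord G18.Dl ≠ 0 ∧ IntermediateField.adjoin ℂ (Set.range c) = ⊤ ∧
    SameTwist X.fib (V.fib c) :=
  ⟨exX, exV, var, exX_nonDeg, exX_irr, exV_Dl, adjoin_var, NV.M, inferInstance, inferInstance, NV.M,
    inferInstance, inferInstance, NV.finrank_M, NV.finrank_M, NV.cube, NV.cube, exX_param,
    ⟨NV.param_V⟩, LinearEquiv.refl K _, 1, one_ne_zero, fun w => by
      rw [one_mul, LinearEquiv.refl_apply]⟩

end Pool.Agent.C18
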