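import Pool.Agent.G18.LinA

/-!
# G18: split cubic algebras with rational structures, interface for the link
-/

set_option autoImplicit false

noncomputable section

namespace Pool.Agent.G18

open Matrix

/-- A cubic algebra which is split over `E`, with a rational structure for every intermediate field
`T` of `Ω / K`. -/
structure RS (K Ω E : Type) [Field K] [Field Ω] [Field E] [Algebra K Ω] [Algebra Ω E] where
  /-- a basis -/
  b : Fin 3 → Fin 3 → E
  /-- the rational elements -/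
  R : IntermediateField K Ω → Set (Fin 3 → E)
  mem : ∀ T a, a ∈ R T ↔ ∃ c : Fin 3 → Ω, In3 T c ∧
    a = fun i => algebraMap Ω E (c 0) * b 0 i + algebraMap Ω E (c 1) * b 1 i +
      algebraMap Ω E (c 2) * b 2 i
  mul : ∀ {T a a'}, a ∈ R T → a' ∈ R T → a * a' ∈ R T
  one : ∀ T, (1 : Fin 3 → E) ∈ R T
  inv : ∀ {T a}, a ∈ R T → (∀ i, a i ≠ 0) → a⁻¹ ∈ R T
  sum : ∀ {T a}, a ∈ R T → ∃ s ∈ T, a 0 + a 1 + a 2 = algebraMap Ω E s
  prod : ∀ {T a}, a ∈ R T → ∃ s ∈ T, a 0 * a 1 * a 2 = algebraMap Ω E s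
  sh : ∀ {T a}, a ∈ R T → ![a 1 * a 2, a 2 * a 0, a 0 * a 1] ∈ R T
  nd : ∀ a : Fin 3 → E, (∀ j, dt3 a (b j) = 0) → a = 0
  fld : ∀ a ∈ R ⊤, a ≠ 0 → ∀ i, a i ≠ 0

namespace RS

variable {K Ω E : Type} [Field K] [Field Ω] [Field E] [Algebra K Ω] [Algebra Ω E]
  (S : RS K Ω E)

theorem mono {T T' : IntermediateField K Ω} (h : T ≤ T') {a : Fin 3 → E} (ha : a ∈ S.R T) :
    a ∈ S.R T' := by
  obtain ⟨c, hc, he⟩ := (S.mem T a).1 ha
  exact (S.mem T' a).2 ⟨c, fun i => h (hc i), he⟩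

theorem add {T : IntermediateField K Ω} {a a' : Fin 3 → E} (ha : a ∈ S.R T) (ha' : a' ∈ S.R T) :
    a + a' ∈ S.R T := by
  obtain ⟨c, hc, he⟩ := (S.mem T a).1 ha
  obtain ⟨c', hc', he'⟩ := (S.mem T a').1 ha'
  refine (S.mem T _).2 ⟨c + c', fun i => T.add_mem (hc i) (hc' i), ?_⟩
  funext i
  rw [he, he']
  simp only [Pi.add_apply, map_add]
  ring

theorem smul {T : IntermediateField K Ω} {a : Fin 3 → E} (ha : a ∈ S.R T) {s : Ω} (hs : s ∈ T) :
    algebraMap Ω E s • a ∈ S.R T := by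
  obtain ⟨c, hc, he⟩ := (S.mem T a).1 ha
  refine (S.mem T _).2 ⟨s • c, fun i => T.mul_mem hs (hc i), ?_⟩
  funext i
  rw [he]
  simp only [Pi.smul_apply, map_mul, smul_eq_mul]
  ring

theorem neg {T : IntermediateField K Ω} {a : Fin 3 → E} (ha : a ∈ S.R T) : -a ∈ S.R T := by
  have h := S.smul ha (T.neg_mem T.one_mem)
  rwa [map_neg, map_one, neg_one_smul] at h

theorem sub {T : IntermediateField K Ω} {a a' : Fin 3 → E} (ha : a ∈ S.R T) (ha' : a' ∈ S.R T) :
    a - a' ∈ S.R T := by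
  rw [sub_eq_add_neg]
  exact S.add ha (S.neg ha')

theorem zero (T : IntermediateField K Ω) : (0 : Fin 3 → E) ∈ S.R T := by
  have h := S.smul (S.one T) T.zero_mem
  rwa [map_zero, zero_smul] at h

theorem const {T : IntermediateField K Ω} {s : Ω} (hs : s ∈ T) :
    (fun _ => algebraMap Ω E s : Fin 3 → E) ∈ S.R T := by
  have h := S.smul (S.one T) hs
  convert h using 1
  funext i
  simp

theorem nsmul {T : IntermediateField K Ω} {a : Fin 3 → E} (ha : a ∈ S.R T) (n : ℕ) :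
    (n : E) • a ∈ S.R T := by
  have h := S.smul ha (T.natCast_mem n)
  rwa [map_natCast] at h

theorem b_mem (T : IntermediateField K Ω) (j : Fin 3) : S.b j ∈ S.R T := by
  refine (S.mem T _).2 ⟨fun k => if k = j then 1 else 0, fun k => ?_, ?_⟩
  · show (if k = j then (1 : Ω) else 0) ∈ T
    split_ifs
    · exact T.one_mem
    · exact T.zero_mem
  · funext i
    fin_cases j <;> simp

theorem inv' {a : Fin 3 → E} {T : IntermediateField K Ω} (ha : a ∈ S.R T) (h : a ≠ 0) :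
    a⁻¹ ∈ S.R T := S.inv ha (S.fld a (S.mono le_top ha) h)

theorem dt {T : IntermediateField K Ω} {a a' : Fin 3 → E} (ha : a ∈ S.R T) (ha' : a' ∈ S.R T) :
    ∃ s ∈ T, dt3 a a' = algebraMap Ω E s := by
  obtain ⟨s, hs, h⟩ := S.sum (S.mul ha ha')
  exact ⟨s, hs, h⟩

/-- the covector of an element -/
theorem covec {T : IntermediateField K Ω} {a : Fin 3 → E} (ha : a ∈ S.R T) :
    ∃ t : Fin 3 → Ω, In3 T t ∧ (∀ j, dt3 a (S.b j) = algebraMap Ω E (t j)) ∧
      (t = 0 → a = 0) ∧ ∀ (c : Fin 3 → Ω) (z : Fin 3 → E),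
        (z = fun i => algebraMap Ω E (c 0) * S.b 0 i + algebraMap Ω E (c 1) * S.b 1 i +
          algebraMap Ω E (c 2) * S.b 2 i) → dt3 a z = algebraMap Ω E (dt3 t c) := by
  choose t ht h using fun j => S.dt ha (S.b_mem T j)
  refine ⟨t, ht, h, fun h0 => S.nd a fun j => ?_, fun c z hz => ?_⟩
  · rw [h j, h0]
    simp
  · have h0 := h 0
    have h1 := h 1
    have h2 := h 2
    rw [hz]
    simp only [dt3, map_add, map_mul] at h0 h1 h2 ⊢
    linear_combination algebraMap Ω E (c 0) * h0 + algebraMap Ω E (c 1) * h1 +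
      algebraMap Ω E (c 2) * h2

theorem det_ne : (Matrix.of S.b).det ≠ 0 := by
  intro h
  obtain ⟨a, ha, he⟩ := Matrix.exists_mulVec_eq_zero_iff.2 h
  apply ha
  refine S.nd a fun j => ?_
  have := congrFun he j
  simp only [Matrix.mulVec, dotProduct, Fin.sum_univ_three, Matrix.of_apply,
    Pi.zero_apply] at this
  simp only [dt3]
  linear_combination this

/-- the coordinates are unique -/
theorem coord_zero {c : Fin 3 → Ω}
    (h : (fun i => algebraMap Ω E (c 0) * S.b 0 i + algebraMap Ω E (c 1) * S.b 1 i +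
      algebraMap Ω E (c 2) * S.b 2 i) = 0) : c = 0 := by
  have hli : LinearIndependent E S.b :=
    Matrix.linearIndependent_rows_of_det_ne_zero (A := Matrix.of S.b) S.det_ne
  have h2 := Fintype.linearIndependent_iff.1 hli (fun j => algebraMap Ω E (c j)) (by
    rw [Fin.sum_univ_three]
    funext i
    have := congrFun h i
    simpa only [Pi.add_apply, Pi.smul_apply, smul_eq_mul, Pi.zero_apply] using this)
  funext j
  exact (map_eq_zero _).1 (h2 j)

/-- two linear equations have a common zero -/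
theorem exists_zero {a a' : Fin 3 → E} (ha : a ∈ S.R ⊤) (ha' : a' ∈ S.R ⊤) :
    ∃ q ∈ S.R ⊤, q ≠ 0 ∧ dt3 a q = 0 ∧ dt3 a' q = 0 := by
  obtain ⟨t, ht, h, h0, hc⟩ := S.covec ha
  obtain ⟨t', ht', h', h0', hc'⟩ := S.covec ha'
  obtain ⟨c, hc0, hce⟩ : ∃ c : Fin 3 → Ω, c ≠ 0 ∧ dt3 t c = 0 ∧ dt3 t' c = 0 := by
    have := Matrix.exists_mulVec_eq_zero_iff (M := Matrix.of ![t, t', 0]) |>.2 (by
      rw [Matrix.det_fin_three]
      simp)
    obtain ⟨c, hc, he⟩ := this
    refine ⟨c, hc, ?_, ?_⟩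
    · have := congrFun he 0
      simpa [Matrix.mulVec, dotProduct, Fin.sum_univ_three, dt3] using this
    · have := congrFun he 1
      simpa [Matrix.mulVec, dotProduct, Fin.sum_univ_three, dt3] using this
  refine ⟨_, (S.mem ⊤ _).2 ⟨c, fun _ => IntermediateField.mem_top, rfl⟩, fun hz => ?_, ?_, ?_⟩
  · exact hc0 (S.coord_zero hz)
  · rw [hc c _ rfl, hce.1, map_zero]
  · rw [hc' c _ rfl, hce.2, map_zero]

end RS

end Pool.Agent.G18
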