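import Mathlib

/-!
# G18: elements algebraic over the base field in the function field of a hypersurface

`relcl`: let `G` be a polynomial over `K` which is prime over an algebraically closed extension
`F` of `K`. In the field `Ω` generated over `K` by a generic zero `v` of `G` every element algebraic
over `K` lies in `K`.
-/

set_option autoImplicit false

open MvPolynomial

namespace Pool.Agent.G18

variable {K F : Type} [Field K] [Field F] [Algebra K F] {σ : Type}

/-- A linear functional, applied to the coefficients, preserves divisibility by a polynomial over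
the base field. -/
theorem dvd_of_lin (l : F →ₗ[K] K) {G Q : MvPolynomial σ K} {p : MvPolynomial σ F}
    (hd : map (algebraMap K F) G ∣ p) (hQ : ∀ m, coeff m Q = l (coeff m p)) : G ∣ Q := by
  classical
  obtain ⟨h, rfl⟩ := hd
  have hh : ∀ m, coeff m (∑ d ∈ h.support, monomial d (l (coeff d h))) = l (coeff m h) := by
    intro m
    rw [coeff_sum]
    simp only [coeff_monomial]
    rw [Finset.sum_ite_eq']
    split_ifs with hm
    · rfl
    · rw [notMem_support_iff.1 hm, map_zero]
  refine ⟨∑ d ∈ h.support, monomial d (l (coeff d h)), ?_⟩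
  ext m
  rw [hQ, coeff_mul, coeff_mul, map_sum]
  refine Finset.sum_congr rfl fun x _ => ?_
  rw [hh, coeff_map, ← Algebra.smul_def, map_smul, smul_eq_mul]

theorem dvd_of_map {G Q : MvPolynomial σ K}
    (hd : map (algebraMap K F) G ∣ map (algebraMap K F) Q) : G ∣ Q := by
  obtain ⟨l, hl⟩ : ∃ l : F →ₗ[K] K, l 1 = 1 := by
    obtain ⟨l, hl⟩ := LinearMap.exists_leftInverse_of_injective (Algebra.linearMap K F)
      (LinearMap.ker_eq_bot.2 (algebraMap K F).injective)
    refine ⟨l, ?_⟩
    have := LinearMap.congr_fun hl 1
    simpa using this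
  refine dvd_of_lin l hd fun m => ?_
  rw [coeff_map, Algebra.algebraMap_eq_smul_one, map_smul, hl, smul_eq_mul, mul_one]

/-- a prime which divides a homogenised split polynomial -/
theorem exists_dvd {R : Type} [CommRing R] [IsDomain R] [Algebra F R] {π a b : R} (hπ : Prime π)
    (s : Multiset F) (h : π ∣ (Polynomial.scaleRoots
      ((s.map fun r => Polynomial.X - Polynomial.C (algebraMap F R r)).prod) b).eval a) :
    ∃ r : F, π ∣ a - algebraMap F R r * b := by
  induction s using Multiset.induction with
  | empty =>
    rw [Multiset.map_zero, Multiset.prod_zero, Polynomial.one_scaleRoots, Polynomial.eval_one] at h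
    exact absurd (isUnit_of_dvd_one h) hπ.not_isUnit
  | cons r s ih =>
    rw [Multiset.map_cons, Multiset.prod_cons, Polynomial.mul_scaleRoots_of_noZeroDivisors,
      Polynomial.eval_mul, Polynomial.X_sub_C_scaleRoots] at h
    rcases hπ.dvd_or_dvd h with h | h
    · refine ⟨r, ?_⟩
      rw [Polynomial.eval_sub, Polynomial.eval_X, Polynomial.eval_C] at h
      exact h
    · exact ih h

/-- **The base field is algebraically closed in the function field of a hypersurface which is
irreducible over an algebraically closed field.** -/
theorem relcl [IsAlgClosed F] {Ω : Type} [Field Ω] [Algebra K Ω] {v : σ → Ω}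
    (hv : IntermediateField.adjoin K (Set.range v) = ⊤) {G : MvPolynomial σ K}
    (hG : ∀ P : MvPolynomial σ K, aeval v P = 0 ↔ G ∣ P)
    (hp : Prime (map (algebraMap K F) G)) (ρ : Ω) (hρ : IsIntegral K ρ) :
    ∃ k : K, algebraMap K Ω k = ρ := by
  have h0 : ρ ∈ IntermediateField.adjoin K (Set.range v) := by
    rw [hv]
    exact IntermediateField.mem_top
  rw [IntermediateField.mem_adjoin_range_iff] at h0
  obtain ⟨a, b, hab⟩ := h0
  by_cases hb : aeval v b = 0
  · rw [hb, div_zero] at hab
    exact ⟨0, by rw [map_zero, hab]⟩
  have hab' : ρ * aeval v b = aeval v a := by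
    rw [hab]
    field_simp
  -- the homogenised minimal polynomial
  have hm : (minpoly K ρ).Monic := minpoly.monic hρ
  have h1 : G ∣ Polynomial.eval a
      (Polynomial.scaleRoots ((minpoly K ρ).map (C : K →+* MvPolynomial σ K)) b) := by
    rw [← hG]
    change (aeval v : MvPolynomial σ K →ₐ[K] Ω).toRingHom _ = 0
    rw [← Polynomial.eval_map_apply, Polynomial.map_scaleRoots, Polynomial.map_map]
    · have h3 : ((aeval v : MvPolynomial σ K →ₐ[K] Ω).toRingHom).comp C = algebraMap K Ω := by
        ext x
        exact aeval_C v x
      rw [h3]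
      change Polynomial.eval (aeval v a) (Polynomial.scaleRoots _ (aeval v b)) = 0
      rw [← hab', mul_comm, Polynomial.scaleRoots_eval_mul, Polynomial.eval_map_algebraMap,
        minpoly.aeval, mul_zero]
    · rw [(hm.map _).leadingCoeff, map_one]
      exact one_ne_zero
  have h2 : ∃ r : F, map (algebraMap K F) G ∣
      map (algebraMap K F) a - algebraMap F (MvPolynomial σ F) r * map (algebraMap K F) b := by
    refine exists_dvd hp ((minpoly K ρ).map (algebraMap K F)).roots ?_
    have h3 := map_dvd (map (algebraMap K F)) h1
    rw [← Polynomial.eval_map_apply, Polynomial.map_scaleRoots, Polynomial.map_map] at h3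
    · have h4 : ((map (algebraMap K F) : MvPolynomial σ K →+* MvPolynomial σ F)).comp C =
          (algebraMap F (MvPolynomial σ F)).comp (algebraMap K F) := by
        ext x
        simp [MvPolynomial.algebraMap_eq]
      rw [h4, ← Polynomial.map_map] at h3
      have h5 := (IsAlgClosed.splits ((minpoly K ρ).map (algebraMap K F))).eq_prod_roots_of_monic
        (hm.map _)
      rw [h5, Polynomial.map_multiset_prod, Multiset.map_map] at h3
      have h6 : (Polynomial.map (algebraMap F (MvPolynomial σ F)) ∘ fun x : F =>
          Polynomial.X - Polynomial.C x) = fun r => Polynomial.X -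
          Polynomial.C (algebraMap F (MvPolynomial σ F) r) := by
        funext r
        simp
      rw [h6] at h3
      exact h3
    · rw [(hm.map _).leadingCoeff, map_one]
      exact one_ne_zero
  obtain ⟨r, hr⟩ := h2
  by_cases hk : r ∈ Submodule.span K {(1 : F)}
  · obtain ⟨k, rfl⟩ := Submodule.mem_span_singleton.1 hk
    refine ⟨k, ?_⟩
    have h3 : G ∣ a - C k * b := by
      refine dvd_of_map (F := F) ?_
      rw [map_sub, map_mul, map_C]
      rwa [← Algebra.algebraMap_eq_smul_one, MvPolynomial.algebraMap_eq] at hr
    rw [← hG, map_sub, map_mul, aeval_C, ← hab', ← sub_mul] at h3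
    have h4 := (mul_eq_zero.1 h3).resolve_right hb
    exact (sub_eq_zero.1 h4).symm
  · exfalso
    obtain ⟨l, hl, hl'⟩ := Submodule.exists_le_ker_of_notMem hk
    have hl1 : l 1 = 0 := hl' (Submodule.mem_span_singleton_self _)
    have h3 : G ∣ C (-l r) * b := by
      refine dvd_of_lin l hr fun m => ?_
      rw [coeff_C_mul, coeff_sub, MvPolynomial.algebraMap_eq, coeff_C_mul, coeff_map, coeff_map,
        map_sub, Algebra.algebraMap_eq_smul_one, map_smul, hl1, smul_zero, zero_sub]
      rw [mul_comm r, ← Algebra.smul_def, map_smul, smul_eq_mul]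
      ring
    rw [← hG, map_mul, aeval_C] at h3
    rcases mul_eq_zero.1 h3 with h4 | h4
    · rw [map_eq_zero, neg_eq_zero] at h4
      exact hl h4
    · exact hb h4

end Pool.Agent.G18
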