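import Mathlib

/-!
# G18: the fourfold of a net in `g_2` is rational (generators)

Three `3 × 3` matrices `A_k`, vectors `a_k`, `b_k`. For `μ` put `M = Σ μ_k A_k`, `w = v × M v` and
`V(μ, v) = w · M² v + Σ μ_k (a_k · w + b_k · v) - 1`.

`r1 k = w · A_k v` and `r2 k` (the numbers `(v × e_1) · A_k v / w_1 + w · A_k (w × e_0) / v_0 +
a_k · w + b_k · v`, times `v_0 w_1`) satisfy `r1 · μ = 0` and `r2 · μ = v_0 w_1 V(μ, v)`. So on
`V = 0` the parameter `μ` is a rational function of the point `(v : w)` of the quadric `v · w = 0`.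
-/

set_option autoImplicit false

noncomputable section

namespace Pool.Agent.G18.VG

open Matrix

section

variable {R : Type} [CommRing R]

/-- The scalar product of two vectors of length three. -/
def dt (x y : Fin 3 → R) : R := x 0 * y 0 + x 1 * y 1 + x 2 * y 2

/-- The cross product. -/
def cr (x y : Fin 3 → R) : Fin 3 → R :=
  ![x 1 * y 2 - x 2 * y 1, x 2 * y 0 - x 0 * y 2, x 0 * y 1 - x 1 * y 0]

/-- The product of a matrix and a vector. -/
def mv (M : Fin 3 → Fin 3 → R) (v : Fin 3 → R) : Fin 3 → R := fun i => dt (M i) v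

/-- The matrix `Σ μ_k A_k`. -/
def lc (A : Fin 3 → Fin 3 → Fin 3 → R) (μ : Fin 3 → R) : Fin 3 → Fin 3 → R := fun i j =>
  μ 0 * A 0 i j + μ 1 * A 1 i j + μ 2 * A 2 i j

/-- The vector `w = v × M v`. -/
def vw (A : Fin 3 → Fin 3 → Fin 3 → R) (μ v : Fin 3 → R) : Fin 3 → R := cr v (mv (lc A μ) v)

/-- The equation `V(μ, v)` of the fibres. -/
def vf (A : Fin 3 → Fin 3 → Fin 3 → R) (a b : Fin 3 → Fin 3 → R) (μ v : Fin 3 → R) : R :=
  dt (vw A μ v) (mv (lc A μ) (mv (lc A μ) v)) +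
    (μ 0 * (dt (a 0) (vw A μ v) + dt (b 0) v) + μ 1 * (dt (a 1) (vw A μ v) + dt (b 1) v) +
      μ 2 * (dt (a 2) (vw A μ v) + dt (b 2) v)) - 1

/-- The first linear equation for `μ`, for the point `(v : w)` of the quadric. -/
def r1 (A : Fin 3 → Fin 3 → Fin 3 → R) (v w : Fin 3 → R) (k : Fin 3) : R := dt w (mv (A k) v)

/-- The second linear equation for `μ`, for the point `(v : w)` of the quadric. -/
def r2 (A : Fin 3 → Fin 3 → Fin 3 → R) (a b : Fin 3 → Fin 3 → R) (v w : Fin 3 → R) (k : Fin 3) :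
    R :=
  v 0 * dt ![-v 2, 0, v 0] (mv (A k) v) + w 1 * dt w (mv (A k) ![0, w 2, -w 1]) +
    v 0 * w 1 * (dt (a k) w + dt (b k) v)

theorem dt_cr_self (v x : Fin 3 → R) : dt (cr v x) x = 0 := by
  simp only [dt, cr, cons_val_zero, cons_val_one, cons_val]
  ring

theorem dt_cr_self' (v x : Fin 3 → R) : dt (cr v x) v = 0 := by
  simp only [dt, cr, cons_val_zero, cons_val_one, cons_val]
  ring

/-- linearity in the matrix -/
theorem dt_lc (A : Fin 3 → Fin 3 → Fin 3 → R) (μ x y : Fin 3 → R) :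
    μ 0 * dt x (mv (A 0) y) + μ 1 * dt x (mv (A 1) y) + μ 2 * dt x (mv (A 2) y) =
      dt x (mv (lc A μ) y) := by
  simp only [dt, mv, lc]
  ring

theorem dt_mv_lin (w : Fin 3 → R) (M : Fin 3 → Fin 3 → R) (s t : R) (x y : Fin 3 → R) :
    dt w (mv M fun i => s * x i - t * y i) = s * dt w (mv M x) - t * dt w (mv M y) := by
  simp only [dt, mv]
  ring

theorem r1_mu (A : Fin 3 → Fin 3 → Fin 3 → R) (μ v : Fin 3 → R) :
    dt μ (r1 A v (vw A μ v)) = 0 := by
  have h := dt_lc A μ (vw A μ v) v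
  unfold r1
  have h2 : dt (vw A μ v) (mv (lc A μ) v) = 0 := dt_cr_self _ _
  rw [h2] at h
  simpa only [dt] using h

theorem r2_mu (A : Fin 3 → Fin 3 → Fin 3 → R) (a b : Fin 3 → Fin 3 → R) (μ v : Fin 3 → R) :
    dt μ (r2 A a b v (vw A μ v)) = v 0 * vw A μ v 1 * vf A a b μ v := by
  have h1 := dt_lc A μ ![-v 2, 0, v 0] v
  have h2 := dt_lc A μ (vw A μ v) ![0, vw A μ v 2, -vw A μ v 1]
  -- `(v × e_1) · M v = - w_1`
  have h3 : dt ![-v 2, 0, v 0] (mv (lc A μ) v) = -vw A μ v 1 := by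
    unfold vw
    generalize mv (lc A μ) v = x
    simp [cr, dt]
    ring
  -- `w · M (w × e_0) = v_0 w · M² v`
  have h4 : dt (vw A μ v) (mv (lc A μ) ![0, vw A μ v 2, -vw A μ v 1]) =
      v 0 * dt (vw A μ v) (mv (lc A μ) (mv (lc A μ) v)) := by
    have h5 : (![0, vw A μ v 2, -vw A μ v 1] : Fin 3 → R) = fun i =>
        v 0 * mv (lc A μ) v i - mv (lc A μ) v 0 * v i := by
      funext i
      fin_cases i
      · simp
        ring
      · simp [vw, cr]
        ring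
      · simp [vw, cr]
        ring
    have h6 : dt (vw A μ v) (mv (lc A μ) v) = 0 := dt_cr_self _ _
    rw [h5]
    rw [dt_mv_lin, h6]
    ring
  unfold vf
  generalize dt (vw A μ v) (mv (lc A μ) (mv (lc A μ) v)) = N at h4 ⊢
  generalize hw : vw A μ v = w at h1 h2 h3 h4 ⊢
  have e1 := h1.trans h3
  have e2 := h2.trans h4
  have e3 : dt μ (r2 A a b v w) =
      v 0 * (μ 0 * dt ![-v 2, 0, v 0] (mv (A 0) v) + μ 1 * dt ![-v 2, 0, v 0] (mv (A 1) v) +
        μ 2 * dt ![-v 2, 0, v 0] (mv (A 2) v)) +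
      w 1 * (μ 0 * dt w (mv (A 0) ![0, w 2, -w 1]) + μ 1 * dt w (mv (A 1) ![0, w 2, -w 1]) +
        μ 2 * dt w (mv (A 2) ![0, w 2, -w 1])) +
      v 0 * w 1 * (μ 0 * (dt (a 0) w + dt (b 0) v) + μ 1 * (dt (a 1) w + dt (b 1) v) +
        μ 2 * (dt (a 2) w + dt (b 2) v)) := by
    have : ∀ x : Fin 3 → R, dt μ x = μ 0 * x 0 + μ 1 * x 1 + μ 2 * x 2 := fun x => rfl
    rw [this]
    unfold r2
    ring
  rw [e3, e1, e2]
  ring

/-- a vector orthogonal to two vectors is proportional to their cross product -/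
theorem cr_prop {x y μ : Fin 3 → R} (hx : dt μ x = 0) (hy : dt μ y = 0) (k : Fin 3) :
    cr x y k * μ 0 = cr x y 0 * μ k := by
  simp only [dt] at hx hy
  fin_cases k
  · simp [cr]
  · simp [cr]
    linear_combination x 2 * hy - y 2 * hx
  · simp [cr]
    linear_combination y 1 * hx - x 1 * hy

/-! ### Homogeneity -/

theorem dt_smul (s t : R) (x y : Fin 3 → R) :
    dt (fun i => s * x i) (fun i => t * y i) = s * t * dt x y := by
  simp only [dt]
  ring

theorem mv_smul (M : Fin 3 → Fin 3 → R) (s : R) (v : Fin 3 → R) :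
    mv M (fun i => s * v i) = fun i => s * mv M v i := by
  funext i
  simp only [mv, dt]
  ring

theorem r1_smul (A : Fin 3 → Fin 3 → Fin 3 → R) (s : R) (v w : Fin 3 → R) (k : Fin 3) :
    r1 A (fun i => s * v i) (fun i => s * w i) k = s ^ 2 * r1 A v w k := by
  unfold r1
  rw [mv_smul, dt_smul]
  ring

theorem r2_smul (A : Fin 3 → Fin 3 → Fin 3 → R) (a b : Fin 3 → Fin 3 → R) (s : R)
    (v w : Fin 3 → R) (k : Fin 3) :
    r2 A a b (fun i => s * v i) (fun i => s * w i) k = s ^ 3 * r2 A a b v w k := by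
  unfold r2
  rw [mv_smul]
  have h1 : (![-(s * v 2), 0, s * v 0] : Fin 3 → R) = fun i => s * ![-v 2, 0, v 0] i := by
    funext i
    fin_cases i <;> simp
  have h2 : (![0, s * w 2, -(s * w 1)] : Fin 3 → R) = fun i => s * ![0, w 2, -w 1] i := by
    funext i
    fin_cases i <;> simp
  rw [h1, h2, mv_smul, dt_smul, dt_smul]
  have h3 : dt (a k) (fun i => s * w i) = s * dt (a k) w := by
    simp only [dt]
    ring
  have h4 : dt (b k) (fun i => s * v i) = s * dt (b k) v := by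
    simp only [dt]
    ring
  rw [h3, h4]
  ring

theorem cr_smul (s t : R) (x y : Fin 3 → R) (k : Fin 3) :
    cr (fun i => s * x i) (fun i => t * y i) k = s * t * cr x y k := by
  fin_cases k <;> simp [cr] <;> ring

end

/-! ### Ring homomorphisms -/

section

variable {R S : Type} [CommRing R] [CommRing S] (f : R →+* S)

theorem map_dt (x y : Fin 3 → R) : f (dt x y) = dt (fun i => f (x i)) fun i => f (y i) := by
  simp [dt]

theorem map_mv (M : Fin 3 → Fin 3 → R) (v : Fin 3 → R) (i : Fin 3) :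
    f (mv M v i) = mv (fun i j => f (M i j)) (fun i => f (v i)) i := by
  simp [mv, dt]

theorem map_lc (A : Fin 3 → Fin 3 → Fin 3 → R) (μ : Fin 3 → R) (i j : Fin 3) :
    f (lc A μ i j) = lc (fun k i j => f (A k i j)) (fun k => f (μ k)) i j := by
  simp [lc]

theorem map_cr (x y : Fin 3 → R) (i : Fin 3) :
    f (cr x y i) = cr (fun i => f (x i)) (fun i => f (y i)) i := by
  fin_cases i <;> simp [cr]

theorem map_vw (A : Fin 3 → Fin 3 → Fin 3 → R) (μ v : Fin 3 → R) (i : Fin 3) :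
    f (vw A μ v i) = vw (fun k i j => f (A k i j)) (fun k => f (μ k)) (fun k => f (v k)) i := by
  simp only [vw, map_cr, map_mv, map_lc]

theorem map_vf (A : Fin 3 → Fin 3 → Fin 3 → R) (a b : Fin 3 → Fin 3 → R) (μ v : Fin 3 → R) :
    f (vf A a b μ v) = vf (fun k i j => f (A k i j)) (fun k i => f (a k i)) (fun k i => f (b k i))
      (fun k => f (μ k)) fun k => f (v k) := by
  simp only [vf, map_sub, map_add, map_mul, map_one, map_dt, map_mv, map_vw, map_lc]

theorem map_r1 (A : Fin 3 → Fin 3 → Fin 3 → R) (v w : Fin 3 → R) (k : Fin 3) :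
    f (r1 A v w k) = r1 (fun k i j => f (A k i j)) (fun i => f (v i)) (fun i => f (w i)) k := by
  simp only [r1, map_dt, map_mv]

theorem map_r2 (A : Fin 3 → Fin 3 → Fin 3 → R) (a b : Fin 3 → Fin 3 → R) (v w : Fin 3 → R)
    (k : Fin 3) :
    f (r2 A a b v w k) = r2 (fun k i j => f (A k i j)) (fun k i => f (a k i))
      (fun k i => f (b k i)) (fun i => f (v i)) (fun i => f (w i)) k := by
  have h1 : (fun i => f ((![-v 2, 0, v 0] : Fin 3 → R) i)) = ![-f (v 2), 0, f (v 0)] := by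
    funext i
    fin_cases i <;> simp
  have h2 : (fun i => f ((![0, w 2, -w 1] : Fin 3 → R) i)) = ![0, f (w 2), -f (w 1)] := by
    funext i
    fin_cases i <;> simp
  simp only [r2, map_add, map_mul, map_dt, map_mv, h1, h2]

end

/-! ### Generators -/

section

variable {Ω : Type} [Field Ω] [Algebra ℂ Ω]

/-- The datum in `Ω`. -/
abbrev oA (A : Fin 3 → Fin 3 → Fin 3 → ℂ) : Fin 3 → Fin 3 → Fin 3 → Ω := fun k i j =>
  algebraMap ℂ Ω (A k i j)

/-- The vectors of the datum in `Ω`. -/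
abbrev oa (a : Fin 3 → Fin 3 → ℂ) : Fin 3 → Fin 3 → Ω := fun k i => algebraMap ℂ Ω (a k i)

/-- On the fourfold `V = 0` the four ratios `v_1/v_0, v_2/v_0, w_1/v_0, w_2/v_0` generate `μ` and
`v`. -/
theorem gen_four (A : Fin 3 → Fin 3 → Fin 3 → ℂ) (a b : Fin 3 → Fin 3 → ℂ) {μ v : Fin 3 → Ω}
    (h0 : μ 0 = 1) (hV : vf (oA A) (oa a) (oa b) μ v = 0) (hv : v 0 ≠ 0)
    (hw : vw (oA A) μ v 1 ≠ 0)
    (hr : cr (r1 (oA A) v (vw (oA A) μ v)) (r2 (oA A) (oa a) (oa b) v (vw (oA A) μ v)) 0 ≠ 0)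
    (T : IntermediateField ℂ Ω) (t1 : v 1 / v 0 ∈ T) (t2 : v 2 / v 0 ∈ T)
    (t3 : vw (oA A) μ v 1 / v 0 ∈ T) (t4 : vw (oA A) μ v 2 / v 0 ∈ T) :
    (∀ k, μ k ∈ T) ∧ ∀ k, v k ∈ T := by
  set w := vw (oA A) μ v with hwd
  -- the normalised point
  obtain ⟨p, hp⟩ : ∃ p : Fin 3 → T, ∀ i, (p i : Ω) = v i / v 0 :=
    ⟨![1, ⟨_, t1⟩, ⟨_, t2⟩], fun i => by fin_cases i <;> simp [hv]⟩
  have hwv : dt w v = 0 := dt_cr_self' _ _
  obtain ⟨q, hq⟩ : ∃ q : Fin 3 → T, ∀ i, (q i : Ω) = w i / v 0 := by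
    refine ⟨![-(⟨_, t3⟩ * p 1 + ⟨_, t4⟩ * p 2), ⟨_, t3⟩, ⟨_, t4⟩], fun i => ?_⟩
    fin_cases i
    · simp only [Fin.zero_eta, Fin.isValue, cons_val_zero]
      push_cast
      rw [hp, hp]
      field_simp
      simp only [dt] at hwv
      linear_combination -hwv
    · simp
    · simp
  have hv' : v = fun i => v 0 * algebraMap T Ω (p i) := by
    funext i
    have := hp i
    change v i = v 0 * (p i : Ω)
    rw [this]
    field_simp
  have hw' : w = fun i => v 0 * algebraMap T Ω (q i) := by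
    funext i
    have := hq i
    change w i = v 0 * (q i : Ω)
    rw [this]
    field_simp
  have hA : (oA A : Fin 3 → Fin 3 → Fin 3 → Ω) = fun k i j => algebraMap T Ω (oA A k i j) := by
    funext k i j
    exact IsScalarTower.algebraMap_apply ℂ T Ω _
  have ha : ∀ a : Fin 3 → Fin 3 → ℂ, (oa a : Fin 3 → Fin 3 → Ω) = fun k i =>
      algebraMap T Ω (oa a k i) := fun a => by
    funext k i
    exact IsScalarTower.algebraMap_apply ℂ T Ω _
  -- the two linear equations over `T`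
  have e1 : ∀ k, r1 (oA A) v w k = v 0 ^ 2 * algebraMap T Ω (r1 (oA A) p q k) := fun k => by
    rw [map_r1, ← hA]
    conv_lhs => rw [hv', hw']
    rw [r1_smul]
  have e2 : ∀ k, r2 (oA A) (oa a) (oa b) v w k =
      v 0 ^ 3 * algebraMap T Ω (r2 (oA A) (oa a) (oa b) p q k) := fun k => by
    rw [map_r2, ← hA, ← ha, ← ha]
    conv_lhs => rw [hv', hw']
    rw [r2_smul]
  set x : Fin 3 → T := r1 (oA A) p q with hx
  set y : Fin 3 → T := r2 (oA A) (oa a) (oa b) p q with hy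
  have e3 : ∀ k, cr (r1 (oA A) v w) (r2 (oA A) (oa a) (oa b) v w) k =
      v 0 ^ 2 * v 0 ^ 3 * algebraMap T Ω (cr x y k) := fun k => by
    rw [map_cr, ← cr_smul, ← funext e1, ← funext e2]
  have f1 : dt μ (r1 (oA A) v w) = 0 := r1_mu _ _ _
  have f2 : dt μ (r2 (oA A) (oa a) (oa b) v w) = 0 := by
    rw [hwd, r2_mu, hV, mul_zero]
  have hx0 : algebraMap T Ω (cr x y 0) ≠ 0 := by
    intro h
    rw [e3, h, mul_zero] at hr
    exact hr rfl
  have hμ : ∀ k, μ k = algebraMap T Ω (cr x y k / cr x y 0) := by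
    intro k
    have h := cr_prop f1 f2 k
    rw [e3, e3, h0, mul_one] at h
    rw [map_div₀]
    have h5 : v 0 ^ 2 * v 0 ^ 3 ≠ 0 := mul_ne_zero (pow_ne_zero _ hv) (pow_ne_zero _ hv)
    have h6 : algebraMap T Ω (cr x y k) = algebraMap T Ω (cr x y 0) * μ k :=
      mul_left_cancel₀ h5 (by linear_combination h)
    rw [h6]
    field_simp
  refine ⟨fun k => by rw [hμ]; exact (cr x y k / cr x y 0).2, ?_⟩
  -- the factor
  obtain ⟨m, hm⟩ : ∃ m : Fin 3 → T, ∀ k, μ k = algebraMap T Ω (m k) := ⟨_, hμ⟩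
  have e4 : w 1 = v 0 ^ 2 * algebraMap T Ω (vw (oA A) m p 1) := by
    rw [map_vw, ← hA, ← funext hm]
    have h : w 1 = cr v (mv (lc (oA A) μ) v) 1 := rfl
    rw [h]
    conv_lhs => rw [hv']
    rw [mv_smul, cr_smul, vw]
    ring
  have e5 : w 1 = v 0 * algebraMap T Ω (q 1) := congrFun hw' 1
  have h7 : algebraMap T Ω (vw (oA A) m p 1) ≠ 0 := by
    intro h
    rw [h, mul_zero] at e4
    exact hw e4
  have h8 : v 0 = algebraMap T Ω (q 1 / vw (oA A) m p 1) := by
    rw [map_div₀, eq_div_iff h7]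
    refine mul_left_cancel₀ hv ?_
    rw [← e5, e4]
    ring
  have h9 : v 0 ∈ T := by
    rw [h8]
    exact (q 1 / vw (oA A) m p 1).2
  intro k
  rw [hv']
  exact mul_mem h9 (p k).2

end

end Pool.Agent.G18.VG
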