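import Pool.Agent.G18.Defs
import Pool.Agent.G18.VGen

/-!
# G18: the fibre of a net in components
-/

set_option autoImplicit false

noncomputable section

namespace Pool.Agent.G18.VG

open MvPolynomial Matrix Pool.Agent.C18

section

variable {R : Type} [CommRing R]

/-- the fibre of a net in components -/
theorem fibre_eq (V : Net R) (c : Fin 2 → R) (v : Fin 3 → R) :
    V.fibre c v = vf V.A V.a V.a' ![1, c 0, c 1] v := by
  have h1 : V.mat c *ᵥ v = mv (lc V.A ![1, c 0, c 1]) v := by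
    funext i
    simp [Net.mat, mulVec, dotProduct, Fin.sum_univ_three, mv, dt, lc]
  have h2 : V.mat c *ᵥ (V.mat c *ᵥ v) =
      mv (lc V.A ![1, c 0, c 1]) (mv (lc V.A ![1, c 0, c 1]) v) := by
    rw [h1]
    funext i
    simp [Net.mat, mulVec, dotProduct, Fin.sum_univ_three, mv, dt, lc]
  unfold Net.fibre vf vw
  rw [h2, h1]
  generalize mv (lc V.A ![1, c 0, c 1]) (mv (lc V.A ![1, c 0, c 1]) v) = z
  generalize mv (lc V.A ![1, c 0, c 1]) v = y
  simp [dotProduct, Fin.sum_univ_three, cross_apply, dt, cr]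
  ring

theorem map_fibre {S : Type} [CommRing S] (f : R →+* S) (V : Net R) (c : Fin 2 → R)
    (v : Fin 3 → R) : f (V.fibre c v) = (V.map f).fibre (fun i => f (c i)) fun i => f (v i) := by
  rw [fibre_eq, fibre_eq, map_vf]
  congr 1
  funext k
  fin_cases k <;> simp

end

/-- the polynomial of the fibre at a point -/
theorem aeval_fib {Ω : Type} [Field Ω] [Algebra ℂ Ω] [Algebra K Ω] [IsScalarTower ℂ K Ω]
    (V : Net ℂ) (c : Fin 2 → K) (v : Fin 3 → Ω) : aeval v (V.fib c) =
      vf (oA fun k => V.A k) (oa V.a) (oa V.a')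
        ![1, algebraMap K Ω (c 0), algebraMap K Ω (c 1)] v := by
  have h := map_fibre (aeval v : MvPolynomial (Fin 3) K →ₐ[K] Ω).toRingHom
    (V.map fun z => C (algebraMap ℂ K z)) (fun i => C (c i)) MvPolynomial.X
  have h2 : ∀ z : ℂ, (aeval v : MvPolynomial (Fin 3) K →ₐ[K] Ω).toRingHom
      (C (algebraMap ℂ K z)) = algebraMap ℂ Ω z := fun z => by
    change aeval v (C (algebraMap ℂ K z)) = _
    rw [aeval_C, ← IsScalarTower.algebraMap_apply]
  have h3 : ∀ z : K, (aeval v : MvPolynomial (Fin 3) K →ₐ[K] Ω).toRingHom (C z) =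
      algebraMap K Ω z := fun z => aeval_C _ _
  have h4 : ∀ i, (aeval v : MvPolynomial (Fin 3) K →ₐ[K] Ω).toRingHom (MvPolynomial.X i) = v i :=
    fun i => aeval_X _ _
  change (aeval v : MvPolynomial (Fin 3) K →ₐ[K] Ω).toRingHom (V.fib c) = _
  rw [Net.fib, h, fibre_eq]
  simp only [h3, h4]
  congr 1
  · funext k i j
    exact h2 _
  · funext k i
    exact h2 _
  · funext k i
    exact h2 _

/-- Four generators, if three numbers are not zero. -/
theorem four_of_ne {Ω : Type} [Field Ω] [Algebra ℂ Ω] [Algebra K Ω] [IsScalarTower ℂ K Ω]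
    (V : Net ℂ) (c : Fin 2 → K) (v : Fin 3 → Ω)
    (hc : IntermediateField.adjoin ℂ (Set.range c) = ⊤)
    (hv : aeval v (V.fib c) = 0) (hgen : IntermediateField.adjoin K (Set.range v) = ⊤)
    {μ : Fin 3 → Ω} (hμ : μ = ![1, algebraMap K Ω (c 0), algebraMap K Ω (c 1)])
    (n1 : v 0 ≠ 0) (n2 : vw (oA fun k => V.A k) μ v 1 ≠ 0)
    (n3 : cr (r1 (oA fun k => V.A k) v (vw (oA fun k => V.A k) μ v))
      (r2 (oA fun k => V.A k) (oa V.a) (oa V.a') v (vw (oA fun k => V.A k) μ v)) 0 ≠ 0) :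
    ∃ a : Fin 4 → Ω, IntermediateField.adjoin ℂ (Set.range a) = ⊤ := by
  rw [aeval_fib, ← hμ] at hv
  set w := vw (oA fun k => V.A k) μ v with hw
  refine ⟨![v 1 / v 0, v 2 / v 0, w 1 / v 0, w 2 / v 0], ?_⟩
  set a : Fin 4 → Ω := ![v 1 / v 0, v 2 / v 0, w 1 / v 0, w 2 / v 0] with ha
  set T := IntermediateField.adjoin ℂ (Set.range a) with hT
  have hmem : ∀ i, a i ∈ T := fun i => IntermediateField.subset_adjoin _ _ ⟨i, rfl⟩
  obtain ⟨t1, t2⟩ := gen_four (fun k => V.A k) V.a V.a' (μ := μ) (v := v) (by rw [hμ]; rfl) hv n1 n2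
    n3 T (hmem 0) (hmem 1) (hmem 2) (hmem 3)
  -- `T` contains `K`
  have hK : ∀ x : K, algebraMap K Ω x ∈ T := by
    have h1 : (⊤ : IntermediateField ℂ K) ≤ T.comap (IsScalarTower.toAlgHom ℂ K Ω) := by
      rw [← hc, IntermediateField.adjoin_le_iff]
      rintro _ ⟨i, rfl⟩
      change algebraMap K Ω (c i) ∈ T
      fin_cases i
      · have := t1 1
        rwa [hμ] at this
      · have := t1 2
        rwa [hμ] at this
    intro x
    exact h1 (IntermediateField.mem_top (x := x))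
  let T' : IntermediateField K Ω := { T.toSubfield with algebraMap_mem' := hK }
  have h2 : T' = ⊤ := by
    rw [eq_top_iff, ← hgen, IntermediateField.adjoin_le_iff]
    rintro _ ⟨i, rfl⟩
    exact t2 i
  rw [eq_top_iff]
  intro x _
  have h3 : x ∈ T' := by
    rw [h2]
    exact IntermediateField.mem_top
  exact h3

end Pool.Agent.G18.VG
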