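import Pool.Agent.G18.XGen

/-!
# G18: the net of quadrics of a cubic fourfold of `C_18` is dominant

`XDat.dom`: a form in the three quadrics of the net which is divisible by `F` is zero.
-/

set_option autoImplicit false

noncomputable section

namespace Pool.Agent.G18.XS

open MvPolynomial Matrix Pool.Agent.GSX

theorem rowsM_smul {R : Type} [CommRing R] (A : Fin 3 → Matrix (Fin 3) (Fin 3) R) (c : R)
    (v : Fin 3 → R) : rowsM A (c • v) = c • rowsM A v := by
  ext k i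
  simp [rowsM, smul_vecMul]

theorem colsM_smul {R : Type} [CommRing R] (A : Fin 3 → Matrix (Fin 3) (Fin 3) R) (c : R)
    (v : Fin 3 → R) : colsM A (c • v) = c • colsM A v := by
  ext k i
  simp [colsM, mulVec_smul]

theorem rowsM_det_smul {R : Type} [CommRing R] (A : Fin 3 → Matrix (Fin 3) (Fin 3) R) (c : R)
    (v : Fin 3 → R) : (rowsM A (c • v)).det = c ^ 3 * (rowsM A v).det := by
  rw [rowsM_smul, det_smul]
  simp

theorem colsM_det_smul {R : Type} [CommRing R] (A : Fin 3 → Matrix (Fin 3) (Fin 3) R) (c : R)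
    (v : Fin 3 → R) : (colsM A (c • v)).det = c ^ 3 * (colsM A v).det := by
  rw [colsM_smul, det_smul]
  simp

/-- the value of the form at `(a v, b w)` -/
theorem FV_smul {R : Type} [CommRing R] (A : Fin 3 → Matrix (Fin 3) (Fin 3) R)
    (m n : Fin 3 → Fin 3 → R) (al be : R) (a b : R) (v w : Fin 3 → R) :
    FV A m n al be (a • v) (b • w) = al * (a ^ 3 * (rowsM A v).det) +
      be * (b ^ 3 * (colsM A w).det) +
      ∑ k, (a * (m k ⬝ᵥ v) + b * (n k ⬝ᵥ w)) * (a * b * (v ⬝ᵥ A k *ᵥ w)) := by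
  unfold FV
  rw [rowsM_det_smul, colsM_det_smul]
  congr 1
  refine Finset.sum_congr rfl fun k _ => ?_
  rw [dotProduct_smul, dotProduct_smul, mulVec_smul, smul_dotProduct, dotProduct_smul]
  simp only [smul_eq_mul]
  ring

/-- a cubic polynomial with nonzero constant and leading coefficients has a nonzero root -/
theorem exists_root3 {c0 c1 c2 c3 : ℂ} (h0 : c0 ≠ 0) (h3 : c3 ≠ 0) :
    ∃ τ : ℂ, τ ≠ 0 ∧ c0 + c1 * τ + c2 * τ ^ 2 + c3 * τ ^ 3 = 0 := by
  set p : Polynomial ℂ := Polynomial.C c3 * Polynomial.X ^ 3 + Polynomial.C c2 * Polynomial.X ^ 2 +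
    Polynomial.C c1 * Polynomial.X + Polynomial.C c0 with hp
  have hd : p.degree = 3 := Polynomial.degree_cubic h3
  obtain ⟨τ, hτ⟩ := IsAlgClosed.exists_root p (by rw [hd]; norm_num)
  have h1 : c3 * τ ^ 3 + c2 * τ ^ 2 + c1 * τ + c0 = 0 := by
    have h2 : p.eval τ = 0 := hτ
    rw [hp] at h2
    simpa using h2
  refine ⟨τ, ?_, by linear_combination h1⟩
  rintro rfl
  apply h0
  simpa using h1

/-- the point with the coordinates `(v, w)` -/
def pt6 {R : Type} (v w : Fin 3 → R) : Fin 6 → R := ![v 0, v 1, v 2, w 0, w 1, w 2]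

theorem lo_pt6 {R : Type} (v w : Fin 3 → R) : lo (pt6 v w) = v := by
  funext i
  fin_cases i <;> rfl

theorem hi_pt6 {R : Type} (v w : Fin 3 → R) : hi (pt6 v w) = w := by
  funext i
  fin_cases i <;> rfl

theorem map_id_mat (A : Matrix (Fin 3) (Fin 3) ℂ) : A.map (algebraMap ℂ ℂ) = A := by
  ext i j
  rfl

private theorem dom1 {D : XDat ℂ} (hn : D.NonDeg) {P : MvPolynomial (Fin 3) ℂ} {d : ℕ}
    (hP : P.IsHomogeneous d) (h : D.F ∣ aeval D.q P) {v : Fin 3 → ℂ} (hv : (rowsM D.A v).det ≠ 0)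
    (μ : Fin 3 → ℂ) (hμ : (colsM D.A (sh D.A μ v)).det ≠ 0) : eval μ P = 0 := by
  set w := sh D.A μ v with hw
  set dr := (rowsM D.A v).det with hdr
  obtain ⟨τ, hτ, hroot⟩ := exists_root3 (c1 := dr * ∑ k, μ k * (D.m k ⬝ᵥ v))
    (c2 := dr * ∑ k, μ k * (D.n k ⬝ᵥ w)) (mul_ne_zero hn.al hv) (mul_ne_zero hn.be hμ)
  have hq : ∀ k, D.qv (pt6 (τ • v) ((τ ^ 2) • w)) k = τ ^ 3 * dr * μ k := by
    intro k
    unfold XDat.qv
    rw [lo_pt6, hi_pt6, map_id_mat, mulVec_smul, smul_dotProduct, dotProduct_smul, hw, bil_sh]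
    simp only [smul_eq_mul]
    ring
  have hF : eval (pt6 (τ • v) ((τ ^ 2) • w)) D.F = 0 := by
    rw [← aeval_eq_eval, D.aeval_F, lo_pt6, hi_pt6]
    have h1 : D.map (algebraMap ℂ ℂ) = D := rfl
    rw [h1]
    unfold XDat.val
    rw [FV_smul]
    simp only [hw, bil_sh]
    rw [← hw, ← hdr]
    simp only [Fin.sum_univ_three] at hroot ⊢
    linear_combination τ ^ 3 * hroot
  obtain ⟨G, hG⟩ := h
  have h2 : eval (pt6 (τ • v) ((τ ^ 2) • w)) (aeval D.q P) = 0 := by
    rw [hG, map_mul, hF, zero_mul]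
  have h3 : eval (pt6 (τ • v) ((τ ^ 2) • w)) (aeval D.q P) =
      eval (fun k => τ ^ 3 * dr * μ k) P := by
    rw [← aeval_eq_eval, comp_aeval_apply, ← aeval_eq_eval]
    congr 2
    funext k
    rw [D.aeval_q, hq]
  have h4 := PLN.aeval_smul_hom hP (τ ^ 3 * dr) μ
  rw [aeval_eq_eval, aeval_eq_eval] at h4
  rw [h3, h4] at h2
  rcases mul_eq_zero.1 h2 with h5 | h5
  · exact absurd h5 (pow_ne_zero _ (mul_ne_zero (pow_ne_zero _ hτ) hv))
  · exact h5

/-- **The net of quadrics is dominant.** -/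
theorem XDat.dom {D : XDat ℂ} (hn : D.NonDeg) {P : MvPolynomial (Fin 3) ℂ} {d : ℕ}
    (hP : P.IsHomogeneous d) (h : D.F ∣ aeval D.q P) : P = 0 := by
  obtain ⟨v, hv⟩ := hn.rows
  obtain ⟨y, hy⟩ := hn.cols
  set Q : MvPolynomial (Fin 3) ℂ := (colsM (fun k => (D.A k).map C)
    ((rowsM D.A v).adjugate.map C *ᵥ X)).det with hQ
  have hQe : ∀ μ, eval μ Q = (colsM D.A (sh D.A μ v)).det := by
    intro μ
    rw [hQ, map_colsM_det]
    congr 2
    · funext k
      ext i j
      simp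
    · funext i
      simp [sh, mulVec, dotProduct, map_sum, map_mul]
  have h1 : P * Q = 0 := by
    refine MvPolynomial.funext fun μ => ?_
    rw [map_mul, map_zero]
    by_cases h2 : eval μ Q = 0
    · rw [h2, mul_zero]
    · rw [dom1 hn hP h hv μ (by rwa [← hQe]), zero_mul]
  rcases mul_eq_zero.1 h1 with h2 | h2
  · exact h2
  · exfalso
    have h3 := hQe (rowsM D.A v *ᵥ y)
    rw [h2, map_zero] at h3
    have h4 : sh D.A (rowsM D.A v *ᵥ y) v = (rowsM D.A v).det • y := by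
      unfold sh
      rw [mulVec_mulVec, adjugate_mul, smul_mulVec, one_mulVec]
    rw [h4, colsM_det_smul] at h3
    exact mul_ne_zero (pow_ne_zero 3 hv) hy h3.symm

end Pool.Agent.G18.XS
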