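import Mathlib

/-!
# G18: the cubic form on a net of bilinear forms; restriction to the fibre

`A_0, A_1, A_2`: three `3 × 3` matrices, `x`, `y` vectors. `FV`: the cubic form
`al det(rows xᵀ A_k) + be det(columns A_k y) + ∑ (m_k x + n_k y) xᵀ A_k y`.
For `μ` put `w = adj(rows vᵀ A_k) μ`; then `vᵀ A_k w = det(rows vᵀ A_k) μ_k` and
`FV v w = det(rows vᵀ A_k) G(v)` with `G v = al + m_μ v + n_μ w + be N(v)`, where for `μ = (1, s, t)`,
`P = A_1 - s A_0`, `Q = A_2 - t A_0`: `w = (Pᵀ v) × (Qᵀ v)`, `N v = - vᵀ Q adj(P) Q w`.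
-/

set_option autoImplicit false

namespace Pool.Agent.G18.XS

open Matrix

section ring

variable {R : Type} [CommRing R]

/-- the matrix with the rows `vᵀ A_k` -/
def rowsM (A : Fin 3 → Matrix (Fin 3) (Fin 3) R) (v : Fin 3 → R) : Matrix (Fin 3) (Fin 3) R :=
  Matrix.of fun k => v ᵥ* A k

/-- the matrix with the columns `A_k w` -/
def colsM (A : Fin 3 → Matrix (Fin 3) (Fin 3) R) (w : Fin 3 → R) : Matrix (Fin 3) (Fin 3) R :=
  Matrix.of fun i k => (A k *ᵥ w) i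

/-- the vector product -/
def cr (a b : Fin 3 → R) : Fin 3 → R :=
  ![a 1 * b 2 - a 2 * b 1, a 2 * b 0 - a 0 * b 2, a 0 * b 1 - a 1 * b 0]

/-- the cubic form -/
def FV (A : Fin 3 → Matrix (Fin 3) (Fin 3) R) (m n : Fin 3 → Fin 3 → R) (al be : R)
    (x y : Fin 3 → R) : R :=
  al * (rowsM A x).det + be * (colsM A y).det + ∑ k, (m k ⬝ᵥ x + n k ⬝ᵥ y) * (x ⬝ᵥ A k *ᵥ y)

/-- `w = adj(rows vᵀ A_k) μ` -/
def sh (A : Fin 3 → Matrix (Fin 3) (Fin 3) R) (μ v : Fin 3 → R) : Fin 3 → R :=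
  (rowsM A v).adjugate *ᵥ μ

theorem bil_sh (A : Fin 3 → Matrix (Fin 3) (Fin 3) R) (μ v : Fin 3 → R) (k : Fin 3) :
    v ⬝ᵥ A k *ᵥ sh A μ v = (rowsM A v).det * μ k := by
  have h1 : rowsM A v *ᵥ sh A μ v = (rowsM A v).det • μ := by
    unfold sh
    rw [mulVec_mulVec, mul_adjugate, smul_mulVec, one_mulVec]
  have h2 := congrFun h1 k
  rw [Pi.smul_apply, smul_eq_mul] at h2
  rw [← h2, dotProduct_mulVec]
  rfl

theorem cr_self (a : Fin 3 → R) : cr a a = 0 := by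
  funext i
  fin_cases i <;> simp [cr] <;> ring

theorem dot_cr_left (a b : Fin 3 → R) : a ⬝ᵥ cr a b = 0 := by
  simp [cr, dotProduct, Fin.sum_univ_three]
  ring

theorem dot_cr_right (a b : Fin 3 → R) : b ⬝ᵥ cr a b = 0 := by
  simp [cr, dotProduct, Fin.sum_univ_three]
  ring

theorem cr_cr (a b c : Fin 3 → R) : cr (cr a b) c = (a ⬝ᵥ c) • b - (b ⬝ᵥ c) • a := by
  funext i
  fin_cases i <;> simp [cr, dotProduct, Fin.sum_univ_three] <;> ring

theorem cr_adj (M : Matrix (Fin 3) (Fin 3) R) (a c : Fin 3 → R) :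
    Mᵀ *ᵥ cr (M *ᵥ a) c = cr a (M.adjugate *ᵥ c) := by
  funext i
  rw [adjugate_fin_three]
  fin_cases i <;>
    simp [cr, mulVec, dotProduct, Fin.sum_univ_three] <;> ring

theorem det_cols (a b c : Fin 3 → R) :
    (Matrix.of fun i k => (![a, b, c] : Fin 3 → Fin 3 → R) k i).det = a ⬝ᵥ cr b c := by
  rw [det_fin_three]
  simp [cr, dotProduct, Fin.sum_univ_three]
  ring

/-- `w` is the vector product of `Pᵀ v` and `Qᵀ v`. -/
theorem sh_eq (A : Fin 3 → Matrix (Fin 3) (Fin 3) R) (s t : R) (v : Fin 3 → R) :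
    sh A ![1, s, t] v = cr (v ᵥ* (A 1 - s • A 0)) (v ᵥ* (A 2 - t • A 0)) := by
  have h0 : v ᵥ* (A 1 - s • A 0) = fun i => (rowsM A v) 1 i - s * (rowsM A v) 0 i := by
    funext i
    simp [rowsM, vecMul, dotProduct, Fin.sum_univ_three]
    ring
  have h1 : v ᵥ* (A 2 - t • A 0) = fun i => (rowsM A v) 2 i - t * (rowsM A v) 0 i := by
    funext i
    simp [rowsM, vecMul, dotProduct, Fin.sum_univ_three]
    ring
  rw [h0, h1]
  unfold sh
  generalize rowsM A v = X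
  rw [adjugate_fin_three]
  funext i
  fin_cases i <;> simp [cr, mulVec, dotProduct, Fin.sum_univ_three] <;> ring

/-- the value of the norm form, `- vᵀ Q adj(P) Q w` -/
def Nm (P Q : Matrix (Fin 3) (Fin 3) R) (v : Fin 3 → R) : R :=
  -(v ⬝ᵥ (Q * P.adjugate * Q) *ᵥ cr (v ᵥ* P) (v ᵥ* Q))

theorem cols_eq (A : Fin 3 → Matrix (Fin 3) (Fin 3) R) (s t : R) (w : Fin 3 → R) :
    (colsM A w).det = (A 0 *ᵥ w) ⬝ᵥ cr ((A 1 - s • A 0) *ᵥ w) ((A 2 - t • A 0) *ᵥ w) := by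
  have h0 : (A 1 - s • A 0) *ᵥ w = fun i => colsM A w i 1 - s * colsM A w i 0 := by
    funext i
    simp [colsM, sub_mulVec, smul_mulVec]
  have h1 : (A 2 - t • A 0) *ᵥ w = fun i => colsM A w i 2 - t * colsM A w i 0 := by
    funext i
    simp [colsM, sub_mulVec, smul_mulVec]
  have h2 : A 0 *ᵥ w = fun i => colsM A w i 0 := by
    funext i
    simp [colsM]
  rw [h0, h1, h2]
  generalize colsM A w = X
  rw [det_fin_three]
  simp [cr, dotProduct, Fin.sum_univ_three]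
  ring

/-- the fibre form `al + m_μ v + n_μ w + be N(v)` -/
def Gf (A : Fin 3 → Matrix (Fin 3) (Fin 3) R) (m n : Fin 3 → Fin 3 → R) (al be s t : R)
    (v : Fin 3 → R) : R :=
  al + (m 0 + s • m 1 + t • m 2) ⬝ᵥ v + (n 0 + s • n 1 + t • n 2) ⬝ᵥ sh A ![1, s, t] v +
    be * Nm (A 1 - s • A 0) (A 2 - t • A 0) v

end ring

section field

variable {K : Type} [Field K]

theorem cr_PQ {P Q : Matrix (Fin 3) (Fin 3) K} (hP : P.det ≠ 0) (v : Fin 3 → K) :
    cr (P *ᵥ cr (v ᵥ* P) (v ᵥ* Q)) (Q *ᵥ cr (v ᵥ* P) (v ᵥ* Q)) = Nm P Q v • v := by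
  set w := cr (v ᵥ* P) (v ᵥ* Q) with hw
  have h1 : Pᵀ *ᵥ cr (P *ᵥ w) (Q *ᵥ w) = Nm P Q v • (v ᵥ* P) := by
    rw [cr_adj, hw, cr_cr, ← hw]
    have e1 : (v ᵥ* P) ⬝ᵥ P.adjugate *ᵥ Q *ᵥ w = 0 := by
      rw [dotProduct_mulVec, vecMul_vecMul, mul_adjugate, vecMul_smul, vecMul_one,
        smul_dotProduct, dotProduct_mulVec, hw, dot_cr_right, smul_zero]
    have e2 : (v ᵥ* Q) ⬝ᵥ P.adjugate *ᵥ Q *ᵥ w = -Nm P Q v := by
      unfold Nm
      rw [← hw, neg_neg, mulVec_mulVec, ← dotProduct_mulVec, mulVec_mulVec, Matrix.mul_assoc]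
    rw [e1, e2, zero_smul, zero_sub, neg_smul, neg_neg]
  have h2 : Pᵀ *ᵥ (cr (P *ᵥ w) (Q *ᵥ w) - Nm P Q v • v) = 0 := by
    rw [mulVec_sub, h1, mulVec_smul, mulVec_transpose, sub_self]
  have h3 := eq_zero_of_mulVec_eq_zero (M := Pᵀ) (by rwa [det_transpose]) h2
  exact sub_eq_zero.1 h3

/-- The determinant of the columns at `w`. -/
theorem cols_sh {A : Fin 3 → Matrix (Fin 3) (Fin 3) K} {s t : K}
    (hP : (A 1 - s • A 0).det ≠ 0) (v : Fin 3 → K) :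
    (colsM A (sh A ![1, s, t] v)).det =
      (rowsM A v).det * Nm (A 1 - s • A 0) (A 2 - t • A 0) v := by
  rw [cols_eq A s t, sh_eq, cr_PQ hP, ← sh_eq, dotProduct_smul, smul_eq_mul, dotProduct_comm,
    bil_sh]
  simp
  ring

/-- **The restriction of the cubic form.** -/
theorem FV_sh {A : Fin 3 → Matrix (Fin 3) (Fin 3) K} {s t : K} (m n : Fin 3 → Fin 3 → K)
    (al be : K) (hP : (A 1 - s • A 0).det ≠ 0) (v : Fin 3 → K) :
    FV A m n al be v (sh A ![1, s, t] v) = (rowsM A v).det * Gf A m n al be s t v := by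
  unfold FV Gf
  rw [cols_sh hP]
  simp only [bil_sh, Fin.sum_univ_three]
  simp only [Matrix.cons_val_zero, Matrix.cons_val_one, Matrix.cons_val, add_dotProduct,
    smul_dotProduct, smul_eq_mul]
  ring

end field

end Pool.Agent.G18.XS
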