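import Pool.Agent.GSX.ExGen
import Pool.Agent.G18.XId

/-!
# G18: the generic point of a cubic fourfold of `C_18`

`XDat`: the coefficients; `XDat.F`: the cubic form in six variables.
`XDat.NonDeg`: `al` and `be` are not zero, the two plane cubics `det(rows xᵀ A_k)` and
`det(columns A_k y)` are not zero, and the matrix `A_1 - s A_0` is invertible for some `s`.
`GenX D z`: `z` is the generic point in a field `Ω`, normalised by `z 0 = 1`, and `KK = ℂ(s, t)` is
embedded in `Ω` by the net of quadrics. `exists_genX`: it exists.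
-/

set_option autoImplicit false

noncomputable section

namespace Pool.Agent.G18.XS

open MvPolynomial Matrix Pool.Agent.GSX

/-- The coefficients of a cubic fourfold of `C_18`. -/
structure XDat (R : Type) where
  /-- the net of bilinear forms -/
  A : Fin 3 → Matrix (Fin 3) (Fin 3) R
  /-- linear forms -/
  m : Fin 3 → Fin 3 → R
  /-- linear forms -/
  n : Fin 3 → Fin 3 → R
  /-- a number -/
  al : R
  /-- a number -/
  be : R

/-- extension of scalars -/
def XDat.map {R R' : Type} [CommRing R] [CommRing R'] (f : R →+* R') (D : XDat R) : XDat R' where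
  A := fun k => (D.A k).map f
  m := fun k i => f (D.m k i)
  n := fun k i => f (D.n k i)
  al := f D.al
  be := f D.be

/-- the value of the cubic form -/
def XDat.val {R : Type} [CommRing R] (D : XDat R) (x y : Fin 3 → R) : R :=
  FV D.A D.m D.n D.al D.be x y

/-- the first three coordinates -/
def lo {R : Type} (z : Fin 6 → R) : Fin 3 → R := ![z 0, z 1, z 2]

/-- the last three coordinates -/
def hi {R : Type} (z : Fin 6 → R) : Fin 3 → R := ![z 3, z 4, z 5]

/-- the cubic form in six variables -/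
def XDat.F (D : XDat ℂ) : S6 := (D.map C).val (lo X) (hi X)

theorem map_rowsM {R R' : Type} [CommRing R] [CommRing R'] (f : R →+* R')
    (A : Fin 3 → Matrix (Fin 3) (Fin 3) R) (v : Fin 3 → R) :
    (rowsM A v).map f = rowsM (fun k => (A k).map f) fun i => f (v i) := by
  ext k i
  simp [rowsM, vecMul, dotProduct, map_sum, map_mul]

theorem map_colsM {R R' : Type} [CommRing R] [CommRing R'] (f : R →+* R')
    (A : Fin 3 → Matrix (Fin 3) (Fin 3) R) (w : Fin 3 → R) :
    (colsM A w).map f = colsM (fun k => (A k).map f) fun i => f (w i) := by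
  ext i k
  simp [colsM, mulVec, dotProduct, map_sum, map_mul]

theorem map_rowsM_det {R R' : Type} [CommRing R] [CommRing R'] (f : R →+* R')
    (A : Fin 3 → Matrix (Fin 3) (Fin 3) R) (v : Fin 3 → R) :
    f (rowsM A v).det = (rowsM (fun k => (A k).map f) fun i => f (v i)).det := by
  rw [← map_rowsM, RingHom.map_det]
  rfl

theorem map_colsM_det {R R' : Type} [CommRing R] [CommRing R'] (f : R →+* R')
    (A : Fin 3 → Matrix (Fin 3) (Fin 3) R) (v : Fin 3 → R) :
    f (colsM A v).det = (colsM (fun k => (A k).map f) fun i => f (v i)).det := by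
  rw [← map_colsM, RingHom.map_det]
  rfl

theorem map_bil {R R' : Type} [CommRing R] [CommRing R'] (f : R →+* R')
    (A : Matrix (Fin 3) (Fin 3) R) (x y : Fin 3 → R) :
    f (x ⬝ᵥ A *ᵥ y) = (fun i => f (x i)) ⬝ᵥ (A.map f) *ᵥ fun i => f (y i) := by
  simp [mulVec, dotProduct, map_sum, map_mul]

theorem map_dot {R R' : Type} [CommRing R] [CommRing R'] (f : R →+* R') (x y : Fin 3 → R) :
    f (x ⬝ᵥ y) = (fun i => f (x i)) ⬝ᵥ fun i => f (y i) := by
  simp [dotProduct, map_sum, map_mul]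

theorem XDat.map_val {R R' : Type} [CommRing R] [CommRing R'] (f : R →+* R') (D : XDat R)
    (x y : Fin 3 → R) :
    f (D.val x y) = (D.map f).val (fun i => f (x i)) fun i => f (y i) := by
  unfold XDat.val FV
  rw [map_add, map_add, map_mul, map_mul, map_sum, map_rowsM_det, map_colsM_det]
  congr 1
  refine Finset.sum_congr rfl fun k _ => ?_
  rw [map_mul, map_add, map_bil, map_dot, map_dot]
  rfl

theorem XDat.map_map {R R' R'' : Type} [CommRing R] [CommRing R'] [CommRing R''] (f : R →+* R')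
    (g : R' →+* R'') (D : XDat R) : (D.map f).map g = D.map (g.comp f) := by
  unfold XDat.map
  simp [Matrix.map_map, Function.comp_def]

/-- the value of the form at a point -/
theorem XDat.aeval_F (D : XDat ℂ) {Ω : Type} [CommRing Ω] [Algebra ℂ Ω] (z : Fin 6 → Ω) :
    aeval z D.F = (D.map (algebraMap ℂ Ω)).val (lo z) (hi z) := by
  have h1 := XDat.map_val (aeval z : S6 →ₐ[ℂ] Ω).toRingHom (D.map C) (lo X) (hi X)
  have h2 : ((aeval z : S6 →ₐ[ℂ] Ω).toRingHom).comp (C : ℂ →+* S6) = algebraMap ℂ Ω := by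
    ext c
    simp
  rw [XDat.map_map, h2] at h1
  have h3 : (fun i => (aeval z : S6 →ₐ[ℂ] Ω).toRingHom ((lo X : Fin 3 → S6) i)) = lo z := by
    funext i
    fin_cases i <;> simp [lo]
  have h4 : (fun i => (aeval z : S6 →ₐ[ℂ] Ω).toRingHom ((hi X : Fin 3 → S6) i)) = hi z := by
    funext i
    fin_cases i <;> simp [hi]
  rw [h3, h4] at h1
  exact h1

/-- The conditions on the coefficients. -/
structure XDat.NonDeg (D : XDat ℂ) : Prop where
  al : D.al ≠ 0
  be : D.be ≠ 0
  rows : ∃ x, (rowsM D.A x).det ≠ 0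
  cols : ∃ y, (colsM D.A y).det ≠ 0
  det : ∃ s : ℂ, (D.A 1 - s • D.A 0).det ≠ 0

/-- the quadrics of the net -/
def XDat.q (D : XDat ℂ) (k : Fin 3) : S6 := (lo X) ⬝ᵥ (D.A k).map C *ᵥ (hi X : Fin 3 → S6)

/-- the value of the quadrics of the net -/
def XDat.qv (D : XDat ℂ) {Ω : Type} [CommRing Ω] [Algebra ℂ Ω] (z : Fin 6 → Ω) (k : Fin 3) : Ω :=
  lo z ⬝ᵥ (D.A k).map (algebraMap ℂ Ω) *ᵥ hi z

theorem XDat.aeval_q (D : XDat ℂ) {Ω : Type} [CommRing Ω] [Algebra ℂ Ω] (z : Fin 6 → Ω)
    (k : Fin 3) : aeval z (D.q k) = D.qv z k := by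
  unfold XDat.q XDat.qv
  have h1 := map_bil (aeval z : S6 →ₐ[ℂ] Ω).toRingHom ((D.A k).map C) (lo X) (hi X)
  have h3 : (fun i => (aeval z : S6 →ₐ[ℂ] Ω).toRingHom ((lo X : Fin 3 → S6) i)) = lo z := by
    funext i
    fin_cases i <;> simp [lo]
  have h4 : (fun i => (aeval z : S6 →ₐ[ℂ] Ω).toRingHom ((hi X : Fin 3 → S6) i)) = hi z := by
    funext i
    fin_cases i <;> simp [hi]
  have h5 : ((D.A k).map C).map (aeval z : S6 →ₐ[ℂ] Ω).toRingHom =
      (D.A k).map (algebraMap ℂ Ω) := by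
    ext i j
    simp
  rw [h3, h4, h5] at h1
  exact h1

/-! ### Homogeneity -/

private theorem homX (i : Fin 6) : (X i : S6).IsHomogeneous 1 := isHomogeneous_X ℂ i

private theorem hom_lo (i : Fin 3) : ((lo X : Fin 3 → S6) i).IsHomogeneous 1 := by
  fin_cases i
  · exact homX 0
  · exact homX 1
  · exact homX 2

private theorem hom_hi (i : Fin 3) : ((hi X : Fin 3 → S6) i).IsHomogeneous 1 := by
  fin_cases i
  · exact homX 3
  · exact homX 4
  · exact homX 5

private theorem hom_dot {c x : Fin 3 → S6} {k l : ℕ} (hc : ∀ i, (c i).IsHomogeneous k)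
    (hx : ∀ i, (x i).IsHomogeneous l) : (c ⬝ᵥ x).IsHomogeneous (k + l) :=
  IsHomogeneous.sum _ _ _ fun i _ => (hc i).mul (hx i)

private theorem hom_C (a : ℂ) : (C a : S6).IsHomogeneous 0 := isHomogeneous_C _ _

private theorem hom_det {M : Matrix (Fin 3) (Fin 3) S6} (h : ∀ i j, (M i j).IsHomogeneous 1) :
    M.det.IsHomogeneous 3 := by
  rw [det_fin_three]
  have h3 : ∀ {a b c : S6}, a.IsHomogeneous 1 → b.IsHomogeneous 1 → c.IsHomogeneous 1 →
      (a * b * c).IsHomogeneous 3 := fun ha hb hc => (ha.mul hb).mul hc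
  exact (((((h3 (h _ _) (h _ _) (h _ _)).sub (h3 (h _ _) (h _ _) (h _ _))).sub
    (h3 (h _ _) (h _ _) (h _ _))).add (h3 (h _ _) (h _ _) (h _ _))).add
    (h3 (h _ _) (h _ _) (h _ _))).sub (h3 (h _ _) (h _ _) (h _ _))

theorem hom_rows (A : Fin 3 → Matrix (Fin 3) (Fin 3) ℂ) :
    (rowsM (fun k => (A k).map C) (lo X) : Matrix (Fin 3) (Fin 3) S6).det.IsHomogeneous 3 :=
  hom_det fun k i => by
    have h1 : (rowsM (fun k => (A k).map C) (lo X) : Matrix (Fin 3) (Fin 3) S6) k i =
        (lo X : Fin 3 → S6) ⬝ᵥ fun j => (C (A k j i) : S6) := rfl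
    rw [h1]
    exact hom_dot (k := 1) (l := 0) hom_lo fun _ => hom_C _

theorem hom_cols (A : Fin 3 → Matrix (Fin 3) (Fin 3) ℂ) :
    (colsM (fun k => (A k).map C) (hi X) : Matrix (Fin 3) (Fin 3) S6).det.IsHomogeneous 3 :=
  hom_det fun i k => by
    have h1 : (colsM (fun k => (A k).map C) (hi X) : Matrix (Fin 3) (Fin 3) S6) i k =
        (fun j => (C (A k i j) : S6)) ⬝ᵥ (hi X : Fin 3 → S6) := rfl
    rw [h1]
    exact hom_dot (k := 0) (l := 1) (fun _ => hom_C _) hom_hi

theorem XDat.q_hom (D : XDat ℂ) (k : Fin 3) : (D.q k).IsHomogeneous 2 :=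
  hom_dot (k := 1) (l := 1) hom_lo fun _ => hom_dot (k := 0) (l := 1) (fun _ => hom_C _) hom_hi

theorem XDat.F_hom (D : XDat ℂ) : D.F.IsHomogeneous 3 := by
  have h1 : (C D.al * (rowsM (fun k => (D.A k).map C) (lo X) :
      Matrix (Fin 3) (Fin 3) S6).det).IsHomogeneous 3 := by
    have := (hom_C D.al).mul (hom_rows D.A)
    rwa [zero_add] at this
  have h2 : (C D.be * (colsM (fun k => (D.A k).map C) (hi X) :
      Matrix (Fin 3) (Fin 3) S6).det).IsHomogeneous 3 := by
    have := (hom_C D.be).mul (hom_cols D.A)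
    rwa [zero_add] at this
  refine (h1.add h2).add (IsHomogeneous.sum _ _ _ fun k _ => ?_)
  have h3 : ((D.map C).m k ⬝ᵥ lo X + (D.map C).n k ⬝ᵥ hi X : S6).IsHomogeneous 1 :=
    (hom_dot (k := 0) (l := 1) (fun _ => hom_C _) hom_lo).add
      (hom_dot (k := 0) (l := 1) (fun _ => hom_C _) hom_hi)
  exact h3.mul (D.q_hom k)

end Pool.Agent.G18.XS
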